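import Pool.Agent.Helper34.EK.Stm
import Pool.Graph.R_seed8.Y957.VK.Fin1
import Pool.Graph.R_seed8.Y751.VK.Lam
import Pool.Graph.R_seed8.Y555.VK.Lw

set_option autoImplicit false

/-!
Project EK (helper34), module A: sums over the primes twisted by `n^{iτ}`.
-/

namespace Pool.Agent.Helper34.EK
open Finset MeasureTheory
open Pool.Agent.H376R2.MR (er)
open Pool.Agent.Y957.VK (S_LAM S_ZS)

namespace EKA

theorem norm_er (τ x : ℝ) : ‖er τ x‖ = 1 := by
  unfold er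
  exact Complex.norm_exp_ofReal_mul_I _

theorem er_sub (τ a b : ℝ) : ‖er τ a - er τ b‖ ≤ |τ| * |a - b| := by
  have h1 : er τ a - er τ b = er τ b * (Complex.exp (Complex.I * ((τ * (a - b) : ℝ) : ℂ)) - 1) := by
    unfold er
    rw [mul_sub, ← Complex.exp_add, mul_one]
    congr 2
    push_cast
    ring
  rw [h1, norm_mul, norm_er, one_mul, ← abs_mul]
  exact Real.norm_exp_I_mul_ofReal_sub_one_le

theorem logpow (K : ℕ) (c : ℝ) (hc : 0 < c) : ∃ C : ℝ, 0 < C ∧ ∀ x : ℝ, 1 ≤ x →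
    Real.log x ^ K ≤ C * x ^ c := by
  refine ⟨(((K : ℝ) + 1) / c) ^ K, by positivity, ?_⟩
  intro x hx
  have hx0 : (0 : ℝ) ≤ x := by linarith
  have hxp : (0 : ℝ) < x := by linarith
  have hd : 0 < c / ((K : ℝ) + 1) := by positivity
  have h1 : Real.log x ≤ x ^ (c / ((K : ℝ) + 1)) / (c / ((K : ℝ) + 1)) := Real.log_le_rpow_div hx0 hd
  have h0 : 0 ≤ Real.log x := Real.log_nonneg hx
  calc Real.log x ^ K ≤ (x ^ (c / ((K : ℝ) + 1)) / (c / ((K : ℝ) + 1))) ^ K :=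
        pow_le_pow_left₀ h0 h1 K
    _ = (((K : ℝ) + 1) / c) ^ K * (x ^ (c / ((K : ℝ) + 1))) ^ K := by
        rw [← mul_pow]
        congr 1
        field_simp
    _ ≤ (((K : ℝ) + 1) / c) ^ K * x ^ c := by
        apply mul_le_mul_of_nonneg_left _ (by positivity)
        rw [← Real.rpow_natCast, ← Real.rpow_mul hx0]
        apply Real.rpow_le_rpow_of_exponent_le hx
        rw [div_mul_eq_mul_div, div_le_iff₀ (by positivity)]
        nlinarith

/-- partial summation -/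
theorem psum (a : ℕ → ℝ) (z : ℕ → ℂ) (M N : ℕ) (E : ℝ) (hMN : M ≤ N)
    (ha : ∀ n, M < n → 0 ≤ a n) (hanti : ∀ n, M < n → a (n + 1) ≤ a n)
    (hz : ∀ k, M ≤ k → k ≤ N → ‖∑ n ∈ Ioc M k, z n‖ ≤ E * k) :
    ‖∑ n ∈ Ioc M N, (a n : ℂ) * z n‖ ≤ E * (M * a (M + 1) + ∑ n ∈ Ioc M N, a n) := by
  have key : ∀ k, M ≤ k → k ≤ N →
      ‖∑ n ∈ Ioc M k, (a n : ℂ) * z n - (a (k + 1) : ℂ) * ∑ n ∈ Ioc M k, z n‖ ≤
        E * (M * a (M + 1) + ∑ n ∈ Ioc M k, a n - k * a (k + 1)) := by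
    intro k hk
    induction k, hk using Nat.le_induction with
    | base =>
      intro _
      simp
    | succ k hk ih =>
      intro hkN
      have h1 := ih (by omega)
      have h2 := hz (k + 1) (by omega) hkN
      have hsum : ∀ {β : Type} [AddCommMonoid β] (f : ℕ → β),
          ∑ n ∈ Ioc M (k + 1), f n = ∑ n ∈ Ioc M k, f n + f (k + 1) := fun f =>
        Finset.sum_Ioc_succ_top hk f
      have e1 : ∑ n ∈ Ioc M (k + 1), (a n : ℂ) * z n - (a (k + 1 + 1) : ℂ) * ∑ n ∈ Ioc M (k + 1), z n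
          = (∑ n ∈ Ioc M k, (a n : ℂ) * z n - (a (k + 1) : ℂ) * ∑ n ∈ Ioc M k, z n)
            + ((a (k + 1) - a (k + 1 + 1) : ℝ) : ℂ) * ∑ n ∈ Ioc M (k + 1), z n := by
        rw [hsum, hsum]
        push_cast
        ring
      rw [e1]
      refine (norm_add_le _ _).trans ?_
      rw [norm_mul, Complex.norm_real, Real.norm_of_nonneg (sub_nonneg.mpr (hanti (k + 1) (by omega)))]
      have h3 : (a (k + 1) - a (k + 1 + 1)) * ‖∑ n ∈ Ioc M (k + 1), z n‖
          ≤ (a (k + 1) - a (k + 1 + 1)) * (E * ((k + 1 : ℕ) : ℝ)) :=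
        mul_le_mul_of_nonneg_left h2 (sub_nonneg.mpr (hanti (k + 1) (by omega)))
      refine (add_le_add h1 h3).trans (le_of_eq ?_)
      rw [hsum a]
      push_cast
      ring
  have h1 := key N hMN le_rfl
  have h2 := hz N hMN le_rfl
  have h3 : ∑ n ∈ Ioc M N, (a n : ℂ) * z n
      = (∑ n ∈ Ioc M N, (a n : ℂ) * z n - (a (N + 1) : ℂ) * ∑ n ∈ Ioc M N, z n)
        + (a (N + 1) : ℂ) * ∑ n ∈ Ioc M N, z n := by ring
  rw [h3]
  refine (norm_add_le _ _).trans ?_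
  rw [norm_mul, Complex.norm_real, Real.norm_of_nonneg (ha (N + 1) (by omega))]
  have h4 := mul_le_mul_of_nonneg_left h2 (ha (N + 1) (by omega))
  refine (add_le_add h1 h4).trans (le_of_eq ?_)
  ring

theorem lam_all : S_LAM := Pool.Agent.Y751.VK.lam Pool.Agent.Y957.VK.inv_all

theorem tw_nonneg (n : ℕ) : 0 ≤ tw n := by
  unfold tw
  split_ifs
  · exact Real.log_natCast_nonneg n
  · exact le_rfl

theorem lam_sub_tw (n : ℕ) : ArithmeticFunction.vonMangoldt n - tw n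
    = if ¬ n.Prime then ArithmeticFunction.vonMangoldt n else 0 := by
  unfold tw
  by_cases h : n.Prime
  · rw [if_pos h, if_neg (not_not.mpr h), ArithmeticFunction.vonMangoldt_apply_prime h, sub_self]
  · rw [if_neg h, if_pos h, sub_zero]

theorem sum_lam_sub_tw (N : ℕ) (hN : 1 ≤ N) :
    ∑ n ∈ Icc 1 N, (ArithmeticFunction.vonMangoldt n - tw n) ≤ 2 * √N * Real.log N := by
  have h1 := Chebyshev.psi_sub_theta_eq_sum_not_prime (N : ℝ)
  have h2 := Chebyshev.psi_sub_theta_le (x := (N : ℝ)) (by exact_mod_cast hN)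
  rw [Nat.floor_natCast] at h1
  rw [Finset.sum_congr rfl fun n _ => lam_sub_tw n, ← Finset.sum_filter]
  have h3 : Icc 1 N = Ioc 0 N := by
    ext n
    simp only [mem_Icc, mem_Ioc]
    omega
  rw [h3, ← h1]
  exact h2

theorem tw_sum (A K : ℕ) : ∃ C : ℝ, 0 ≤ C ∧ ∀ (N : ℕ) (τ : ℝ), 2 ≤ N → |τ| ≤ (N : ℝ) ^ A →
    ‖∑ n ∈ Icc 1 N, ((tw n - 1 : ℝ) : ℂ) * er τ (Real.log n)‖ ≤ C * N / Real.log N ^ K := by
  obtain ⟨C, hC⟩ := lam_all A K
  obtain ⟨C', hC', hlog⟩ := logpow (K + 1) (1 / 2) (by norm_num)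
  refine ⟨|C| + 2 * C', by positivity, ?_⟩
  intro N τ hN hτ
  have hN0 : (0 : ℝ) < N := by exact_mod_cast (by omega : 0 < N)
  have hN1 : (1 : ℝ) ≤ N := by exact_mod_cast (by omega : 1 ≤ N)
  have hL : 0 < Real.log N := Real.log_pos (by exact_mod_cast (by omega : 1 < N))
  have hLK : 0 < Real.log N ^ K := pow_pos hL K
  have h1 := hC N (-τ) hN (by rwa [abs_neg])
  have e1 : ∑ n ∈ Icc 1 N, ((ArithmeticFunction.vonMangoldt n : ℂ) - 1) *
      (n : ℂ) ^ (-((-τ : ℝ) : ℂ) * Complex.I)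
      = ∑ n ∈ Icc 1 N, ((ArithmeticFunction.vonMangoldt n - 1 : ℝ) : ℂ) * er τ (Real.log n) := by
    refine Finset.sum_congr rfl fun n hn => ?_
    rw [Pool.Agent.Y555.VK.cpow_er n (by have := (Finset.mem_Icc.1 hn).1; omega) τ]
    push_cast
    rfl
  rw [e1] at h1
  have e2 : ∑ n ∈ Icc 1 N, ((tw n - 1 : ℝ) : ℂ) * er τ (Real.log n)
      = ∑ n ∈ Icc 1 N, ((ArithmeticFunction.vonMangoldt n - 1 : ℝ) : ℂ) * er τ (Real.log n)
        - ∑ n ∈ Icc 1 N, ((ArithmeticFunction.vonMangoldt n - tw n : ℝ) : ℂ) * er τ (Real.log n) := by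
    rw [← Finset.sum_sub_distrib]
    refine Finset.sum_congr rfl fun n _ => ?_
    push_cast
    ring
  rw [e2]
  refine (norm_sub_le _ _).trans ?_
  have h2 : ‖∑ n ∈ Icc 1 N, ((ArithmeticFunction.vonMangoldt n - tw n : ℝ) : ℂ) * er τ (Real.log n)‖
      ≤ 2 * √N * Real.log N := by
    refine (norm_sum_le _ _).trans ?_
    refine le_trans (Finset.sum_le_sum fun n _ => ?_) (sum_lam_sub_tw N (by omega))
    rw [norm_mul, norm_er, mul_one, Complex.norm_real, Real.norm_of_nonneg]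
    rw [lam_sub_tw]
    by_cases hp : n.Prime
    · rw [if_neg (not_not.mpr hp)]
    · rw [if_pos hp]
      exact ArithmeticFunction.vonMangoldt_nonneg
  have h3 : 2 * √N * Real.log N ≤ 2 * C' * N / Real.log N ^ K := by
    rw [le_div_iff₀ hLK]
    have h4 := hlog N hN1
    rw [pow_succ, ← Real.sqrt_eq_rpow] at h4
    have h5 : √(N : ℝ) * √N = N := Real.mul_self_sqrt hN0.le
    have h6 : 0 ≤ √(N : ℝ) := Real.sqrt_nonneg _
    calc 2 * √N * Real.log N * Real.log N ^ K = 2 * √N * (Real.log N ^ K * Real.log N) := by ring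
      _ ≤ 2 * √N * (C' * √N) := mul_le_mul_of_nonneg_left h4 (by positivity)
      _ = 2 * C' * (√N * √N) := by ring
      _ = 2 * C' * N := by rw [h5]
  have h7 : C * N / Real.log N ^ K ≤ |C| * N / Real.log N ^ K := by
    apply div_le_div_of_nonneg_right _ hLK.le
    exact mul_le_mul_of_nonneg_right (le_abs_self C) hN0.le
  calc _ ≤ |C| * N / Real.log N ^ K + 2 * C' * N / Real.log N ^ K :=
        add_le_add (h1.trans h7) (h2.trans h3)
    _ = _ := by ring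

theorem tw_sum2 (A K : ℕ) : ∃ C : ℝ, 0 ≤ C ∧ ∀ (M k : ℕ) (τ : ℝ), 2 ≤ M → M ≤ k →
    |τ| ≤ (M : ℝ) ^ A →
    ‖∑ n ∈ Ioc M k, ((tw n - 1 : ℝ) : ℂ) * er τ (Real.log n)‖ ≤ C / Real.log M ^ K * k := by
  obtain ⟨C, hC0, hC⟩ := tw_sum A K
  refine ⟨2 * C, by positivity, ?_⟩
  intro M k τ hM hk hτ
  have hMr : (M : ℝ) ≤ k := by exact_mod_cast hk
  have hM0 : (0 : ℝ) < M := by exact_mod_cast (by omega : 0 < M)
  have hL : 0 < Real.log M := Real.log_pos (by exact_mod_cast (by omega : 1 < M))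
  have hLk : Real.log M ≤ Real.log k := Real.log_le_log hM0 hMr
  have hLK : 0 < Real.log M ^ K := pow_pos hL K
  have h1 := hC M τ hM hτ
  have h2 := hC k τ (by omega) (hτ.trans (pow_le_pow_left₀ hM0.le hMr A))
  have e1 : ∑ n ∈ Ioc M k, ((tw n - 1 : ℝ) : ℂ) * er τ (Real.log n)
      = ∑ n ∈ Icc 1 k, ((tw n - 1 : ℝ) : ℂ) * er τ (Real.log n)
        - ∑ n ∈ Icc 1 M, ((tw n - 1 : ℝ) : ℂ) * er τ (Real.log n) := by
    have h3 : Icc 1 k = Icc 1 M ∪ Ioc M k := by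
      ext n
      simp only [mem_Icc, mem_Ioc, mem_union]
      omega
    have h4 : Disjoint (Icc 1 M) (Ioc M k) := by
      rw [Finset.disjoint_left]
      intro n hn hn2
      rw [mem_Icc] at hn
      rw [mem_Ioc] at hn2
      omega
    rw [h3, Finset.sum_union h4]
    ring
  rw [e1]
  refine (norm_sub_le _ _).trans ?_
  have h5 : C * k / Real.log k ^ K ≤ C * k / Real.log M ^ K := by
    apply div_le_div_of_nonneg_left (by positivity) hLK
    exact pow_le_pow_left₀ hL.le hLk K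
  have h6 : C * M / Real.log M ^ K ≤ C * k / Real.log M ^ K := by
    apply div_le_div_of_nonneg_right _ hLK.le
    exact mul_le_mul_of_nonneg_left hMr hC0
  calc _ ≤ C * k / Real.log M ^ K + C * k / Real.log M ^ K := add_le_add (h2.trans h5) (h1.trans h6)
    _ = _ := by ring

theorem sum_inv (M N : ℕ) (hM : 1 ≤ M) (hMN : M ≤ N) :
    ∑ n ∈ Ioc M N, (1 / (n : ℝ)) ≤ Real.log N := by
  have h1 : ∀ k, M ≤ k → ∑ n ∈ Ioc M k, (1 / (n : ℝ)) ≤ Real.log k - Real.log M := by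
    intro k hk
    induction k, hk using Nat.le_induction with
    | base => simp
    | succ k hk ih =>
      rw [Finset.sum_Ioc_succ_top hk]
      have hk0 : (0 : ℝ) < k := by exact_mod_cast (by omega : 0 < k)
      have hk1 : (0 : ℝ) < ((k + 1 : ℕ) : ℝ) := by positivity
      have h2 := Real.log_le_sub_one_of_pos (div_pos hk0 hk1)
      rw [Real.log_div hk0.ne' hk1.ne'] at h2
      have h3 : (k : ℝ) / ((k + 1 : ℕ) : ℝ) - 1 = -(1 / ((k + 1 : ℕ) : ℝ)) := by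
        field_simp
        push_cast
        ring
      rw [h3] at h2
      linarith
  have h2 := h1 N hMN
  have h3 : 0 ≤ Real.log M := Real.log_natCast_nonneg M
  linarith

end EKA

open EKA

theorem a1 : S_A1 := by
  intro A K
  obtain ⟨C, hC0, hC⟩ := tw_sum2 A K
  refine ⟨C, ?_⟩
  intro M N τ hM hMN hτ
  have hL : 0 < Real.log M := Real.log_pos (by exact_mod_cast (by omega : 1 < M))
  have h1 := psum (fun n => 1 / (n : ℝ)) (fun n => ((tw n - 1 : ℝ) : ℂ) * er τ (Real.log n)) M N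
    (C / Real.log M ^ K) hMN (fun n _ => by positivity)
    (fun n hn => by
      have hn0 : (0 : ℝ) < n := by exact_mod_cast (by omega : 0 < n)
      apply one_div_le_one_div_of_le hn0
      push_cast
      linarith)
    (fun k hk _ => hC M k τ hM hk hτ)
  have e1 : ∑ n ∈ Ioc M N, (((tw n - 1) / n : ℝ) : ℂ) * er τ (Real.log n)
      = ∑ n ∈ Ioc M N, ((1 / (n : ℝ) : ℝ) : ℂ) * (((tw n - 1 : ℝ) : ℂ) * er τ (Real.log n)) := by
    refine Finset.sum_congr rfl fun n _ => ?_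
    push_cast
    ring
  rw [e1]
  refine h1.trans ?_
  have hM0 : (0 : ℝ) ≤ M := Nat.cast_nonneg M
  have h2 : (M : ℝ) * (1 / ((M + 1 : ℕ) : ℝ)) ≤ 1 := by
    rw [mul_one_div, div_le_one (by positivity)]
    push_cast
    linarith
  have h3 := sum_inv M N (by omega) hMN
  have h4 : 0 ≤ C / Real.log M ^ K := by positivity
  calc C / Real.log M ^ K * (M * (1 / ((M + 1 : ℕ) : ℝ)) + ∑ n ∈ Ioc M N, 1 / (n : ℝ))
      ≤ C / Real.log M ^ K * (1 + Real.log N) :=
        mul_le_mul_of_nonneg_left (add_le_add h2 h3) h4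
    _ = _ := by ring

namespace EKA

theorem one_add_abs_le (τ : ℝ) : (1 + |τ|) / 2 ≤ ‖(1 : ℂ) + (τ : ℂ) * Complex.I‖ := by
  have h1 : |((1 : ℂ) + (τ : ℂ) * Complex.I).re| ≤ ‖(1 : ℂ) + (τ : ℂ) * Complex.I‖ :=
    Complex.abs_re_le_norm _
  have h2 : |((1 : ℂ) + (τ : ℂ) * Complex.I).im| ≤ ‖(1 : ℂ) + (τ : ℂ) * Complex.I‖ :=
    Complex.abs_im_le_norm _
  simp at h1 h2
  linarith

/-- the antiderivative of `x^{iτ}` -/
noncomputable def FF (τ x : ℝ) : ℂ := (x : ℂ) * er τ (Real.log x) / (1 + (τ : ℂ) * Complex.I)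

theorem ne0 (τ : ℝ) : (1 : ℂ) + (τ : ℂ) * Complex.I ≠ 0 := by
  intro h
  have := one_add_abs_le τ
  rw [h, norm_zero] at this
  have := abs_nonneg τ
  linarith

theorem norm_FF (τ x : ℝ) (hx : 0 ≤ x) : ‖FF τ x‖ ≤ 2 * x / (1 + |τ|) := by
  unfold FF
  rw [norm_div, norm_mul, norm_er, mul_one, Complex.norm_real, Real.norm_of_nonneg hx]
  have h1 := one_add_abs_le τ
  have h2 : 0 < (1 + |τ|) / 2 := by have := abs_nonneg τ; linarith
  calc x / ‖(1 : ℂ) + (τ : ℂ) * Complex.I‖ ≤ x / ((1 + |τ|) / 2) :=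
        div_le_div_of_nonneg_left hx h2 h1
    _ = 2 * x / (1 + |τ|) := by field_simp

theorem hasDeriv_FF (τ x : ℝ) (hx : 0 < x) : HasDerivAt (FF τ) (er τ (Real.log x)) x := by
  have h1 : HasDerivAt (fun y : ℝ => ((τ * Real.log y : ℝ) : ℂ) * Complex.I)
      (((τ * x⁻¹ : ℝ) : ℂ) * Complex.I) x :=
    (((Real.hasDerivAt_log hx.ne').const_mul τ).ofReal_comp).mul_const _
  have h2 : HasDerivAt (fun y : ℝ => er τ (Real.log y))
      (er τ (Real.log x) * (((τ * x⁻¹ : ℝ) : ℂ) * Complex.I)) x := h1.cexp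
  have h3 : HasDerivAt (fun y : ℝ => (y : ℂ)) 1 x := (hasDerivAt_id x).ofReal_comp
  have h4 := (h3.mul h2).div_const (1 + (τ : ℂ) * Complex.I)
  have hxc : (x : ℂ) ≠ 0 := by exact_mod_cast hx.ne'
  have e : (1 * er τ (Real.log x) + (x : ℂ) * (er τ (Real.log x) *
      (((τ * x⁻¹ : ℝ) : ℂ) * Complex.I))) / (1 + (τ : ℂ) * Complex.I) = er τ (Real.log x) := by
    rw [div_eq_iff (ne0 τ)]
    push_cast
    field_simp
  rw [e] at h4
  exact h4

/-- one step -/
theorem step (τ : ℝ) (n : ℕ) (hn : 1 ≤ n) :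
    ‖er τ (Real.log ((n + 1 : ℕ) : ℝ)) - (FF τ ((n + 1 : ℕ) : ℝ) - FF τ n)‖ ≤
      |τ| * (Real.log ((n + 1 : ℕ) : ℝ) - Real.log n) := by
  have hn0 : (0 : ℝ) < n := by exact_mod_cast (by omega : 0 < n)
  set c := er τ (Real.log ((n + 1 : ℕ) : ℝ)) with hc
  have hle : (n : ℝ) ≤ ((n + 1 : ℕ) : ℝ) := by push_cast; linarith
  have hder : ∀ x ∈ Set.Icc (n : ℝ) ((n + 1 : ℕ) : ℝ),
      HasDerivWithinAt (fun y : ℝ => FF τ y - (y : ℂ) * c) (er τ (Real.log x) - 1 * c)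
        (Set.Icc (n : ℝ) ((n + 1 : ℕ) : ℝ)) x := by
    intro x hx
    have h3 : HasDerivAt (fun y : ℝ => (y : ℂ)) 1 x := (hasDerivAt_id x).ofReal_comp
    exact ((hasDeriv_FF τ x (lt_of_lt_of_le hn0 hx.1)).sub (h3.mul_const c)).hasDerivWithinAt
  have hbd : ∀ x ∈ Set.Icc (n : ℝ) ((n + 1 : ℕ) : ℝ), ‖er τ (Real.log x) - 1 * c‖ ≤
      |τ| * (Real.log ((n + 1 : ℕ) : ℝ) - Real.log n) := by
    intro x hx
    rw [one_mul, hc]
    refine (er_sub τ _ _).trans ?_
    apply mul_le_mul_of_nonneg_left _ (abs_nonneg _)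
    have hx0 : 0 < x := lt_of_lt_of_le hn0 hx.1
    have h1 : Real.log n ≤ Real.log x := Real.log_le_log hn0 hx.1
    have h2 : Real.log x ≤ Real.log ((n + 1 : ℕ) : ℝ) := Real.log_le_log hx0 hx.2
    rw [abs_le]
    constructor <;> linarith
  have h := (convex_Icc (n : ℝ) ((n + 1 : ℕ) : ℝ)).norm_image_sub_le_of_norm_hasDerivWithin_le
    hder hbd (Set.left_mem_Icc.mpr hle) (Set.right_mem_Icc.mpr hle)
  have e1 : FF τ ((n + 1 : ℕ) : ℝ) - (((n + 1 : ℕ) : ℝ) : ℂ) * c - (FF τ n - ((n : ℝ) : ℂ) * c)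
      = -(c - (FF τ ((n + 1 : ℕ) : ℝ) - FF τ n)) := by
    push_cast
    ring
  rw [e1, norm_neg] at h
  refine h.trans (le_of_eq ?_)
  have e2 : ‖((n + 1 : ℕ) : ℝ) - (n : ℝ)‖ = 1 := by
    push_cast
    rw [add_sub_cancel_left, norm_one]
  rw [e2, mul_one]

/-- the sum and the integral -/
theorem smooth (τ : ℝ) (N N' : ℕ) (hN : 1 ≤ N) (hN' : N ≤ N') :
    ‖∑ n ∈ Ioc N N', er τ (Real.log n)‖ ≤
      2 * ((N : ℝ) + N') / (1 + |τ|) + |τ| * (Real.log N' - Real.log N) := by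
  have key : ‖∑ n ∈ Ioc N N', er τ (Real.log n) - (FF τ N' - FF τ N)‖ ≤
      |τ| * (Real.log N' - Real.log N) := by
    induction N', hN' using Nat.le_induction with
    | base => simp
    | succ k hk ih =>
      rw [Finset.sum_Ioc_succ_top hk]
      have e1 : ∑ n ∈ Ioc N k, er τ (Real.log n) + er τ (Real.log ((k + 1 : ℕ) : ℝ)) -
          (FF τ ((k + 1 : ℕ) : ℝ) - FF τ N)
          = (∑ n ∈ Ioc N k, er τ (Real.log n) - (FF τ k - FF τ N)) +
            (er τ (Real.log ((k + 1 : ℕ) : ℝ)) - (FF τ ((k + 1 : ℕ) : ℝ) - FF τ k)) := by ring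
      rw [e1]
      refine (norm_add_le _ _).trans ?_
      refine (add_le_add ih (step τ k (by omega))).trans (le_of_eq ?_)
      ring
  have e2 : ∑ n ∈ Ioc N N', er τ (Real.log n)
      = (FF τ N' - FF τ N) + (∑ n ∈ Ioc N N', er τ (Real.log n) - (FF τ N' - FF τ N)) := by ring
  rw [e2]
  refine (norm_add_le _ _).trans (add_le_add ?_ key)
  refine (norm_sub_le _ _).trans ?_
  refine (add_le_add (norm_FF τ N' (Nat.cast_nonneg _)) (norm_FF τ N (Nat.cast_nonneg _))).trans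
    (le_of_eq ?_)
  ring

/-- a dyadic piece -/
theorem piece (A : ℕ) : ∃ C c : ℝ, 0 ≤ C ∧ 0 < c ∧ ∀ (N N' : ℕ) (τ : ℝ), 2 ≤ N → N ≤ N' →
    N' ≤ 2 * N → |τ| ≤ (N : ℝ) ^ A →
    ‖∑ n ∈ Ioc N N', er τ (Real.log n)‖ ≤ C * N * (1 / (1 + |τ|) + (N : ℝ) ^ (-c)) := by
  obtain ⟨C, c, hc0, hc1, hzs⟩ := Pool.Agent.Y957.VK.zs_all
  set c' : ℝ := c / (1 + (A : ℝ)) ^ 2 with hc'
  have hA : (0 : ℝ) ≤ A := Nat.cast_nonneg A
  have hc'0 : 0 < c' := by positivity
  have hc'1 : c' ≤ 1 / 2 := by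
    rw [hc', div_le_iff₀ (by positivity)]
    nlinarith
  refine ⟨6 + Real.exp (C * (1 + (A : ℝ)) ^ C), c', by positivity, hc'0, ?_⟩
  intro N N' τ hN hNN hN2 hτ
  have hN0 : (0 : ℝ) < N := by exact_mod_cast (by omega : 0 < N)
  have hN1 : (1 : ℝ) < N := by exact_mod_cast (by omega : 1 < N)
  have hN'r : (N' : ℝ) ≤ 2 * N := by exact_mod_cast hN2
  have hN'0 : (0 : ℝ) < N' := by exact_mod_cast (by omega : 0 < N')
  have hE : 0 < Real.exp (C * (1 + (A : ℝ)) ^ C) := Real.exp_pos _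
  have hinv : 0 < 1 / (1 + |τ|) := by have := abs_nonneg τ; positivity
  have hpow : 0 < (N : ℝ) ^ (-c') := Real.rpow_pos_of_pos hN0 _
  rcases lt_or_ge |τ| ((N : ℝ) ^ (1 / 2 : ℝ)) with hcase | hcase
  · have h1 := smooth τ N N' (by omega) hNN
    have h2 : 2 * ((N : ℝ) + N') / (1 + |τ|) ≤ 6 * N * (1 / (1 + |τ|)) := by
      rw [mul_one_div]
      apply div_le_div_of_nonneg_right _ (by have := abs_nonneg τ; linarith)
      linarith
    have h3 : Real.log N' - Real.log N ≤ 1 := by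
      rw [← Real.log_div hN'0.ne' hN0.ne']
      have h4 : (N' : ℝ) / N ≤ 2 := by rw [div_le_iff₀ hN0]; exact hN'r
      calc Real.log (N' / N) ≤ Real.log 2 := Real.log_le_log (by positivity) h4
        _ ≤ 1 := by have := Real.log_two_lt_d9; linarith
    have h5 : |τ| * (Real.log N' - Real.log N) ≤ 6 * N * (N : ℝ) ^ (-c') := by
      calc |τ| * (Real.log N' - Real.log N) ≤ |τ| * 1 :=
            mul_le_mul_of_nonneg_left h3 (abs_nonneg _)
        _ ≤ (N : ℝ) ^ (1 / 2 : ℝ) := by rw [mul_one]; exact hcase.le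
        _ ≤ (N : ℝ) ^ (1 - c') := Real.rpow_le_rpow_of_exponent_le hN1.le (by linarith)
        _ = N * (N : ℝ) ^ (-c') := by
            rw [show 1 - c' = 1 + -c' by ring, Real.rpow_add hN0, Real.rpow_one]
        _ ≤ 6 * N * (N : ℝ) ^ (-c') := by nlinarith [mul_pos hN0 hpow]
    calc _ ≤ 6 * N * (1 / (1 + |τ|)) + 6 * N * (N : ℝ) ^ (-c') := h1.trans (add_le_add h2 h5)
      _ = 6 * (N * (1 / (1 + |τ|) + (N : ℝ) ^ (-c'))) := by ring
      _ ≤ (6 + Real.exp (C * (1 + (A : ℝ)) ^ C)) * (N * (1 / (1 + |τ|) + (N : ℝ) ^ (-c'))) := by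
          apply mul_le_mul_of_nonneg_right (by linarith) (by positivity)
      _ = _ := by ring
  · -- the bound for zeta sums
    have hτ0 : 0 < |τ| := lt_of_lt_of_le (Real.rpow_pos_of_pos hN0 _) hcase
    have hlogN : 0 < Real.log N := Real.log_pos hN1
    set κ : ℝ := Real.log |τ| / Real.log N with hκ
    have hκeq : |τ| = (N : ℝ) ^ κ := by
      rw [Real.rpow_def_of_pos hN0, hκ, mul_div_cancel₀ _ hlogN.ne', Real.exp_log hτ0]
    have hκ1 : 1 / 2 ≤ κ := by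
      rw [hκ, le_div_iff₀ hlogN]
      have := Real.log_le_log (Real.rpow_pos_of_pos hN0 _) hcase
      rwa [Real.log_rpow hN0] at this
    have hκ2 : κ ≤ A := by
      rw [hκ, div_le_iff₀ hlogN]
      have := Real.log_le_log hτ0 hτ
      rwa [Real.log_pow] at this
    have h1 := hzs N N' (-τ) κ hN hNN hN2 hκ1 (by rw [abs_neg]; exact hκeq)
    have e1 : ∑ n ∈ Ioc N N', (n : ℂ) ^ (-((-τ : ℝ) : ℂ) * Complex.I)
        = ∑ n ∈ Ioc N N', er τ (Real.log n) := by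
      refine Finset.sum_congr rfl fun n hn => ?_
      exact Pool.Agent.Y555.VK.cpow_er n (by have := (Finset.mem_Ioc.1 hn).1; omega) τ
    rw [e1] at h1
    refine h1.trans ?_
    have h2 : Real.exp (C * (1 + κ) ^ C) ≤ Real.exp (C * (1 + (A : ℝ)) ^ C) := by
      apply Real.exp_le_exp.mpr
      apply mul_le_mul_of_nonneg_left _ (Nat.cast_nonneg _)
      exact pow_le_pow_left₀ (by linarith) (by linarith) C
    have h3 : (N : ℝ) ^ (1 - c / (1 + κ) ^ 2 : ℝ) ≤ N * (N : ℝ) ^ (-c') := by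
      have h4 : c' ≤ c / (1 + κ) ^ 2 := by
        rw [hc']
        apply div_le_div_of_nonneg_left hc0.le (by positivity)
        exact pow_le_pow_left₀ (by linarith) (by linarith) 2
      calc (N : ℝ) ^ (1 - c / (1 + κ) ^ 2 : ℝ) ≤ (N : ℝ) ^ (1 - c') :=
            Real.rpow_le_rpow_of_exponent_le hN1.le (by linarith)
        _ = N * (N : ℝ) ^ (-c') := by
            rw [show 1 - c' = 1 + -c' by ring, Real.rpow_add hN0, Real.rpow_one]
    calc Real.exp (C * (1 + κ) ^ C) * (N : ℝ) ^ (1 - c / (1 + κ) ^ 2 : ℝ)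
        ≤ Real.exp (C * (1 + (A : ℝ)) ^ C) * (N * (N : ℝ) ^ (-c')) :=
          mul_le_mul h2 h3 (by positivity) hE.le
      _ ≤ (6 + Real.exp (C * (1 + (A : ℝ)) ^ C)) * (N * (1 / (1 + |τ|) + (N : ℝ) ^ (-c'))) := by
          apply mul_le_mul (by linarith) _ (by positivity) (by positivity)
          apply mul_le_mul_of_nonneg_left _ hN0.le
          linarith
      _ = _ := by ring

/-- all the pieces -/
theorem zsum (A : ℕ) : ∃ C c : ℝ, 0 ≤ C ∧ 0 < c ∧ ∀ (M k : ℕ) (τ : ℝ), 2 ≤ M → M ≤ k →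
    |τ| ≤ (M : ℝ) ^ A →
    ‖∑ n ∈ Ioc M k, er τ (Real.log n)‖ ≤ C * (1 / (1 + |τ|) + (M : ℝ) ^ (-c)) * k := by
  obtain ⟨C, c, hC, hc, hp⟩ := piece A
  refine ⟨2 * C, c, by positivity, hc, ?_⟩
  intro M k τ hM hk hτ
  have hM0 : (0 : ℝ) < M := by exact_mod_cast (by omega : 0 < M)
  set D : ℝ := C * (1 / (1 + |τ|) + (M : ℝ) ^ (-c)) with hD
  have hD0 : 0 ≤ D := by
    have := abs_nonneg τ
    positivity
  have hpc : ∀ N N' : ℕ, M ≤ N → N ≤ N' → N' ≤ 2 * N →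
      ‖∑ n ∈ Ioc N N', er τ (Real.log n)‖ ≤ D * N := by
    intro N N' h1 h2 h3
    have hMN : (M : ℝ) ≤ N := by exact_mod_cast h1
    have h4 := hp N N' τ (by omega) h2 h3 (hτ.trans (pow_le_pow_left₀ hM0.le hMN A))
    refine h4.trans ?_
    have h5 : (N : ℝ) ^ (-c) ≤ (M : ℝ) ^ (-c) :=
      Real.rpow_le_rpow_of_nonpos hM0 hMN (by linarith)
    calc C * N * (1 / (1 + |τ|) + (N : ℝ) ^ (-c)) ≤ C * N * (1 / (1 + |τ|) + (M : ℝ) ^ (-c)) := by
          apply mul_le_mul_of_nonneg_left _ (by positivity)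
          linarith
      _ = D * N := by rw [hD]; ring
  have key : ∀ k, M ≤ k → ‖∑ n ∈ Ioc M k, er τ (Real.log n)‖ ≤ 2 * D * k := by
    intro k
    induction k using Nat.strong_induction_on with
    | _ k ih =>
      intro hk
      by_cases h : k ≤ 2 * M
      · refine (hpc M k le_rfl hk h).trans ?_
        have hMk : (M : ℝ) ≤ k := by exact_mod_cast hk
        have hk0 : (0 : ℝ) ≤ k := Nat.cast_nonneg _
        nlinarith
      · push Not at h
        set N := (k + 1) / 2 with hN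
        have h1 : M ≤ N := by omega
        have h2 : N < k := by omega
        have h3 : k ≤ 2 * N := by omega
        have h4 : 3 * N ≤ 2 * k := by omega
        have e1 : ∑ n ∈ Ioc M k, er τ (Real.log n)
            = ∑ n ∈ Ioc M N, er τ (Real.log n) + ∑ n ∈ Ioc N k, er τ (Real.log n) := by
          rw [Finset.sum_Ioc_consecutive _ h1 h2.le]
        rw [e1]
        refine (norm_add_le _ _).trans ?_
        have h5 := ih N h2 h1
        have h6 := hpc N k h1 h2.le h3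
        have h7 : (3 : ℝ) * N ≤ 2 * k := by exact_mod_cast h4
        calc _ ≤ 2 * D * N + D * N := add_le_add h5 h6
          _ = D * (3 * N) := by ring
          _ ≤ D * (2 * k) := mul_le_mul_of_nonneg_left h7 hD0
          _ = 2 * D * k := by ring
  refine (key k hk).trans (le_of_eq ?_)
  rw [hD]
  ring

end EKA

theorem a2 : S_A2 := by
  intro A K
  obtain ⟨C₁, hC₁, h₁⟩ := tw_sum2 A K
  obtain ⟨C₂, c, hC₂, hc, h₂⟩ := zsum A
  obtain ⟨C₃, hC₃, h₃⟩ := logpow K c hc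
  set B : ℝ := C₁ + C₂ + C₂ * C₃ with hB
  have hB0 : 0 ≤ B := by positivity
  refine ⟨2 * B, ?_⟩
  intro M N τ hM hMN hτ
  have hM0 : (0 : ℝ) < M := by exact_mod_cast (by omega : 0 < M)
  have hM1 : (1 : ℝ) ≤ M := by exact_mod_cast (by omega : 1 ≤ M)
  have hL : 0 < Real.log M := Real.log_pos (by exact_mod_cast (by omega : 1 < M))
  have hLK : 0 < Real.log M ^ K := pow_pos hL K
  have habs := abs_nonneg τ
  set E : ℝ := B * (1 / Real.log M ^ K + 1 / (1 + |τ|)) with hE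
  have hE0 : 0 ≤ E := by positivity
  have hbound : ∀ k, M ≤ k → k ≤ N →
      ‖∑ n ∈ Ioc M k, ((tw n : ℝ) : ℂ) * er τ (Real.log n)‖ ≤ E * k := by
    intro k hk _
    have e1 : ∑ n ∈ Ioc M k, ((tw n : ℝ) : ℂ) * er τ (Real.log n)
        = ∑ n ∈ Ioc M k, ((tw n - 1 : ℝ) : ℂ) * er τ (Real.log n)
          + ∑ n ∈ Ioc M k, er τ (Real.log n) := by
      rw [← Finset.sum_add_distrib]
      refine Finset.sum_congr rfl fun n _ => ?_
      push_cast
      ring
    rw [e1]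
    refine (norm_add_le _ _).trans ?_
    refine (add_le_add (h₁ M k τ hM hk hτ) (h₂ M k τ hM hk hτ)).trans ?_
    rw [← add_mul]
    apply mul_le_mul_of_nonneg_right _ (Nat.cast_nonneg k)
    have h4 : (M : ℝ) ^ (-c) ≤ C₃ * (1 / Real.log M ^ K) := by
      rw [mul_one_div, le_div_iff₀ hLK, Real.rpow_neg hM0.le, ← div_eq_inv_mul,
        div_le_iff₀ (Real.rpow_pos_of_pos hM0 c)]
      exact h₃ M hM1
    have hi : 0 < 1 / Real.log M ^ K := by positivity
    have hj : 0 < 1 / (1 + |τ|) := by positivity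
    have h5 : C₁ / Real.log M ^ K = C₁ * (1 / Real.log M ^ K) := by ring
    have h6 : C₂ * (M : ℝ) ^ (-c) ≤ C₂ * (C₃ * (1 / Real.log M ^ K)) :=
      mul_le_mul_of_nonneg_left h4 hC₂
    rw [hE, hB, h5]
    nlinarith [mul_nonneg hC₁ hj.le, mul_nonneg hC₂ hi.le, mul_nonneg (mul_nonneg hC₂ hC₃.le) hj.le]
  have hlog2 : ∀ n, M < n → (1 : ℝ) / 2 ≤ Real.log n := by
    intro n hn
    have h7 : (2 : ℝ) ≤ n := by exact_mod_cast (by omega : 2 ≤ n)
    have h8 := Real.log_le_log (by norm_num) h7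
    have h9 := Real.log_two_gt_d9
    linarith
  have h1 := psum (fun n => 1 / ((n : ℝ) * Real.log n))
    (fun n => ((tw n : ℝ) : ℂ) * er τ (Real.log n)) M N E hMN
    (fun n hn => by
      have h7 := hlog2 n hn
      positivity)
    (fun n hn => by
      have hn0 : (0 : ℝ) < n := by exact_mod_cast (by omega : 0 < n)
      have h7 := hlog2 n hn
      have h8 : Real.log n ≤ Real.log ((n + 1 : ℕ) : ℝ) :=
        Real.log_le_log hn0 (by push_cast; linarith)
      apply one_div_le_one_div_of_le (by positivity)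
      apply mul_le_mul _ h8 (by linarith) (by positivity)
      push_cast
      linarith)
    hbound
  have e1 : ∑ p ∈ PR M N, ((1 / p : ℝ) : ℂ) * er τ (Real.log p)
      = ∑ n ∈ Ioc M N, ((1 / ((n : ℝ) * Real.log n) : ℝ) : ℂ) *
          (((tw n : ℝ) : ℂ) * er τ (Real.log n)) := by
    unfold PR
    rw [Finset.sum_filter]
    refine Finset.sum_congr rfl fun n hn => ?_
    rw [Finset.mem_Ioc] at hn
    unfold tw
    by_cases hp : n.Prime
    · rw [if_pos hp, if_pos hp]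
      have h7 := hlog2 n hn.1
      have h8 : Real.log n ≠ 0 := by linarith
      have h9 : (n : ℝ) ≠ 0 := by
        have : n ≠ 0 := by omega
        exact_mod_cast this
      have h14 : (1 : ℝ) / n = 1 / ((n : ℝ) * Real.log n) * Real.log n := by field_simp
      rw [h14, ← mul_assoc, ← Complex.ofReal_mul]
    · rw [if_neg hp, if_neg hp]
      simp
  rw [e1]
  refine h1.trans ?_
  have h10 : (M : ℝ) * (1 / (((M + 1 : ℕ) : ℝ) * Real.log ((M + 1 : ℕ) : ℝ))) ≤ 2 := by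
    have h7 := hlog2 (M + 1) (by omega)
    have h11 : (0 : ℝ) < ((M + 1 : ℕ) : ℝ) := by positivity
    rw [mul_one_div, div_le_iff₀ (mul_pos h11 (by linarith))]
    have h12 : (M : ℝ) ≤ ((M + 1 : ℕ) : ℝ) := by push_cast; linarith
    nlinarith
  have h13 : ∑ n ∈ Ioc M N, 1 / ((n : ℝ) * Real.log n) ≤ 2 * Real.log N := by
    calc ∑ n ∈ Ioc M N, 1 / ((n : ℝ) * Real.log n) ≤ ∑ n ∈ Ioc M N, 2 * (1 / (n : ℝ)) := by
          refine Finset.sum_le_sum fun n hn => ?_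
          rw [Finset.mem_Ioc] at hn
          have h7 := hlog2 n hn.1
          have hn0 : (0 : ℝ) < n := by exact_mod_cast (by omega : 0 < n)
          rw [mul_one_div, div_le_div_iff₀ (mul_pos hn0 (by linarith)) hn0]
          nlinarith
      _ = 2 * ∑ n ∈ Ioc M N, 1 / (n : ℝ) := by rw [Finset.mul_sum]
      _ ≤ 2 * Real.log N := mul_le_mul_of_nonneg_left (sum_inv M N (by omega) hMN) (by norm_num)
  calc E * (M * (1 / (((M + 1 : ℕ) : ℝ) * Real.log ((M + 1 : ℕ) : ℝ))) +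
        ∑ n ∈ Ioc M N, 1 / ((n : ℝ) * Real.log n)) ≤ E * (2 + 2 * Real.log N) :=
        mul_le_mul_of_nonneg_left (add_le_add h10 h13) hE0
    _ = _ := by rw [hE]; ring

end Pool.Agent.Helper34.EK
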