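import Pool.Agent.Helper34.EK.Stm
import Pool.Graph.R_seed8.Y957.VK.E1

set_option autoImplicit false

/-!
Project EK, module B: the mean square of a bilinear sum over short multiplicative windows.
Author: helper26.
-/

namespace Pool.Agent.Helper34.EK
open Finset MeasureTheory FourierTransform
open scoped ENNReal
open Pool.Agent.H376R2.MR (er)
open Pool.Agent.Y957.AD (four_shift memLp_of_bdd er_norm)
open Pool.Agent.Y957.VK (four_fsum four_smulc tail_int)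

namespace BB

theorem Wi_meas (θ : ℝ) : Measurable (Wi θ) := by
  unfold Wi
  exact (measurable_const.indicator measurableSet_Ioc)

theorem Wi_le (θ v : ℝ) : ‖Wi θ v‖ ≤ 1 := by
  unfold Wi
  by_cases h : v ∈ Set.Ioc (0 : ℝ) θ
  · rw [Set.indicator_of_mem h, norm_one]
  · rw [Set.indicator_of_notMem h, norm_zero]
    exact zero_le_one

theorem Wi_int (θ : ℝ) : Integrable (Wi θ) := by
  unfold Wi
  rw [integrable_indicator_iff measurableSet_Ioc]
  exact integrableOn_const (by simp)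

theorem four_Wi {θ : ℝ} (hθ : 0 < θ) (ξ : ℝ) : ‖𝓕 (Wi θ) ξ‖ ≤ θ ∧
    (0 < |ξ| → ‖𝓕 (Wi θ) ξ‖ ≤ 1 / (Real.pi * |ξ|)) := by
  have h1 : 𝓕 (Wi θ) ξ = ∫ v in (0 : ℝ)..θ, er (-(2 * Real.pi * ξ)) v := by
    rw [Real.fourier_real_eq_integral_exp_smul]
    have h2 : ∀ v : ℝ, Complex.exp (↑(-2 * Real.pi * v * ξ) * Complex.I) • Wi θ v =
        (Set.Ioc 0 θ).indicator (fun v => er (-(2 * Real.pi * ξ)) v) v := by
      intro v
      unfold Wi
      by_cases ht : v ∈ Set.Ioc 0 θ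
      · rw [Set.indicator_of_mem ht, Set.indicator_of_mem ht, smul_eq_mul, mul_one]
        unfold er
        congr 2
        push_cast
        ring
      · rw [Set.indicator_of_notMem ht, Set.indicator_of_notMem ht, smul_zero]
    simp_rw [h2]
    rw [integral_indicator measurableSet_Ioc, ← intervalIntegral.integral_of_le hθ.le]
  rw [h1]
  constructor
  · have h4 := intervalIntegral.norm_integral_le_of_norm_le_const (a := 0) (b := θ)
      (f := fun v => er (-(2 * Real.pi * ξ)) v) (C := 1) (fun s _ => (er_norm _ _).le)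
    rwa [sub_zero, abs_of_pos hθ, one_mul] at h4
  · intro hξ
    have h6 : -(2 * Real.pi * ξ) ≠ 0 := by
      have : ξ ≠ 0 := abs_pos.1 hξ
      have := Real.pi_ne_zero
      simp_all
    have h4 := Pool.Agent.H376R2.MR.phas_integral_er (-(2 * Real.pi * ξ)) 0 θ h6
    have h7 : |-(2 * Real.pi * ξ)| = 2 * Real.pi * |ξ| := by
      rw [abs_neg, abs_mul, abs_of_pos (by positivity)]
    rw [h7] at h4
    refine h4.trans (le_of_eq ?_)
    field_simp

/-- sum of translates -/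
noncomputable def TS (s : Finset ℕ) (a : ℕ → ℝ) (G : ℝ → ℂ) (v : ℝ) : ℂ :=
  ∑ i ∈ s, (a i : ℂ) * G (v + Real.log i)

theorem TS_int (s : Finset ℕ) (a : ℕ → ℝ) {G : ℝ → ℂ} (hG : Integrable G) : Integrable (TS s a G) := by
  unfold TS
  exact integrable_finsetSum _ fun n _ => (hG.comp_add_right _).const_mul _

theorem TS_le (s : Finset ℕ) (a : ℕ → ℝ) {G : ℝ → ℂ} {M : ℝ} (hG : ∀ x, ‖G x‖ ≤ M) (v : ℝ) :
    ‖TS s a G v‖ ≤ (∑ i ∈ s, |a i|) * M := by
  unfold TS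
  refine (norm_sum_le _ _).trans ?_
  rw [Finset.sum_mul]
  apply Finset.sum_le_sum
  intro i _
  rw [norm_mul, Complex.norm_real, Real.norm_eq_abs]
  exact mul_le_mul_of_nonneg_left (hG _) (abs_nonneg _)

theorem four_TS (s : Finset ℕ) (a : ℕ → ℝ) {G : ℝ → ℂ} (hG : Integrable G) (ξ : ℝ) :
    𝓕 (TS s a G) ξ = (∑ i ∈ s, (a i : ℂ) * er (2 * Real.pi * ξ) (Real.log i)) * 𝓕 G ξ := by
  unfold TS
  rw [four_fsum _ _ fun n _ => (hG.comp_add_right _).const_mul _, Finset.sum_mul]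
  refine Finset.sum_congr rfl fun n _ => ?_
  rw [four_smulc, four_shift]
  ring

theorem enorm_sq_le {z : ℂ} {b : ℝ} (h : ‖z‖ ≤ b) : ‖z‖ₑ ^ 2 ≤ ENNReal.ofReal (b ^ 2) := by
  have hb : 0 ≤ b := (norm_nonneg _).trans h
  rw [ENNReal.ofReal_pow hb, ← ofReal_norm]
  exact pow_le_pow_left' (ENNReal.ofReal_le_ofReal h) 2

end BB

open BB

theorem b : S_B := by
  intro s t a b θ α α0 β β0 T0 T hθ hα hβ hT0 hTT hA hA0 hB hB0
  set A : ℝ → ℂ := fun ξ => ∑ i ∈ s, (a i : ℂ) * er (2 * Real.pi * ξ) (Real.log i) with hAd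
  set B : ℝ → ℂ := fun ξ => ∑ j ∈ t, (b j : ℂ) * er (2 * Real.pi * ξ) (Real.log j) with hBd
  have hα0 : 0 ≤ α0 := (norm_nonneg _).trans (hA0 0)
  have hβ0 : 0 ≤ β0 := (norm_nonneg _).trans (hB0 0)
  set G : ℝ → ℂ := TS t b (Wi θ) with hG
  have hGi : Integrable G := TS_int t b (Wi_int θ)
  have hGle : ∀ v, ‖G v‖ ≤ (∑ i ∈ t, |b i|) * 1 := TS_le t b (Wi_le θ)
  have hFi : Integrable (TS s a G) := TS_int s a hGi
  have hFle := TS_le s a hGle
  have e1 : ∀ v : ℝ, ∑ i ∈ s, ∑ j ∈ t, ((a i * b j : ℝ) : ℂ) * Wi θ (v + Real.log i + Real.log j) = TS s a G v := by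
    intro v
    rw [hG]
    unfold TS
    apply Finset.sum_congr rfl
    intro i _
    rw [Finset.mul_sum]
    apply Finset.sum_congr rfl
    intro j _
    push_cast
    ring
  have e2 : ∀ v : ℝ, ∑ j ∈ t, (b j : ℂ) * Wi θ (v + Real.log j) = G v := fun v => rfl
  simp_rw [e1, e2]
  rw [← Pool.Agent.TH794.QD.plancherel _ hFi (memLp_of_bdd hFi hFle),
    ← Pool.Agent.TH794.QD.plancherel _ hGi (memLp_of_bdd hGi hGle)]
  have hFG : ∀ ξ, 𝓕 (TS s a G) ξ = A ξ * 𝓕 G ξ := fun ξ => four_TS s a hGi ξ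
  have hGW : ∀ ξ, 𝓕 G ξ = B ξ * 𝓕 (Wi θ) ξ := fun ξ => four_TS t b (Wi_int θ) ξ
  set K : ℝ := α0 ^ 2 * β0 ^ 2 with hK
  have hK0 : 0 ≤ K := by positivity
  have hT : 1 ≤ T := hT0.trans hTT
  have hpt : ∀ ξ, ‖𝓕 (TS s a G) ξ‖ₑ ^ 2 ≤
      (Set.Icc (-T0) T0).indicator (fun _ => ENNReal.ofReal (α0 ^ 2 * β ^ 2 * θ ^ 2)) ξ +
      ENNReal.ofReal (α ^ 2) * ‖𝓕 G ξ‖ₑ ^ 2 +
      (Set.Iic T)ᶜ.indicator (fun x => ENNReal.ofReal (K / 2 * (x ^ 2)⁻¹)) |ξ| := by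
    intro ξ
    rcases le_or_gt (|ξ|) T0 with h1 | h1
    · have hmem : ξ ∈ Set.Icc (-T0) T0 := abs_le.1 h1
      rw [Set.indicator_of_mem hmem]
      refine le_trans ?_ (le_trans (le_add_right le_rfl) (le_add_right le_rfl))
      have h2 : ‖𝓕 (TS s a G) ξ‖ ≤ α0 * β * θ := by
        rw [hFG, hGW, norm_mul, norm_mul, ← mul_assoc]
        exact mul_le_mul (mul_le_mul (hA0 ξ) (hB ξ h1) (norm_nonneg _) hα0) (four_Wi hθ ξ).1 (norm_nonneg _)
          (by positivity)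
      refine (enorm_sq_le h2).trans (ENNReal.ofReal_le_ofReal (le_of_eq (by ring)))
    · rcases le_or_gt (|ξ|) T with h2 | h2
      · refine le_trans ?_ (le_trans (le_add_left le_rfl) (le_add_right le_rfl))
        rw [hFG, enorm_mul, mul_pow]
        exact mul_le_mul' (enorm_sq_le (hA ξ h1.le h2)) le_rfl
      · have hmem : |ξ| ∈ (Set.Iic T)ᶜ := by
          simp only [Set.mem_compl_iff, Set.mem_Iic, not_le]
          exact h2
        rw [Set.indicator_of_mem hmem]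
        refine le_trans ?_ (le_add_left le_rfl)
        have hξ : 0 < |ξ| := by linarith
        have h3 : ‖𝓕 (TS s a G) ξ‖ ≤ α0 * β0 * (1 / (Real.pi * |ξ|)) := by
          rw [hFG, hGW, norm_mul, norm_mul, ← mul_assoc]
          exact mul_le_mul (mul_le_mul (hA0 ξ) (hB0 ξ) (norm_nonneg _) hα0) ((four_Wi hθ ξ).2 hξ) (norm_nonneg _)
            (by positivity)
        refine (enorm_sq_le h3).trans (ENNReal.ofReal_le_ofReal ?_)
        have h4 : (α0 * β0 * (1 / (Real.pi * |ξ|))) ^ 2 = K * (1 / Real.pi ^ 2) * (|ξ| ^ 2)⁻¹ := by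
          rw [hK]
          field_simp
        rw [h4]
        apply mul_le_mul_of_nonneg_right _ (by positivity)
        have h5 : 1 / Real.pi ^ 2 ≤ 1 / 2 := by
          apply one_div_le_one_div_of_le (by norm_num)
          nlinarith [Real.pi_gt_three]
        calc K * (1 / Real.pi ^ 2) ≤ K * (1 / 2) := mul_le_mul_of_nonneg_left h5 hK0
          _ = K / 2 := by ring
  have hm1 : Measurable ((Set.Icc (-T0) T0).indicator (fun _ => ENNReal.ofReal (α0 ^ 2 * β ^ 2 * θ ^ 2))) :=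
    measurable_const.indicator measurableSet_Icc
  have hm3 : Measurable (fun ξ : ℝ => (Set.Iic T)ᶜ.indicator (fun x => ENNReal.ofReal (K / 2 * (x ^ 2)⁻¹)) |ξ|) := by
    have h1 : Measurable ((Set.Iic T)ᶜ.indicator (fun x : ℝ => ENNReal.ofReal (K / 2 * (x ^ 2)⁻¹))) := by
      apply Measurable.indicator _ measurableSet_Iic.compl
      exact ENNReal.measurable_ofReal.comp (((measurable_id.pow_const 2).inv).const_mul _)
    exact h1.comp measurable_id.abs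
  calc ∫⁻ ξ, ‖𝓕 (TS s a G) ξ‖ₑ ^ 2 ≤ ∫⁻ ξ, ((Set.Icc (-T0) T0).indicator (fun _ => ENNReal.ofReal (α0 ^ 2 * β ^ 2 * θ ^ 2)) ξ +
      ENNReal.ofReal (α ^ 2) * ‖𝓕 G ξ‖ₑ ^ 2 +
      (Set.Iic T)ᶜ.indicator (fun x => ENNReal.ofReal (K / 2 * (x ^ 2)⁻¹)) |ξ|) := lintegral_mono hpt
    _ = ENNReal.ofReal (α0 ^ 2 * β ^ 2 * θ ^ 2) * ENNReal.ofReal (2 * T0) + ENNReal.ofReal (α ^ 2) * (∫⁻ ξ, ‖𝓕 G ξ‖ₑ ^ 2) +
        ∫⁻ ξ : ℝ, (Set.Iic T)ᶜ.indicator (fun x => ENNReal.ofReal (K / 2 * (x ^ 2)⁻¹)) |ξ| := by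
        rw [lintegral_add_right _ hm3, lintegral_add_left hm1, lintegral_const_mul' _ _ ENNReal.ofReal_ne_top]
        rw [lintegral_indicator measurableSet_Icc, setLIntegral_const, Real.volume_Icc,
          show T0 - -T0 = 2 * T0 by ring]
    _ ≤ ENNReal.ofReal (α0 ^ 2 * β ^ 2 * θ ^ 2) * ENNReal.ofReal (2 * T0) + ENNReal.ofReal (α ^ 2) * (∫⁻ ξ, ‖𝓕 G ξ‖ₑ ^ 2) +
        ENNReal.ofReal (K / T) := by
        gcongr
        exact tail_int hT hK0
    _ = ENNReal.ofReal (2 * T0 * θ ^ 2 * α0 ^ 2 * β ^ 2 + α0 ^ 2 * β0 ^ 2 / T) +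
        ENNReal.ofReal (α ^ 2) * (∫⁻ ξ, ‖𝓕 G ξ‖ₑ ^ 2) := by
        rw [← ENNReal.ofReal_mul (by positivity), ENNReal.ofReal_add (by positivity) (by positivity),
          show 2 * T0 * θ ^ 2 * α0 ^ 2 * β ^ 2 = α0 ^ 2 * β ^ 2 * θ ^ 2 * (2 * T0) by ring]
        ring

end Pool.Agent.Helper34.EK
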