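import Mathlib
import Pool.Graph.R_seed8.H376R2.MR.Defs

set_option autoImplicit false

/-!
Project EK (helper34): integers with exactly `k ≥ 3` prime factors in windows of length `√Y`.
Definitions and statements of the modules.
-/

namespace Pool.Agent.Helper34.EK
open Finset MeasureTheory
open Pool.Agent.H376R2.MR (er)

/-- `log n` at the primes, `0` elsewhere -/
noncomputable def tw (n : ℕ) : ℝ := if n.Prime then Real.log n else 0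

/-- the primes in `(P, R]` -/
def PR (P R : ℕ) : Finset ℕ := (Ioc P R).filter Nat.Prime

/-- `∑ 1 / a` over the primes in `(P, R]` -/
noncomputable def sg (P R : ℕ) : ℝ := ∑ a ∈ PR P R, 1 / (a : ℝ)

/-- `∑ log p` over the representations `n = a p` with primes `a`, `p`, `P < a ≤ R` -/
noncomputable def g (P R n : ℕ) : ℝ := ∑ a ∈ (PR P R).filter (fun a => a ∣ n), tw (n / a)

/-- `∑_{m < n ≤ m + h} g(n)` -/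
noncomputable def Gh (P R h m : ℕ) : ℝ := ∑ n ∈ Ioc m (m + h), g P R n

/-- (A1) the sums over the primes minus the sums over the integers, twisted by `n^{iτ}` -/
def S_A1 : Prop := ∀ A K : ℕ, ∃ C : ℝ, ∀ (M N : ℕ) (τ : ℝ), 2 ≤ M → M ≤ N → |τ| ≤ (M : ℝ) ^ A →
  ‖∑ n ∈ Ioc M N, (((tw n - 1) / n : ℝ) : ℂ) * er τ (Real.log n)‖ ≤ C * (1 + Real.log N) / Real.log M ^ K

/-- (A2) the sums over the primes, twisted by `n^{iτ}` -/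
def S_A2 : Prop := ∀ A K : ℕ, ∃ C : ℝ, ∀ (M N : ℕ) (τ : ℝ), 2 ≤ M → M ≤ N → |τ| ≤ (M : ℝ) ^ A →
  ‖∑ p ∈ PR M N, ((1 / p : ℝ) : ℂ) * er τ (Real.log p)‖ ≤
    C * (1 + Real.log N) * (1 / Real.log M ^ K + 1 / (1 + |τ|))

/-- the indicator of `(0, θ]` -/
noncomputable def Wi (θ v : ℝ) : ℂ := (Set.Ioc (0 : ℝ) θ).indicator (fun _ => (1 : ℂ)) v

/-- (B) the mean square of a bilinear sum over short multiplicative windows -/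
def S_B : Prop := ∀ (s t : Finset ℕ) (a b : ℕ → ℝ) (θ α α0 β β0 T0 T : ℝ), 0 < θ → 0 ≤ α → 0 ≤ β → 1 ≤ T0 → T0 ≤ T →
  (∀ ξ : ℝ, T0 ≤ |ξ| → |ξ| ≤ T → ‖∑ i ∈ s, (a i : ℂ) * er (2 * Real.pi * ξ) (Real.log i)‖ ≤ α) →
  (∀ ξ : ℝ, ‖∑ i ∈ s, (a i : ℂ) * er (2 * Real.pi * ξ) (Real.log i)‖ ≤ α0) →
  (∀ ξ : ℝ, |ξ| ≤ T0 → ‖∑ j ∈ t, (b j : ℂ) * er (2 * Real.pi * ξ) (Real.log j)‖ ≤ β) →
  (∀ ξ : ℝ, ‖∑ j ∈ t, (b j : ℂ) * er (2 * Real.pi * ξ) (Real.log j)‖ ≤ β0) →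
    ∫⁻ v : ℝ, ‖∑ i ∈ s, ∑ j ∈ t, ((a i * b j : ℝ) : ℂ) * Wi θ (v + Real.log i + Real.log j)‖ₑ ^ 2 ≤
      ENNReal.ofReal (2 * T0 * θ ^ 2 * α0 ^ 2 * β ^ 2 + α0 ^ 2 * β0 ^ 2 / T) +
        ENNReal.ofReal (α ^ 2) * ∫⁻ v : ℝ, ‖∑ j ∈ t, (b j : ℂ) * Wi θ (v + Real.log j)‖ₑ ^ 2

/-- (V) the products `a p` in almost all short intervals, `X < m ≤ 2 X` -/
def S_V : Prop := ∀ δ η : ℝ, 0 < δ → 0 < η → ∀ K : ℕ, ∃ X₀ : ℕ, ∀ X : ℕ, X₀ ≤ X → ∀ h P R : ℕ,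
  (X : ℝ) ^ δ ≤ P → P ≤ R → (R : ℝ) * (X : ℝ) ^ η ≤ h → h ≤ X →
    ∑ m ∈ Ioc X (2 * X), |Gh P R h m - h * sg P R| ≤ X * h / Real.log X ^ K

/-- (V') the products `a p` in almost all short intervals, `m ≤ M` -/
def S_V' : Prop := ∀ δ η : ℝ, 0 < δ → 0 < η → ∀ K : ℕ, ∃ M₀ : ℕ, ∀ M : ℕ, M₀ ≤ M → ∀ h P R : ℕ,
  (M : ℝ) ^ δ ≤ P → P ≤ R → (R : ℝ) * (M : ℝ) ^ η ≤ h → h ^ 2 ≤ M →
    ∑ m ∈ Ioc 0 M, |Gh P R h m - h * sg P R| ≤ M * h / Real.log M ^ K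

/-- the error for the multiples of `q` in `(y, y + H]` -/
noncomputable def Er (P R y H q : ℕ) : ℝ :=
  |∑ n ∈ (Ioc y (y + H)).filter (fun n => q ∣ n), g P R (n / q) - (H : ℝ) / q * sg P R|

/-- (W) the products `q a p` in windows of length `√Y` -/
def S_W : Prop := ∀ ε δ : ℝ, 0 < ε → 0 < δ → ∀ K : ℕ, ∃ Y₀ : ℕ, ∀ Y : ℕ, Y₀ ≤ Y → ∀ H Q₀ Q₁ P R s : ℕ,
  1 ≤ s → s ≤ Q₀ → Y ≤ s * H * Q₀ → Q₀ ≤ Q₁ → (Y : ℝ) ^ δ ≤ P → P ≤ R → (Q₁ : ℝ) * R * (Y : ℝ) ^ ε ≤ H →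
    2 * H ^ 2 ≤ Y → ∀ W : Finset ℕ, (∀ y ∈ W, Y ≤ y ∧ y ≤ 9 * Y) →
      (∀ x ∈ W, ∀ y ∈ W, x ≠ y → (H : ℤ) ≤ |(x : ℤ) - y|) → W.card = s ^ 2 →
        ∑ y ∈ W, ∑ q ∈ Ioc Q₀ Q₁, Er P R y H q ≤ (s : ℝ) ^ 2 * H / Real.log Y ^ K

/-- the integers in `(U, V]` with exactly `j` prime factors (with multiplicity), all larger than `z` -/
noncomputable def EN (j : ℕ) (z U V : ℝ) : Finset ℕ := by
  classical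
  exact (Ioc ⌊U⌋₊ ⌊V⌋₊).filter (fun q => ArithmeticFunction.cardFactors q = j ∧ ∀ p : ℕ, p.Prime → p ∣ q → z < p)

/-- (R) the sum of the reciprocals -/
def S_R : Prop := ∀ j : ℕ, 1 ≤ j → ∀ κ : ℝ, 0 < κ → κ ≤ 1 → ∃ δ c U₀ : ℝ, 0 < δ ∧ 0 < c ∧ ∀ U V : ℝ, U₀ ≤ U →
  U ^ (1 + κ) ≤ V → c ≤ ∑ q ∈ EN j (U ^ δ) U V, 1 / (q : ℝ)

end Pool.Agent.Helper34.EK
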