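import Mathlib
import Pool.Agent.Helper34.EK.Stm

set_option autoImplicit false

/-! Elementary facts about the weights. -/

namespace Pool.Agent.Helper34.EK
open Finset MeasureTheory
open Pool.Agent.H376R2.MR (er)

lemma tw_nonneg (n : ℕ) : 0 ≤ tw n := by
  unfold tw
  split_ifs
  · exact Real.log_natCast_nonneg n
  · exact le_rfl

lemma tw_le (n : ℕ) : tw n ≤ Real.log n := by
  unfold tw
  split_ifs
  · exact le_rfl
  · exact Real.log_natCast_nonneg n

lemma tw_prime {p : ℕ} (hp : p.Prime) : tw p = Real.log p := by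
  unfold tw
  rw [if_pos hp]

lemma tw_not {p : ℕ} (hp : ¬ p.Prime) : tw p = 0 := by
  unfold tw
  rw [if_neg hp]

lemma mem_PR {P R a : ℕ} : a ∈ PR P R ↔ (P < a ∧ a ≤ R) ∧ a.Prime := by
  unfold PR
  rw [mem_filter, mem_Ioc]

lemma PR_card (P R : ℕ) : (PR P R).card ≤ R := by
  unfold PR
  refine (card_filter_le _ _).trans ?_
  rw [Nat.card_Ioc]
  omega

lemma sg_nonneg (P R : ℕ) : 0 ≤ sg P R := sum_nonneg fun _ _ => by positivity

lemma harm_le (N : ℕ) : ∑ n ∈ Icc 1 N, 1 / (n : ℝ) ≤ 1 + Real.log N := by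
  have h := harmonic_le_one_add_log N
  rw [harmonic_eq_sum_Icc] at h
  push_cast at h
  refine le_trans (le_of_eq ?_) h
  apply sum_congr rfl
  intro n _
  rw [one_div]

lemma sg_le (P R : ℕ) : sg P R ≤ 1 + Real.log R := by
  refine le_trans ?_ (harm_le R)
  unfold sg
  apply sum_le_sum_of_subset_of_nonneg
  · intro a ha
    have := mem_PR.1 ha
    rw [mem_Icc]
    omega
  · intro _ _ _
    positivity

/-- the number of the prime divisors -/
lemma card_pf {n : ℕ} (hn : 1 ≤ n) : ((n.primeFactors).card : ℝ) ≤ 2 * Real.log n := by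
  have h1 : 2 ^ (n.primeFactors).card ≤ n := by
    calc 2 ^ (n.primeFactors).card = ∏ p ∈ n.primeFactors, 2 := by rw [prod_const]
      _ ≤ ∏ p ∈ n.primeFactors, p := prod_le_prod' fun p hp => (Nat.prime_of_mem_primeFactors hp).two_le
      _ ≤ n := Nat.le_of_dvd (by omega) (Nat.prod_primeFactors_dvd n)
  have h2 : Real.log ((2 : ℝ) ^ (n.primeFactors).card) ≤ Real.log n := by
    apply Real.log_le_log (by positivity)
    exact_mod_cast h1
  rw [Real.log_pow] at h2
  have h3 := Real.log_two_gt_d9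
  have h4 : (0 : ℝ) ≤ (n.primeFactors).card := Nat.cast_nonneg _
  nlinarith

/-- the sum over the prime divisors `a ∈ (P, R]` of a bounded function -/
lemma sum_div_le {P R n : ℕ} (hn : 1 ≤ n) {f : ℕ → ℝ} {c : ℝ} (hc : 0 ≤ c) (hf : ∀ a, a ∣ n → f a ≤ c) :
    ∑ a ∈ (PR P R).filter (fun a => a ∣ n), f a ≤ 2 * Real.log n * c := by
  have h1 : ((PR P R).filter (fun a => a ∣ n)) ⊆ n.primeFactors := by
    intro a ha
    rw [mem_filter, mem_PR] at ha
    exact Nat.mem_primeFactors.2 ⟨ha.1.2, ha.2, by omega⟩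
  have h2 : (((PR P R).filter (fun a => a ∣ n)).card : ℝ) ≤ 2 * Real.log n :=
    le_trans (by exact_mod_cast card_le_card h1) (card_pf hn)
  calc ∑ a ∈ (PR P R).filter (fun a => a ∣ n), f a ≤ ∑ a ∈ (PR P R).filter (fun a => a ∣ n), c :=
        sum_le_sum fun a ha => hf a (mem_filter.1 ha).2
    _ = (((PR P R).filter (fun a => a ∣ n)).card : ℝ) * c := by rw [sum_const, nsmul_eq_mul]
    _ ≤ _ := mul_le_mul_of_nonneg_right h2 hc

lemma g_nonneg (P R n : ℕ) : 0 ≤ g P R n := sum_nonneg fun _ _ => tw_nonneg _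

lemma log_div_le {n a : ℕ} (hn : 1 ≤ n) : Real.log ((n / a : ℕ) : ℝ) ≤ Real.log n := by
  rcases Nat.eq_zero_or_pos (n / a) with h | h
  · rw [h, Nat.cast_zero, Real.log_zero]
    exact Real.log_natCast_nonneg n
  · apply Real.log_le_log (by exact_mod_cast h)
    exact_mod_cast Nat.div_le_self n a

lemma g_le (P R : ℕ) {n : ℕ} (hn : 1 ≤ n) : g P R n ≤ 2 * Real.log n ^ 2 := by
  unfold g
  have := sum_div_le (P := P) (R := R) hn (f := fun a => tw (n / a)) (c := Real.log n) (Real.log_natCast_nonneg n)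
    (fun a _ => (tw_le _).trans (log_div_le hn))
  refine this.trans (le_of_eq ?_)
  ring

lemma Gh_nonneg (P R h m : ℕ) : 0 ≤ Gh P R h m := sum_nonneg fun _ _ => g_nonneg _ _ _

lemma Gh_le (P R : ℕ) {h m N : ℕ} (hN : m + h ≤ N) : Gh P R h m ≤ h * (2 * Real.log N ^ 2) := by
  unfold Gh
  calc ∑ n ∈ Ioc m (m + h), g P R n ≤ ∑ n ∈ Ioc m (m + h), 2 * Real.log N ^ 2 := by
        apply sum_le_sum
        intro n hn
        rw [mem_Ioc] at hn
        have h1 : 1 ≤ n := by omega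
        refine (g_le P R h1).trans ?_
        have h2 : (0 : ℝ) < n := by exact_mod_cast h1
        have h3 : Real.log n ≤ Real.log N := Real.log_le_log h2 (by exact_mod_cast (by omega : n ≤ N))
        have h4 : 0 ≤ Real.log n := Real.log_natCast_nonneg n
        have := pow_le_pow_left₀ h4 h3 2
        linarith
    _ = _ := by
        rw [sum_const, Nat.card_Ioc, nsmul_eq_mul]
        congr 2
        omega

/-- sums over the multiples of `i` -/
lemma sum_mult {i m n : ℕ} (hi : 1 ≤ i) (f : ℕ → ℝ) :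
    ∑ k ∈ (Ioc m n).filter (fun k => i ∣ k), f (k / i) = ∑ j ∈ Ioc (m / i) (n / i), f j := by
  symm
  apply sum_nbij' (fun j => i * j) (fun k => k / i)
  · intro j hj
    rw [mem_Ioc] at hj
    rw [mem_filter, mem_Ioc]
    refine ⟨⟨?_, ?_⟩, dvd_mul_right i j⟩
    · have := (Nat.div_lt_iff_lt_mul (by omega)).1 hj.1
      rw [mul_comm]; exact this
    · have := (Nat.le_div_iff_mul_le (by omega)).1 hj.2
      rw [mul_comm]; exact this
  · intro k hk
    rw [mem_filter, mem_Ioc] at hk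
    obtain ⟨⟨h1, h2⟩, h3⟩ := hk
    obtain ⟨j, rfl⟩ := h3
    rw [Nat.mul_div_cancel_left j (by omega), mem_Ioc]
    constructor
    · rw [Nat.div_lt_iff_lt_mul (by omega), mul_comm]; exact h1
    · rw [Nat.le_div_iff_mul_le (by omega), mul_comm]; exact h2
  · intro j _
    exact Nat.mul_div_cancel_left j (by omega)
  · intro k hk
    rw [mem_filter] at hk
    exact Nat.mul_div_cancel' hk.2
  · intro j _
    rw [Nat.mul_div_cancel_left j (by omega)]

/-- the sum of `g` as a double sum -/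
lemma sum_g (P R m n : ℕ) (f : ℕ → ℝ) :
    ∑ k ∈ Ioc m n, ∑ a ∈ (PR P R).filter (fun a => a ∣ k), f (k / a) = ∑ a ∈ PR P R, ∑ j ∈ Ioc (m / a) (n / a), f j := by
  have h1 : ∀ k ∈ Ioc m n, ∑ a ∈ (PR P R).filter (fun a => a ∣ k), f (k / a) =
      ∑ a ∈ PR P R, if a ∣ k then f (k / a) else 0 := fun k _ => sum_filter _ _
  rw [sum_congr rfl h1, sum_comm]
  apply sum_congr rfl
  intro a ha
  rw [← sum_filter]
  have := (mem_PR.1 ha).2.one_lt
  exact sum_mult (by omega) f

lemma Gh_eq (P R h m : ℕ) : Gh P R h m = ∑ a ∈ PR P R, ∑ j ∈ Ioc (m / a) ((m + h) / a), tw j :=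
  sum_g P R m (m + h) tw

/-- the number of the multiples -/
lemma count_mult {a m h : ℕ} (ha : 1 ≤ a) : |((((m + h) / a - m / a : ℕ)) : ℝ) - h / a| ≤ 1 := by
  have ha0 : (0 : ℝ) < a := by exact_mod_cast ha
  have h1 : m / a ≤ (m + h) / a := Nat.div_le_div_right (by omega)
  rw [Nat.cast_sub h1]
  have a1 : (m : ℝ) - a < a * ((m / a : ℕ) : ℝ) := by
    have := Nat.lt_mul_div_succ m (by omega : 0 < a)
    have h : (m : ℝ) < a * (((m / a : ℕ) : ℝ) + 1) := by exact_mod_cast this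
    linarith
  have a2 : (a : ℝ) * ((m / a : ℕ) : ℝ) ≤ m := by exact_mod_cast Nat.mul_div_le m a
  have a3 : (m : ℝ) + h - a < a * (((m + h) / a : ℕ) : ℝ) := by
    have := Nat.lt_mul_div_succ (m + h) (by omega : 0 < a)
    have h : (m : ℝ) + h < a * ((((m + h) / a : ℕ) : ℝ) + 1) := by exact_mod_cast this
    linarith
  have a4 : (a : ℝ) * (((m + h) / a : ℕ) : ℝ) ≤ m + h := by exact_mod_cast Nat.mul_div_le (m + h) a
  rw [abs_le]
  have e : (h : ℝ) / a * a = h := div_mul_cancel₀ _ ha0.ne'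
  constructor
  · have : (-1 : ℝ) * a ≤ ((((m + h) / a : ℕ) : ℝ) - ((m / a : ℕ) : ℝ) - h / a) * a := by nlinarith
    exact le_of_mul_le_mul_right this ha0
  · have : ((((m + h) / a : ℕ) : ℝ) - ((m / a : ℕ) : ℝ) - h / a) * a ≤ 1 * a := by nlinarith
    exact le_of_mul_le_mul_right this ha0

end Pool.Agent.Helper34.EK
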