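import Mathlib
import Pool.Agent.Helper34.EK.Stm

set_option autoImplicit false

/-!
Project EK (helper34): the final statements.
-/

namespace Pool.Agent.Helper34.EK
open Finset

/-- the number of the integers in `(y, y + H]` with exactly `k` prime factors (with multiplicity), all larger than `z` -/
noncomputable def cE (k : ℕ) (z : ℝ) (y H : ℕ) : ℕ := by
  classical
  exact ((Ioc y (y + H)).filter (fun n => ArithmeticFunction.cardFactors n = k ∧ ∀ p : ℕ, p.Prime → p ∣ n → z < p)).card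

/-- (G) few windows with few integers with exactly `k` prime factors -/
def S_G : Prop := ∀ k : ℕ, 3 ≤ k → ∀ ε : ℝ, 0 < ε → ∃ δ c C : ℝ, 0 < δ ∧ 0 < c ∧ 0 < C ∧
  ∀ Y H : ℕ, 2 ≤ Y → 1 ≤ H → H ^ 2 ≤ Y → ∀ B : Finset ℕ, (∀ y ∈ B, Y ≤ y ∧ y ≤ 9 * Y) →
    (∀ x ∈ B, ∀ y ∈ B, x ≠ y → (H : ℤ) ≤ |(x : ℤ) - y|) →
      (∀ y ∈ B, (cE k ((Y : ℝ) ^ δ) y H : ℝ) < c * H / Real.log Y) →
        (B.card : ℝ) ≤ C * (Y : ℝ) ^ ε * ((Y : ℝ) / H ^ 2) ^ 2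

/-- (F) parts 1 and 2 of the final theorem: the parts of the intervals `[n ^ 2 - n, n ^ 2 + n]` -/
def S_F : Prop := ∀ k : ℕ, 3 ≤ k → ∀ ε : ℝ, 0 < ε → ∃ δ c C : ℝ, 0 < δ ∧ 0 < c ∧ 0 < C ∧
  (∀ κ : ℝ, 0 < κ → κ ≤ 1 → ∀ x : ℕ, 2 ≤ x →
    (Nat.card {n : ℕ | 2 ≤ n ∧ n ≤ x ∧ ∃ u h : ℕ, κ * n ≤ h ∧ n ^ 2 - n ≤ u ∧ u + h ≤ n ^ 2 + n ∧
      (cE k ((n : ℝ) ^ δ) u h : ℝ) < c * h / Real.log n} : ℝ) ≤ C / κ ^ 4 * (x : ℝ) ^ ε) ∧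
  (∀ X H : ℕ, 2 ≤ X → 1 ≤ H → H ≤ X →
    (Nat.card {n : ℕ | X < n ∧ n ≤ 2 * X ∧ ∃ u h : ℕ, H ≤ h ∧ n ^ 2 - n ≤ u ∧ u + h ≤ n ^ 2 + n ∧
      (cE k ((n : ℝ) ^ δ) u h : ℝ) < c * h / Real.log n} : ℝ) ≤ C * (X : ℝ) ^ ε * ((X : ℝ) / H) ^ 4) ∧
  (∀ Y H : ℕ, 2 ≤ Y → 1 ≤ H → H ^ 2 ≤ Y → ∀ B : Finset ℕ, (∀ y ∈ B, Y ≤ y ∧ y ≤ 9 * Y) →
    (∀ x ∈ B, ∀ y ∈ B, x < y → x + H ≤ y) →
      (∀ y ∈ B, (cE k ((Y : ℝ) ^ δ) y H : ℝ) < c * H / Real.log Y) →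
        (B.card : ℝ) ≤ C * (Y : ℝ) ^ ε * ((Y : ℝ) / H ^ 2) ^ 2)

end Pool.Agent.Helper34.EK
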