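import Mathlib
import Pool.Agent.Helper34.EK.Bas
import Pool.Agent.Helper34.EK.Stm2

set_option autoImplicit false

/-! Counting integers with exactly `k` prime factors by the products `q a p`. -/

namespace Pool.Agent.Helper34.EK
open Finset
open ArithmeticFunction (cardFactors)

open Classical in
/-- one integer -/
lemma one_n {k Q₁ P R n N : ℕ} {z : ℝ} (QQ : Finset ℕ) (hk : 3 ≤ k) (hn : 1 ≤ n) (hnN : n ≤ N)
    (hQQ : ∀ q ∈ QQ, 1 ≤ q ∧ q ≤ Q₁ ∧ cardFactors q = k - 2 ∧ ∀ p : ℕ, p.Prime → p ∣ q → z < p)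
    (hzP : z ≤ P) (hz0 : 0 ≤ z) (hz : z * Q₁ * R < n) :
    ∑ q ∈ QQ.filter (fun q => q ∣ n), g P R (n / q) ≤
      if (cardFactors n = k ∧ ∀ p : ℕ, p.Prime → p ∣ n → z < p) then (k : ℝ) ^ 2 * Real.log N else 0 := by
  -- the nonzero terms
  have hterm : ∀ q ∈ QQ.filter (fun q => q ∣ n), ∀ a ∈ (PR P R).filter (fun a => a ∣ n / q), tw (n / q / a) ≠ 0 →
      (cardFactors n = k ∧ ∀ p : ℕ, p.Prime → p ∣ n → z < p) ∧ (n / q / a).Prime ∧ n = q * a * (n / q / a) := by
    intro q hq a ha ht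
    rw [mem_filter] at hq ha
    obtain ⟨hq1, hq2⟩ := hq
    obtain ⟨ha1, ha2⟩ := ha
    obtain ⟨b1, b2, b3, b4⟩ := hQQ q hq1
    obtain ⟨⟨c1, c2⟩, c3⟩ := mem_PR.1 ha1
    have hp : (n / q / a).Prime := by
      by_contra hcon
      exact ht (tw_not hcon)
    have e1 : n = q * a * (n / q / a) := by
      have h1 : n = q * (n / q) := (Nat.mul_div_cancel' hq2).symm
      have h2 : n / q = a * (n / q / a) := (Nat.mul_div_cancel' ha2).symm
      calc n = q * (n / q) := h1
        _ = q * (a * (n / q / a)) := by rw [← h2]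
        _ = _ := by ring
    obtain ⟨p, hpd⟩ : ∃ p, p = n / q / a := ⟨_, rfl⟩
    rw [← hpd] at hp e1 ⊢
    have hq0 : q ≠ 0 := by omega
    have ha0 : a ≠ 0 := c3.ne_zero
    refine ⟨⟨?_, ?_⟩, hp, e1⟩
    · rw [e1, ArithmeticFunction.cardFactors_mul (mul_ne_zero hq0 ha0) hp.ne_zero,
        ArithmeticFunction.cardFactors_mul hq0 ha0, b3, ArithmeticFunction.cardFactors_apply_prime c3,
        ArithmeticFunction.cardFactors_apply_prime hp]
      omega
    · intro l hl hln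
      rw [e1] at hln
      rcases (Nat.Prime.dvd_mul hl).1 hln with h | h
      · rcases (Nat.Prime.dvd_mul hl).1 h with h' | h'
        · exact b4 l hl h'
        · have : l = a := (Nat.prime_dvd_prime_iff_eq hl c3).1 h'
          rw [this]
          refine lt_of_le_of_lt hzP ?_
          exact_mod_cast c1
      · have : l = p := (Nat.prime_dvd_prime_iff_eq hl hp).1 h
        rw [this]
        have h1 : (n : ℝ) = q * a * p := by exact_mod_cast e1
        have h2 : z * Q₁ * R < q * a * p := by rw [← h1]; exact hz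
        have h3 : (q : ℝ) ≤ Q₁ := by exact_mod_cast b2
        have h4 : (a : ℝ) ≤ R := by exact_mod_cast c2
        by_contra hcon
        push Not at hcon
        have h5 : (q : ℝ) * a * p ≤ Q₁ * R * z := by gcongr
        linarith
  by_cases hE : (cardFactors n = k ∧ ∀ p : ℕ, p.Prime → p ∣ n → z < p)
  · rw [if_pos hE]
    -- the pairs
    obtain ⟨S, hS⟩ : ∃ S : Finset (Σ _ : ℕ, ℕ), S = ((QQ.filter (fun q => q ∣ n)).sigma
      (fun q => (PR P R).filter (fun a => a ∣ n / q))).filter (fun t => tw (n / t.1 / t.2) ≠ 0) := ⟨_, rfl⟩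
    have e1 : ∑ q ∈ QQ.filter (fun q => q ∣ n), g P R (n / q) = ∑ t ∈ S, tw (n / t.1 / t.2) := by
      rw [hS, sum_filter_ne_zero, sum_sigma]
      rfl
    rw [e1]
    have hlogn : Real.log n ≤ Real.log N := Real.log_le_log (by exact_mod_cast hn) (by exact_mod_cast hnN)
    have hcard : S.card ≤ (n.primeFactors ×ˢ n.primeFactors).card := by
      apply card_le_card_of_injOn (fun t => (t.2, n / t.1 / t.2))
      · rintro ⟨q, a⟩ ht
        rw [mem_coe, hS, mem_filter, mem_sigma] at ht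
        obtain ⟨⟨t1, t2⟩, t3⟩ := ht
        obtain ⟨_, h2, h3⟩ := hterm q t1 a t2 t3
        have t2' := mem_PR.1 (mem_filter.1 t2).1
        rw [mem_coe, mem_product]
        refine ⟨Nat.mem_primeFactors.2 ⟨t2'.2, ?_, by omega⟩, Nat.mem_primeFactors.2 ⟨h2, ?_, by omega⟩⟩
        · exact ((mem_filter.1 t2).2).trans (Nat.div_dvd_of_dvd (mem_filter.1 t1).2)
        · exact Dvd.intro_left _ h3.symm
      · rintro ⟨q, a⟩ ht ⟨q', a'⟩ ht' heq
        rw [mem_coe, hS, mem_filter, mem_sigma] at ht ht'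
        obtain ⟨⟨t1, t2⟩, t3⟩ := ht
        obtain ⟨⟨s1, s2⟩, s3⟩ := ht'
        obtain ⟨_, h2, h3⟩ := hterm q t1 a t2 t3
        obtain ⟨_, h2', h3'⟩ := hterm q' s1 a' s2 s3
        simp only [Prod.mk.injEq] at heq
        obtain ⟨f1, f2⟩ := heq
        have ha' := (mem_PR.1 (mem_filter.1 t2).1).2
        simp only at t2 s2 h3 h3' f1 f2 h2
        subst f1
        have h4 : q * a * (n / q / a) = q' * a * (n / q / a) := by
          rw [← h3, f2, ← h3']
        have h5 : q * a = q' * a := Nat.eq_of_mul_eq_mul_right h2.pos h4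
        have h6 : q = q' := Nat.eq_of_mul_eq_mul_right ha'.pos h5
        rw [h6]
    have hpf : (n.primeFactors).card ≤ k := by
      rw [← hE.1, ArithmeticFunction.cardFactors_apply]
      exact List.toFinset_card_le _
    have hcard2 : (S.card : ℝ) ≤ (k : ℝ) ^ 2 := by
      have : S.card ≤ k ^ 2 := by
        refine hcard.trans ?_
        rw [card_product, sq]
        exact Nat.mul_le_mul hpf hpf
      exact_mod_cast this
    have hN0 : 0 ≤ Real.log N := Real.log_natCast_nonneg N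
    calc ∑ t ∈ S, tw (n / t.1 / t.2) ≤ ∑ t ∈ S, Real.log N := by
          apply sum_le_sum
          rintro ⟨q, a⟩ ht
          refine (tw_le _).trans ?_
          refine le_trans ?_ hlogn
          rw [Nat.div_div_eq_div_mul]
          exact log_div_le hn
      _ = S.card * Real.log N := by rw [sum_const, nsmul_eq_mul]
      _ ≤ _ := mul_le_mul_of_nonneg_right hcard2 hN0
  · rw [if_neg hE]
    apply le_of_eq
    apply sum_eq_zero
    intro q hq
    unfold g
    apply sum_eq_zero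
    intro a ha
    by_contra ht
    exact hE (hterm q hq a ha ht).1

/-- the count from below -/
theorem cnt_lower {k Q₁ P R y H N : ℕ} {z : ℝ} (QQ : Finset ℕ) (hk : 3 ≤ k) (hN : y + H ≤ N)
    (hQQ : ∀ q ∈ QQ, 1 ≤ q ∧ q ≤ Q₁ ∧ cardFactors q = k - 2 ∧ ∀ p : ℕ, p.Prime → p ∣ q → z < p)
    (hzP : z ≤ P) (hz0 : 0 ≤ z) (hz : z * Q₁ * R ≤ y) :
    (H : ℝ) * sg P R * ∑ q ∈ QQ, 1 / (q : ℝ) - ∑ q ∈ QQ, Er P R y H q ≤ cE k z y H * ((k : ℝ) ^ 2 * Real.log N) := by
  classical
  have h1 : (H : ℝ) * sg P R * ∑ q ∈ QQ, 1 / (q : ℝ) - ∑ q ∈ QQ, Er P R y H q ≤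
      ∑ q ∈ QQ, ∑ n ∈ (Ioc y (y + H)).filter (fun n => q ∣ n), g P R (n / q) := by
    rw [mul_sum, ← sum_sub_distrib]
    apply sum_le_sum
    intro q _
    unfold Er
    have := neg_abs_le (∑ n ∈ (Ioc y (y + H)).filter (fun n => q ∣ n), g P R (n / q) - (H : ℝ) / q * sg P R)
    have e : (H : ℝ) * sg P R * (1 / (q : ℝ)) = (H : ℝ) / q * sg P R := by ring
    rw [e]
    linarith
  have h2 : ∑ q ∈ QQ, ∑ n ∈ (Ioc y (y + H)).filter (fun n => q ∣ n), g P R (n / q) =
      ∑ n ∈ Ioc y (y + H), ∑ q ∈ QQ.filter (fun q => q ∣ n), g P R (n / q) := by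
    have a1 : ∀ q ∈ QQ, ∑ n ∈ (Ioc y (y + H)).filter (fun n => q ∣ n), g P R (n / q) =
        ∑ n ∈ Ioc y (y + H), if q ∣ n then g P R (n / q) else 0 := fun q _ => sum_filter _ _
    have a2 : ∀ n ∈ Ioc y (y + H), ∑ q ∈ QQ.filter (fun q => q ∣ n), g P R (n / q) =
        ∑ q ∈ QQ, if q ∣ n then g P R (n / q) else 0 := fun n _ => sum_filter _ _
    rw [sum_congr rfl a1, sum_congr rfl a2, sum_comm]
  rw [h2] at h1
  refine h1.trans ?_
  calc ∑ n ∈ Ioc y (y + H), ∑ q ∈ QQ.filter (fun q => q ∣ n), g P R (n / q)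
      ≤ ∑ n ∈ Ioc y (y + H), if (cardFactors n = k ∧ ∀ p : ℕ, p.Prime → p ∣ n → z < p) then (k : ℝ) ^ 2 * Real.log N else 0 := by
        apply sum_le_sum
        intro n hn
        rw [mem_Ioc] at hn
        apply one_n (Q₁ := Q₁) QQ hk (by omega) (by omega) hQQ hzP hz0
        refine lt_of_le_of_lt hz ?_
        exact_mod_cast hn.1
    _ = cE k z y H * ((k : ℝ) ^ 2 * Real.log N) := by
        rw [← sum_filter, sum_const, nsmul_eq_mul]
        rfl

end Pool.Agent.Helper34.EK
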