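import Mathlib
import Pool.Agent.Helper34.EK.Stm2

set_option autoImplicit false

/-!
Project EK (helper34), module F: the parts of the intervals `[n ^ 2 - n, n ^ 2 + n]`.
-/

namespace Pool.Agent.Helper34.EK
open Finset

namespace EKF

lemma cE_add (k : ℕ) (z : ℝ) (u a b : ℕ) : cE k z u (a + b) = cE k z u a + cE k z (u + a) b := by
  classical
  unfold cE
  rw [← card_union_of_disjoint, ← filter_union]
  · congr 2
    ext x
    rw [mem_union, mem_Ioc, mem_Ioc, mem_Ioc]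
    omega
  · apply disjoint_filter_filter
    rw [disjoint_left]
    intro x hx hx'
    rw [mem_Ioc] at hx hx'
    omega

lemma cE_split (k : ℕ) (z : ℝ) (u m t : ℕ) : cE k z u (t * m) = ∑ i ∈ range t, cE k z (u + i * m) m := by
  induction t with
  | zero => simp [cE]
  | succ t ih => rw [sum_range_succ, Nat.add_mul, one_mul, cE_add, ih]

/-- monotone in `z` -/
lemma cE_anti (k : ℕ) {z z' : ℝ} (hz : z ≤ z') (u h : ℕ) : cE k z' u h ≤ cE k z u h := by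
  classical
  unfold cE
  apply card_le_card
  intro n hn
  rw [mem_filter] at hn ⊢
  exact ⟨hn.1, hn.2.1, fun p hp hpn => lt_of_le_of_lt hz (hn.2.2 p hp hpn)⟩

/-- a short window in a long window -/
lemma sub_window {q : ℕ} {z : ℝ} {u h m : ℕ} {δ : ℝ} (hk : 1 ≤ m) (hkh : m ≤ h) (hδ : 0 ≤ δ)
    (hb : (cE q z u h : ℝ) < δ * h) :
    ∃ u', u ≤ u' ∧ u' + m ≤ u + h ∧ (cE q z u' m : ℝ) < 2 * δ * m := by
  obtain ⟨t, ht⟩ : ∃ t, t = h / m := ⟨_, rfl⟩
  have ht1 : 1 ≤ t := by rw [ht]; exact Nat.div_pos hkh (by omega)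
  have ht2 : t * m ≤ h := by rw [ht]; exact Nat.div_mul_le_self h m
  have ht3 : h < (t + 1) * m := by
    rw [ht, mul_comm]
    exact Nat.lt_mul_div_succ h (by omega)
  have ht4 : (h : ℝ) ≤ 2 * (t * m) := by
    have : h ≤ 2 * (t * m) := by nlinarith
    exact_mod_cast this
  by_contra hcon
  push Not at hcon
  have h1 : ∀ i ∈ range t, 2 * δ * m ≤ (cE q z (u + i * m) m : ℝ) := by
    intro i hi
    rw [mem_range] at hi
    apply hcon (u + i * m) (by omega)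
    have : (i + 1) * m ≤ t * m := Nat.mul_le_mul_right _ hi
    have e : (i + 1) * m = i * m + m := by ring
    omega
  have h2 := sum_le_sum h1
  rw [sum_const, card_range, nsmul_eq_mul] at h2
  have h3 : ∑ i ∈ range t, (cE q z (u + i * m) m : ℝ) = cE q z u (t * m) := by
    rw [cE_split]
    push_cast
    rfl
  rw [h3] at h2
  have h4 : cE q z u (t * m) ≤ cE q z u h := by
    obtain ⟨r, hr⟩ := Nat.exists_eq_add_of_le ht2
    rw [hr, cE_add]
    omega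
  have h5 : (cE q z u (t * m) : ℝ) ≤ cE q z u h := by exact_mod_cast h4
  have h6 : δ * h ≤ δ * (2 * (t * m)) := mul_le_mul_of_nonneg_left ht4 hδ
  have h7 : (t : ℝ) * (2 * δ * m) = δ * (2 * (t * m)) := by ring
  linarith

/-- the integers `n` of a block with a bad window -/
noncomputable def bad (k : ℕ) (δ c : ℝ) (X H : ℕ) : Finset ℕ := by
  classical
  exact (Ioc X (2 * X)).filter (fun n => ∃ u h : ℕ, H ≤ h ∧ n ^ 2 - n ≤ u ∧ u + h ≤ n ^ 2 + n ∧
    (cE k ((n : ℝ) ^ δ) u h : ℝ) < c * h / Real.log n)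

lemma mem_bad {k X H n : ℕ} {δ c : ℝ} : n ∈ bad k δ c X H ↔ (X < n ∧ n ≤ 2 * X) ∧
    ∃ u h : ℕ, H ≤ h ∧ n ^ 2 - n ≤ u ∧ u + h ≤ n ^ 2 + n ∧
    (cE k ((n : ℝ) ^ δ) u h : ℝ) < c * h / Real.log n := by
  classical
  unfold bad
  rw [mem_filter, mem_Ioc]

/-- one block -/
theorem block {k : ℕ} {δ c C ε : ℝ} (hc : 0 < c) (hδ0 : 0 < δ)
    (hg : ∀ Y H : ℕ, 2 ≤ Y → 1 ≤ H → H ^ 2 ≤ Y → ∀ B : Finset ℕ, (∀ y ∈ B, Y ≤ y ∧ y ≤ 9 * Y) →
      (∀ x ∈ B, ∀ y ∈ B, x ≠ y → (H : ℤ) ≤ |(x : ℤ) - y|) →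
      (∀ y ∈ B, (cE k ((Y : ℝ) ^ δ) y H : ℝ) < c * H / Real.log Y) →
        (B.card : ℝ) ≤ C * (Y : ℝ) ^ (ε / 2) * ((Y : ℝ) / H ^ 2) ^ 2)
    (X H : ℕ) (hX : 2 ≤ X) (hH : 1 ≤ H) (hHX : H ≤ X) :
    ((bad k δ (c / 8) X H).card : ℝ) ≤ C * (X : ℝ) ^ ε * ((X : ℝ) / H) ^ 4 := by
  classical
  have hX0 : (2 : ℝ) ≤ X := by exact_mod_cast hX
  have hXpos : (0 : ℝ) < X := by linarith
  have hlX : 0 < Real.log X := Real.log_pos (by linarith)
  have hwin : ∀ n ∈ bad k δ (c / 8) X H, ∃ u' : ℕ, n ^ 2 - n ≤ u' ∧ u' + H ≤ n ^ 2 + n ∧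
      (cE k ((n : ℝ) ^ δ) u' H : ℝ) < 2 * (c / 8 / Real.log X) * H := by
    intro n hn
    obtain ⟨⟨hn1, hn2⟩, u, h, h1, h2, h3, h4⟩ := mem_bad.1 hn
    have hXn : (X : ℝ) ≤ n := by exact_mod_cast hn1.le
    have hl2 : Real.log X ≤ Real.log n := Real.log_le_log hXpos hXn
    have h5 : (cE k ((n : ℝ) ^ δ) u h : ℝ) < c / 8 / Real.log X * h := by
      refine lt_of_lt_of_le h4 ?_
      calc c / 8 * (h : ℝ) / Real.log n ≤ c / 8 * h / Real.log X :=
            div_le_div_of_nonneg_left (by positivity) hlX hl2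
        _ = _ := by ring
    obtain ⟨u', a1, a2, a3⟩ := sub_window hH h1 (by positivity) h5
    exact ⟨u', by omega, by omega, a3⟩
  choose! U hU1 hU2 hU3 using hwin
  have hmono : ∀ n ∈ bad k δ (c / 8) X H, ∀ n' ∈ bad k δ (c / 8) X H, n < n' → U n + H ≤ U n' := by
    intro n hn n' hn' hlt
    have a1 := hU2 n hn
    have a2 := hU1 n' hn'
    have a3 : n ^ 2 + n ≤ n' ^ 2 - n' := by
      apply Nat.le_sub_of_add_le
      nlinarith
    omega
  have hinj : Set.InjOn U (bad k δ (c / 8) X H : Finset ℕ) := by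
    intro n hn n' hn' heq
    rw [mem_coe] at hn hn'
    rcases lt_trichotomy n n' with h | h | h
    · have := hmono n hn n' hn' h
      omega
    · exact h
    · have := hmono n' hn' n hn h
      omega
  have key := hg (X ^ 2) H (by nlinarith) hH (Nat.pow_le_pow_left hHX 2)
    ((bad k δ (c / 8) X H).image U) (by
      intro y hy
      rw [mem_image] at hy
      obtain ⟨n, hn, rfl⟩ := hy
      have a1 := hU1 n hn
      have a2 := hU2 n hn
      have a3 := (mem_bad.1 hn).1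
      constructor
      · have : X ^ 2 ≤ n ^ 2 - n := by
          apply Nat.le_sub_of_add_le
          nlinarith [a3.1]
        omega
      · have : n ^ 2 + n ≤ 9 * X ^ 2 := by nlinarith [a3.2]
        omega) (by
      intro x hx y hy hne
      rw [mem_image] at hx hy
      obtain ⟨n, hn, rfl⟩ := hx
      obtain ⟨n', hn', rfl⟩ := hy
      have hne' : n ≠ n' := by intro e; exact hne (by rw [e])
      rw [le_abs]
      rcases lt_or_gt_of_ne hne' with h | h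
      · right
        have := hmono n hn n' hn' h
        omega
      · left
        have := hmono n' hn' n hn h
        omega) (by
      intro y hy
      rw [mem_image] at hy
      obtain ⟨n, hn, rfl⟩ := hy
      have a3 := (mem_bad.1 hn).1
      have hb := hU3 n hn
      have hz : (n : ℝ) ^ δ ≤ (((X ^ 2 : ℕ) : ℝ)) ^ δ := by
        apply Real.rpow_le_rpow (Nat.cast_nonneg _) _ hδ0.le
        have : n ≤ X ^ 2 := by nlinarith [a3.2]
        exact_mod_cast this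
      have h1 : (cE k ((((X ^ 2 : ℕ) : ℝ)) ^ δ) (U n) H : ℝ) ≤ cE k ((n : ℝ) ^ δ) (U n) H := by
        exact_mod_cast cE_anti k hz (U n) H
      refine lt_of_le_of_lt h1 (lt_of_lt_of_le hb ?_)
      push_cast
      rw [Real.log_pow]
      push_cast
      have hH0 : (0 : ℝ) ≤ H := Nat.cast_nonneg _
      rw [le_div_iff₀ (by positivity)]
      have e1 : 2 * (c / 8 / Real.log X) * H * (2 * Real.log X) = c / 2 * H := by
        field_simp
        norm_num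
      rw [e1]
      nlinarith [mul_nonneg hc.le hH0])
  rw [card_image_of_injOn hinj] at key
  refine key.trans (le_of_eq ?_)
  push_cast
  have e1 : (X : ℝ) ^ 2 / H ^ 2 = (X / H) ^ 2 := by rw [div_pow]
  have e2 : ((X : ℝ) ^ 2) ^ (ε / 2) = (X : ℝ) ^ ε := by
    rw [← Real.rpow_natCast, ← Real.rpow_mul hXpos.le]
    congr 1
    push_cast
    ring
  rw [e1, e2]
  ring

/-- the integers `n ≤ x` with a bad window -/
noncomputable def badx (k : ℕ) (δ c : ℝ) (x : ℕ) (κ : ℝ) : Finset ℕ := by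
  classical
  exact (Icc 2 x).filter (fun n => ∃ u h : ℕ, κ * n ≤ h ∧ n ^ 2 - n ≤ u ∧ u + h ≤ n ^ 2 + n ∧
    (cE k ((n : ℝ) ^ δ) u h : ℝ) < c * h / Real.log n)

lemma mem_badx {k x n : ℕ} {δ κ c : ℝ} : n ∈ badx k δ c x κ ↔ (2 ≤ n ∧ n ≤ x) ∧
    ∃ u h : ℕ, κ * n ≤ h ∧ n ^ 2 - n ≤ u ∧ u + h ≤ n ^ 2 + n ∧
    (cE k ((n : ℝ) ^ δ) u h : ℝ) < c * h / Real.log n := by
  classical
  unfold badx
  rw [mem_filter, mem_Icc]

/-- the integers up to `x` -/
theorem upto {k : ℕ} {δ c C ε : ℝ} (hC : 0 < C) (hε : 0 < ε)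
    (hb : ∀ X H : ℕ, 2 ≤ X → 1 ≤ H → H ≤ X →
      ((bad k δ c X H).card : ℝ) ≤ C * (X : ℝ) ^ ε * ((X : ℝ) / H) ^ 4)
    (κ : ℝ) (hκ : 0 < κ) (hκ1 : κ ≤ 1) (x : ℕ) (hx : 2 ≤ x) :
    ((badx k δ c x κ).card : ℝ) ≤ (1 + C * (1 / (1 - (2 : ℝ) ^ (-ε)))) / κ ^ 4 * (x : ℝ) ^ ε := by
  classical
  have hκ4 : 0 < κ ^ 4 := by positivity
  have hκ41 : κ ^ 4 ≤ 1 := pow_le_one₀ hκ.le hκ1
  have h2e : (2 : ℝ) ^ (-ε) < 1 := Real.rpow_lt_one_of_one_lt_of_neg (by norm_num) (by linarith)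
  have h2e0 : (0 : ℝ) < (2 : ℝ) ^ (-ε) := Real.rpow_pos_of_pos (by norm_num) _
  set S : ℝ := 1 / (1 - (2 : ℝ) ^ (-ε)) with hS
  have hSpos : 0 < S := by rw [hS]; apply one_div_pos.mpr; linarith
  have hSeq : S * (2 : ℝ) ^ (-ε) + 1 = S := by
    rw [hS]
    have : (1 : ℝ) - (2 : ℝ) ^ (-ε) ≠ 0 := by linarith
    field_simp
    ring
  set A : ℝ := C / κ ^ 4 with hA
  have hA0 : 0 < A := by positivity
  have h1 : ∀ j : ℕ, ((badx k δ c (2 ^ (j + 1)) κ).card : ℝ) ≤ 1 + A * S * ((2 : ℝ) ^ j) ^ ε := by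
    intro j
    induction j with
    | zero =>
      have : badx k δ c (2 ^ (0 + 1)) κ ⊆ {2} := by
        intro n hn
        have := (mem_badx.1 hn).1
        rw [mem_singleton]
        omega
      have h2 := card_le_card this
      rw [card_singleton] at h2
      have h3 : ((badx k δ c (2 ^ (0 + 1)) κ).card : ℝ) ≤ 1 := by exact_mod_cast h2
      have h4 : 0 ≤ A * S * ((2 : ℝ) ^ 0) ^ ε := by positivity
      linarith
    | succ j ih =>
      obtain ⟨X, hX⟩ : ∃ X, X = 2 ^ (j + 1) := ⟨_, rfl⟩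
      have hX2 : 2 ≤ X := by
        rw [hX, pow_succ]
        have : 1 ≤ 2 ^ j := Nat.one_le_two_pow
        omega
      have hX0 : (2 : ℝ) ≤ X := by exact_mod_cast hX2
      obtain ⟨H, hH⟩ : ∃ H, H = ⌈κ * X⌉₊ := ⟨_, rfl⟩
      have hH1 : 1 ≤ H := by
        rw [hH]
        exact Nat.one_le_ceil_iff.2 (by positivity)
      have hH2 : H ≤ X := by
        rw [hH, Nat.ceil_le]
        nlinarith
      have hH3 : κ * X ≤ H := by rw [hH]; exact Nat.le_ceil _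
      have hH0 : (1 : ℝ) ≤ H := by exact_mod_cast hH1
      have hsub : badx k δ c (2 ^ (j + 1 + 1)) κ ⊆ badx k δ c X κ ∪ bad k δ c X H := by
        intro n hn
        rw [mem_union]
        obtain ⟨⟨n1, n2⟩, u, h, n3, n4, n5, n7⟩ := mem_badx.1 hn
        by_cases hnX : n ≤ X
        · left
          exact mem_badx.2 ⟨⟨n1, hnX⟩, u, h, n3, n4, n5, n7⟩
        · right
          push Not at hnX
          have hXn : (X : ℝ) ≤ n := by exact_mod_cast hnX.le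
          refine mem_bad.2 ⟨⟨hnX, by rw [hX]; rw [pow_succ] at n2; omega⟩, u, h, ?_, n4, n5, n7⟩
          rw [hH, Nat.ceil_le]
          refine le_trans ?_ n3
          gcongr
      have h2 : ((badx k δ c (2 ^ (j + 1 + 1)) κ).card : ℝ) ≤
          (badx k δ c X κ).card + (bad k δ c X H).card := by
        exact_mod_cast (card_le_card hsub).trans (card_union_le _ _)
      have h3 := hb X H hX2 hH1 hH2
      have h4 : ((X : ℝ) / H) ^ 4 ≤ 1 / κ ^ 4 := by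
        rw [div_pow, div_le_div_iff₀ (by positivity) hκ4, one_mul, ← mul_pow]
        apply pow_le_pow_left₀ (by positivity)
        linarith [mul_comm κ (X : ℝ)]
      have h5 : C * (X : ℝ) ^ ε * ((X : ℝ) / H) ^ 4 ≤ A * (X : ℝ) ^ ε := by
        calc C * (X : ℝ) ^ ε * ((X : ℝ) / H) ^ 4 ≤ C * (X : ℝ) ^ ε * (1 / κ ^ 4) := by gcongr
          _ = _ := by rw [hA]; ring
      rw [← hX] at ih
      have hXr : (X : ℝ) = (2 : ℝ) ^ (j + 1) := by rw [hX]; push_cast; rfl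
      have h6 : ((2 : ℝ) ^ j) ^ ε = (2 : ℝ) ^ (-ε) * (X : ℝ) ^ ε := by
        rw [hXr, pow_succ, Real.mul_rpow (by positivity) (by norm_num), ← mul_assoc,
          mul_comm ((2 : ℝ) ^ (-ε)), mul_assoc, ← Real.rpow_add (by norm_num)]
        simp
      rw [h6] at ih
      rw [← hXr]
      calc ((badx k δ c (2 ^ (j + 1 + 1)) κ).card : ℝ)
          ≤ (1 + A * S * ((2 : ℝ) ^ (-ε) * (X : ℝ) ^ ε)) + A * (X : ℝ) ^ ε := by linarith
        _ = 1 + A * (S * (2 : ℝ) ^ (-ε) + 1) * (X : ℝ) ^ ε := by ring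
        _ = 1 + A * S * (X : ℝ) ^ ε := by rw [hSeq]
  obtain ⟨j, hj⟩ : ∃ j, j = Nat.log 2 x := ⟨_, rfl⟩
  have hj2 : x < 2 ^ (j + 1) := by
    rw [hj]
    exact Nat.lt_pow_succ_log_self (by norm_num) x
  have hj3 : 2 ^ j ≤ x := by
    rw [hj]
    exact Nat.pow_log_le_self 2 (by omega)
  have h2 : ((badx k δ c x κ).card : ℝ) ≤ (badx k δ c (2 ^ (j + 1)) κ).card := by
    have : badx k δ c x κ ⊆ badx k δ c (2 ^ (j + 1)) κ := by
      intro n hn
      obtain ⟨⟨n1, n2⟩, h⟩ := mem_badx.1 hn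
      exact mem_badx.2 ⟨⟨n1, by omega⟩, h⟩
    exact_mod_cast card_le_card this
  refine h2.trans ((h1 j).trans ?_)
  have hx1 : (1 : ℝ) ≤ x := by exact_mod_cast (by omega : 1 ≤ x)
  have h3 : ((2 : ℝ) ^ j) ^ ε ≤ (x : ℝ) ^ ε := by
    apply Real.rpow_le_rpow (by positivity) _ hε.le
    exact_mod_cast hj3
  have h4 : 1 ≤ (x : ℝ) ^ ε := Real.one_le_rpow hx1 hε.le
  have h5 : (1 : ℝ) ≤ 1 / κ ^ 4 := by rw [le_div_iff₀ hκ4, one_mul]; exact hκ41
  calc 1 + A * S * ((2 : ℝ) ^ j) ^ ε ≤ (1 / κ ^ 4) * (x : ℝ) ^ ε + A * S * (x : ℝ) ^ ε := by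
        have h6 : A * S * ((2 : ℝ) ^ j) ^ ε ≤ A * S * (x : ℝ) ^ ε :=
          mul_le_mul_of_nonneg_left h3 (by positivity)
        have h7 : (1 : ℝ) ≤ (1 / κ ^ 4) * (x : ℝ) ^ ε := one_le_mul_of_one_le_of_one_le h5 h4
        linarith
    _ = _ := by rw [hA]; ring

end EKF

open EKF

theorem fin (h : S_G) : S_F := by
  classical
  intro k hk ε hε
  obtain ⟨δ, c, C, hδ, hc, hC, hg⟩ := h k hk (ε / 2) (by positivity)
  have h2e : (2 : ℝ) ^ (-ε) < 1 := Real.rpow_lt_one_of_one_lt_of_neg (by norm_num) (by linarith)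
  have h2e0 : (0 : ℝ) < (2 : ℝ) ^ (-ε) := Real.rpow_pos_of_pos (by norm_num) _
  have hS1 : 1 ≤ 1 / (1 - (2 : ℝ) ^ (-ε)) := by
    rw [le_div_iff₀ (by linarith)]
    linarith
  have hCC : C ≤ 1 + C * (1 / (1 - (2 : ℝ) ^ (-ε))) := by
    have : C * 1 ≤ C * (1 / (1 - (2 : ℝ) ^ (-ε))) := mul_le_mul_of_nonneg_left hS1 hC.le
    linarith
  have hblock := block (ε := ε) hc hδ hg
  refine ⟨δ, c / 8, 1 + C * (1 / (1 - (2 : ℝ) ^ (-ε))), hδ, by positivity, by linarith, ?_, ?_, ?_⟩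
  · intro κ hκ hκ1 x hx
    have h1 := upto (k := k) (δ := δ) (c := c / 8) hC hε hblock κ hκ hκ1 x hx
    refine le_trans (le_of_eq ?_) h1
    have h2 : {n : ℕ | 2 ≤ n ∧ n ≤ x ∧ ∃ u h : ℕ, κ * n ≤ h ∧ n ^ 2 - n ≤ u ∧ u + h ≤ n ^ 2 + n ∧
        (cE k ((n : ℝ) ^ δ) u h : ℝ) < c / 8 * h / Real.log n}
        = ((badx k δ (c / 8) x κ : Finset ℕ) : Set ℕ) := by
      ext n
      rw [mem_coe, mem_badx]
      exact ⟨fun ⟨a, b, c⟩ => ⟨⟨a, b⟩, c⟩, fun ⟨⟨a, b⟩, c⟩ => ⟨a, b, c⟩⟩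
    rw [h2, Nat.card_coe_set_eq, Set.ncard_coe_finset]
  · intro X H hX hH hHX
    have h1 := hblock X H hX hH hHX
    have h2 : {n : ℕ | X < n ∧ n ≤ 2 * X ∧ ∃ u h : ℕ, H ≤ h ∧ n ^ 2 - n ≤ u ∧ u + h ≤ n ^ 2 + n ∧
        (cE k ((n : ℝ) ^ δ) u h : ℝ) < c / 8 * h / Real.log n}
        = ((bad k δ (c / 8) X H : Finset ℕ) : Set ℕ) := by
      ext n
      rw [mem_coe, mem_bad]
      exact ⟨fun ⟨a, b, c⟩ => ⟨⟨a, b⟩, c⟩, fun ⟨⟨a, b⟩, c⟩ => ⟨a, b, c⟩⟩
    rw [h2, Nat.card_coe_set_eq, Set.ncard_coe_finset]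
    refine h1.trans ?_
    gcongr
  · intro Y H hY hH hHY B hB hsep hbad
    have hY1 : (1 : ℝ) ≤ Y := by exact_mod_cast (by omega : 1 ≤ Y)
    have hlY : 0 < Real.log Y := Real.log_pos (by exact_mod_cast (by omega : 1 < Y))
    have h1 := hg Y H hY hH hHY B hB (by
      intro x hx y hy hne
      rw [le_abs]
      rcases lt_or_gt_of_ne hne with h | h
      · right
        have := hsep x hx y hy h
        omega
      · left
        have := hsep y hy x hx h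
        omega) (by
      intro y hy
      refine lt_of_lt_of_le (hbad y hy) ?_
      apply div_le_div_of_nonneg_right _ hlY.le
      apply mul_le_mul_of_nonneg_right _ (Nat.cast_nonneg _)
      linarith)
    refine h1.trans ?_
    have h3 : (Y : ℝ) ^ (ε / 2) ≤ (Y : ℝ) ^ ε := Real.rpow_le_rpow_of_exponent_le hY1 (by linarith)
    gcongr

end Pool.Agent.Helper34.EK
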