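import Mathlib
import Pool.Agent.Helper34.EK.Bas

set_option autoImplicit false

/-! The mean square of the bilinear sum: the simple estimates. -/

namespace Pool.Agent.Helper34.EK
open Finset MeasureTheory
open scoped ENNReal
open Pool.Agent.H376R2.MR (er)

lemma norm_er' (τ x : ℝ) : ‖er τ x‖ = 1 := by
  unfold er
  exact Complex.norm_exp_ofReal_mul_I _

lemma Wi_one {θ v : ℝ} (h1 : 0 < v) (h2 : v ≤ θ) : Wi θ v = 1 := by
  unfold Wi
  rw [Set.indicator_of_mem]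
  exact ⟨h1, h2⟩

lemma Wi_zero {θ v : ℝ} (h : ¬ (0 < v ∧ v ≤ θ)) : Wi θ v = 0 := by
  unfold Wi
  rw [Set.indicator_of_notMem]
  exact h

lemma Wi_meas (θ : ℝ) : Measurable (Wi θ) := by
  unfold Wi
  exact Measurable.indicator measurable_const measurableSet_Ioc

lemma Wi_norm_le (θ v : ℝ) : ‖Wi θ v‖ ≤ 1 := by
  by_cases h : 0 < v ∧ v ≤ θ
  · rw [Wi_one h.1 h.2]; simp
  · rw [Wi_zero h]; simp

lemma Wi_int {θ : ℝ} (hθ : 0 ≤ θ) (c : ℝ) : ∫⁻ v : ℝ, ‖Wi θ (v + c)‖ₑ = ENNReal.ofReal θ := by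
  rw [lintegral_add_right_eq_self (fun v => ‖Wi θ v‖ₑ) c]
  have h1 : ∀ v, ‖Wi θ v‖ₑ = (Set.Ioc (0 : ℝ) θ).indicator (fun _ => (1 : ℝ≥0∞)) v := by
    intro v
    by_cases h : 0 < v ∧ v ≤ θ
    · rw [Wi_one h.1 h.2, Set.indicator_of_mem (show v ∈ Set.Ioc (0 : ℝ) θ from h)]
      simp
    · rw [Wi_zero h, Set.indicator_of_notMem (show v ∉ Set.Ioc (0 : ℝ) θ from h)]
      simp
  simp_rw [h1]
  rw [lintegral_indicator measurableSet_Ioc, setLIntegral_const, Real.volume_Ioc]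
  simp

lemma exp_sub_one {θ : ℝ} (h0 : 0 ≤ θ) (h1 : θ ≤ 1) : Real.exp θ - 1 ≤ 2 * θ := by
  have h := Real.abs_exp_sub_one_sub_id_le (x := θ) (by rw [abs_of_nonneg h0]; exact h1)
  rw [abs_le] at h
  nlinarith [h.2]

/-- the short harmonic sums -/
lemma short_harm {N1 N2 : ℕ} {θ : ℝ} (hN : 1 ≤ N1) (h0 : 0 ≤ θ) (h1 : θ ≤ 1) (v : ℝ) :
    ∑ j ∈ Ioc N1 N2, 1 / (j : ℝ) * ‖Wi θ (v + Real.log j)‖ ≤ 2 * θ + 3 / N1 := by
  classical
  have hN0 : (1 : ℝ) ≤ N1 := by exact_mod_cast hN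
  obtain ⟨u, hu⟩ : ∃ u, u = Real.exp (-v) := ⟨_, rfl⟩
  have hu0 : 0 < u := by rw [hu]; positivity
  have hlu : Real.log u = -v := by rw [hu, Real.log_exp]
  obtain ⟨S, hS⟩ : ∃ S, S = (Ioc N1 N2).filter (fun j : ℕ => 0 < v + Real.log j ∧ v + Real.log j ≤ θ) := ⟨_, rfl⟩
  have e1 : ∑ j ∈ Ioc N1 N2, 1 / (j : ℝ) * ‖Wi θ (v + Real.log j)‖ = ∑ j ∈ S, 1 / (j : ℝ) := by
    rw [hS, sum_filter]
    apply sum_congr rfl
    intro j _
    split_ifs with h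
    · rw [Wi_one h.1 h.2, norm_one, mul_one]
    · rw [Wi_zero h, norm_zero, mul_zero]
  rw [e1]
  rcases S.eq_empty_or_nonempty with hSe | hSe
  · rw [hSe, sum_empty]
    positivity
  have hmem : ∀ j ∈ S, N1 < j ∧ u < j ∧ (j : ℝ) ≤ u * Real.exp θ := by
    intro j hj
    rw [hS, mem_filter, mem_Ioc] at hj
    obtain ⟨⟨a1, a2⟩, a3, a4⟩ := hj
    have hj0 : (0 : ℝ) < j := by exact_mod_cast (by omega : 0 < j)
    refine ⟨a1, ?_, ?_⟩
    · rw [← Real.log_lt_log_iff hu0 hj0, hlu]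
      linarith
    · rw [← Real.log_le_log_iff hj0 (by positivity), Real.log_mul hu0.ne' (Real.exp_pos θ).ne', hlu, Real.log_exp]
      linarith
  have hexp : Real.exp θ ≤ 3 := by
    have := exp_sub_one h0 h1
    linarith
  have hu3 : (N1 : ℝ) / 3 ≤ u := by
    obtain ⟨j, hj⟩ := hSe
    obtain ⟨b1, _, b3⟩ := hmem j hj
    have : (N1 : ℝ) ≤ j := by exact_mod_cast b1.le
    nlinarith
  have hcard : (S.card : ℝ) ≤ u * (Real.exp θ - 1) + 1 := by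
    have hsub : S ⊆ Ioc ⌊u⌋₊ ⌊u * Real.exp θ⌋₊ := by
      intro j hj
      obtain ⟨_, b2, b3⟩ := hmem j hj
      rw [mem_Ioc]
      exact ⟨(Nat.floor_lt hu0.le).2 b2, Nat.le_floor b3⟩
    have h2 : (S.card : ℝ) ≤ ((⌊u * Real.exp θ⌋₊ - ⌊u⌋₊ : ℕ) : ℝ) := by
      have := card_le_card hsub
      rw [Nat.card_Ioc] at this
      exact_mod_cast this
    have h3 : ⌊u⌋₊ ≤ ⌊u * Real.exp θ⌋₊ := Nat.floor_le_floor (le_mul_of_one_le_right hu0.le (Real.one_le_exp h0))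
    rw [Nat.cast_sub h3] at h2
    have h4 : (⌊u * Real.exp θ⌋₊ : ℝ) ≤ u * Real.exp θ := Nat.floor_le (by positivity)
    have h5 : u < ⌊u⌋₊ + 1 := Nat.lt_floor_add_one u
    linarith
  calc ∑ j ∈ S, 1 / (j : ℝ) ≤ ∑ j ∈ S, 1 / u := by
        apply sum_le_sum
        intro j hj
        obtain ⟨_, b2, _⟩ := hmem j hj
        exact one_div_le_one_div_of_le hu0 b2.le
    _ = S.card * (1 / u) := by rw [sum_const, nsmul_eq_mul]
    _ ≤ (u * (Real.exp θ - 1) + 1) * (1 / u) := mul_le_mul_of_nonneg_right hcard (by positivity)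
    _ = (Real.exp θ - 1) + 1 / u := by field_simp
    _ ≤ 2 * θ + 3 / N1 := by
        have h6 := exp_sub_one h0 h1
        have h7 : 1 / u ≤ 3 / N1 := by
          rw [div_le_div_iff₀ hu0 (by linarith)]
          linarith
        linarith

/-- the mean square of the linear sum -/
lemma GG_sq {N1 N2 : ℕ} {θ B D : ℝ} (hN : 1 ≤ N1) (h0 : 0 ≤ θ) (h1 : θ ≤ 1) (b : ℕ → ℝ) (hB : 0 ≤ B)
    (hb : ∀ j ∈ Ioc N1 N2, |b j| ≤ B * (1 / j)) (hD : ∑ j ∈ Ioc N1 N2, |b j| ≤ D) :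
    ∫⁻ v : ℝ, ‖∑ j ∈ Ioc N1 N2, (b j : ℂ) * Wi θ (v + Real.log j)‖ₑ ^ 2 ≤
      ENNReal.ofReal ((B * (2 * θ + 3 / N1)) * (D * θ)) := by
  have hS : ∀ v : ℝ, ‖∑ j ∈ Ioc N1 N2, (b j : ℂ) * Wi θ (v + Real.log j)‖ ≤ B * (2 * θ + 3 / N1) := by
    intro v
    calc ‖∑ j ∈ Ioc N1 N2, (b j : ℂ) * Wi θ (v + Real.log j)‖
        ≤ ∑ j ∈ Ioc N1 N2, ‖(b j : ℂ) * Wi θ (v + Real.log j)‖ := norm_sum_le _ _
      _ ≤ ∑ j ∈ Ioc N1 N2, B * (1 / (j : ℝ) * ‖Wi θ (v + Real.log j)‖) := by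
          apply sum_le_sum
          intro j hj
          rw [norm_mul, Complex.norm_real, Real.norm_eq_abs, ← mul_assoc]
          exact mul_le_mul_of_nonneg_right (hb j hj) (norm_nonneg _)
      _ = B * ∑ j ∈ Ioc N1 N2, 1 / (j : ℝ) * ‖Wi θ (v + Real.log j)‖ := by rw [mul_sum]
      _ ≤ _ := mul_le_mul_of_nonneg_left (short_harm hN h0 h1 v) hB
  have hS0 : 0 ≤ B * (2 * θ + 3 / N1) := by positivity
  have hI : ∫⁻ v : ℝ, ‖∑ j ∈ Ioc N1 N2, (b j : ℂ) * Wi θ (v + Real.log j)‖ₑ ≤ ENNReal.ofReal (D * θ) := by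
    calc ∫⁻ v : ℝ, ‖∑ j ∈ Ioc N1 N2, (b j : ℂ) * Wi θ (v + Real.log j)‖ₑ
        ≤ ∫⁻ v : ℝ, ∑ j ∈ Ioc N1 N2, ENNReal.ofReal |b j| * ‖Wi θ (v + Real.log j)‖ₑ := by
          apply lintegral_mono
          intro v
          refine (enorm_sum_le _ _).trans (le_of_eq ?_)
          apply sum_congr rfl
          intro j _
          rw [enorm_mul]
          congr 1
          rw [← ofReal_norm, Complex.norm_real, Real.norm_eq_abs]
      _ = ∑ j ∈ Ioc N1 N2, ∫⁻ v : ℝ, ENNReal.ofReal |b j| * ‖Wi θ (v + Real.log j)‖ₑ := by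
          apply lintegral_finsetSum
          intro j _
          exact ((Wi_meas θ).comp (measurable_id.add_const _)).enorm.const_mul _
      _ = ∑ j ∈ Ioc N1 N2, ENNReal.ofReal |b j| * ENNReal.ofReal θ := by
          apply sum_congr rfl
          intro j _
          have hm : Measurable (fun v : ℝ => ‖Wi θ (v + Real.log j)‖ₑ) :=
            ((Wi_meas θ).comp (measurable_id.add_const _)).enorm
          rw [lintegral_const_mul _ hm, Wi_int h0]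
      _ = ENNReal.ofReal ((∑ j ∈ Ioc N1 N2, |b j|) * θ) := by
          rw [← sum_mul, ENNReal.ofReal_mul (sum_nonneg fun _ _ => abs_nonneg _),
            ENNReal.ofReal_sum_of_nonneg (fun _ _ => abs_nonneg _)]
      _ ≤ _ := ENNReal.ofReal_le_ofReal (mul_le_mul_of_nonneg_right hD h0)
  calc ∫⁻ v : ℝ, ‖∑ j ∈ Ioc N1 N2, (b j : ℂ) * Wi θ (v + Real.log j)‖ₑ ^ 2
      ≤ ∫⁻ v : ℝ, ENNReal.ofReal (B * (2 * θ + 3 / N1)) * ‖∑ j ∈ Ioc N1 N2, (b j : ℂ) * Wi θ (v + Real.log j)‖ₑ := by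
        apply lintegral_mono
        intro v
        show _ ^ 2 ≤ _
        rw [sq]
        apply mul_le_mul_left
        rw [← ofReal_norm]
        exact ENNReal.ofReal_le_ofReal (hS v)
    _ = ENNReal.ofReal (B * (2 * θ + 3 / N1)) * ∫⁻ v : ℝ, ‖∑ j ∈ Ioc N1 N2, (b j : ℂ) * Wi θ (v + Real.log j)‖ₑ := by
        apply lintegral_const_mul
        apply Measurable.enorm
        apply Finset.measurable_fun_sum
        intro j _
        exact ((Wi_meas θ).comp (measurable_id.add_const _)).const_mul _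
    _ ≤ ENNReal.ofReal (B * (2 * θ + 3 / N1)) * ENNReal.ofReal (D * θ) := by gcongr
    _ = _ := by rw [ENNReal.ofReal_mul hS0]

end Pool.Agent.Helper34.EK
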