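import Mathlib
import Pool.Agent.Helper34.EK.V1

set_option autoImplicit false

/-! The mean square of the bilinear sum. -/

namespace Pool.Agent.Helper34.EK
open Finset MeasureTheory Filter
open scoped ENNReal
open Pool.Agent.H376R2.MR (er)

lemma ev_log_pow (K : ℕ) (c : ℝ) {ε : ℝ} (hε : 0 < ε) : ∀ᶠ X : ℕ in atTop, c * Real.log X ^ K ≤ (X : ℝ) ^ ε := by
  have h := isLittleO_log_rpow_rpow_atTop (K : ℝ) hε
  have h2 := h.bound (c := 1 / (|c| + 1)) (by positivity)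
  have h3 := tendsto_natCast_atTop_atTop (R := ℝ) |>.eventually h2
  filter_upwards [h3, eventually_ge_atTop 1] with X hX hX1
  have hl : 0 ≤ Real.log X := Real.log_natCast_nonneg X
  rw [Real.rpow_natCast, Real.norm_of_nonneg (by positivity), Real.norm_of_nonneg (by positivity)] at hX
  have h4 : (0 : ℝ) ≤ Real.log X ^ K := by positivity
  have h5 : c * Real.log X ^ K ≤ (|c| + 1) * Real.log X ^ K := by
    apply mul_le_mul_of_nonneg_right _ h4
    linarith [le_abs_self c]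
  refine h5.trans ?_
  have h6 : (0 : ℝ) < |c| + 1 := by positivity
  rw [div_mul_eq_mul_div, one_mul, le_div_iff₀ h6] at hX
  linarith

lemma ev_log_ge (c : ℝ) : ∀ᶠ X : ℕ in atTop, c ≤ Real.log X :=
  (Real.tendsto_log_atTop.comp (tendsto_natCast_atTop_atTop (R := ℝ))).eventually_ge_atTop c

lemma ev_rpow_ge (c : ℝ) {ε : ℝ} (hε : 0 < ε) : ∀ᶠ X : ℕ in atTop, c ≤ (X : ℝ) ^ ε :=
  ((tendsto_rpow_atTop hε).comp (tendsto_natCast_atTop_atTop (R := ℝ))).eventually_ge_atTop c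

lemma pow_div_le {l : ℝ} (hl : 1 ≤ l) {a b c : ℕ} (h : a + b ≤ c) : l ^ a / l ^ c ≤ 1 / l ^ b := by
  have h0 : 0 < l := by linarith
  rw [div_le_div_iff₀ (by positivity) (by positivity), one_mul, ← pow_add]
  exact pow_le_pow_right₀ hl h

/-- the bilinear sum -/
noncomputable def FF (P R N1 N2 : ℕ) (θ v : ℝ) : ℂ :=
  ∑ i ∈ PR P R, ∑ j ∈ Ioc N1 N2, ((1 / (i : ℝ) * ((tw j - 1) / j) : ℝ) : ℂ) * Wi θ (v + Real.log i + Real.log j)

lemma bj_le {j N : ℕ} (hj : 1 ≤ j) (hN : j ≤ N) : |(tw j - 1) / (j : ℝ)| ≤ (1 + Real.log N) * (1 / j) := by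
  have hj0 : (0 : ℝ) < j := by exact_mod_cast hj
  have h1 : Real.log j ≤ Real.log N := Real.log_le_log hj0 (by exact_mod_cast hN)
  have h2 := tw_le j
  have h3 := tw_nonneg j
  rw [abs_div, abs_of_pos hj0, ← div_eq_mul_one_div]
  apply div_le_div_of_nonneg_right _ hj0.le
  rw [abs_le]
  constructor
  · have : 0 ≤ Real.log j := Real.log_natCast_nonneg j
    linarith
  · linarith

theorem FF_sq (hA1 : S_A1) (hA2 : S_A2) (hB : S_B) (δ η : ℝ) (hδ : 0 < δ) (hη : 0 < η) (K : ℕ) :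
    ∃ X₀ : ℕ, ∀ X : ℕ, X₀ ≤ X → ∀ (P R : ℕ) (θ : ℝ), (X : ℝ) ^ δ ≤ P → P ≤ R → (R : ℝ) * (X : ℝ) ^ η ≤ X →
      8 * R / X ≤ θ → θ ≤ 1 →
        ∫⁻ v : ℝ, ‖FF P R (X / (4 * R)) (4 * X) θ v‖ₑ ^ 2 ≤ ENNReal.ofReal (θ ^ 2 / Real.log X ^ K) := by
  obtain ⟨A, hA⟩ : ∃ A : ℕ, A = ⌈5 / δ⌉₊ := ⟨_, rfl⟩
  obtain ⟨CA, hCA⟩ := hA2 A (K + 6)
  obtain ⟨CB, hCB⟩ := hA1 1 (2 * K + 6)
  obtain ⟨D1, hD1⟩ : ∃ D1 : ℝ, D1 = 128 * CB ^ 2 / (η / 2) ^ (4 * K + 12) := ⟨_, rfl⟩
  obtain ⟨D3, hD3⟩ : ∃ D3 : ℝ, D3 = 1280 * CA ^ 2 * (1 / δ ^ (K + 6) + 1) ^ 2 := ⟨_, rfl⟩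
  have hD1' : 0 ≤ D1 := by rw [hD1]; positivity
  have hD3' : 0 ≤ D3 := by rw [hD3]; positivity
  have hev : ∀ᶠ X : ℕ in atTop, (2 ≤ X) ∧ (3 ≤ Real.log X) ∧ (3 * D1 ≤ Real.log X) ∧ (3 * D3 ≤ Real.log X) ∧
      (16 ≤ (X : ℝ) ^ η) ∧ (8 ≤ (X : ℝ) ^ (η / 2)) ∧ (8 * Real.log X ^ (K + 6) ≤ (X : ℝ) ^ (η / 2)) ∧
      (3072 * Real.log X ^ (K + 6) ≤ (X : ℝ) ^ (2 : ℝ)) ∧ (8 ≤ (X : ℝ) ^ (1 : ℝ)) ∧
      (1 * Real.log X ^ (K + 6) ≤ (X : ℝ) ^ (4 : ℝ)) := by
    filter_upwards [eventually_ge_atTop 2, ev_log_ge 3, ev_log_ge (3 * D1), ev_log_ge (3 * D3),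
      ev_rpow_ge 16 hη, ev_rpow_ge 8 (half_pos hη), ev_log_pow (K + 6) 8 (half_pos hη),
      ev_log_pow (K + 6) 3072 (by norm_num : (0 : ℝ) < 2), ev_rpow_ge 8 (by norm_num : (0 : ℝ) < 1),
      ev_log_pow (K + 6) 1 (by norm_num : (0 : ℝ) < 4)] with X h1 h2 h3 h4 h5 h6 h7 h8 h9 h10
    exact ⟨h1, h2, h3, h4, h5, h6, h7, h8, h9, h10⟩
  obtain ⟨X₀, hX₀⟩ := eventually_atTop.1 hev
  refine ⟨X₀, ?_⟩
  intro X hX P R θ hP hPR hR hθ hθ1
  obtain ⟨e1, e2, e3, e4, e5, e6, e7, e8, e9, e10⟩ := hX₀ X hX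
  rw [Real.rpow_one] at e9
  have e8' : 3072 * Real.log X ^ (K + 6) ≤ (X : ℝ) ^ 2 := by
    have : (X : ℝ) ^ (2 : ℝ) = (X : ℝ) ^ 2 := by rw [← Real.rpow_natCast]; norm_num
    rw [← this]; exact e8
  have e10' : Real.log X ^ (K + 6) ≤ (X : ℝ) ^ 4 := by
    have : (X : ℝ) ^ (4 : ℝ) = (X : ℝ) ^ 4 := by rw [← Real.rpow_natCast]; norm_num
    rw [← this]; linarith
  obtain ⟨L, hL⟩ : ∃ L, L = Real.log X := ⟨_, rfl⟩
  rw [← hL] at e2 e3 e4 e7 e8' e10' ⊢
  have hX0 : (0 : ℝ) < X := by linarith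
  have hL1 : 1 ≤ L := by linarith
  have hL0 : 0 < L := by linarith
  -- sizes
  have hX1 : (1 : ℝ) ≤ X := by linarith
  have hXδ : 1 ≤ (X : ℝ) ^ δ := Real.one_le_rpow hX1 hδ.le
  have hP1 : (1 : ℝ) ≤ P := hXδ.trans hP
  have hPR' : (P : ℝ) ≤ R := by exact_mod_cast hPR
  have hR1 : (1 : ℝ) ≤ R := hP1.trans hPR'
  have hR1n : 1 ≤ R := by exact_mod_cast hR1
  have hR0 : (0 : ℝ) < R := by linarith
  have hRX : (R : ℝ) ≤ X := by
    refine le_trans ?_ hR
    exact le_mul_of_one_le_right hR0.le (by linarith)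
  have hlR : Real.log R ≤ L := by rw [hL]; exact Real.log_le_log hR0 hRX
  have hlP : δ * L ≤ Real.log P := by
    rw [hL, ← Real.log_rpow hX0]
    exact Real.log_le_log (by positivity) hP
  have hlP0 : 0 < δ * L := by positivity
  have hP2 : 2 ≤ P := by
    have : (1 : ℝ) < P := by
      have : 0 < Real.log P := by linarith
      by_contra hcon
      push Not at hcon
      have := Real.log_nonpos (by linarith) hcon
      linarith
    exact_mod_cast this
  obtain ⟨N1, hN1⟩ : ∃ N1, N1 = X / (4 * R) := ⟨_, rfl⟩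
  rw [← hN1]
  have hXR : (X : ℝ) ^ η ≤ X / R := by
    rw [le_div_iff₀ hR0]; linarith
  have hN1b : (X : ℝ) / (8 * R) ≤ N1 := by
    have h1 : (X : ℝ) / (4 * R) < N1 + 1 := by
      have h := Nat.lt_mul_div_succ X (by omega : 0 < 4 * R)
      rw [← hN1] at h
      have h' : (X : ℝ) < 4 * R * (N1 + 1) := by exact_mod_cast h
      rw [div_lt_iff₀ (by positivity)]
      linarith
    have h2 : (X : ℝ) / (4 * R) = (X / R) / 4 := by field_simp
    have h3 : (X : ℝ) / (8 * R) = (X / R) / 8 := by field_simp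
    rw [h2] at h1
    rw [h3]
    linarith
  have hXη : (X : ℝ) ^ η = (X : ℝ) ^ (η / 2) * (X : ℝ) ^ (η / 2) := by
    rw [← Real.rpow_add hX0]; congr 1; ring
  have hN1c : (X : ℝ) ^ (η / 2) ≤ N1 := by
    refine le_trans ?_ hN1b
    have h3 : (X : ℝ) / (8 * R) = (X / R) / 8 := by field_simp
    rw [h3, le_div_iff₀ (by norm_num)]
    rw [hXη] at hXR
    nlinarith
  have hN1d : (8 : ℝ) ≤ N1 := e6.trans hN1c
  have hN1n : 2 ≤ N1 := by
    have : (2 : ℝ) ≤ N1 := by linarith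
    exact_mod_cast this
  have hlN1 : η / 2 * L ≤ Real.log N1 := by
    rw [hL, ← Real.log_rpow hX0]
    exact Real.log_le_log (by positivity) hN1c
  have hN1X : N1 ≤ 4 * X := by
    rw [hN1]
    exact (Nat.div_le_self _ _).trans (by omega)
  have hl4 : 1 + Real.log ((4 * X : ℕ) : ℝ) ≤ 4 * L := by
    push_cast
    rw [Real.log_mul (by norm_num) hX0.ne', ← hL]
    have : Real.log 4 ≤ 2 := by
      have h4 : (4 : ℝ) = 2 ^ 2 := by norm_num
      rw [h4, Real.log_pow]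
      have := Real.log_two_lt_d9
      push_cast
      linarith
    linarith
  have hl4' : 0 ≤ 1 + Real.log ((4 * X : ℕ) : ℝ) := by
    have := Real.log_natCast_nonneg (4 * X)
    linarith
  have hinv : 1 / (N1 : ℝ) ≤ θ := by
    refine le_trans ?_ hθ
    rw [div_le_div_iff₀ (by linarith) hX0]
    rw [div_le_iff₀ (by positivity)] at hN1b
    linarith
  have hθ0 : 0 < θ := lt_of_lt_of_le (by positivity) hθ
  have hXθ : 1 / (X : ℝ) ≤ θ := by
    refine le_trans ?_ hθ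
    apply div_le_div_of_nonneg_right _ hX0.le
    linarith
  -- the parameters
  obtain ⟨T0, hT0⟩ : ∃ T0 : ℝ, T0 = L ^ (K + 6) := ⟨_, rfl⟩
  obtain ⟨T, hT⟩ : ∃ T : ℝ, T = (X : ℝ) ^ 4 := ⟨_, rfl⟩
  obtain ⟨α, hα⟩ : ∃ α : ℝ, α = |CA| * (2 * L) * (1 / (δ * L) ^ (K + 6) + 1 / L ^ (K + 6)) := ⟨_, rfl⟩
  obtain ⟨β, hβ⟩ : ∃ β : ℝ, β = |CB| * (4 * L) / (η / 2 * L) ^ (2 * K + 6) := ⟨_, rfl⟩
  have hT01 : 1 ≤ T0 := by rw [hT0]; exact one_le_pow₀ hL1
  have hT0T : T0 ≤ T := by rw [hT0, hT]; exact e10'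
  have hα0 : 0 ≤ α := by rw [hα]; positivity
  have hβ0 : 0 ≤ β := by rw [hβ]; positivity
  have hpi : Real.pi ≤ 4 := by linarith [Real.pi_lt_d2]
  have hpi3 : 3 ≤ Real.pi := by linarith [Real.pi_gt_three]
  have key := hB (PR P R) (Ioc N1 (4 * X)) (fun i => 1 / (i : ℝ)) (fun j => (tw j - 1) / (j : ℝ)) θ α (2 * L) β (16 * L ^ 2)
    T0 T hθ0 hα0 hβ0 hT01 hT0T (by
      intro ξ hξ1 hξ2
      have h1 : |2 * Real.pi * ξ| ≤ (P : ℝ) ^ A := by
        rw [abs_mul, abs_of_pos (by positivity : (0 : ℝ) < 2 * Real.pi)]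
        have h2 : (X : ℝ) ^ 5 ≤ (P : ℝ) ^ A := by
          calc (X : ℝ) ^ 5 = (X : ℝ) ^ (5 : ℝ) := by rw [← Real.rpow_natCast]; norm_num
            _ ≤ (X : ℝ) ^ (δ * A) := by
                apply Real.rpow_le_rpow_of_exponent_le hX1
                have : 5 / δ ≤ A := by rw [hA]; exact Nat.le_ceil _
                rw [div_le_iff₀ hδ] at this
                linarith
            _ = ((X : ℝ) ^ δ) ^ A := by rw [Real.rpow_mul hX0.le, Real.rpow_natCast]
            _ ≤ (P : ℝ) ^ A := pow_le_pow_left₀ (by positivity) hP A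
        refine le_trans ?_ h2
        calc 2 * Real.pi * |ξ| ≤ 2 * 4 * T := by gcongr
          _ = 8 * (X : ℝ) ^ 4 := by rw [hT]; ring
          _ ≤ X * (X : ℝ) ^ 4 := by gcongr
          _ = _ := by ring
      have h2 := hCA P R (2 * Real.pi * ξ) hP2 hPR h1
      refine h2.trans ?_
      rw [hα]
      have h3 : 1 / Real.log P ^ (K + 6) ≤ 1 / (δ * L) ^ (K + 6) := by gcongr
      have h4 : 1 / (1 + |2 * Real.pi * ξ|) ≤ 1 / L ^ (K + 6) := by
        rw [← hT0]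
        apply one_div_le_one_div_of_le (by linarith)
        rw [abs_mul, abs_of_pos (by positivity : (0 : ℝ) < 2 * Real.pi)]
        nlinarith [abs_nonneg ξ]
      have hlR0 : 0 ≤ Real.log R := Real.log_natCast_nonneg R
      calc CA * (1 + Real.log R) * (1 / Real.log P ^ (K + 6) + 1 / (1 + |2 * Real.pi * ξ|))
          ≤ |CA| * (1 + Real.log R) * (1 / Real.log P ^ (K + 6) + 1 / (1 + |2 * Real.pi * ξ|)) := by
            have hlP' : 0 < Real.log P := by linarith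
            gcongr
            exact le_abs_self CA
        _ ≤ |CA| * (2 * L) * (1 / (δ * L) ^ (K + 6) + 1 / L ^ (K + 6)) := by
            gcongr
            linarith) (by
      intro ξ
      calc ‖∑ i ∈ PR P R, ((1 / (i : ℝ) : ℝ) : ℂ) * er (2 * Real.pi * ξ) (Real.log i)‖
          ≤ ∑ i ∈ PR P R, ‖((1 / (i : ℝ) : ℝ) : ℂ) * er (2 * Real.pi * ξ) (Real.log i)‖ := norm_sum_le _ _
        _ = sg P R := by
            unfold sg
            apply sum_congr rfl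
            intro i _
            rw [norm_mul, norm_er', mul_one, Complex.norm_real, Real.norm_of_nonneg (by positivity)]
        _ ≤ 1 + Real.log R := sg_le P R
        _ ≤ 2 * L := by linarith) (by
      intro ξ hξ
      have h1 : |2 * Real.pi * ξ| ≤ (N1 : ℝ) ^ 1 := by
        rw [abs_mul, abs_of_pos (by positivity : (0 : ℝ) < 2 * Real.pi), pow_one]
        refine le_trans ?_ hN1c
        refine le_trans ?_ e7
        rw [← hT0]
        calc 2 * Real.pi * |ξ| ≤ 2 * 4 * T0 := by gcongr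
          _ = _ := by ring
      have h2 := hCB N1 (4 * X) (2 * Real.pi * ξ) hN1n hN1X h1
      refine h2.trans ?_
      rw [hβ]
      have hlN0 : 0 < η / 2 * L := by positivity
      calc CB * (1 + Real.log ((4 * X : ℕ) : ℝ)) / Real.log N1 ^ (2 * K + 6)
          ≤ |CB| * (1 + Real.log ((4 * X : ℕ) : ℝ)) / Real.log N1 ^ (2 * K + 6) := by
            have : 0 < Real.log N1 := by linarith
            gcongr
            exact le_abs_self CB
        _ ≤ |CB| * (4 * L) / (η / 2 * L) ^ (2 * K + 6) := by gcongr) (by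
      intro ξ
      calc ‖∑ j ∈ Ioc N1 (4 * X), (((tw j - 1) / (j : ℝ) : ℝ) : ℂ) * er (2 * Real.pi * ξ) (Real.log j)‖
          ≤ ∑ j ∈ Ioc N1 (4 * X), ‖(((tw j - 1) / (j : ℝ) : ℝ) : ℂ) * er (2 * Real.pi * ξ) (Real.log j)‖ := norm_sum_le _ _
        _ = ∑ j ∈ Ioc N1 (4 * X), |(tw j - 1) / (j : ℝ)| := by
            apply sum_congr rfl
            intro i _
            rw [norm_mul, norm_er', mul_one, Complex.norm_real, Real.norm_eq_abs]
        _ ≤ 16 * L ^ 2 := by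
            calc ∑ j ∈ Ioc N1 (4 * X), |(tw j - 1) / (j : ℝ)|
                ≤ ∑ j ∈ Ioc N1 (4 * X), (1 + Real.log ((4 * X : ℕ) : ℝ)) * (1 / j) := by
                  apply sum_le_sum
                  intro j hj
                  rw [mem_Ioc] at hj
                  exact bj_le (by omega) hj.2
              _ = (1 + Real.log ((4 * X : ℕ) : ℝ)) * ∑ j ∈ Ioc N1 (4 * X), 1 / (j : ℝ) := by rw [mul_sum]
              _ ≤ (1 + Real.log ((4 * X : ℕ) : ℝ)) * (1 + Real.log ((4 * X : ℕ) : ℝ)) := by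
                  apply mul_le_mul_of_nonneg_left _ hl4'
                  refine le_trans ?_ (harm_le (4 * X))
                  apply sum_le_sum_of_subset_of_nonneg
                  · intro j hj
                    rw [mem_Ioc] at hj
                    rw [mem_Icc]
                    omega
                  · intro _ _ _
                    positivity
              _ ≤ (4 * L) * (4 * L) := by gcongr
              _ = 16 * L ^ 2 := by ring)
  have hG := GG_sq (N1 := N1) (N2 := 4 * X) (θ := θ) (B := 4 * L) (D := 16 * L ^ 2) (by omega) hθ0.le hθ1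
    (fun j => (tw j - 1) / (j : ℝ)) (by positivity) (by
      intro j hj
      rw [mem_Ioc] at hj
      refine (bj_le (by omega) hj.2).trans ?_
      apply mul_le_mul_of_nonneg_right hl4
      positivity) (by
      calc ∑ j ∈ Ioc N1 (4 * X), |(tw j - 1) / (j : ℝ)|
          ≤ ∑ j ∈ Ioc N1 (4 * X), (1 + Real.log ((4 * X : ℕ) : ℝ)) * (1 / j) := by
            apply sum_le_sum
            intro j hj
            rw [mem_Ioc] at hj
            exact bj_le (by omega) hj.2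
        _ = (1 + Real.log ((4 * X : ℕ) : ℝ)) * ∑ j ∈ Ioc N1 (4 * X), 1 / (j : ℝ) := by rw [mul_sum]
        _ ≤ (1 + Real.log ((4 * X : ℕ) : ℝ)) * (1 + Real.log ((4 * X : ℕ) : ℝ)) := by
            apply mul_le_mul_of_nonneg_left _ hl4'
            refine le_trans ?_ (harm_le (4 * X))
            apply sum_le_sum_of_subset_of_nonneg
            · intro j hj
              rw [mem_Ioc] at hj
              rw [mem_Icc]
              omega
            · intro _ _ _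
              positivity
        _ ≤ (4 * L) * (4 * L) := by gcongr
        _ = 16 * L ^ 2 := by ring)
  refine (le_of_eq rfl).trans (key.trans ?_)
  have hG2 : ENNReal.ofReal (α ^ 2) * ∫⁻ v : ℝ, ‖∑ j ∈ Ioc N1 (4 * X), (((tw j - 1) / (j : ℝ) : ℝ) : ℂ) * Wi θ (v + Real.log j)‖ₑ ^ 2 ≤
      ENNReal.ofReal (α ^ 2 * (320 * L ^ 3 * θ ^ 2)) := by
    rw [ENNReal.ofReal_mul (by positivity)]
    refine mul_le_mul_right (hG.trans (ENNReal.ofReal_le_ofReal ?_)) _
    have : 2 * θ + 3 / (N1 : ℝ) ≤ 5 * θ := by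
      have h3 : 3 / (N1 : ℝ) = 3 * (1 / N1) := by ring
      rw [h3]
      linarith
    calc 4 * L * (2 * θ + 3 / (N1 : ℝ)) * (16 * L ^ 2 * θ) ≤ 4 * L * (5 * θ) * (16 * L ^ 2 * θ) := by gcongr
      _ = _ := by ring
  refine (add_le_add_right hG2 _).trans ?_
  have hT00 : 0 < T0 := by linarith
  have hTT : 0 < T := by linarith
  rw [← ENNReal.ofReal_add (by positivity) (by positivity)]
  apply ENNReal.ofReal_le_ofReal
  -- the final inequality
  have hLK : 0 < L ^ K := by positivity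
  have t1 : 2 * T0 * θ ^ 2 * (2 * L) ^ 2 * β ^ 2 ≤ θ ^ 2 * (D1 * (1 / L ^ (K + 1))) := by
    have hβ2 : β ^ 2 = CB ^ 2 * (16 * L ^ 2) / ((η / 2) ^ (4 * K + 12) * L ^ (4 * K + 12)) := by
      rw [hβ, div_pow, mul_pow, sq_abs, mul_pow, ← pow_mul, mul_pow]
      congr 1
      · ring
      · congr 1 <;> congr 1 <;> ring
    have h1 := pow_div_le hL1 (a := K + 10) (b := K + 1) (c := 4 * K + 12) (by omega)
    calc 2 * T0 * θ ^ 2 * (2 * L) ^ 2 * β ^ 2 = θ ^ 2 * (D1 * (L ^ (K + 10) / L ^ (4 * K + 12))) := by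
          rw [hβ2, hT0, hD1]
          have hη0 : (η / 2) ^ (4 * K + 12) ≠ 0 := by positivity
          have hL0' : L ^ (4 * K + 12) ≠ 0 := by positivity
          field_simp
          ring
      _ ≤ _ := by gcongr
  have t2 : (2 * L) ^ 2 * (16 * L ^ 2) ^ 2 / T ≤ θ ^ 2 * ((1 / 3) * (1 / L ^ K)) := by
    have h1 : 1 / (X : ℝ) ^ 2 ≤ θ ^ 2 := by
      have := pow_le_pow_left₀ (by positivity) hXθ 2
      rw [div_pow, one_pow] at this
      exact this
    have h2 : 3072 * L ^ (K + 6) / (X : ℝ) ^ 2 ≤ 1 := by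
      rw [div_le_one (by positivity)]
      exact e8'
    calc (2 * L) ^ 2 * (16 * L ^ 2) ^ 2 / T = (1 / (X : ℝ) ^ 2) * ((1 / 3) * (1 / L ^ K) * (3072 * L ^ (K + 6) / (X : ℝ) ^ 2)) := by
          rw [hT]
          field_simp
          ring
      _ ≤ θ ^ 2 * ((1 / 3) * (1 / L ^ K) * 1) := by gcongr
      _ = _ := by ring
  have t3 : α ^ 2 * (320 * L ^ 3 * θ ^ 2) ≤ θ ^ 2 * (D3 * (1 / L ^ (K + 1))) := by
    have hα2 : α = |CA| * (2 * L) * ((1 / δ ^ (K + 6) + 1) / L ^ (K + 6)) := by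
      rw [hα, mul_pow]
      congr 1
      field_simp
    have h1 := pow_div_le hL1 (a := 5) (b := K + 1) (c := 2 * K + 12) (by omega)
    calc α ^ 2 * (320 * L ^ 3 * θ ^ 2) = θ ^ 2 * (D3 * (L ^ 5 / L ^ (2 * K + 12))) := by
          rw [hα2, hD3, mul_pow, mul_pow, sq_abs, div_pow, ← pow_mul]
          have e : (K + 6) * 2 = 2 * K + 12 := by ring
          rw [e]
          have hL0' : L ^ (2 * K + 12) ≠ 0 := by positivity
          field_simp
          ring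
      _ ≤ _ := by gcongr
  have t4 : D1 * (1 / L ^ (K + 1)) ≤ (1 / 3) * (1 / L ^ K) := by
    rw [pow_succ]
    have : D1 * (1 / (L ^ K * L)) = (3 * D1 / L) * ((1 / 3) * (1 / L ^ K)) := by field_simp
    rw [this]
    have h2 : 3 * D1 / L ≤ 1 := by rw [div_le_one hL0]; exact e3
    calc (3 * D1 / L) * ((1 / 3) * (1 / L ^ K)) ≤ 1 * ((1 / 3) * (1 / L ^ K)) := by gcongr
      _ = _ := by ring
  have t5 : D3 * (1 / L ^ (K + 1)) ≤ (1 / 3) * (1 / L ^ K) := by
    rw [pow_succ]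
    have : D3 * (1 / (L ^ K * L)) = (3 * D3 / L) * ((1 / 3) * (1 / L ^ K)) := by field_simp
    rw [this]
    have h2 : 3 * D3 / L ≤ 1 := by rw [div_le_one hL0]; exact e4
    calc (3 * D3 / L) * ((1 / 3) * (1 / L ^ K)) ≤ 1 * ((1 / 3) * (1 / L ^ K)) := by gcongr
      _ = _ := by ring
  have hθ2 : 0 ≤ θ ^ 2 := by positivity
  have t4' := mul_le_mul_of_nonneg_left t4 hθ2
  have t5' := mul_le_mul_of_nonneg_left t5 hθ2
  have e : θ ^ 2 / L ^ K = θ ^ 2 * ((1 / 3) * (1 / L ^ K)) + θ ^ 2 * ((1 / 3) * (1 / L ^ K)) + θ ^ 2 * ((1 / 3) * (1 / L ^ K)) := by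
    ring
  rw [e]
  linarith

end Pool.Agent.Helper34.EK
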