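import Mathlib
import Pool.Agent.Helper34.EK.V2
import Pool.Agent.Helper34.EK.Cnt
import Pool.Agent.Helper34.OP.C1

set_option autoImplicit false

/-! Few windows with few integers with exactly `k` prime factors. -/

namespace Pool.Agent.Helper34.EK
open Finset Filter
open ArithmeticFunction (cardFactors)
open Pool.Agent.Helper34.OP (sep_card)

lemma cE_mono (k : ℕ) (z : ℝ) (y : ℕ) {H H' : ℕ} (h : H ≤ H') : cE k z y H ≤ cE k z y H' := by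
  classical
  unfold cE
  apply card_le_card
  intro x hx
  rw [mem_filter, mem_Ioc] at hx ⊢
  exact ⟨⟨hx.1.1, by omega⟩, hx.2⟩

lemma mem_EN {j q : ℕ} {z U V : ℝ} : q ∈ EN j z U V ↔ (⌊U⌋₊ < q ∧ q ≤ ⌊V⌋₊) ∧ cardFactors q = j ∧
    ∀ p : ℕ, p.Prime → p ∣ q → z < p := by
  classical
  unfold EN
  rw [mem_filter, mem_Ioc]

/-- the trivial bound -/
lemma triv_card {Y H : ℕ} (hH : 1 ≤ H) (hHY : H ^ 2 ≤ Y) (B : Finset ℕ) (hB : ∀ y ∈ B, Y ≤ y ∧ y ≤ 9 * Y)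
    (hsep : ∀ x ∈ B, ∀ y ∈ B, x ≠ y → (H : ℤ) ≤ |(x : ℤ) - y|) : (B.card : ℝ) ≤ 9 * Y / H := by
  have hH0 : (1 : ℝ) ≤ H := by exact_mod_cast hH
  have hHY' : (H : ℝ) ^ 2 ≤ Y := by exact_mod_cast hHY
  have h1 : (B.image (fun n : ℕ => (n : ℤ))).card ≤ 8 * Y / H + 1 := by
    apply sep_card hH _ (Y : ℤ) (8 * Y / H + 1)
    · intro x hx
      rw [mem_image] at hx
      obtain ⟨n, hn, rfl⟩ := hx
      obtain ⟨a1, a2⟩ := hB n hn
      refine ⟨by exact_mod_cast a1, ?_⟩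
      have h2 : 8 * Y < H * (8 * Y / H + 1) := Nat.lt_mul_div_succ (8 * Y) (by omega)
      have h3 : n < Y + (8 * Y / H + 1) * H := by
        rw [mul_comm (8 * Y / H + 1) H]
        omega
      exact_mod_cast h3
    · intro x hx y hy hne
      rw [mem_image] at hx hy
      obtain ⟨n, hn, rfl⟩ := hx
      obtain ⟨k, hk, rfl⟩ := hy
      exact hsep n hn k hk (by intro e; exact hne (by rw [e]))
  rw [card_image_of_injective _ Nat.cast_injective] at h1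
  have h2 : (B.card : ℝ) ≤ ((8 * Y / H : ℕ) : ℝ) + 1 := by exact_mod_cast h1
  have h3 : ((8 * Y / H : ℕ) : ℝ) ≤ 8 * Y / H := by
    refine Nat.cast_div_le.trans (le_of_eq ?_)
    push_cast
    ring
  have h4 : 1 ≤ (Y : ℝ) / H := by
    rw [le_div_iff₀ (by linarith)]
    nlinarith
  have h5 : 9 * (Y : ℝ) / H = 8 * Y / H + Y / H := by ring
  linarith

/-- the sum over the primes in `(P, R]` -/
lemma sg_ge (hR : S_R) : ∃ cR T₀ : ℝ, 0 < cR ∧ 4 ≤ T₀ ∧ ∀ t : ℝ, T₀ ≤ t → cR ≤ sg ⌈t⌉₊ ⌊t ^ 2⌋₊ := by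
  obtain ⟨δ, c, U₀, hδ, hc, h⟩ := hR 1 le_rfl (1 / 2) (by norm_num) (by norm_num)
  refine ⟨c, max 16 U₀, hc, by
    have := le_max_left 16 U₀
    linarith, ?_⟩
  intro t ht
  have ht16 : 16 ≤ t := (le_max_left _ _).trans ht
  have htU : U₀ ≤ t := (le_max_right _ _).trans ht
  have h1 : t ≤ ⌈t⌉₊ := Nat.le_ceil t
  have h2 : (⌈t⌉₊ : ℝ) ≤ 2 * t := by
    have := Nat.ceil_lt_add_one (by linarith : 0 ≤ t)
    linarith
  have h3 : t ^ 2 - 1 < ⌊t ^ 2⌋₊ := by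
    have := Nat.lt_floor_add_one (t ^ 2)
    linarith
  obtain ⟨r, hr⟩ : ∃ r : ℝ, r = √t := ⟨_, rfl⟩
  have hr2 : r ^ 2 = t := by rw [hr]; exact Real.sq_sqrt (by linarith)
  have hr0 : 0 ≤ r := by rw [hr]; exact Real.sqrt_nonneg t
  have hr4 : 4 ≤ r := by
    by_contra hcon
    push Not at hcon
    nlinarith
  have h4 : (⌈t⌉₊ : ℝ) ^ (1 + 1 / 2 : ℝ) ≤ ⌊t ^ 2⌋₊ := by
    have a1 : (⌈t⌉₊ : ℝ) ^ (1 + 1 / 2 : ℝ) ≤ (2 * t) ^ (1 + 1 / 2 : ℝ) := Real.rpow_le_rpow (Nat.cast_nonneg _) h2 (by norm_num)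
    have a2 : (2 * t) ^ (1 + 1 / 2 : ℝ) ≤ 3 * (t * r) := by
      rw [Real.rpow_add (by linarith), Real.rpow_one, ← Real.sqrt_eq_rpow, Real.sqrt_mul (by norm_num), ← hr]
      have : √2 ≤ 3 / 2 := by
        rw [Real.sqrt_le_left (by norm_num)]
        norm_num
      have h5 : 0 ≤ t * r := by positivity
      calc 2 * t * (√2 * r) = 2 * √2 * (t * r) := by ring
        _ ≤ 2 * (3 / 2) * (t * r) := by gcongr
        _ = _ := by ring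
    have a3 : 3 * (t * r) ≤ t ^ 2 - 1 := by
      have : t ^ 2 = t * r * r := by
        rw [← hr2]; ring
      rw [this]
      have h6 : 1 ≤ t * r := by nlinarith
      nlinarith
    linarith
  refine (h ⌈t⌉₊ ⌊t ^ 2⌋₊ (htU.trans h1) h4).trans ?_
  unfold sg
  apply sum_le_sum_of_subset_of_nonneg
  · intro q hq
    rw [mem_EN, Nat.floor_natCast, Nat.floor_natCast] at hq
    rw [mem_PR]
    refine ⟨hq.1, ?_⟩
    exact ArithmeticFunction.cardFactors_eq_one_iff_prime.1 hq.2.1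
  · intro _ _ _
    positivity

theorem gg (hW : S_W) (hR : S_R) : S_G := by
  classical
  intro k hk ε hε
  obtain ⟨e, he⟩ : ∃ e : ℝ, e = min ε 1 / 64 := ⟨_, rfl⟩
  have hm0 : 0 < min ε 1 := lt_min hε one_pos
  have he0 : 0 < e := by rw [he]; positivity
  have he1 : e ≤ 1 / 64 := by
    rw [he]
    have := min_le_right ε 1
    linarith
  have heε : 32 * e ≤ ε := by
    rw [he]
    have := min_le_left ε 1
    linarith
  -- `t = Y ^ e`; `e₁ = 8 e`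
  obtain ⟨cR, T₀, hcR, hT₀, hsg⟩ := sg_ge hR
  obtain ⟨δR, cQ, U₀, hδR, hcQ, hRQ⟩ := hR (k - 2) (by omega) (8 * e) (by positivity) (by linarith)
  obtain ⟨Y₁, hY₁⟩ := hW (4 * e) e (by positivity) he0 1
  obtain ⟨δ, hδ⟩ : ∃ δ : ℝ, δ = min (δR / 4) e := ⟨_, rfl⟩
  have hδ0 : 0 < δ := by rw [hδ]; exact lt_min (by positivity) he0
  have hδR' : δ ≤ δR / 4 := by rw [hδ]; exact min_le_left _ _
  have hδe : δ ≤ e := by rw [hδ]; exact min_le_right _ _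
  have hk0 : (0 : ℝ) < k := by exact_mod_cast (by omega : 0 < k)
  have hev : ∀ᶠ Y : ℕ in atTop, (Y₁ ≤ Y) ∧ (16 ≤ Y) ∧ (T₀ ≤ (Y : ℝ) ^ e) ∧ (2 / (cR * cQ) ≤ Real.log Y) ∧
      (U₀ ≤ (Y : ℝ) ^ (1 / 4 : ℝ)) := by
    filter_upwards [eventually_ge_atTop Y₁, eventually_ge_atTop 16, ev_rpow_ge T₀ he0, ev_log_ge (2 / (cR * cQ)),
      ev_rpow_ge U₀ (by norm_num : (0 : ℝ) < 1 / 4)] with Y h1 h2 h3 h4 h5
    exact ⟨h1, h2, h3, h4, h5⟩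
  obtain ⟨Y₀, hY₀⟩ := eventually_atTop.1 hev
  obtain ⟨C, hC⟩ : ∃ C : ℝ, C = 9 * Y₀ + 1000 := ⟨_, rfl⟩
  have hY₀0 : (0 : ℝ) ≤ Y₀ := Nat.cast_nonneg _
  refine ⟨δ, cR * cQ / (12 * k ^ 2), C, hδ0, by positivity, by linarith, ?_⟩
  intro Y H hY2 hH hHY B hB hsep hbad
  have hYr2 : (2 : ℝ) ≤ Y := by exact_mod_cast hY2
  have hYp : (0 : ℝ) < Y := by linarith
  have hY1 : (1 : ℝ) ≤ Y := by linarith
  have hH0 : (1 : ℝ) ≤ H := by exact_mod_cast hH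
  have hHY' : (H : ℝ) ^ 2 ≤ Y := by exact_mod_cast hHY
  have hBc := triv_card hH hHY B hB hsep
  have hr1 : 1 ≤ (Y : ℝ) / H ^ 2 := by
    rw [le_div_iff₀ (by positivity), one_mul]
    exact hHY'
  have hr2 : 1 ≤ ((Y : ℝ) / H ^ 2) ^ 2 := one_le_pow₀ hr1
  have hYε : 1 ≤ (Y : ℝ) ^ ε := Real.one_le_rpow hY1 hε.le
  -- small `Y`
  by_cases hYs : Y < Y₀
  · have a1 : (Y : ℝ) ≤ Y₀ := by exact_mod_cast hYs.le
    have a2 : 9 * (Y : ℝ) / H ≤ 9 * Y := div_le_self (by linarith) hH0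
    have a3 : C * 1 * 1 ≤ C * (Y : ℝ) ^ ε * ((Y : ℝ) / H ^ 2) ^ 2 := by
      have : 0 < C := by linarith
      gcongr
    linarith
  push Not at hYs
  obtain ⟨f1, f2, f3, f4, f5⟩ := hY₀ Y hYs
  obtain ⟨L, hL⟩ : ∃ L, L = Real.log Y := ⟨_, rfl⟩
  rw [← hL] at f4 hbad
  have hY16 : (16 : ℝ) ≤ Y := by exact_mod_cast f2
  have hL0 : 0 < L := by rw [hL]; exact Real.log_pos (by linarith)
  obtain ⟨t, ht⟩ : ∃ t : ℝ, t = (Y : ℝ) ^ e := ⟨_, rfl⟩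
  rw [← ht] at f3
  have ht4 : 4 ≤ t := hT₀.trans f3
  have ht0 : 0 < t := by linarith
  have ht1 : 1 ≤ t := by linarith
  have htp : ∀ n : ℕ, t ^ n = (Y : ℝ) ^ (n * e) := by
    intro n
    rw [ht, ← Real.rpow_natCast, ← Real.rpow_mul hYp.le]
    congr 1
    ring
  have ht32 : t ^ 32 ≤ (Y : ℝ) ^ ε := by
    rw [htp]
    apply Real.rpow_le_rpow_of_exponent_le hY1
    push_cast
    exact heε
  obtain ⟨H₁, hH₁⟩ : ∃ H₁, H₁ = H / 2 := ⟨_, rfl⟩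
  have hHH : (H : ℝ) ≤ 2 * H₁ + 1 := by exact_mod_cast (by omega : H ≤ 2 * H₁ + 1)
  have hH₁H : 2 * H₁ ≤ H := by omega
  have hH₁0 : (0 : ℝ) ≤ H₁ := Nat.cast_nonneg _
  -- the trivial case
  by_cases hcase : (H₁ : ℝ) ^ 3 < 2 * Y * t ^ 32
  · have a1 : (H : ℝ) ^ 3 ≤ 54 * (Y * t ^ 32) := by
      have b0 : 1 ≤ 2 * Y * t ^ 32 := by
        have := one_le_pow₀ ht1 (n := 32)
        nlinarith
      by_cases hc : (H₁ : ℝ) < 1
      · have : H₁ = 0 := by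
          have : H₁ < 1 := by exact_mod_cast hc
          omega
        rw [this] at hHH
        push_cast at hHH
        have hH1 : (H : ℝ) ^ 3 ≤ 1 ^ 3 := pow_le_pow_left₀ (by linarith) (by linarith) 3
        linarith
      · push Not at hc
        have hH3 : (H : ℝ) ^ 3 ≤ (3 * H₁) ^ 3 := pow_le_pow_left₀ (by linarith) (by linarith) 3
        calc (H : ℝ) ^ 3 ≤ (3 * H₁) ^ 3 := hH3
          _ = 27 * (H₁ : ℝ) ^ 3 := by ring
          _ ≤ 27 * (2 * Y * t ^ 32) := by linarith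
          _ = _ := by ring
    refine hBc.trans ?_
    have a2 : 9 * (Y : ℝ) / H ≤ 486 * t ^ 32 * (Y / H ^ 2) ^ 2 := by
      rw [div_pow, mul_div_assoc', div_le_div_iff₀ (by positivity) (by positivity)]
      calc 9 * (Y : ℝ) * (H ^ 2) ^ 2 = 9 * Y * H * H ^ 3 := by ring
        _ ≤ 9 * Y * H * (54 * (Y * t ^ 32)) := by gcongr
        _ = _ := by ring
    refine a2.trans ?_
    have : 486 ≤ C := by linarith
    gcongr
  push Not at hcase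
  have hYt : 2 * (Y : ℝ) ≤ H₁ ^ 3 := by
    refine le_trans ?_ hcase
    exact le_mul_of_one_le_right (by positivity) (one_le_pow₀ ht1)
  have hH₁1 : (1 : ℝ) ≤ H₁ := by
    by_contra hcon
    push Not at hcon
    have : (H₁ : ℝ) ^ 3 ≤ 1 ^ 3 := pow_le_pow_left₀ hH₁0 hcon.le 3
    linarith
  have hH₁n : 1 ≤ H₁ := by exact_mod_cast hH₁1
  have hH3 : (H : ℝ) ≤ 3 * H₁ := by linarith
  have h2H : 2 * H₁ ^ 2 ≤ Y := by
    have e1 : (2 * H₁) ^ 2 ≤ H ^ 2 := Nat.pow_le_pow_left hH₁H 2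
    have e2 : (2 * H₁) ^ 2 = 4 * H₁ ^ 2 := by ring
    omega
  have h2Hr : 2 * (H₁ : ℝ) ^ 2 ≤ Y := by exact_mod_cast h2H
  -- the parameters
  obtain ⟨Q₁, hQ₁⟩ : ∃ Q₁, Q₁ = ⌊(H₁ : ℝ) / t ^ 8⌋₊ := ⟨_, rfl⟩
  obtain ⟨Q₀, hQ₀⟩ : ∃ Q₀, Q₀ = ⌈(H₁ : ℝ) / t ^ 16⌉₊ := ⟨_, rfl⟩
  obtain ⟨P, hP⟩ : ∃ P, P = ⌈t⌉₊ := ⟨_, rfl⟩
  obtain ⟨R, hRd⟩ : ∃ R, R = ⌊t ^ 2⌋₊ := ⟨_, rfl⟩
  obtain ⟨s, hs⟩ : ∃ s, s = ⌈(Y : ℝ) / (H₁ * Q₀)⌉₊ := ⟨_, rfl⟩
  have hHt16 : t ^ 5 ≤ (H₁ : ℝ) / t ^ 16 := by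
    -- `H₁ ^ 2 ≤ Y`, `H₁ ^ 3 ≥ 2 Y t ^ 32 ≥ 2 H₁ ^ 2 t ^ 32`
    have a1 : (H₁ : ℝ) ^ 2 * (4 * t ^ 32) ≤ (H₁ : ℝ) ^ 2 * H₁ := by
      calc (H₁ : ℝ) ^ 2 * (4 * t ^ 32) = 2 * (2 * (H₁ : ℝ) ^ 2) * t ^ 32 := by ring
        _ ≤ 2 * Y * t ^ 32 := by gcongr
        _ ≤ (H₁ : ℝ) ^ 3 := hcase
        _ = _ := by ring
    have a2 : 4 * t ^ 32 ≤ (H₁ : ℝ) := le_of_mul_le_mul_left a1 (by positivity)
    rw [le_div_iff₀ (by positivity)]
    calc t ^ 5 * t ^ 16 = t ^ 21 := by ring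
      _ ≤ t ^ 32 := pow_le_pow_right₀ ht1 (by norm_num)
      _ ≤ 4 * t ^ 32 := by
          have : 0 ≤ t ^ 32 := by positivity
          linarith
      _ ≤ _ := a2
  have ht5 : 4 ≤ t ^ 5 := ht4.trans (by
    calc t = t ^ 1 := (pow_one t).symm
      _ ≤ t ^ 5 := pow_le_pow_right₀ ht1 (by norm_num))
  have hQ₀1 : (H₁ : ℝ) / t ^ 16 ≤ Q₀ := by rw [hQ₀]; exact Nat.le_ceil _
  have hQ₀2 : (Q₀ : ℝ) ≤ 2 * (H₁ / t ^ 16) := by
    have : (Q₀ : ℝ) < H₁ / t ^ 16 + 1 := by rw [hQ₀]; exact Nat.ceil_lt_add_one (by positivity)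
    linarith
  have hQ₀4 : (4 : ℝ) ≤ Q₀ := by linarith
  have hQ₀0 : (0 : ℝ) < Q₀ := by linarith
  have hQ₁1 : (Q₁ : ℝ) ≤ H₁ / t ^ 8 := by rw [hQ₁]; exact Nat.floor_le (by positivity)
  have hQ₁2 : (H₁ : ℝ) / t ^ 8 < Q₁ + 1 := by rw [hQ₁]; exact Nat.lt_floor_add_one _
  have hP1 : t ≤ P := by rw [hP]; exact Nat.le_ceil _
  have hR1 : (R : ℝ) ≤ t ^ 2 := by rw [hRd]; exact Nat.floor_le (by positivity)
  have hPR : P ≤ R := by
    rw [hP, hRd, Nat.ceil_le]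
    have : t ^ 2 < (⌊t ^ 2⌋₊ : ℝ) + 1 := Nat.lt_floor_add_one _
    nlinarith
  have hs1 : (Y : ℝ) / (H₁ * Q₀) ≤ s := by rw [hs]; exact Nat.le_ceil _
  have hsY : (Y : ℝ) ≤ s * H₁ * Q₀ := by
    rw [div_le_iff₀ (by positivity)] at hs1
    linarith
  have hs2 : (s : ℝ) ≤ 2 * (Y * t ^ 16 / H₁ ^ 2) := by
    have a1 : (s : ℝ) < Y / (H₁ * Q₀) + 1 := by rw [hs]; exact Nat.ceil_lt_add_one (by positivity)
    have a2 : (Y : ℝ) / (H₁ * Q₀) ≤ Y * t ^ 16 / H₁ ^ 2 := by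
      rw [div_le_iff₀ (by positivity)] at hQ₀1
      rw [div_le_div_iff₀ (by positivity) (by positivity)]
      calc (Y : ℝ) * H₁ ^ 2 = Y * H₁ * H₁ := by ring
        _ ≤ Y * H₁ * (Q₀ * t ^ 16) := by gcongr
        _ = _ := by ring
    have a3 : 1 ≤ Y * t ^ 16 / (H₁ : ℝ) ^ 2 := by
      rw [le_div_iff₀ (by positivity), one_mul]
      have := one_le_pow₀ ht1 (n := 16)
      nlinarith [sq_nonneg (H₁ : ℝ)]
    linarith
  have hsQ₀ : (s : ℝ) ≤ Q₀ := by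
    refine hs2.trans (le_trans ?_ hQ₀1)
    rw [mul_div_assoc', div_le_div_iff₀ (by positivity) (by positivity)]
    calc 2 * (Y * t ^ 16) * t ^ 16 = 2 * Y * t ^ 32 := by ring
      _ ≤ (H₁ : ℝ) ^ 3 := hcase
      _ = _ := by ring
  have hsQ₀n : s ≤ Q₀ := by exact_mod_cast hsQ₀
  have hs1n : 1 ≤ s := by
    rw [hs]
    exact Nat.one_le_ceil_iff.2 (by positivity)
  have hQ01 : Q₀ ≤ Q₁ := by
    have : (Q₀ : ℝ) < Q₁ + 1 := by
      refine lt_of_le_of_lt ?_ hQ₁2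
      refine hQ₀2.trans ?_
      rw [mul_div_assoc', div_le_div_iff₀ (by positivity) (by positivity)]
      have h8 : 2 ≤ t ^ 8 := by
        calc (2 : ℝ) ≤ t := by linarith
          _ = t ^ 1 := (pow_one t).symm
          _ ≤ t ^ 8 := pow_le_pow_right₀ ht1 (by norm_num)
      calc 2 * (H₁ : ℝ) * t ^ 8 ≤ t ^ 8 * H₁ * t ^ 8 := by gcongr
        _ = _ := by ring
    have h2 : Q₀ < Q₁ + 1 := by exact_mod_cast this
    omega
  have hQRe : (Q₁ : ℝ) * R * (Y : ℝ) ^ (4 * e) ≤ H₁ := by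
    have e4 : (Y : ℝ) ^ (4 * e) = t ^ 4 := by rw [htp]; norm_num
    rw [e4]
    calc (Q₁ : ℝ) * R * t ^ 4 ≤ (H₁ / t ^ 8) * t ^ 2 * t ^ 4 := by gcongr
      _ = H₁ * (t ^ 6 / t ^ 8) := by ring
      _ ≤ H₁ * 1 := by
          gcongr
          rw [div_le_one (by positivity)]
          exact pow_le_pow_right₀ ht1 (by norm_num)
      _ = H₁ := mul_one _
  -- the reciprocals
  obtain ⟨w, hw⟩ : ∃ w : ℝ, w = (Y : ℝ) ^ (1 / 4 : ℝ) := ⟨_, rfl⟩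
  rw [← hw] at f5
  have hw0 : 0 < w := by rw [hw]; positivity
  have hw4 : w ^ 4 = Y := by
    rw [hw, ← Real.rpow_natCast, ← Real.rpow_mul hYp.le]
    norm_num
  have hHw : (H₁ : ℝ) ≤ w ^ 2 := by
    have h1 : (H₁ : ℝ) ^ 2 ≤ (w ^ 2) ^ 2 := by
      rw [← pow_mul]
      norm_num
      rw [hw4]
      nlinarith [sq_nonneg (H₁ : ℝ)]
    exact le_of_sq_le_sq h1 (by positivity)
  have hQ₀w : w ≤ Q₀ := by
    have h3 : (Y : ℝ) ≤ Q₀ * w ^ 2 * Q₀ := by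
      refine hsY.trans ?_
      gcongr
    have h4 : w ^ 2 * w ^ 2 ≤ w ^ 2 * (Q₀ : ℝ) ^ 2 := by
      calc w ^ 2 * w ^ 2 = (Y : ℝ) := by rw [← hw4]; ring
        _ ≤ _ := by nlinarith
    have h5 : w ^ 2 ≤ (Q₀ : ℝ) ^ 2 := le_of_mul_le_mul_left h4 (by positivity)
    exact le_of_sq_le_sq h5 (by positivity)
  have hQ₀Y : (Q₀ : ℝ) ≤ (Y : ℝ) ^ (1 / 2 : ℝ) := by
    have a1 : (Y : ℝ) ^ (1 / 2 : ℝ) = w ^ 2 := by
      rw [hw, ← Real.rpow_natCast, ← Real.rpow_mul hYp.le]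
      norm_num
    rw [a1]
    have a2 : 2 * ((H₁ : ℝ) / t ^ 16) ≤ H₁ := by
      rw [mul_div_assoc', div_le_iff₀ (by positivity)]
      have : 2 ≤ t ^ 16 := by
        calc (2 : ℝ) ≤ t := by linarith
          _ = t ^ 1 := (pow_one t).symm
          _ ≤ t ^ 16 := pow_le_pow_right₀ ht1 (by norm_num)
      nlinarith
    linarith
  have hpow : (Q₀ : ℝ) ^ (1 + 8 * e) ≤ Q₁ := by
    rw [Real.rpow_add hQ₀0, Real.rpow_one]
    have a1 : (Q₀ : ℝ) ^ (8 * e) ≤ t ^ 4 := by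
      calc (Q₀ : ℝ) ^ (8 * e) ≤ ((Y : ℝ) ^ (1 / 2 : ℝ)) ^ (8 * e) := Real.rpow_le_rpow hQ₀0.le hQ₀Y (by positivity)
        _ = t ^ 4 := by
            rw [← Real.rpow_mul hYp.le, htp]
            congr 1
            push_cast
            ring
    have a2 : (Q₀ : ℝ) * (Q₀ : ℝ) ^ (8 * e) ≤ 2 * (H₁ / t ^ 16) * t ^ 4 := by gcongr
    have a3 : 2 * ((H₁ : ℝ) / t ^ 16) * t ^ 4 ≤ H₁ / t ^ 8 - 1 := by
      have b1 : (H₁ : ℝ) / t ^ 8 = (H₁ / t ^ 16) * t ^ 8 := by field_simp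
      rw [b1]
      obtain ⟨X, hX⟩ : ∃ X : ℝ, X = (H₁ : ℝ) / t ^ 16 := ⟨_, rfl⟩
      rw [← hX]
      have hX4 : 4 ≤ X := by rw [hX]; linarith
      have ht4' : 4 ≤ t ^ 4 := by
        calc (4 : ℝ) ≤ t := ht4
          _ = t ^ 1 := (pow_one t).symm
          _ ≤ t ^ 4 := pow_le_pow_right₀ ht1 (by norm_num)
      have e8 : t ^ 8 = t ^ 4 * t ^ 4 := by ring
      rw [e8]
      obtain ⟨T, hT⟩ : ∃ T : ℝ, T = t ^ 4 := ⟨_, rfl⟩
      rw [← hT] at ht4' ⊢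
      have h1 : 4 * (X * T) ≤ X * (T * T) := by
        have : 0 ≤ X * T := by positivity
        nlinarith
      have h2 : 1 ≤ X * T := by nlinarith
      linarith
    linarith
  have hUQ : U₀ ≤ (Q₀ : ℝ) := f5.trans hQ₀w
  have hcQsum := hRQ Q₀ Q₁ hUQ hpow
  obtain ⟨QQ, hQQd⟩ : ∃ QQ : Finset ℕ, QQ = EN (k - 2) ((Q₀ : ℝ) ^ δR) Q₀ Q₁ := ⟨_, rfl⟩
  rw [← hQQd] at hcQsum
  have hzz : (Y : ℝ) ^ δ ≤ (Q₀ : ℝ) ^ δR := by
    calc (Y : ℝ) ^ δ ≤ (Y : ℝ) ^ (δR / 4) := Real.rpow_le_rpow_of_exponent_le hY1 hδR'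
      _ = w ^ δR := by
          rw [hw, ← Real.rpow_mul hYp.le]
          congr 1
          ring
      _ ≤ (Q₀ : ℝ) ^ δR := Real.rpow_le_rpow hw0.le hQ₀w hδR.le
  have hzt : (Y : ℝ) ^ δ ≤ t := by
    rw [ht]
    exact Real.rpow_le_rpow_of_exponent_le hY1 hδe
  have hQQm : ∀ q ∈ QQ, (Q₀ < q ∧ q ≤ Q₁) ∧ cardFactors q = k - 2 ∧ ∀ p : ℕ, p.Prime → p ∣ q → (Y : ℝ) ^ δ < p := by
    intro q hq
    rw [hQQd, mem_EN, Nat.floor_natCast, Nat.floor_natCast] at hq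
    exact ⟨hq.1, hq.2.1, fun p hp hpq => lt_of_le_of_lt hzz (hq.2.2 p hp hpq)⟩
  -- the main argument
  have main : B.card < s ^ 2 := by
    by_contra hcon
    push Not at hcon
    obtain ⟨W, hWB, hWc⟩ := exists_subset_card_eq hcon
    have key := hY₁ Y f1 H₁ Q₀ Q₁ P R s hs1n hsQ₀n (by exact_mod_cast hsY) hQ01 (by rw [← ht]; exact hP1) hPR hQRe h2H W
      (fun y hy => hB y (hWB hy)) (by
        intro x hx y hy hne
        have a1 := hsep x (hWB hx) y (hWB hy) hne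
        have a2 : (H₁ : ℤ) ≤ H := by exact_mod_cast (by omega : H₁ ≤ H)
        linarith) hWc
    rw [← hL, pow_one] at key
    have hWne : W.Nonempty := by
      rw [← card_pos, hWc]
      positivity
    obtain ⟨y, hy, hyE⟩ : ∃ y ∈ W, ∑ q ∈ Ioc Q₀ Q₁, Er P R y H₁ q ≤ H₁ / L := by
      apply exists_le_of_sum_le hWne
      rw [sum_const, hWc, nsmul_eq_mul]
      push_cast
      refine key.trans (le_of_eq ?_)
      ring
    have hyB := hWB hy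
    have hy1 := hB y hyB
    have hyr : (Y : ℝ) ≤ y := by exact_mod_cast hy1.1
    have hcnt := cnt_lower (k := k) (Q₁ := Q₁) (P := P) (R := R) (y := y) (H := H₁) (N := 10 * Y) (z := (Y : ℝ) ^ δ) QQ hk (by
      have : H₁ ≤ H₁ ^ 2 := by nlinarith
      omega) (by
      intro q hq
      have := hQQm q hq
      exact ⟨by omega, this.1.2, this.2.1, this.2.2⟩) (hzt.trans hP1) (by positivity) (by
      refine le_trans ?_ hyr
      have a1 : (Q₁ : ℝ) * R ≤ H₁ := by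
        refine le_trans ?_ hQRe
        apply le_mul_of_one_le_right (by positivity)
        exact Real.one_le_rpow hY1 (by positivity)
      have a2 : (Y : ℝ) ^ δ ≤ (Y : ℝ) ^ (1 / 2 : ℝ) := Real.rpow_le_rpow_of_exponent_le hY1 (by linarith)
      have a3 : (Y : ℝ) ^ (1 / 2 : ℝ) = w ^ 2 := by
        rw [hw, ← Real.rpow_natCast, ← Real.rpow_mul hYp.le]
        norm_num
      calc (Y : ℝ) ^ δ * Q₁ * R = (Y : ℝ) ^ δ * (Q₁ * R) := by ring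
        _ ≤ w ^ 2 * w ^ 2 := by
            rw [a3] at a2
            gcongr
            exact a1.trans hHw
        _ = Y := by rw [← hw4]; ring)
    have hEr2 : ∑ q ∈ QQ, Er P R y H₁ q ≤ H₁ / L := by
      refine le_trans ?_ hyE
      apply sum_le_sum_of_subset_of_nonneg
      · intro q hq
        have := hQQm q hq
        rw [mem_Ioc]
        exact this.1
      · intro _ _ _
        exact abs_nonneg _
    have hsg1 : cR ≤ sg P R := by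
      rw [hP, hRd]
      exact hsg t f3
    have hlow : (H₁ : ℝ) * (cR * cQ) ≤ H₁ * sg P R * ∑ q ∈ QQ, 1 / (q : ℝ) := by
      rw [mul_assoc]
      exact mul_le_mul_of_nonneg_left (mul_le_mul hsg1 hcQsum hcQ.le (sg_nonneg P R)) hH₁0
    have hlog10 : Real.log ((10 * Y : ℕ) : ℝ) ≤ 2 * L := by
      push_cast
      rw [Real.log_mul (by norm_num) hYp.ne', ← hL]
      have : Real.log 10 ≤ L := by
        rw [hL]
        exact Real.log_le_log (by norm_num) (by linarith)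
      linarith
    have h1L : (H₁ : ℝ) / L ≤ H₁ * (cR * cQ / 2) := by
      rw [div_eq_mul_one_div]
      apply mul_le_mul_of_nonneg_left _ hH₁0
      rw [div_le_iff₀ hL0]
      rw [div_le_iff₀ (by positivity)] at f4
      linarith
    have hup : (cE k ((Y : ℝ) ^ δ) y H₁ : ℝ) * ((k : ℝ) ^ 2 * Real.log ((10 * Y : ℕ) : ℝ)) ≤
        (cE k ((Y : ℝ) ^ δ) y H₁ : ℝ) * ((k : ℝ) ^ 2 * (2 * L)) := by gcongr
    have hge : (H₁ : ℝ) * (cR * cQ / 2) ≤ (cE k ((Y : ℝ) ^ δ) y H₁ : ℝ) * ((k : ℝ) ^ 2 * (2 * L)) := by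
      linarith
    have hlt := hbad y hyB
    have hmono : (cE k ((Y : ℝ) ^ δ) y H₁ : ℝ) ≤ cE k ((Y : ℝ) ^ δ) y H := by
      exact_mod_cast cE_mono k _ y (by omega : H₁ ≤ H)
    have hlt2 : (cE k ((Y : ℝ) ^ δ) y H₁ : ℝ) < cR * cQ / (12 * k ^ 2) * (3 * H₁) / L := by
      refine lt_of_le_of_lt hmono (lt_of_lt_of_le hlt ?_)
      gcongr
    have hkL : 0 < (k : ℝ) ^ 2 * (2 * L) := by positivity
    have hlt3 := mul_lt_mul_of_pos_right hlt2 hkL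
    have e1 : cR * cQ / (12 * k ^ 2) * (3 * H₁) / L * ((k : ℝ) ^ 2 * (2 * L)) = (H₁ : ℝ) * (cR * cQ / 2) := by
      field_simp
      norm_num
    rw [e1] at hlt3
    linarith
  have hcard : (B.card : ℝ) ≤ (s : ℝ) ^ 2 := by exact_mod_cast main.le
  refine hcard.trans ?_
  calc (s : ℝ) ^ 2 ≤ (2 * (Y * t ^ 16 / H₁ ^ 2)) ^ 2 := pow_le_pow_left₀ (Nat.cast_nonneg _) hs2 2
    _ ≤ (18 * t ^ 16 * (Y / H ^ 2)) ^ 2 := by
        apply pow_le_pow_left₀ (by positivity)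
        rw [mul_div_assoc', mul_div_assoc', div_le_div_iff₀ (by positivity) (by positivity)]
        have e1 : (H : ℝ) ^ 2 ≤ 9 * H₁ ^ 2 := by
          calc (H : ℝ) ^ 2 ≤ (3 * H₁) ^ 2 := pow_le_pow_left₀ (by linarith) hH3 2
            _ = _ := by ring
        calc 2 * (Y * t ^ 16) * (H : ℝ) ^ 2 ≤ 2 * (Y * t ^ 16) * (9 * H₁ ^ 2) := by gcongr
          _ = _ := by ring
    _ = 324 * t ^ 32 * (Y / H ^ 2) ^ 2 := by ring
    _ ≤ C * (Y : ℝ) ^ ε * (Y / H ^ 2) ^ 2 := by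
        have : 324 ≤ C := by linarith
        gcongr

end Pool.Agent.Helper34.EK
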