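import Mathlib
import Pool.Agent.Helper34.EK.Stm2
import Pool.Agent.Helper34.NQ.B2

set_option autoImplicit false

/-!
Project EK (helper34): windows next to almost all values of a quadratic polynomial.
-/

namespace Pool.Agent.Helper34.EK
open Finset
open Pool.Agent.Helper34.NQ (fq)

/-- the squarefree numbers in `(Q₀, Q₁]` -/
def SF (Q₀ Q₁ : ℕ) : Finset ℕ := (Ioc Q₀ Q₁).filter Squarefree

/-- (N) the products `q a p`, `q` squarefree, in windows next to the values of a quadratic polynomial, on average -/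
def S_N : Prop := ∀ (a : ℕ) (b : ℤ) (K₀ : ℕ), 1 ≤ a → ∀ ε δ : ℝ, 0 < ε → 0 < δ → ∀ K : ℕ, ∃ X₀ : ℕ, ∀ X : ℕ, X₀ ≤ X →
  ∀ H Q₀ Q₁ P R : ℕ, 1 ≤ Q₀ → X ≤ Q₀ * H → Q₀ ≤ Q₁ → (X : ℝ) ^ δ ≤ P → P ≤ R → (Q₁ : ℝ) * R * (X : ℝ) ^ ε ≤ H → H ≤ X →
    ∀ g : ℤ, |g| ≤ K₀ * H →
      ∑ x ∈ Ioc X (2 * X), ∑ q ∈ SF Q₀ Q₁, Er P R (fq a b g x).toNat H q ≤ (X : ℝ) * H / Real.log X ^ K

/-- (M) integers with exactly `k` prime factors next to almost all values of a quadratic polynomial -/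
def S_M : Prop := ∀ (a : ℕ) (b : ℤ) (K₀ : ℕ), 1 ≤ a → ∀ k : ℕ, 3 ≤ k → ∀ ε : ℝ, 0 < ε → ∃ δ c : ℝ, 0 < δ ∧ 0 < c ∧
  ∀ A : ℕ, ∃ X₀ : ℕ, ∀ X : ℕ, X₀ ≤ X → ∀ H : ℕ, (X : ℝ) ^ (1 / 2 + ε) ≤ H → H ≤ X → ∀ g : ℤ, |g| ≤ K₀ * H →
    (Nat.card {x : ℕ | X < x ∧ x ≤ 2 * X ∧ (cE k ((X : ℝ) ^ δ) (fq a b g x).toNat H : ℝ) < c * H / Real.log X} : ℝ) ≤
      X / Real.log X ^ A

end Pool.Agent.Helper34.EK
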