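import Mathlib
import Pool.Agent.Helper34.EK.V2

set_option autoImplicit false

/-! From the dyadic intervals to `m ≤ M`. -/

namespace Pool.Agent.Helper34.EK
open Finset Filter

/-- the trivial bound -/
lemma triv_dev {P R h m N : ℕ} (hN : m + h ≤ N) (hRN : R ≤ N) (hR1 : 1 ≤ R) {L : ℝ} (hL : 1 ≤ L) (hlog : Real.log N ≤ 2 * L) :
    |Gh P R h m - h * sg P R| ≤ h * (10 * L ^ 2) := by
  have h1 := Gh_nonneg P R h m
  have h2 := Gh_le P R hN
  have h3 := sg_nonneg P R
  have h4 := sg_le P R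
  have hR0 : (0 : ℝ) < R := by exact_mod_cast hR1
  have h5 : Real.log R ≤ Real.log N := Real.log_le_log hR0 (by exact_mod_cast hRN)
  have h6 : 0 ≤ Real.log N := Real.log_natCast_nonneg N
  have hh : (0 : ℝ) ≤ h := Nat.cast_nonneg h
  have h7 : 2 * Real.log N ^ 2 ≤ 8 * L ^ 2 := by nlinarith
  have h8 : sg P R ≤ 10 * L ^ 2 := by nlinarith
  have h9 : 2 * Real.log N ^ 2 ≤ 10 * L ^ 2 := by nlinarith
  have a1 := mul_le_mul_of_nonneg_left h8 hh
  have a2 := mul_le_mul_of_nonneg_left h9 hh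
  have a3 : 0 ≤ (h : ℝ) * sg P R := mul_nonneg hh h3
  rw [abs_le]
  constructor <;> linarith

/-- (V') -/
theorem v' (hV : S_V) : S_V' := by
  intro δ η hδ hη K
  obtain ⟨X₁, hX₁⟩ := hV δ η hδ hη (K + 1)
  have hev : ∀ᶠ M : ℕ in atTop, (16 ≤ M) ∧ (1 ≤ Real.log M) ∧ (40 * Real.log M ^ (K + 2) ≤ (M : ℝ) ^ (1 / 4 : ℝ)) ∧
      (2 ^ (K + 4) ≤ Real.log M) ∧ ((X₁ : ℝ) ≤ (M : ℝ) ^ (1 / 2 : ℝ)) ∧ (2 ≤ (M : ℝ) ^ (1 / 4 : ℝ)) := by
    filter_upwards [eventually_ge_atTop 16, ev_log_ge 1, ev_log_pow (K + 2) 40 (by norm_num : (0 : ℝ) < 1 / 4),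
      ev_log_ge (2 ^ (K + 4)), ev_rpow_ge (X₁ : ℝ) (by norm_num : (0 : ℝ) < 1 / 2),
      ev_rpow_ge 2 (by norm_num : (0 : ℝ) < 1 / 4)] with M h1 h2 h3 h4 h5 h6
    exact ⟨h1, h2, h3, h4, h5, h6⟩
  obtain ⟨M₀, hM₀⟩ := eventually_atTop.1 hev
  refine ⟨M₀, ?_⟩
  intro M hM h P R hP hPR hRh hhM
  obtain ⟨e1, e2, e3, e4, e5, e6⟩ := hM₀ M hM
  obtain ⟨L, hL⟩ : ∃ L, L = Real.log M := ⟨_, rfl⟩
  rw [← hL] at e2 e3 e4 ⊢
  have hM0 : (16 : ℝ) ≤ M := by exact_mod_cast e1
  have hMp : (0 : ℝ) < M := by linarith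
  have hL0 : 0 < L := by linarith
  have hMδ : 1 ≤ (M : ℝ) ^ δ := Real.one_le_rpow (by linarith) hδ.le
  have hMη : 1 ≤ (M : ℝ) ^ η := Real.one_le_rpow (by linarith) hη.le
  have hP1 : (1 : ℝ) ≤ P := hMδ.trans hP
  have hR1 : (1 : ℝ) ≤ R := hP1.trans (by exact_mod_cast hPR)
  have hR1n : 1 ≤ R := by exact_mod_cast hR1
  have hRh' : (R : ℝ) ≤ h := by
    refine le_trans ?_ hRh
    exact le_mul_of_one_le_right (by linarith) hMη
  have hRhn : R ≤ h := by exact_mod_cast hRh'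
  have hh1 : 1 ≤ h := hR1n.trans hRhn
  have hhMn : h ≤ M := by nlinarith
  -- powers of `M`
  obtain ⟨w, hw⟩ : ∃ w : ℝ, w = (M : ℝ) ^ (1 / 4 : ℝ) := ⟨_, rfl⟩
  rw [← hw] at e3 e6
  have hw0 : 0 < w := by linarith
  have hw4 : w ^ 4 = M := by
    rw [hw, ← Real.rpow_natCast, ← Real.rpow_mul hMp.le]
    norm_num
  have hw2 : (M : ℝ) ^ (1 / 2 : ℝ) = w ^ 2 := by
    rw [hw, ← Real.rpow_natCast, ← Real.rpow_mul hMp.le]
    norm_num
  rw [hw2] at e5
  have hhw : (h : ℝ) ≤ w ^ 2 := by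
    have h1 : (h : ℝ) ^ 2 ≤ (w ^ 2) ^ 2 := by
      rw [← pow_mul]
      norm_num
      rw [hw4]
      exact_mod_cast hhM
    exact le_of_sq_le_sq h1 (by positivity)
  obtain ⟨T₀, hT₀⟩ : ∃ T₀ : ℕ, T₀ = ⌈w ^ 3⌉₊ := ⟨_, rfl⟩
  have hT1 : w ^ 3 ≤ T₀ := by rw [hT₀]; exact Nat.le_ceil _
  have hw31 : 1 ≤ w ^ 3 := one_le_pow₀ (by linarith)
  have hT2 : (T₀ : ℝ) ≤ 2 * w ^ 3 := by
    have : (T₀ : ℝ) < w ^ 3 + 1 := by rw [hT₀]; exact Nat.ceil_lt_add_one (by positivity)
    linarith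
  have hT2n : 2 ≤ T₀ := by
    have : (2 : ℝ) ≤ T₀ := by
      refine le_trans ?_ hT1
      nlinarith [pow_le_pow_left₀ (by norm_num : (0 : ℝ) ≤ 2) e6 3]
    exact_mod_cast this
  have hlog2 : Real.log ((2 * M : ℕ) : ℝ) ≤ 2 * L := by
    push_cast
    rw [Real.log_mul (by norm_num) hMp.ne', ← hL]
    have := Real.log_two_lt_d9
    linarith
  obtain ⟨E, hE⟩ : ∃ E : ℝ, E = (h : ℝ) * (2 ^ (K + 1) / L ^ (K + 1)) := ⟨_, rfl⟩
  have hE0 : 0 ≤ E := by rw [hE]; positivity
  have claim : ∀ N : ℕ, N ≤ M → ∑ m ∈ Ioc 0 N, |Gh P R h m - h * sg P R| ≤ T₀ * (h * (10 * L ^ 2)) + 4 * N * E := by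
    intro N
    induction N using Nat.strong_induction_on with
    | _ N ih =>
      intro hNM
      by_cases hNT : N ≤ T₀
      · calc ∑ m ∈ Ioc 0 N, |Gh P R h m - h * sg P R| ≤ ∑ m ∈ Ioc 0 N, (h : ℝ) * (10 * L ^ 2) := by
              apply sum_le_sum
              intro m hm
              rw [mem_Ioc] at hm
              exact triv_dev (N := 2 * M) (by omega) (by omega) hR1n e2 hlog2
          _ = N * (h * (10 * L ^ 2)) := by rw [sum_const, Nat.card_Ioc, nsmul_eq_mul, Nat.sub_zero]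
          _ ≤ T₀ * (h * (10 * L ^ 2)) := by gcongr
          _ ≤ _ := by
              have : 0 ≤ 4 * (N : ℝ) * E := by positivity
              linarith
      · push Not at hNT
        obtain ⟨X, hX⟩ : ∃ X, X = (N + 1) / 2 := ⟨_, rfl⟩
        have hX1 : X < N := by omega
        have hX2 : N ≤ 2 * X := by omega
        have hX3 : 2 * X ≤ N + 1 := by omega
        have ihX := ih X hX1 (by omega)
        have hXr : w ^ 3 / 2 ≤ X := by
          have a1 : (T₀ : ℝ) ≤ N := by exact_mod_cast hNT.le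
          have a2 : (N : ℝ) ≤ 2 * X := by exact_mod_cast hX2
          linarith
        have hXw : w ^ 2 ≤ X := by
          refine le_trans ?_ hXr
          nlinarith [pow_pos hw0 2]
        have hXM : (X : ℝ) ≤ M := by exact_mod_cast (by omega : X ≤ M)
        have hX0 : (0 : ℝ) < X := lt_of_lt_of_le (by positivity) hXw
        have hlX : L / 2 ≤ Real.log X := by
          have a1 : Real.log (w ^ 2) ≤ Real.log X := Real.log_le_log (by positivity) hXw
          have a2 : Real.log (w ^ 4) = L := by rw [hw4, hL]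
          rw [Real.log_pow] at a1 a2
          push_cast at a1 a2
          linarith
        have hb := hX₁ X (by exact_mod_cast e5.trans hXw) h P R ((Real.rpow_le_rpow hX0.le hXM hδ.le).trans hP) hPR (by
          refine le_trans ?_ hRh
          have := Real.rpow_le_rpow hX0.le hXM hη.le
          gcongr) (by exact_mod_cast hhw.trans hXw)
        have hb2 : (X : ℝ) * h / Real.log X ^ (K + 1) ≤ X * E := by
          have a1 : (L / 2) ^ (K + 1) ≤ Real.log X ^ (K + 1) := pow_le_pow_left₀ (by positivity) hlX _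
          have a2 : (X : ℝ) * E = X * h / (L / 2) ^ (K + 1) := by
            rw [hE, div_pow]
            field_simp
          rw [a2]
          apply div_le_div_of_nonneg_left (by positivity) (by positivity) a1
        have hsplit : ∑ m ∈ Ioc 0 N, |Gh P R h m - h * sg P R| = ∑ m ∈ Ioc 0 X, |Gh P R h m - h * sg P R| +
            ∑ m ∈ Ioc X N, |Gh P R h m - h * sg P R| := by
          rw [← sum_union]
          · congr 1
            ext x
            simp only [mem_union, mem_Ioc]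
            omega
          · rw [disjoint_left]
            intro x hx hx'
            rw [mem_Ioc] at hx hx'
            omega
        have hsub : ∑ m ∈ Ioc X N, |Gh P R h m - h * sg P R| ≤ ∑ m ∈ Ioc X (2 * X), |Gh P R h m - h * sg P R| := by
          apply sum_le_sum_of_subset_of_nonneg
          · intro x hx
            rw [mem_Ioc] at hx ⊢
            omega
          · intro _ _ _
            exact abs_nonneg _
        rw [hsplit]
        have hN5 : 5 * (X : ℝ) ≤ 4 * N := by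
          have : 5 * X ≤ 4 * N := by omega
          exact_mod_cast this
        have := mul_le_mul_of_nonneg_right hN5 hE0
        linarith
  refine (claim M le_rfl).trans ?_
  have hLK : 0 < L ^ K := by positivity
  have hh0 : (0 : ℝ) ≤ h := Nat.cast_nonneg h
  have p1 : (T₀ : ℝ) * (h * (10 * L ^ 2)) ≤ M * h / 2 / L ^ K := by
    rw [le_div_iff₀ hLK]
    calc (T₀ : ℝ) * (h * (10 * L ^ 2)) * L ^ K ≤ (2 * w ^ 3) * (h * (10 * L ^ 2)) * L ^ K := by gcongr
      _ = h * w ^ 3 / 2 * (40 * L ^ (K + 2)) := by ring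
      _ ≤ h * w ^ 3 / 2 * w := by gcongr
      _ = M * h / 2 := by rw [← hw4]; ring
  have p2 : 4 * (M : ℝ) * E ≤ M * h / 2 / L ^ K := by
    rw [le_div_iff₀ hLK, hE]
    calc 4 * (M : ℝ) * (h * (2 ^ (K + 1) / L ^ (K + 1))) * L ^ K = M * h / 2 * (2 ^ (K + 4) / L) := by
          field_simp
          ring
      _ ≤ M * h / 2 * 1 := by
          gcongr
          rw [div_le_one hL0]
          exact e4
      _ = _ := by ring
  calc (T₀ : ℝ) * (h * (10 * L ^ 2)) + 4 * M * E ≤ M * h / 2 / L ^ K + M * h / 2 / L ^ K := add_le_add p1 p2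
    _ = _ := by ring

end Pool.Agent.Helper34.EK
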