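import Mathlib
import Pool.Agent.Helper34.EK.Bas
import Pool.Agent.Helper34.OP.C3

set_option autoImplicit false

/-! The windows and their runs. -/

namespace Pool.Agent.Helper34.EK
open Finset
open Pool.Agent.Helper34.NQ (run mem_run card_run)
open Pool.Agent.Helper34.OP (wW secondW)

/-- prefix sums -/
lemma Gh_prefix (P R h m : ℕ) : Gh P R h m = ∑ n ∈ range (m + h + 1), g P R n - ∑ n ∈ range (m + 1), g P R n := by
  unfold Gh
  have h1 : Ioc m (m + h) = Ico (m + 1) (m + h + 1) := by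
    ext x
    rw [mem_Ioc, mem_Ico]
    omega
  rw [h1, sum_Ico_eq_sub _ (by omega)]

lemma sum_Ioc_prefix (f : ℕ → ℝ) {u v : ℕ} (h : u ≤ v) : ∑ n ∈ Ioc u v, f n = ∑ n ∈ range (v + 1), f n - ∑ n ∈ range (u + 1), f n := by
  have h1 : Ioc u v = Ico (u + 1) (v + 1) := by
    ext x
    rw [mem_Ioc, mem_Ico]
    omega
  rw [h1, sum_Ico_eq_sub _ (by omega)]

lemma range_mono (P R : ℕ) {a b : ℕ} (h : a ≤ b) : ∑ n ∈ range a, g P R n ≤ ∑ n ∈ range b, g P R n :=
  sum_le_sum_of_subset_of_nonneg (range_subset_range.2 h) fun _ _ _ => g_nonneg _ _ _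

/-- averages over short windows -/
lemma avg {P R h u v : ℕ} (huv : u ≤ v) :
    |∑ m ∈ Ioc u v, Gh P R h m - h * ∑ n ∈ Ioc u v, g P R n| ≤ h * (Gh P R h u + Gh P R h v) := by
  obtain ⟨G, hG⟩ : ∃ G : ℕ → ℝ, G = fun t => ∑ n ∈ range (t + 1), g P R n := ⟨_, rfl⟩
  have hGm : ∀ a b : ℕ, a ≤ b → G a ≤ G b := by
    intro a b hab
    rw [hG]
    exact range_mono P R (by omega)
  have e1 : ∀ m, Gh P R h m = G (m + h) - G m := fun m => by rw [hG]; exact Gh_prefix P R h m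
  -- the sum over the shifts
  have e2 : ∀ m, Gh P R h m = ∑ k ∈ range h, g P R (m + k + 1) := by
    intro m
    unfold Gh
    have h1 : Ioc m (m + h) = Ico (m + 1) (m + 1 + h) := by
      ext x
      rw [mem_Ioc, mem_Ico]
      omega
    rw [h1, sum_Ico_eq_sum_range]
    have : m + 1 + h - (m + 1) = h := by omega
    rw [this]
    apply sum_congr rfl
    intro k _
    congr 1
    omega
  have e3 : ∑ m ∈ Ioc u v, Gh P R h m = ∑ k ∈ range h, ∑ m ∈ Ioc u v, g P R (m + k + 1) := by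
    rw [sum_comm]
    exact sum_congr rfl fun m _ => e2 m
  have e4 : ∀ k ∈ range h, |∑ m ∈ Ioc u v, g P R (m + k + 1) - ∑ n ∈ Ioc u v, g P R n| ≤ Gh P R h u + Gh P R h v := by
    intro k hk
    rw [mem_range] at hk
    have a1 : ∑ m ∈ Ioc u v, g P R (m + k + 1) = G (v + k + 1) - G (u + k + 1) := by
      have b1 : ∑ m ∈ Ioc u v, g P R (m + k + 1) = ∑ n ∈ Ioc (u + k + 1) (v + k + 1), g P R n := by
        apply sum_nbij' (fun m => m + k + 1) (fun n => n - (k + 1))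
        · intro m hm
          rw [mem_Ioc] at hm ⊢
          omega
        · intro n hn
          rw [mem_Ioc] at hn ⊢
          omega
        · intro m _
          omega
        · intro n hn
          rw [mem_Ioc] at hn
          omega
        · intro m _
          rfl
      rw [b1, hG]
      exact sum_Ioc_prefix _ (by omega)
    have a2 : ∑ n ∈ Ioc u v, g P R n = G v - G u := by rw [hG]; exact sum_Ioc_prefix _ huv
    rw [a1, a2, e1, e1]
    have c1 := hGm u (u + k + 1) (by omega)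
    have c2 := hGm (u + k + 1) (u + h) (by omega)
    have c3 := hGm v (v + k + 1) (by omega)
    have c4 := hGm (v + k + 1) (v + h) (by omega)
    rw [abs_le]
    constructor <;> linarith
  rw [e3]
  have e5 : (h : ℝ) * ∑ n ∈ Ioc u v, g P R n = ∑ k ∈ range h, ∑ n ∈ Ioc u v, g P R n := by
    rw [sum_const, card_range, nsmul_eq_mul]
  rw [e5, ← sum_sub_distrib]
  refine (abs_sum_le_sum_abs _ _).trans ((sum_le_sum e4).trans (le_of_eq ?_))
  rw [sum_const, card_range, nsmul_eq_mul]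

/-- the error for one run -/
lemma er_le {P R y H q h : ℕ} {B : ℝ} (hq : 1 ≤ q) (hh : 1 ≤ h) (hB : ∀ m, m ≤ (y + H) / q → Gh P R h m ≤ h * B) :
    Er P R y H q ≤ (1 / (h : ℝ)) * ∑ m ∈ Ioc (y / q) ((y + H) / q), |Gh P R h m - h * sg P R| + sg P R + 2 * h * B := by
  have hh0 : (0 : ℝ) < h := by exact_mod_cast hh
  have huv : y / q ≤ (y + H) / q := Nat.div_le_div_right (by omega)
  unfold Er
  rw [sum_mult hq (fun n => g P R n)]
  obtain ⟨u, hu⟩ : ∃ u, u = y / q := ⟨_, rfl⟩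
  obtain ⟨v, hv⟩ : ∃ v, v = (y + H) / q := ⟨_, rfl⟩
  have hcm := count_mult (a := q) (m := y) (h := H) hq
  rw [← hu, ← hv] at hcm ⊢
  rw [← hv] at hB
  rw [← hu, ← hv] at huv
  have h1 := avg (P := P) (R := R) (h := h) huv
  have h2 := hB u huv
  have h3 := hB v le_rfl
  have hs := sg_nonneg P R
  have h4 : |∑ m ∈ Ioc u v, Gh P R h m - h * ((H : ℝ) / q * sg P R)| ≤
      ∑ m ∈ Ioc u v, |Gh P R h m - h * sg P R| + h * sg P R := by
    have e : ∑ m ∈ Ioc u v, Gh P R h m - h * ((H : ℝ) / q * sg P R) =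
        ∑ m ∈ Ioc u v, (Gh P R h m - h * sg P R) + (h * sg P R) * (((v - u : ℕ) : ℝ) - (H : ℝ) / q) := by
      rw [sum_sub_distrib, sum_const, Nat.card_Ioc, nsmul_eq_mul]
      ring
    rw [e]
    refine (abs_add_le _ _).trans (add_le_add (abs_sum_le_sum_abs _ _) ?_)
    rw [abs_mul, abs_of_nonneg (by positivity : 0 ≤ (h : ℝ) * sg P R)]
    exact mul_le_of_le_one_right (by positivity) hcm
  have h5 : (h : ℝ) * |∑ n ∈ Ioc u v, g P R n - (H : ℝ) / q * sg P R| ≤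
      ∑ m ∈ Ioc u v, |Gh P R h m - h * sg P R| + h * sg P R + h * (2 * h * B) := by
    have e : (h : ℝ) * |∑ n ∈ Ioc u v, g P R n - (H : ℝ) / q * sg P R| =
        |(h : ℝ) * ∑ n ∈ Ioc u v, g P R n - h * ((H : ℝ) / q * sg P R)| := by
      rw [← mul_sub, abs_mul, abs_of_pos hh0]
    rw [e]
    have e2 : (h : ℝ) * ∑ n ∈ Ioc u v, g P R n - h * ((H : ℝ) / q * sg P R) =
        (∑ m ∈ Ioc u v, Gh P R h m - h * ((H : ℝ) / q * sg P R)) - (∑ m ∈ Ioc u v, Gh P R h m - h * ∑ n ∈ Ioc u v, g P R n) := by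
      ring
    rw [e2]
    refine (abs_sub _ _).trans ?_
    have h6 : (h : ℝ) * (Gh P R h u + Gh P R h v) ≤ h * (2 * h * B) := by
      apply mul_le_mul_of_nonneg_left _ hh0.le
      linarith
    linarith
  have h6 : |∑ n ∈ Ioc u v, g P R n - (H : ℝ) / q * sg P R| ≤
      (∑ m ∈ Ioc u v, |Gh P R h m - h * sg P R| + h * sg P R + h * (2 * h * B)) / h := by
    rw [le_div_iff₀ hh0]
    linarith
  refine h6.trans (le_of_eq ?_)
  field_simp

/-- membership in a run -/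
lemma mem_run_nat {y H q m : ℕ} (hq : 1 ≤ q) : (m : ℤ) ∈ run (y : ℤ) H q ↔ m ∈ Ioc (y / q) ((y + H) / q) := by
  rw [mem_run hq, mem_Ioc, Nat.div_lt_iff_lt_mul (by omega), Nat.le_div_iff_mul_le (by omega)]
  constructor
  · rintro ⟨h1, h2⟩
    constructor
    · have : y < q * m := by exact_mod_cast h1
      rw [mul_comm]; exact this
    · have : q * m ≤ y + H := by exact_mod_cast h2
      rw [mul_comm]; exact this
  · rintro ⟨h1, h2⟩
    rw [mul_comm] at h1 h2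
    exact ⟨by exact_mod_cast h1, by exact_mod_cast h2⟩

/-- one block of divisors -/
theorem blockE {W : Finset ℕ} {Y H Q s M h P R : ℕ} {D V : ℝ} (hQ : 1 ≤ Q) (hQH : Q ≤ H) (hHY : 2 * H ^ 2 ≤ Y) (hs : 1 ≤ s)
    (hsQ : s ≤ Q) (hsY : Y ≤ s * H * Q) (hW : ∀ y ∈ W, Y ≤ y ∧ y ≤ 9 * Y)
    (hsep : ∀ x ∈ W, ∀ y ∈ W, x ≠ y → (H : ℤ) ≤ |(x : ℤ) - y|) (hc : W.card = s ^ 2) (hM : (9 * Y + H) / Q ≤ M)
    (hD : 0 ≤ D) (hφ : ∀ m ∈ Ioc 0 M, |Gh P R h m - h * sg P R| ≤ h * D)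
    (hS : ∑ m ∈ Ioc 0 M, |Gh P R h m - h * sg P R| ≤ M * h * V) :
    (∑ y ∈ W, ∑ q ∈ Ioc Q (2 * Q), ∑ m ∈ Ioc (y / q) ((y + H) / q), |Gh P R h m - h * sg P R|) ^ 2 ≤
      (h * D * (M * h * V)) * ((2 * ((H : ℝ) / Q)) * (123 * ((s : ℝ) ^ 4 * (H * Q ^ 2 / Y)))) := by
  classical
  obtain ⟨φ, hφd⟩ : ∃ φ : ℕ → ℝ, φ = fun m => |Gh P R h m - h * sg P R| := ⟨_, rfl⟩
  have hφ0 : ∀ m, 0 ≤ φ m := fun m => by rw [hφd]; exact abs_nonneg _
  obtain ⟨W', hW'⟩ : ∃ W' : Finset ℤ, W' = W.image (fun y : ℕ => (y : ℤ)) := ⟨_, rfl⟩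
  obtain ⟨w, hw⟩ : ∃ w : ℕ → ℝ, w = fun m : ℕ => ∑ q ∈ Ioc Q (2 * Q), wW W' H q (m : ℤ) := ⟨_, rfl⟩
  have e1 : ∀ q : ℕ, 1 ≤ q → ∀ m : ℕ, wW W' H q (m : ℤ) = ∑ y ∈ W, if m ∈ Ioc (y / q) ((y + H) / q) then (1 : ℝ) else 0 := by
    intro q hq m
    unfold wW
    rw [hW', sum_image (by intro a _ b _ hab; exact Nat.cast_injective hab)]
    apply sum_congr rfl
    intro y _
    by_cases hc : m ∈ Ioc (y / q) ((y + H) / q)
    · rw [if_pos hc, if_pos ((mem_run_nat hq).2 hc)]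
    · rw [if_neg hc, if_neg (fun h => hc ((mem_run_nat hq).1 h))]
  have e2 : ∑ y ∈ W, ∑ q ∈ Ioc Q (2 * Q), ∑ m ∈ Ioc (y / q) ((y + H) / q), |Gh P R h m - h * sg P R| =
      ∑ m ∈ Ioc 0 M, φ m * w m := by
    have a1 : ∀ y ∈ W, ∀ q ∈ Ioc Q (2 * Q), ∑ m ∈ Ioc (y / q) ((y + H) / q), |Gh P R h m - h * sg P R| =
        ∑ m ∈ Ioc 0 M, if m ∈ Ioc (y / q) ((y + H) / q) then φ m else 0 := by
      intro y hy q hq
      rw [mem_Ioc] at hq
      rw [← sum_filter]
      have : (Ioc 0 M).filter (fun m => m ∈ Ioc (y / q) ((y + H) / q)) = Ioc (y / q) ((y + H) / q) := by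
        ext m
        rw [mem_filter, mem_Ioc, mem_Ioc]
        constructor
        · rintro ⟨_, h⟩
          exact h
        · rintro ⟨h1, h2⟩
          refine ⟨⟨Nat.pos_of_ne_zero (by rintro rfl; exact absurd h1 (Nat.not_lt_zero _)), ?_⟩, h1, h2⟩
          refine h2.trans (le_trans ?_ hM)
          refine (Nat.div_le_div_left (by omega : Q ≤ q) (by omega)).trans ?_
          apply Nat.div_le_div_right
          have := (hW y hy).2
          omega
      rw [this, hφd]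
    rw [sum_congr rfl fun y hy => sum_congr rfl (a1 y hy)]
    have a2 : ∀ m ∈ Ioc 0 M, φ m * w m = ∑ y ∈ W, ∑ q ∈ Ioc Q (2 * Q), if m ∈ Ioc (y / q) ((y + H) / q) then φ m else 0 := by
      intro m _
      rw [hw]
      show φ m * ∑ q ∈ Ioc Q (2 * Q), wW W' H q (m : ℤ) = _
      rw [mul_sum, sum_comm]
      apply sum_congr rfl
      intro q hq
      rw [mem_Ioc] at hq
      rw [e1 q (by omega) m, mul_sum]
      apply sum_congr rfl
      intro y _
      split_ifs <;> simp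
    rw [sum_congr rfl a2, sum_comm (s := Ioc 0 M) (t := W)]
    apply sum_congr rfl
    intro y _
    rw [sum_comm]
  rw [e2]
  have e3 := sum_mul_sq_le_sq_mul_sq (Ioc 0 M) φ w
  refine e3.trans ?_
  have e4 : ∑ m ∈ Ioc 0 M, φ m ^ 2 ≤ h * D * (M * h * V) := by
    calc ∑ m ∈ Ioc 0 M, φ m ^ 2 ≤ ∑ m ∈ Ioc 0 M, (h * D) * φ m := by
          apply sum_le_sum
          intro m hm
          rw [sq]
          apply mul_le_mul_of_nonneg_right _ (hφ0 m)
          rw [hφd]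
          exact hφ m hm
      _ = (h * D) * ∑ m ∈ Ioc 0 M, φ m := by rw [mul_sum]
      _ ≤ _ := by
          apply mul_le_mul_of_nonneg_left _ (by positivity)
          rw [hφd]
          exact hS
  have e5 : ∑ m ∈ Ioc 0 M, w m ^ 2 ≤ (2 * ((H : ℝ) / Q)) * (123 * ((s : ℝ) ^ 4 * (H * Q ^ 2 / Y))) := by
    have key := secondW (W := W') (M : ℤ) hQ hQH hHY hs hsQ hsY (by
      intro y hy
      rw [hW', mem_image] at hy
      obtain ⟨n, hn, rfl⟩ := hy
      obtain ⟨a1, a2⟩ := hW n hn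
      exact ⟨by exact_mod_cast a1, by exact_mod_cast a2⟩) (by
      intro x hx y hy hne
      rw [hW', mem_image] at hx hy
      obtain ⟨n, hn, rfl⟩ := hx
      obtain ⟨k, hk, rfl⟩ := hy
      exact hsep n hn k hk (by intro e; exact hne (by rw [e]))) (by
      rw [hW', card_image_of_injective _ Nat.cast_injective]
      exact hc)
    refine le_trans (le_of_eq ?_) key
    rw [hw]
    apply sum_nbij (fun m : ℕ => (m : ℤ))
    · intro m hm
      rw [mem_Ioc] at hm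
      rw [mem_Icc]
      constructor
      · exact_mod_cast hm.1
      · exact_mod_cast hm.2
    · intro a _ b _ hab
      exact Nat.cast_injective hab
    · intro b hb
      rw [mem_coe, mem_Icc] at hb
      refine ⟨b.toNat, ?_, ?_⟩
      · rw [mem_coe, mem_Ioc]
        omega
      · show ((b.toNat : ℕ) : ℤ) = b
        omega
    · intro m _
      rfl
  exact mul_le_mul e4 e5 (sum_nonneg fun _ _ => sq_nonneg _) ((sum_nonneg fun _ _ => sq_nonneg _).trans e4)

end Pool.Agent.Helper34.EK
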