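import Mathlib
import Pool.Agent.Helper34.EK.V5
import Pool.Agent.Helper34.EK.W1
import Pool.Agent.Helper34.EK.Stm4

set_option autoImplicit false

/-! The products `q a p` in windows next to the values of a quadratic polynomial. -/

namespace Pool.Agent.Helper34.EK
open Finset Filter
open Pool.Agent.Helper34.NQ (run mem_run card_run fq wq second)

/-- one block of squarefree divisors -/
theorem blockN {a : ℕ} {b g : ℤ} {X H Q K₀ M h P R : ℕ} {D V : ℝ} (ha : 1 ≤ a) (hQ : 1 ≤ Q) (hQH : Q ≤ H) (hb : |b| ≤ X) (hX : 1 ≤ X)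
    (hH : H ≤ X) (hg : |g| ≤ K₀ * H) (hXQ : X ≤ Q * H) (hpos : ∀ x ∈ Ioc X (2 * X), 0 ≤ fq a b g x)
    (hM : ∀ x ∈ Ioc X (2 * X), ((fq a b g x).toNat + H) / Q ≤ M)
    (hD : 0 ≤ D) (hφ : ∀ m ∈ Ioc 0 M, |Gh P R h m - h * sg P R| ≤ h * D)
    (hS : ∑ m ∈ Ioc 0 M, |Gh P R h m - h * sg P R| ≤ M * h * V) :
    (∑ x ∈ Ioc X (2 * X), ∑ q ∈ SF Q (2 * Q), ∑ m ∈ Ioc ((fq a b g x).toNat / q) (((fq a b g x).toNat + H) / q),
      |Gh P R h m - h * sg P R|) ^ 2 ≤
      (h * D * (M * h * V)) * ((2 * (H : ℝ) ^ 2 * Q) * (1 + 202 * ((8 * a + b.natAbs ^ 2 + 4 * a * K₀ : ℕ) : ℝ))) := by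
  classical
  obtain ⟨φ, hφd⟩ : ∃ φ : ℕ → ℝ, φ = fun m => |Gh P R h m - h * sg P R| := ⟨_, rfl⟩
  have hφ0 : ∀ m, 0 ≤ φ m := fun m => by rw [hφd]; exact abs_nonneg _
  obtain ⟨w, hw⟩ : ∃ w : ℕ → ℝ, w = fun m : ℕ => ∑ q ∈ SF Q (2 * Q), wq a b g X H q (m : ℤ) := ⟨_, rfl⟩
  have hSF : ∀ q ∈ SF Q (2 * Q), (Q < q ∧ q ≤ 2 * Q) ∧ Squarefree q := by
    intro q hq
    unfold SF at hq
    rw [mem_filter, mem_Ioc] at hq
    exact hq
  have e1 : ∀ q : ℕ, 1 ≤ q → ∀ m : ℕ, wq a b g X H q (m : ℤ) =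
      ∑ x ∈ Ioc X (2 * X), if m ∈ Ioc ((fq a b g x).toNat / q) (((fq a b g x).toNat + H) / q) then (1 : ℝ) else 0 := by
    intro q hq m
    unfold wq
    apply sum_congr rfl
    intro x hx
    have e : fq a b g x = ((fq a b g x).toNat : ℤ) := (Int.toNat_of_nonneg (hpos x hx)).symm
    by_cases hc : m ∈ Ioc ((fq a b g x).toNat / q) (((fq a b g x).toNat + H) / q)
    · rw [if_pos hc, if_pos]
      rw [e]
      exact (mem_run_nat hq).2 hc
    · rw [if_neg hc, if_neg]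
      rw [e]
      exact fun h => hc ((mem_run_nat hq).1 h)
  have e2 : ∑ x ∈ Ioc X (2 * X), ∑ q ∈ SF Q (2 * Q), ∑ m ∈ Ioc ((fq a b g x).toNat / q) (((fq a b g x).toNat + H) / q),
      |Gh P R h m - h * sg P R| = ∑ m ∈ Ioc 0 M, φ m * w m := by
    have a1 : ∀ x ∈ Ioc X (2 * X), ∀ q ∈ SF Q (2 * Q), ∑ m ∈ Ioc ((fq a b g x).toNat / q) (((fq a b g x).toNat + H) / q),
        |Gh P R h m - h * sg P R| =
        ∑ m ∈ Ioc 0 M, if m ∈ Ioc ((fq a b g x).toNat / q) (((fq a b g x).toNat + H) / q) then φ m else 0 := by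
      intro x hx q hq
      have hq' := hSF q hq
      rw [← sum_filter]
      have : (Ioc 0 M).filter (fun m => m ∈ Ioc ((fq a b g x).toNat / q) (((fq a b g x).toNat + H) / q)) =
          Ioc ((fq a b g x).toNat / q) (((fq a b g x).toNat + H) / q) := by
        ext m
        rw [mem_filter, mem_Ioc, mem_Ioc]
        constructor
        · rintro ⟨_, h⟩
          exact h
        · rintro ⟨h1, h2⟩
          refine ⟨⟨Nat.pos_of_ne_zero (by rintro rfl; exact absurd h1 (Nat.not_lt_zero _)), ?_⟩, h1, h2⟩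
          refine h2.trans (le_trans ?_ (hM x hx))
          exact Nat.div_le_div_left (by omega : Q ≤ q) (by omega)
      rw [this, hφd]
    rw [sum_congr rfl fun x hx => sum_congr rfl (a1 x hx)]
    have a2 : ∀ m ∈ Ioc 0 M, φ m * w m = ∑ x ∈ Ioc X (2 * X), ∑ q ∈ SF Q (2 * Q),
        if m ∈ Ioc ((fq a b g x).toNat / q) (((fq a b g x).toNat + H) / q) then φ m else 0 := by
      intro m _
      rw [hw]
      show φ m * ∑ q ∈ SF Q (2 * Q), wq a b g X H q (m : ℤ) = _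
      rw [mul_sum, sum_comm]
      apply sum_congr rfl
      intro q hq
      have hq' := hSF q hq
      rw [e1 q (by omega) m, mul_sum]
      apply sum_congr rfl
      intro y _
      split_ifs <;> simp
    rw [sum_congr rfl a2, sum_comm (s := Ioc 0 M) (t := Ioc X (2 * X))]
    apply sum_congr rfl
    intro y _
    rw [sum_comm]
  rw [e2]
  have e3 := sum_mul_sq_le_sq_mul_sq (Ioc 0 M) φ w
  refine e3.trans ?_
  have e4 : ∑ m ∈ Ioc 0 M, φ m ^ 2 ≤ h * D * (M * h * V) := by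
    calc ∑ m ∈ Ioc 0 M, φ m ^ 2 ≤ ∑ m ∈ Ioc 0 M, (h * D) * φ m := by
          apply sum_le_sum
          intro m hm
          rw [sq]
          apply mul_le_mul_of_nonneg_right _ (hφ0 m)
          rw [hφd]
          exact hφ m hm
      _ = (h * D) * ∑ m ∈ Ioc 0 M, φ m := by rw [mul_sum]
      _ ≤ _ := by
          apply mul_le_mul_of_nonneg_left _ (by positivity)
          rw [hφd]
          exact hS
  have hQ0 : (1 : ℝ) ≤ Q := by exact_mod_cast hQ
  have hQ00 : (0 : ℝ) < Q := by linarith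
  have e5 : ∑ m ∈ Ioc 0 M, w m ^ 2 ≤ (2 * (H : ℝ) ^ 2 * Q) * (1 + 202 * ((8 * a + b.natAbs ^ 2 + 4 * a * K₀ : ℕ) : ℝ)) := by
    have key := second (a := a) (b := b) (g := g) (X := X) (H := H) (Q := Q) (K := K₀) (M : ℤ) ha (SF Q (2 * Q)) (by
      intro q hq
      have := hSF q hq
      exact ⟨this.2, by omega, by omega⟩) hQ hb hX hQH hH hg
    have hcard : ((SF Q (2 * Q)).card : ℝ) ≤ Q := by
      have : (SF Q (2 * Q)).card ≤ Q := by
        unfold SF
        refine (card_filter_le _ _).trans ?_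
        rw [Nat.card_Ioc]
        omega
      exact_mod_cast this
    have hXQ' : (X : ℝ) ≤ Q * H := by exact_mod_cast hXQ
    have hle : (2 * ((H : ℝ) / Q)) * ((SF Q (2 * Q)).card * X + ((SF Q (2 * Q)).card : ℝ) ^ 2 *
        (202 * ((8 * a + b.natAbs ^ 2 + 4 * a * K₀ : ℕ) : ℝ) * H)) ≤
        (2 * (H : ℝ) ^ 2 * Q) * (1 + 202 * ((8 * a + b.natAbs ^ 2 + 4 * a * K₀ : ℕ) : ℝ)) := by
      calc (2 * ((H : ℝ) / Q)) * ((SF Q (2 * Q)).card * X + ((SF Q (2 * Q)).card : ℝ) ^ 2 *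
          (202 * ((8 * a + b.natAbs ^ 2 + 4 * a * K₀ : ℕ) : ℝ) * H))
          ≤ (2 * ((H : ℝ) / Q)) * (Q * (Q * H) + (Q : ℝ) ^ 2 * (202 * ((8 * a + b.natAbs ^ 2 + 4 * a * K₀ : ℕ) : ℝ) * H)) := by
            gcongr
        _ = _ := by
            field_simp
    refine le_trans (le_of_eq ?_) (key.trans hle)
    rw [hw]
    apply sum_nbij (fun m : ℕ => (m : ℤ))
    · intro m hm
      rw [mem_Ioc] at hm
      rw [mem_Icc]
      constructor
      · exact_mod_cast hm.1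
      · exact_mod_cast hm.2
    · intro a _ b _ hab
      exact Nat.cast_injective hab
    · intro b hb
      rw [mem_coe, mem_Icc] at hb
      refine ⟨b.toNat, ?_, ?_⟩
      · rw [mem_coe, mem_Ioc]
        omega
      · show ((b.toNat : ℕ) : ℤ) = b
        omega
    · intro m _
      rfl
  exact mul_le_mul e4 e5 (sum_nonneg fun _ _ => sq_nonneg _) ((sum_nonneg fun _ _ => sq_nonneg _).trans e4)

end Pool.Agent.Helper34.EK
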