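import Mathlib
import Pool.Agent.Helper34.EK.N1

set_option autoImplicit false

/-! The products `q a p` in windows next to the values of a quadratic polynomial, on average. -/

namespace Pool.Agent.Helper34.EK
open Finset Filter
open Pool.Agent.Helper34.NQ (fq)

/-- the size of the values -/
lemma fq_size {a : ℕ} {b g : ℤ} {K₀ X H x : ℕ} (ha : 1 ≤ a) (hX : 2 * b.natAbs + K₀ + 1 ≤ X) (hH : H ≤ X) (hg : |g| ≤ K₀ * H)
    (hx : X < x) (hx2 : x ≤ 2 * X) : 0 ≤ fq a b g x ∧ fq a b g x + H ≤ (4 * a + 2 * b.natAbs + K₀ + 2 : ℕ) * (X : ℤ) ^ 2 := by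
  have h1 : |b * (x : ℤ)| ≤ b.natAbs * (2 * X) := by
    rw [abs_mul, Int.natCast_natAbs]
    have : |(x : ℤ)| ≤ 2 * X := by
      rw [abs_of_nonneg (by positivity)]
      exact_mod_cast hx2
    exact mul_le_mul_of_nonneg_left this (abs_nonneg b)
  have h2 : |g| ≤ K₀ * X := by
    refine hg.trans ?_
    have : (H : ℤ) ≤ X := by exact_mod_cast hH
    gcongr
  rw [abs_le] at h1 h2
  have hXz : (2 * (b.natAbs : ℤ) + K₀ + 1) ≤ X := by exact_mod_cast hX
  have hX1 : (1 : ℤ) ≤ X := by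
    have : (0 : ℤ) ≤ b.natAbs := by positivity
    have : (0 : ℤ) ≤ K₀ := by positivity
    linarith
  have hxz : (X : ℤ) ≤ x := by exact_mod_cast hx.le
  have hxz2 : (x : ℤ) ≤ 2 * X := by exact_mod_cast hx2
  have haz : (1 : ℤ) ≤ a := by exact_mod_cast ha
  have hHz : (H : ℤ) ≤ X := by exact_mod_cast hH
  have hx0 : (0 : ℤ) ≤ x := by positivity
  have sq1 : (X : ℤ) ^ 2 ≤ (x : ℤ) ^ 2 := pow_le_pow_left₀ (by positivity) hxz 2
  have sq2 : (x : ℤ) ^ 2 ≤ 4 * (X : ℤ) ^ 2 := by nlinarith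
  have hXX : (X : ℤ) ≤ (X : ℤ) ^ 2 := by nlinarith
  have hb0 : (0 : ℤ) ≤ b.natAbs := by positivity
  have hk0 : (0 : ℤ) ≤ K₀ := by positivity
  unfold fq
  constructor
  · have a1 : (X : ℤ) ^ 2 ≤ a * (x : ℤ) ^ 2 := by nlinarith
    have a2 : (2 * (b.natAbs : ℤ) + K₀ + 1) * X ≤ X * X := mul_le_mul_of_nonneg_right hXz (by positivity)
    nlinarith
  · push_cast
    have a1 : a * (x : ℤ) ^ 2 ≤ a * (4 * (X : ℤ) ^ 2) := mul_le_mul_of_nonneg_left sq2 (by positivity)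
    have a2 : (b.natAbs : ℤ) * X ≤ b.natAbs * (X : ℤ) ^ 2 := mul_le_mul_of_nonneg_left hXX hb0
    have a3 : (K₀ : ℤ) * X ≤ K₀ * (X : ℤ) ^ 2 := mul_le_mul_of_nonneg_left hXX hk0
    have e : |b| = (b.natAbs : ℤ) := Int.abs_eq_natAbs b
    nlinarith

theorem nn (hV' : S_V') : S_N := by
  intro a b K₀ ha ε δ hε hδ K
  obtain ⟨M₁, hM₁⟩ := hV' (δ / 3) (ε / 6) (by positivity) (by positivity) (2 * (K + 3))
  obtain ⟨Ct, hCt⟩ : ∃ Ct : ℕ, Ct = 4 * a + 2 * b.natAbs + K₀ + 2 := ⟨_, rfl⟩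
  obtain ⟨E, hE⟩ : ∃ E : ℝ, E = 1 + 202 * ((8 * a + b.natAbs ^ 2 + 4 * a * K₀ : ℕ) : ℝ) := ⟨_, rfl⟩
  have hE1 : 1 ≤ E := by
    rw [hE]
    have : (0 : ℝ) ≤ ((8 * a + b.natAbs ^ 2 + 4 * a * K₀ : ℕ) : ℝ) := Nat.cast_nonneg _
    linarith
  have hCt6 : (6 : ℝ) ≤ Ct := by exact_mod_cast (by omega : 6 ≤ Ct)
  obtain ⟨C₁, hC₁⟩ : ∃ C₁ : ℝ, C₁ = 80 * E * Ct := ⟨_, rfl⟩
  have hC₁1 : 1 ≤ C₁ := by
    rw [hC₁]
    nlinarith
  have hev : ∀ᶠ X : ℕ in atTop, (Ct ≤ X) ∧ (2 ≤ Real.log X) ∧ (M₁ ≤ X) ∧ (2 ≤ (X : ℝ) ^ (ε / 2)) ∧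
      (6 * C₁ ≤ Real.log X) ∧ (792 * Real.log X ^ (K + 3) ≤ (X : ℝ) ^ (ε / 2)) := by
    filter_upwards [eventually_ge_atTop Ct, ev_log_ge 2, eventually_ge_atTop M₁,
      ev_rpow_ge 2 (half_pos hε), ev_log_ge (6 * C₁), ev_log_pow (K + 3) 792 (half_pos hε)] with X h1 h2 h3 h4 h5 h6
    exact ⟨h1, h2, h3, h4, h5, h6⟩
  obtain ⟨X₀, hX₀⟩ := eventually_atTop.1 hev
  refine ⟨X₀, ?_⟩
  intro X hX H Q₀ Q₁ P R hQ₀1 hXQ hQ01 hP hPR hQR hHX g hg
  obtain ⟨e1, e2, e3, e4, e5, e6⟩ := hX₀ X hX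
  obtain ⟨L, hL⟩ : ∃ L, L = Real.log X := ⟨_, rfl⟩
  rw [← hL] at e2 e5 e6 ⊢
  have hX6 : 6 ≤ X := by omega
  have hX0 : (6 : ℝ) ≤ X := by exact_mod_cast hX6
  have hXp : (0 : ℝ) < X := by linarith
  have hL0 : 0 < L := by linarith
  have hL1 : 1 ≤ L := by linarith
  have hXδ : 1 ≤ (X : ℝ) ^ δ := Real.one_le_rpow (by linarith) hδ.le
  have hP1 : (1 : ℝ) ≤ P := hXδ.trans hP
  have hR1 : (1 : ℝ) ≤ R := hP1.trans (by exact_mod_cast hPR)
  have hR1n : 1 ≤ R := by exact_mod_cast hR1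
  have hQ₀r : (1 : ℝ) ≤ Q₀ := by exact_mod_cast hQ₀1
  have hQ01r : (Q₀ : ℝ) ≤ Q₁ := by exact_mod_cast hQ01
  have hQ₁r : (1 : ℝ) ≤ Q₁ := hQ₀r.trans hQ01r
  have hHXr : (H : ℝ) ≤ X := by exact_mod_cast hHX
  -- powers
  obtain ⟨v, hv⟩ : ∃ v : ℝ, v = (X : ℝ) ^ (ε / 2) := ⟨_, rfl⟩
  rw [← hv] at e4 e6
  have hv0 : 0 < v := by linarith
  have hv2 : (X : ℝ) ^ ε = v ^ 2 := by
    rw [hv, ← Real.rpow_natCast, ← Real.rpow_mul hXp.le]
    congr 1
    push_cast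
    ring
  rw [hv2] at hQR
  have hQRv : (Q₁ : ℝ) ≤ H := by
    refine le_trans ?_ hQR
    have : 1 ≤ (R : ℝ) * v ^ 2 := by nlinarith
    nlinarith
  have hH1 : (1 : ℝ) ≤ H := hQ₁r.trans hQRv
  -- the short length
  obtain ⟨h, hh⟩ : ∃ h : ℕ, h = ⌈(R : ℝ) * v⌉₊ := ⟨_, rfl⟩
  have hRv1 : 1 ≤ (R : ℝ) * v := by nlinarith
  have hh1 : (R : ℝ) * v ≤ h := by rw [hh]; exact Nat.le_ceil _
  have hh2 : (h : ℝ) ≤ 2 * (R * v) := by
    have : (h : ℝ) < R * v + 1 := by rw [hh]; exact Nat.ceil_lt_add_one (by positivity)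
    linarith
  have hh1' : (1 : ℝ) ≤ h := hRv1.trans hh1
  have hh1n : 1 ≤ h := by exact_mod_cast hh1'
  have hhH : (Q₁ : ℝ) * h ≤ H := by
    refine le_trans ?_ hQR
    calc (Q₁ : ℝ) * h ≤ Q₁ * (2 * (R * v)) := by gcongr
      _ = Q₁ * R * (2 * v) := by ring
      _ ≤ Q₁ * R * (v * v) := by gcongr
      _ = _ := by ring
  have hhH' : (Q₁ : ℝ) * h * v ≤ 2 * H := by
    calc (Q₁ : ℝ) * h * v ≤ Q₁ * (2 * (R * v)) * v := by gcongr
      _ = 2 * (Q₁ * R * v ^ 2) := by ring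
      _ ≤ 2 * H := by gcongr
  have hhHn : h ≤ H := by
    have : (h : ℝ) ≤ H := by nlinarith
    exact_mod_cast this
  have hRh : (R : ℝ) ≤ h := by nlinarith
  have hRhn : R ≤ h := by exact_mod_cast hRh
  have hX3 : 2 * X ^ 3 ≤ X ^ 4 := by
    calc 2 * X ^ 3 ≤ X * X ^ 3 := Nat.mul_le_mul_right _ (by omega)
      _ = X ^ 4 := by ring
  have hlogN : Real.log ((2 * X ^ 3 : ℕ) : ℝ) ≤ 2 * (2 * L) := by
    have h1 : ((2 * X ^ 3 : ℕ) : ℝ) ≤ (X : ℝ) ^ 4 := by exact_mod_cast hX3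
    have h2 : Real.log ((2 * X ^ 3 : ℕ) : ℝ) ≤ Real.log ((X : ℝ) ^ 4) := by
      apply Real.log_le_log _ h1
      push_cast
      positivity
    rw [Real.log_pow, ← hL] at h2
    push_cast at h2
    push_cast
    linarith
  have hsgL : sg P R ≤ 2 * L := by
    have h1 := sg_le P R
    have h2 : Real.log R ≤ L := by
      rw [hL]
      apply Real.log_le_log (by linarith)
      exact_mod_cast (by omega : R ≤ X)
    linarith
  have hbX : |b| ≤ X := by
    rw [Int.abs_eq_natAbs]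
    exact_mod_cast (by omega : b.natAbs ≤ X)
  have hb3 : 2 * b.natAbs + K₀ + 1 ≤ X := by
    have : 2 * b.natAbs + K₀ + 1 ≤ Ct := by rw [hCt]; omega
    exact this.trans e1
  have hsize : ∀ x ∈ Ioc X (2 * X), 0 ≤ fq a b g x ∧ (fq a b g x).toNat + H ≤ Ct * X ^ 2 := by
    intro x hx
    rw [mem_Ioc] at hx
    obtain ⟨h1, h2⟩ := fq_size ha hb3 hHX hg hx.1 hx.2
    refine ⟨h1, ?_⟩
    have h3 : (((fq a b g x).toNat : ℕ) : ℤ) = fq a b g x := Int.toNat_of_nonneg h1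
    have h4 : (((fq a b g x).toNat + H : ℕ) : ℤ) ≤ ((Ct * X ^ 2 : ℕ) : ℤ) := by
      push_cast
      rw [hCt, h3]
      exact h2
    exact_mod_cast h4
  have hX2 : X ≤ X ^ 2 := by nlinarith
  -- one block
  obtain ⟨BD, hBD⟩ : ∃ BD : ℝ, BD = (X : ℝ) * (C₁ * L / L ^ (K + 3) * H + 132 * L ^ 2 * H / v) := ⟨_, rfl⟩
  have hBD0 : 0 ≤ BD := by rw [hBD]; positivity
  have block : ∀ Q : ℕ, Q₀ ≤ Q → Q ≤ Q₁ → ∑ x ∈ Ioc X (2 * X), ∑ q ∈ SF Q (2 * Q), Er P R (fq a b g x).toNat H q ≤ BD := by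
    intro Q hQ1 hQ2
    have hQr1 : (Q₀ : ℝ) ≤ Q := by exact_mod_cast hQ1
    have hQr2 : (Q : ℝ) ≤ Q₁ := by exact_mod_cast hQ2
    have hQ0 : (0 : ℝ) < Q := by linarith
    have hQn : 1 ≤ Q := hQ₀1.trans hQ1
    have hQH : (Q : ℝ) ≤ H := hQr2.trans hQRv
    have hQHn : Q ≤ H := by exact_mod_cast hQH
    have hQX : (Q : ℝ) ≤ X := hQH.trans hHXr
    obtain ⟨M, hM⟩ : ∃ M : ℕ, M = Ct * X ^ 2 / Q := ⟨_, rfl⟩
    have hMQ : (M : ℝ) * Q ≤ Ct * X ^ 2 := by
      have := Nat.div_mul_le_self (Ct * X ^ 2) Q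
      rw [← hM] at this
      exact_mod_cast this
    have hMQ2 : (Ct : ℝ) * X ^ 2 < Q * (M + 1) := by
      have := Nat.lt_mul_div_succ (Ct * X ^ 2) (by omega : 0 < Q)
      rw [← hM] at this
      exact_mod_cast this
    have hMQ3 : 5 * (X : ℝ) ^ 2 ≤ Q * M := by
      have h1 : (Q : ℝ) ≤ X ^ 2 := by nlinarith
      have h2 : 6 * (X : ℝ) ^ 2 ≤ Ct * X ^ 2 := by gcongr
      nlinarith
    have hMX : (X : ℝ) ≤ M := by
      have h1 : (Q : ℝ) * X ≤ Q * M := by nlinarith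
      exact le_of_mul_le_mul_left h1 hQ0
    have hMXn : X ≤ M := by exact_mod_cast hMX
    have hM0 : (0 : ℝ) < M := by linarith
    have hM3 : M ≤ X ^ 3 := by
      rw [hM]
      calc Ct * X ^ 2 / Q ≤ Ct * X ^ 2 := Nat.div_le_self _ _
        _ ≤ X * X ^ 2 := Nat.mul_le_mul_right _ e1
        _ = X ^ 3 := by ring
    have hM3r : (M : ℝ) ≤ (X : ℝ) ^ 3 := by exact_mod_cast hM3
    have hlM : L ≤ Real.log M := by
      rw [hL]
      exact Real.log_le_log hXp hMX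
    have hhM : h ^ 2 ≤ M := by
      have h1 : (h : ℝ) ^ 2 ≤ M := by
        have a1 : (Q : ℝ) * h ≤ X := by
          refine le_trans ?_ (hhH.trans hHXr)
          gcongr
        have a2 : ((Q : ℝ) * h) ^ 2 ≤ (X : ℝ) ^ 2 := pow_le_pow_left₀ (by positivity) a1 2
        have a3 : (Q : ℝ) ^ 2 * (h : ℝ) ^ 2 ≤ Q ^ 2 * M := by
          have hQ1' : (1 : ℝ) ≤ Q := by exact_mod_cast hQn
          calc (Q : ℝ) ^ 2 * (h : ℝ) ^ 2 = (Q * h) ^ 2 := by ring
            _ ≤ (X : ℝ) ^ 2 := a2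
            _ ≤ Q * M := by nlinarith
            _ ≤ Q ^ 2 * M := by
                have : (Q : ℝ) ≤ Q ^ 2 := by nlinarith
                gcongr
        exact le_of_mul_le_mul_left a3 (by positivity)
      exact_mod_cast h1
    have pw : ∀ t : ℝ, 0 < t → (M : ℝ) ^ (t / 3) ≤ (X : ℝ) ^ t := by
      intro t ht
      calc (M : ℝ) ^ (t / 3) ≤ ((X : ℝ) ^ 3) ^ (t / 3) := Real.rpow_le_rpow hM0.le hM3r (by positivity)
        _ = (X : ℝ) ^ t := by
            rw [← Real.rpow_natCast, ← Real.rpow_mul hXp.le]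
            congr 1
            push_cast
            ring
    have hVM := hM₁ M (e3.trans hMXn) h P R ((pw δ hδ).trans hP) hPR (by
      refine le_trans ?_ hh1
      have h1 := pw (ε / 2) (half_pos hε)
      have h2 : ε / 2 / 3 = ε / 6 := by ring
      rw [h2, ← hv] at h1
      gcongr) hhM
    obtain ⟨V, hV⟩ : ∃ V : ℝ, V = (1 / L ^ (K + 3)) ^ 2 := ⟨_, rfl⟩
    have hV0 : 0 ≤ V := by rw [hV]; positivity
    have hS : ∑ m ∈ Ioc 0 M, |Gh P R h m - h * sg P R| ≤ M * h * V := by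
      refine hVM.trans ?_
      have a1 : L ^ (2 * (K + 3)) ≤ Real.log M ^ (2 * (K + 3)) := pow_le_pow_left₀ (by positivity) hlM _
      have a2 : (M : ℝ) * h * V = M * h / L ^ (2 * (K + 3)) := by
        rw [hV, div_pow, ← pow_mul]
        have e : (K + 3) * 2 = 2 * (K + 3) := by ring
        rw [e]
        field_simp
      rw [a2]
      apply div_le_div_of_nonneg_left (by positivity) (by positivity) a1
    have hhX3 : h ≤ X ^ 3 := by
      calc h ≤ X := hhHn.trans hHX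
        _ ≤ X ^ 3 := by nlinarith [Nat.mul_le_mul_left X hX2]
    have hφ : ∀ m ∈ Ioc 0 M, |Gh P R h m - h * sg P R| ≤ h * (10 * (2 * L) ^ 2) := by
      intro m hm
      rw [mem_Ioc] at hm
      exact triv_dev (N := 2 * X ^ 3) (by omega) (by omega) hR1n (by linarith) hlogN
    have hMc : ∀ x ∈ Ioc X (2 * X), ((fq a b g x).toNat + H) / Q ≤ M := by
      intro x hx
      rw [hM]
      exact Nat.div_le_div_right (hsize x hx).2
    have key := blockN (a := a) (b := b) (g := g) (X := X) (H := H) (Q := Q) (K₀ := K₀) (M := M) (h := h) (P := P) (R := R)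
      ha hQn hQHn hbX (by omega) hHX hg (hXQ.trans (Nat.mul_le_mul_right _ hQ1)) (fun x hx => (hsize x hx).1) hMc
      (by positivity : 0 ≤ 10 * (2 * L) ^ 2) hφ hS
    rw [← hE] at key
    obtain ⟨S, hSd⟩ : ∃ S : ℝ, S = ∑ x ∈ Ioc X (2 * X), ∑ q ∈ SF Q (2 * Q),
      ∑ m ∈ Ioc ((fq a b g x).toNat / q) (((fq a b g x).toNat + H) / q), |Gh P R h m - h * sg P R| := ⟨_, rfl⟩
    rw [← hSd] at key
    have hSle : S ≤ h * (X : ℝ) * H * (C₁ * L / L ^ (K + 3)) := by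
      apply le_of_sq_le_sq _ (by positivity)
      refine key.trans ?_
      calc h * (10 * (2 * L) ^ 2) * (M * h * V) * ((2 * (H : ℝ) ^ 2 * Q) * E)
          = (M * Q) * (80 * E * L ^ 2 * V * h ^ 2 * H ^ 2) := by ring
        _ ≤ (Ct * (X : ℝ) ^ 2) * (80 * E * L ^ 2 * V * h ^ 2 * H ^ 2) := by gcongr
        _ = C₁ * (L ^ 2 * V * h ^ 2 * X ^ 2 * H ^ 2) := by rw [hC₁]; ring
        _ ≤ C₁ ^ 2 * (L ^ 2 * V * h ^ 2 * X ^ 2 * H ^ 2) := by
            apply mul_le_mul_of_nonneg_right _ (by positivity)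
            nlinarith
        _ = (h * (X : ℝ) * H * (C₁ * L / L ^ (K + 3))) ^ 2 := by
            rw [hV]
            ring
    -- from the means to the errors
    have hEr : ∀ x ∈ Ioc X (2 * X), ∀ q ∈ SF Q (2 * Q), Er P R (fq a b g x).toNat H q ≤
        (1 / (h : ℝ)) * ∑ m ∈ Ioc ((fq a b g x).toNat / q) (((fq a b g x).toNat + H) / q), |Gh P R h m - h * sg P R| +
          (2 * L + 64 * h * L ^ 2) := by
      intro x hx q hq
      unfold SF at hq
      rw [mem_filter, mem_Ioc] at hq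
      have a1 := er_le (P := P) (R := R) (y := (fq a b g x).toNat) (H := H) (q := q) (h := h) (B := 32 * L ^ 2) (by omega) hh1n (by
        intro m hm
        have b1 : m ≤ M := by
          refine hm.trans (le_trans ?_ (hMc x hx))
          exact Nat.div_le_div_left (by omega : Q ≤ q) (by omega)
        have b2 := Gh_le P R (h := h) (m := m) (N := 2 * X ^ 3) (by omega)
        refine b2.trans ?_
        have b3 : 0 ≤ Real.log ((2 * X ^ 3 : ℕ) : ℝ) := Real.log_natCast_nonneg _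
        have b4 : 2 * Real.log ((2 * X ^ 3 : ℕ) : ℝ) ^ 2 ≤ 32 * L ^ 2 := by nlinarith
        gcongr)
      refine a1.trans ?_
      linarith
    have hSFcard : ((SF Q (2 * Q)).card : ℝ) ≤ Q := by
      have : (SF Q (2 * Q)).card ≤ Q := by
        unfold SF
        refine (card_filter_le _ _).trans ?_
        rw [Nat.card_Ioc]
        omega
      exact_mod_cast this
    calc ∑ x ∈ Ioc X (2 * X), ∑ q ∈ SF Q (2 * Q), Er P R (fq a b g x).toNat H q
        ≤ ∑ x ∈ Ioc X (2 * X), ∑ q ∈ SF Q (2 * Q), ((1 / (h : ℝ)) *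
            ∑ m ∈ Ioc ((fq a b g x).toNat / q) (((fq a b g x).toNat + H) / q), |Gh P R h m - h * sg P R| +
            (2 * L + 64 * h * L ^ 2)) := sum_le_sum fun y hy => sum_le_sum (hEr y hy)
      _ = (1 / (h : ℝ)) * S + (X : ℝ) * ((SF Q (2 * Q)).card * (2 * L + 64 * h * L ^ 2)) := by
          have a1 : ∀ x ∈ Ioc X (2 * X), ∑ q ∈ SF Q (2 * Q), ((1 / (h : ℝ)) *
            ∑ m ∈ Ioc ((fq a b g x).toNat / q) (((fq a b g x).toNat + H) / q), |Gh P R h m - h * sg P R| +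
            (2 * L + 64 * h * L ^ 2)) = (1 / (h : ℝ)) * (∑ q ∈ SF Q (2 * Q),
              ∑ m ∈ Ioc ((fq a b g x).toNat / q) (((fq a b g x).toNat + H) / q), |Gh P R h m - h * sg P R|) +
              (SF Q (2 * Q)).card * (2 * L + 64 * h * L ^ 2) := by
            intro x _
            rw [sum_add_distrib, ← mul_sum, sum_const, nsmul_eq_mul]
          rw [sum_congr rfl a1, sum_add_distrib, ← mul_sum, ← hSd, sum_const, Nat.card_Ioc, nsmul_eq_mul]
          have : 2 * X - X = X := by omega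
          rw [this]
      _ ≤ (1 / (h : ℝ)) * (h * (X : ℝ) * H * (C₁ * L / L ^ (K + 3))) + (X : ℝ) * (132 * L ^ 2 * H / v) := by
          have a1 : ((SF Q (2 * Q)).card : ℝ) * (2 * L + 64 * h * L ^ 2) ≤ 132 * L ^ 2 * H / v := by
            rw [le_div_iff₀ hv0]
            have a2 : 2 * L + 64 * h * L ^ 2 ≤ 66 * h * L ^ 2 := by nlinarith
            calc ((SF Q (2 * Q)).card : ℝ) * (2 * L + 64 * h * L ^ 2) * v ≤ Q₁ * (66 * h * L ^ 2) * v := by
                  gcongr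
                  exact_mod_cast hSFcard.trans hQr2
              _ = 66 * L ^ 2 * (Q₁ * h * v) := by ring
              _ ≤ 66 * L ^ 2 * (2 * H) := by gcongr
              _ = _ := by ring
          gcongr
      _ = BD := by
          rw [hBD]
          field_simp
  -- the sum over the blocks
  have claim : ∀ i : ℕ, ∀ Q' : ℕ, Q' ≤ 2 ^ i * Q₀ → Q' ≤ Q₁ →
      ∑ x ∈ Ioc X (2 * X), ∑ q ∈ SF Q₀ Q', Er P R (fq a b g x).toNat H q ≤ i * BD := by
    intro i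
    induction i with
    | zero =>
      intro Q' h1 _
      have : SF Q₀ Q' = ∅ := by
        unfold SF
        rw [Ioc_eq_empty (by simp at h1; omega), filter_empty]
      rw [this]
      simp
    | succ i ih =>
      intro Q' h1 h2
      by_cases hQ' : Q' ≤ Q₀
      · have : SF Q₀ Q' = ∅ := by
          unfold SF
          rw [Ioc_eq_empty (by omega), filter_empty]
        rw [this]
        simp only [sum_empty, sum_const_zero]
        positivity
      push Not at hQ'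
      obtain ⟨Q, hQ⟩ : ∃ Q, Q = max Q₀ ((Q' + 1) / 2) := ⟨_, rfl⟩
      have hQ1 : Q₀ ≤ Q := by rw [hQ]; exact le_max_left _ _
      have hQ2 : (Q' + 1) / 2 ≤ Q := by rw [hQ]; exact le_max_right _ _
      have hQ3 : Q ≤ Q' := by rw [hQ]; exact max_le hQ'.le (by omega)
      have hQ4 : Q ≤ 2 ^ i * Q₀ := by
        rw [hQ]
        apply max_le
        · exact Nat.le_mul_of_pos_left _ (by positivity)
        · rw [pow_succ] at h1
          have : 2 ^ i * 2 * Q₀ = 2 * (2 ^ i * Q₀) := by ring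
          omega
      have b1 := ih Q hQ4 (hQ3.trans h2)
      have b2 := block Q hQ1 (hQ3.trans h2)
      have b3 : ∀ x ∈ Ioc X (2 * X), ∑ q ∈ SF Q₀ Q', Er P R (fq a b g x).toNat H q ≤
          ∑ q ∈ SF Q₀ Q, Er P R (fq a b g x).toNat H q + ∑ q ∈ SF Q (2 * Q), Er P R (fq a b g x).toNat H q := by
        intro x _
        have c1 : SF Q₀ Q' ⊆ SF Q₀ Q ∪ SF Q (2 * Q) := by
          intro z hz
          unfold SF at hz ⊢
          rw [mem_union, mem_filter, mem_filter, mem_Ioc, mem_Ioc]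
          rw [mem_filter, mem_Ioc] at hz
          obtain ⟨hz1, hz2⟩ := hz
          by_cases hc : z ≤ Q
          · left; exact ⟨⟨hz1.1, hc⟩, hz2⟩
          · right; exact ⟨⟨by omega, by omega⟩, hz2⟩
        have c2 : Disjoint (SF Q₀ Q) (SF Q (2 * Q)) := by
          rw [disjoint_left]
          intro z hz hz'
          unfold SF at hz hz'
          rw [mem_filter, mem_Ioc] at hz hz'
          omega
        rw [← sum_union c2]
        exact sum_le_sum_of_subset_of_nonneg c1 fun _ _ _ => abs_nonneg _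
      refine (sum_le_sum b3).trans ?_
      rw [sum_add_distrib]
      push_cast
      linarith
  have hi := claim (Nat.log 2 Q₁ + 1) Q₁ (by
    have h1 : Q₁ < 2 ^ (Nat.log 2 Q₁ + 1) := Nat.lt_pow_succ_log_self (by norm_num) Q₁
    calc Q₁ ≤ 2 ^ (Nat.log 2 Q₁ + 1) * 1 := by omega
      _ ≤ _ := Nat.mul_le_mul_left _ hQ₀1) le_rfl
  refine hi.trans ?_
  have hQ₁n : 1 ≤ Q₁ := by exact_mod_cast hQ₁r
  have hi3 : ((Nat.log 2 Q₁ + 1 : ℕ) : ℝ) ≤ 3 * L := by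
    have h1 : 2 ^ (Nat.log 2 Q₁) ≤ Q₁ := Nat.pow_log_le_self 2 (by omega)
    have h2 : (2 : ℝ) ^ (Nat.log 2 Q₁) ≤ Q₁ := by exact_mod_cast h1
    have h3 : Real.log ((2 : ℝ) ^ (Nat.log 2 Q₁)) ≤ Real.log Q₁ := Real.log_le_log (by positivity) h2
    rw [Real.log_pow] at h3
    have h4 : Real.log Q₁ ≤ L := by
      rw [hL]
      exact Real.log_le_log (by linarith) (hQRv.trans hHXr)
    have h5 := Real.log_two_gt_d9
    push_cast
    have h6 : (0 : ℝ) ≤ (Nat.log 2 Q₁ : ℝ) := Nat.cast_nonneg _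
    nlinarith
  have hLK : 0 < L ^ K := by positivity
  have p1 : 3 * L * (C₁ * L / L ^ (K + 3) * H) ≤ H / 2 / L ^ K := by
    rw [le_div_iff₀ hLK]
    calc 3 * L * (C₁ * L / L ^ (K + 3) * H) * L ^ K = (H / 2) * ((6 * C₁) / L) := by
          field_simp
          ring
      _ ≤ (H / 2) * 1 := by
          gcongr
          rw [div_le_one hL0]
          exact e5
      _ = _ := mul_one _
  have p2 : 3 * L * (132 * L ^ 2 * H / v) ≤ H / 2 / L ^ K := by
    rw [le_div_iff₀ hLK]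
    calc 3 * L * (132 * L ^ 2 * H / v) * L ^ K = (H / 2) * ((792 * L ^ (K + 3)) / v) := by
          field_simp
          ring
      _ ≤ (H / 2) * 1 := by
          gcongr
          rw [div_le_one hv0]
          exact e6
      _ = _ := mul_one _
  calc ((Nat.log 2 Q₁ + 1 : ℕ) : ℝ) * BD ≤ 3 * L * BD := by gcongr
    _ = (X : ℝ) * (3 * L * (C₁ * L / L ^ (K + 3) * H) + 3 * L * (132 * L ^ 2 * H / v)) := by
        rw [hBD]; ring
    _ ≤ (X : ℝ) * (H / 2 / L ^ K + H / 2 / L ^ K) := by gcongr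
    _ = _ := by ring

end Pool.Agent.Helper34.EK
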