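import Mathlib
import Pool.Agent.Helper34.EK.G
import Pool.Agent.Helper34.EK.N2

set_option autoImplicit false

/-! Windows next to almost all values of a quadratic polynomial: integers with exactly `k` prime factors. -/

namespace Pool.Agent.Helper34.EK
open Finset Filter
open ArithmeticFunction (cardFactors)
open Pool.Agent.Helper34.NQ (fq)

/-- the sum of the reciprocals of the multiples -/
lemma recip_mult {d N : ℕ} (hd : 1 ≤ d) :
    ∑ q ∈ (Icc 1 N).filter (fun q => d ∣ q), 1 / (q : ℝ) ≤ 1 / (d : ℝ) * (1 + Real.log N) := by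
  have hd0 : (0 : ℝ) < d := by exact_mod_cast hd
  have h1 : (Icc 1 N).filter (fun q => d ∣ q) ⊆ (Icc 1 N).image (fun m => d * m) := by
    intro q hq
    rw [mem_filter, mem_Icc] at hq
    obtain ⟨⟨h1, h2⟩, m, rfl⟩ := hq
    rw [mem_image]
    refine ⟨m, ?_, rfl⟩
    rw [mem_Icc]
    have hm : 1 ≤ m := by
      rcases Nat.eq_zero_or_pos m with h | h
      · rw [h] at h1; omega
      · exact h
    exact ⟨hm, (Nat.le_mul_of_pos_left m hd).trans h2⟩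
  calc ∑ q ∈ (Icc 1 N).filter (fun q => d ∣ q), 1 / (q : ℝ)
      ≤ ∑ q ∈ (Icc 1 N).image (fun m => d * m), 1 / (q : ℝ) :=
        sum_le_sum_of_subset_of_nonneg h1 (fun _ _ _ => by positivity)
    _ = ∑ m ∈ Icc 1 N, 1 / ((d * m : ℕ) : ℝ) := by
        rw [sum_image]
        intro x _ y _ hxy
        exact Nat.eq_of_mul_eq_mul_left hd hxy
    _ = 1 / (d : ℝ) * ∑ m ∈ Icc 1 N, 1 / (m : ℝ) := by
        rw [mul_sum]
        apply sum_congr rfl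
        intro m _
        push_cast
        rw [one_div_mul_one_div]
    _ ≤ _ := by
        apply mul_le_mul_of_nonneg_left _ (by positivity)
        have := harmonic_le_one_add_log N
        rw [harmonic_eq_sum_Icc] at this
        push_cast at this
        refine le_trans (le_of_eq ?_) this
        apply sum_congr rfl
        intro m _
        rw [one_div]

/-- the integers which are not squarefree -/
lemma nonsq (j : ℕ) {z : ℝ} {Q₀ Q₁ : ℕ} (hz : 1 ≤ z) :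
    ∑ q ∈ (EN j z Q₀ Q₁).filter (fun q => ¬ Squarefree q), 1 / (q : ℝ) ≤ 2 / z * (1 + Real.log Q₁) := by
  classical
  have hlog : 0 ≤ Real.log (Q₁ : ℝ) := Real.log_natCast_nonneg _
  have h1 : ∑ q ∈ (EN j z Q₀ Q₁).filter (fun q => ¬ Squarefree q), 1 / (q : ℝ) ≤
      ∑ q ∈ (EN j z Q₀ Q₁).filter (fun q => ¬ Squarefree q), ∑ p ∈ Ioc ⌊z⌋₊ Q₁, if p ^ 2 ∣ q then 1 / (q : ℝ) else 0 := by
    apply sum_le_sum
    intro q hq
    rw [mem_filter, mem_EN, Nat.floor_natCast, Nat.floor_natCast] at hq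
    obtain ⟨⟨⟨h1, h2⟩, _, h3⟩, h4⟩ := hq
    rw [Nat.squarefree_iff_prime_squarefree] at h4
    push Not at h4
    obtain ⟨p, hp, hpq⟩ := h4
    have hpq' : p ∣ q := (Dvd.intro _ rfl).trans hpq
    have hzp := h3 p hp hpq'
    have hpQ : p ≤ Q₁ := (Nat.le_of_dvd (by omega) hpq').trans h2
    have hmem : p ∈ Ioc ⌊z⌋₊ Q₁ := by
      rw [mem_Ioc]
      exact ⟨(Nat.floor_lt (by linarith)).2 hzp, hpQ⟩
    refine le_trans ?_ (single_le_sum (f := fun p => if p ^ 2 ∣ q then 1 / (q : ℝ) else 0) (fun i _ => by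
      split_ifs <;> positivity) hmem)
    rw [if_pos (by rw [sq]; exact hpq)]
  refine h1.trans ?_
  rw [sum_comm]
  have h2 : ∀ p ∈ Ioc ⌊z⌋₊ Q₁, ∑ q ∈ (EN j z Q₀ Q₁).filter (fun q => ¬ Squarefree q), (if p ^ 2 ∣ q then 1 / (q : ℝ) else 0) ≤
      ((p : ℝ) ^ 2)⁻¹ * (1 + Real.log Q₁) := by
    intro p hp
    rw [mem_Ioc] at hp
    have hp1 : 1 ≤ p := by omega
    rw [← sum_filter]
    have h3 := recip_mult (d := p ^ 2) (N := Q₁) (Nat.one_le_pow _ _ hp1)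
    push_cast at h3
    rw [one_div] at h3
    refine le_trans ?_ h3
    apply sum_le_sum_of_subset_of_nonneg
    · intro q hq
      rw [mem_filter, mem_filter, mem_EN, Nat.floor_natCast, Nat.floor_natCast] at hq
      rw [mem_filter, mem_Icc]
      exact ⟨⟨by omega, hq.1.1.1.2⟩, hq.2⟩
    · intro _ _ _
      positivity
  refine (sum_le_sum h2).trans ?_
  rw [← sum_mul]
  apply mul_le_mul_of_nonneg_right _ (by linarith)
  have hfl : 1 ≤ ⌊z⌋₊ := Nat.one_le_floor_iff z |>.2 hz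
  have hfl2 : z / 2 ≤ ⌊z⌋₊ := by
    have := Nat.lt_floor_add_one z
    have h1 : (1 : ℝ) ≤ ⌊z⌋₊ := by exact_mod_cast hfl
    linarith
  rcases le_or_gt ⌊z⌋₊ Q₁ with h | h
  · refine (sum_Ioc_inv_sq_le_sub (by omega : ⌊z⌋₊ ≠ 0) h).trans ?_
    have h5 : (0 : ℝ) ≤ (Q₁ : ℝ)⁻¹ := by positivity
    have h6 : ((⌊z⌋₊ : ℕ) : ℝ)⁻¹ ≤ 2 / z := by
      rw [inv_eq_one_div, div_le_div_iff₀ (by linarith) (by linarith)]
      linarith
    linarith
  · rw [Ioc_eq_empty (by omega), sum_empty]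
    positivity

/-- a lower bound for the values -/
lemma fq_low {a : ℕ} {b g : ℤ} {K₀ X H x : ℕ} (ha : 1 ≤ a) (hX : 2 * (2 * b.natAbs + K₀) ≤ X) (hH : H ≤ X) (hg : |g| ≤ K₀ * H)
    (hx : X < x) (hx2 : x ≤ 2 * X) : (X : ℤ) ^ 2 ≤ 2 * fq a b g x := by
  have h1 : |b * (x : ℤ)| ≤ b.natAbs * (2 * X) := by
    rw [abs_mul, Int.natCast_natAbs]
    have : |(x : ℤ)| ≤ 2 * X := by
      rw [abs_of_nonneg (by positivity)]
      exact_mod_cast hx2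
    exact mul_le_mul_of_nonneg_left this (abs_nonneg b)
  have h2 : |g| ≤ K₀ * X := by
    refine hg.trans ?_
    have : (H : ℤ) ≤ X := by exact_mod_cast hH
    gcongr
  rw [abs_le] at h1 h2
  have hXz : (2 * (2 * (b.natAbs : ℤ) + K₀)) ≤ X := by exact_mod_cast hX
  have hX0 : (0 : ℤ) ≤ X := by positivity
  have hxz : (X : ℤ) ≤ x := by exact_mod_cast hx.le
  have haz : (1 : ℤ) ≤ a := by exact_mod_cast ha
  have sq1 : (X : ℤ) ^ 2 ≤ (x : ℤ) ^ 2 := pow_le_pow_left₀ (by positivity) hxz 2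
  have a1 : (X : ℤ) ^ 2 ≤ a * (x : ℤ) ^ 2 := by nlinarith [sq_nonneg (x : ℤ)]
  have a2 : (2 * (2 * (b.natAbs : ℤ) + K₀)) * X ≤ X * X := mul_le_mul_of_nonneg_right hXz hX0
  unfold fq
  nlinarith

theorem mm (hN : S_N) (hR : S_R) : S_M := by
  classical
  intro a b K₀ ha k hk ε hε
  obtain ⟨ε', hε'⟩ : ∃ ε' : ℝ, ε' = min ε (1 / 4) := ⟨_, rfl⟩
  have hε'0 : 0 < ε' := by rw [hε']; exact lt_min hε (by norm_num)
  have hε'4 : ε' ≤ 1 / 4 := by rw [hε']; exact min_le_right _ _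
  have hε'ε : ε' ≤ ε := by rw [hε']; exact min_le_left _ _
  obtain ⟨e, he⟩ : ∃ e : ℝ, e = ε' / 64 := ⟨_, rfl⟩
  have he0 : 0 < e := by rw [he]; positivity
  have he1 : e ≤ 1 / 4 := by rw [he]; linarith
  obtain ⟨cR, T₀, hcR, hT₀, hsg⟩ := sg_ge hR
  obtain ⟨δR, cQ, U₀, hδR, hcQ, hRQ⟩ := hR (k - 2) (by omega) ε' hε'0 (by linarith)
  obtain ⟨δ, hδ⟩ : ∃ δ : ℝ, δ = min (δR / 4) e := ⟨_, rfl⟩
  have hδ0 : 0 < δ := by rw [hδ]; exact lt_min (by positivity) he0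
  have hδR' : δ ≤ δR / 4 := by rw [hδ]; exact min_le_left _ _
  have hδe : δ ≤ e := by rw [hδ]; exact min_le_right _ _
  have hk0 : (0 : ℝ) < k := by exact_mod_cast (by omega : 0 < k)
  refine ⟨δ, cR * cQ / (12 * k ^ 2), hδ0, by positivity, ?_⟩
  intro A
  obtain ⟨X₁, hX₁⟩ := hN a b K₀ ha (4 * e) e (by positivity) he0 (A + 1)
  obtain ⟨Ct, hCt⟩ : ∃ Ct : ℕ, Ct = 4 * a + 2 * b.natAbs + K₀ + 2 := ⟨_, rfl⟩
  have hev : ∀ᶠ X : ℕ in atTop, (X₁ ≤ X) ∧ (2 * (2 * b.natAbs + K₀) + Ct + 16 ≤ X) ∧ (T₀ ≤ (X : ℝ) ^ e) ∧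
      (4 / (cR * cQ) ≤ Real.log X) ∧ (U₀ ≤ (X : ℝ) ^ (1 / 4 : ℝ)) ∧ (1 ≤ Real.log X) ∧
      (8 / cQ * Real.log X ^ 1 ≤ (X : ℝ) ^ (δR / 4)) := by
    filter_upwards [eventually_ge_atTop X₁, eventually_ge_atTop (2 * (2 * b.natAbs + K₀) + Ct + 16), ev_rpow_ge T₀ he0,
      ev_log_ge (4 / (cR * cQ)), ev_rpow_ge U₀ (by norm_num : (0 : ℝ) < 1 / 4), ev_log_ge 1,
      ev_log_pow 1 (8 / cQ) (by positivity : 0 < δR / 4)] with X h1 h2 h3 h4 h5 h6 h7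
    exact ⟨h1, h2, h3, h4, h5, h6, h7⟩
  obtain ⟨X₀, hX₀⟩ := eventually_atTop.1 hev
  refine ⟨X₀, ?_⟩
  intro X hX H hHX1 hHX g hg
  obtain ⟨f1, f2, f3, f4, f5, f6, f7⟩ := hX₀ X hX
  obtain ⟨L, hL⟩ : ∃ L, L = Real.log X := ⟨_, rfl⟩
  rw [← hL] at f4 f6 f7 ⊢
  rw [pow_one] at f7
  have hX16 : (16 : ℝ) ≤ X := by exact_mod_cast (by omega : 16 ≤ X)
  have hXp : (0 : ℝ) < X := by linarith
  have hX1 : (1 : ℝ) ≤ X := by linarith
  have hL0 : 0 < L := by linarith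
  have hHXr : (H : ℝ) ≤ X := by exact_mod_cast hHX
  obtain ⟨t, ht⟩ : ∃ t : ℝ, t = (X : ℝ) ^ e := ⟨_, rfl⟩
  rw [← ht] at f3
  have ht4 : 4 ≤ t := hT₀.trans f3
  have ht0 : 0 < t := by linarith
  have ht1 : 1 ≤ t := by linarith
  have htp : ∀ n : ℕ, t ^ n = (X : ℝ) ^ (n * e) := by
    intro n
    rw [ht, ← Real.rpow_natCast, ← Real.rpow_mul hXp.le]
    congr 1
    ring
  have ht64 : t ^ 64 = (X : ℝ) ^ ε' := by
    rw [htp, he]
    congr 1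
    push_cast
    ring
  -- `A₀ = X ^ (1 / 2 - ε')`, `B₀ = X ^ (1 / 2 + ε')`
  obtain ⟨A₀, hA₀⟩ : ∃ A₀ : ℝ, A₀ = (X : ℝ) ^ (1 / 2 - ε') := ⟨_, rfl⟩
  obtain ⟨B₀, hB₀⟩ : ∃ B₀ : ℝ, B₀ = (X : ℝ) ^ (1 / 2 + ε') := ⟨_, rfl⟩
  obtain ⟨w, hw⟩ : ∃ w : ℝ, w = (X : ℝ) ^ (1 / 4 : ℝ) := ⟨_, rfl⟩
  rw [← hw] at f5
  have hw0 : 0 < w := by rw [hw]; positivity
  have hw1 : 1 ≤ w := by rw [hw]; exact Real.one_le_rpow hX1 (by norm_num)
  have hAw : w ≤ A₀ := by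
    rw [hw, hA₀]
    exact Real.rpow_le_rpow_of_exponent_le hX1 (by linarith)
  have hA1 : 1 ≤ A₀ := hw1.trans hAw
  have hA0 : 0 < A₀ := by linarith
  have hAB : A₀ * B₀ = X := by
    rw [hA₀, hB₀, ← Real.rpow_add hXp]
    have : 1 / 2 - ε' + (1 / 2 + ε') = 1 := by ring
    rw [this, Real.rpow_one]
  have hBA : B₀ = A₀ * t ^ 128 := by
    have : t ^ 128 = (X : ℝ) ^ (2 * ε') := by
      rw [htp, he]
      congr 1
      push_cast
      ring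
    rw [hA₀, hB₀, this, ← Real.rpow_add hXp]
    congr 1
    ring
  have hBH : B₀ ≤ H := by
    refine le_trans ?_ hHX1
    rw [hB₀]
    exact Real.rpow_le_rpow_of_exponent_le hX1 (by linarith)
  have hB0 : 0 < B₀ := by rw [hB₀]; positivity
  have hAX : A₀ ≤ X := by
    have : 1 ≤ B₀ := by rw [hB₀]; exact Real.one_le_rpow hX1 (by linarith)
    rw [← hAB]
    exact le_mul_of_one_le_right hA0.le this
  have hH0 : (0 : ℝ) < H := lt_of_lt_of_le hB0 hBH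
  -- the parameters
  obtain ⟨Q₁, hQ₁⟩ : ∃ Q₁, Q₁ = ⌊B₀ / t ^ 8⌋₊ := ⟨_, rfl⟩
  obtain ⟨Q₀, hQ₀⟩ : ∃ Q₀, Q₀ = ⌈A₀⌉₊ := ⟨_, rfl⟩
  obtain ⟨P, hP⟩ : ∃ P, P = ⌈t⌉₊ := ⟨_, rfl⟩
  obtain ⟨R, hRd⟩ : ∃ R, R = ⌊t ^ 2⌋₊ := ⟨_, rfl⟩
  have hQ₀1 : A₀ ≤ Q₀ := by rw [hQ₀]; exact Nat.le_ceil _
  have hQ₀2 : (Q₀ : ℝ) ≤ 2 * A₀ := by
    have : (Q₀ : ℝ) < A₀ + 1 := by rw [hQ₀]; exact Nat.ceil_lt_add_one hA0.le
    linarith
  have hQ₀X : (Q₀ : ℝ) ≤ X := by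
    rw [hQ₀]
    exact_mod_cast Nat.ceil_le.2 hAX
  have hQ₀0 : (0 : ℝ) < Q₀ := by linarith
  have hQ₀n : 1 ≤ Q₀ := by exact_mod_cast hA1.trans hQ₀1
  have hBt : B₀ / t ^ 8 = A₀ * t ^ 120 := by
    rw [hBA]
    field_simp
  have hQ₁1 : (Q₁ : ℝ) ≤ B₀ / t ^ 8 := by rw [hQ₁]; exact Nat.floor_le (by positivity)
  have hQ₁2 : B₀ / t ^ 8 < Q₁ + 1 := by rw [hQ₁]; exact Nat.lt_floor_add_one _
  have ht64' : 4 ≤ t ^ 56 := ht4.trans (by
    calc t = t ^ 1 := (pow_one t).symm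
      _ ≤ t ^ 56 := pow_le_pow_right₀ ht1 (by norm_num))
  have hT64 : 1 ≤ t ^ 64 := one_le_pow₀ ht1
  have hbig : 2 * A₀ * t ^ 64 + 1 ≤ A₀ * t ^ 120 := by
    have e1 : t ^ 120 = t ^ 56 * t ^ 64 := by ring
    rw [e1]
    have e2 : A₀ * (4 * t ^ 64) ≤ A₀ * (t ^ 56 * t ^ 64) := by gcongr
    have e3 : 1 ≤ A₀ * t ^ 64 := by nlinarith
    linarith
  have hP1 : t ≤ P := by rw [hP]; exact Nat.le_ceil _
  have hR1 : (R : ℝ) ≤ t ^ 2 := by rw [hRd]; exact Nat.floor_le (by positivity)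
  have hPR : P ≤ R := by
    rw [hP, hRd, Nat.ceil_le]
    have : t ^ 2 < (⌊t ^ 2⌋₊ : ℝ) + 1 := Nat.lt_floor_add_one _
    nlinarith
  have hXQH : X ≤ Q₀ * H := by
    have : (X : ℝ) ≤ Q₀ * H := by
      rw [← hAB]
      gcongr
    exact_mod_cast this
  have hpow : (Q₀ : ℝ) ^ (1 + ε') ≤ Q₁ := by
    rw [Real.rpow_add hQ₀0, Real.rpow_one]
    have a1 : (Q₀ : ℝ) ^ ε' ≤ t ^ 64 := by
      rw [ht64]
      exact Real.rpow_le_rpow hQ₀0.le hQ₀X hε'0.le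
    have a2 : (Q₀ : ℝ) * (Q₀ : ℝ) ^ ε' ≤ 2 * A₀ * t ^ 64 := by gcongr
    rw [hBt] at hQ₁2
    linarith
  have hQ01 : Q₀ ≤ Q₁ := by
    have h1 : (Q₀ : ℝ) ≤ (Q₀ : ℝ) ^ (1 + ε') := by
      rw [Real.rpow_add hQ₀0, Real.rpow_one]
      exact le_mul_of_one_le_right hQ₀0.le (Real.one_le_rpow (hA1.trans hQ₀1) hε'0.le)
    exact_mod_cast h1.trans hpow
  have hQR : (Q₁ : ℝ) * R * (X : ℝ) ^ (4 * e) ≤ H := by
    have e4 : (X : ℝ) ^ (4 * e) = t ^ 4 := by rw [htp]; norm_num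
    rw [e4]
    calc (Q₁ : ℝ) * R * t ^ 4 ≤ (B₀ / t ^ 8) * t ^ 2 * t ^ 4 := by gcongr
      _ = B₀ * (t ^ 6 / t ^ 8) := by ring
      _ ≤ B₀ * 1 := by
          gcongr
          rw [div_le_one (by positivity)]
          exact pow_le_pow_right₀ ht1 (by norm_num)
      _ = B₀ := mul_one _
      _ ≤ H := hBH
  have hQRH : (Q₁ : ℝ) * R ≤ H := by
    refine le_trans ?_ hQR
    exact le_mul_of_one_le_right (by positivity) (Real.one_le_rpow hX1 (by positivity))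
  have hR1' : (1 : ℝ) ≤ R := (ht1.trans hP1).trans (by exact_mod_cast hPR)
  have hQ₁X : (Q₁ : ℝ) ≤ X := by
    refine le_trans ?_ (hQRH.trans hHXr)
    exact le_mul_of_one_le_right (Nat.cast_nonneg _) hR1'
  have hQ₁1r : (1 : ℝ) ≤ Q₁ := by
    have : 1 ≤ Q₁ := by omega
    exact_mod_cast this
  have key := hX₁ X f1 H Q₀ Q₁ P R hQ₀n hXQH hQ01 (by rw [← ht]; exact hP1) hPR hQR hHX g hg
  rw [← hL] at key
  -- the reciprocals
  have hUQ : U₀ ≤ (Q₀ : ℝ) := f5.trans (hAw.trans hQ₀1)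
  have hcQsum := hRQ Q₀ Q₁ hUQ hpow
  obtain ⟨z, hz⟩ : ∃ z : ℝ, z = (Q₀ : ℝ) ^ δR := ⟨_, rfl⟩
  rw [← hz] at hcQsum
  have hz1 : (X : ℝ) ^ (δR / 4) ≤ z := by
    calc (X : ℝ) ^ (δR / 4) = w ^ δR := by
          rw [hw, ← Real.rpow_mul hXp.le]
          congr 1
          ring
      _ ≤ (Q₀ : ℝ) ^ δR := Real.rpow_le_rpow hw0.le (hAw.trans hQ₀1) hδR.le
      _ = z := hz.symm
  have hzz : (X : ℝ) ^ δ ≤ z := (Real.rpow_le_rpow_of_exponent_le hX1 hδR').trans hz1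
  have hz2 : 1 ≤ z := (Real.one_le_rpow hX1 hδ0.le).trans hzz
  obtain ⟨QQ, hQQd⟩ : ∃ QQ : Finset ℕ, QQ = (EN (k - 2) z Q₀ Q₁).filter Squarefree := ⟨_, rfl⟩
  have hsumQQ : cQ / 2 ≤ ∑ q ∈ QQ, 1 / (q : ℝ) := by
    have h1 := sum_filter_add_sum_filter_not (EN (k - 2) z Q₀ Q₁) Squarefree (fun q => 1 / (q : ℝ))
    have h2 := nonsq (k - 2) (z := z) (Q₀ := Q₀) (Q₁ := Q₁) hz2
    have h3 : 2 / z * (1 + Real.log Q₁) ≤ cQ / 2 := by
      have h4 : Real.log Q₁ ≤ L := by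
        rw [hL]
        exact Real.log_le_log (by linarith) hQ₁X
      have h5 : 8 / cQ * L ≤ z := f7.trans hz1
      rw [div_mul_eq_mul_div, div_le_iff₀ hcQ] at h5
      rw [div_mul_eq_mul_div, div_le_iff₀ (by linarith)]
      nlinarith
    rw [← hQQd] at h1
    linarith
  have hzt : (X : ℝ) ^ δ ≤ t := by
    rw [ht]
    exact Real.rpow_le_rpow_of_exponent_le hX1 hδe
  have hQQm : ∀ q ∈ QQ, ((Q₀ < q ∧ q ≤ Q₁) ∧ Squarefree q) ∧ cardFactors q = k - 2 ∧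
      ∀ p : ℕ, p.Prime → p ∣ q → (X : ℝ) ^ δ < p := by
    intro q hq
    rw [hQQd, mem_filter, mem_EN, Nat.floor_natCast, Nat.floor_natCast] at hq
    exact ⟨⟨hq.1.1, hq.2⟩, hq.1.2.1, fun p hp hpq => lt_of_le_of_lt hzz (hq.1.2.2 p hp hpq)⟩
  have hsg1 : cR ≤ sg P R := by
    rw [hP, hRd]
    exact hsg t f3
  have hCtX : (Ct : ℝ) ≤ X := by exact_mod_cast (by omega : Ct ≤ X)
  have hCt1 : (1 : ℝ) ≤ Ct := by exact_mod_cast (by omega : 1 ≤ Ct)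
  -- the bad values
  obtain ⟨Bad, hBad⟩ : ∃ Bad : Finset ℕ, Bad = (Ioc X (2 * X)).filter (fun x =>
    (cE k ((X : ℝ) ^ δ) (fq a b g x).toNat H : ℝ) < cR * cQ / (12 * k ^ 2) * H / L) := ⟨_, rfl⟩
  have hbad : ∀ x ∈ Bad, (H : ℝ) * (cR * cQ / 4) ≤ ∑ q ∈ SF Q₀ Q₁, Er P R (fq a b g x).toNat H q := by
    intro x hx
    rw [hBad, mem_filter, mem_Ioc] at hx
    obtain ⟨⟨hx1, hx2⟩, hlt⟩ := hx
    have hsz := fq_size (a := a) (b := b) (g := g) (K₀ := K₀) (X := X) (H := H) (x := x) ha (by omega) hHX hg hx1 hx2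
    have hlow := fq_low (a := a) (b := b) (g := g) (K₀ := K₀) (X := X) (H := H) (x := x) ha (by omega) hHX hg hx1 hx2
    obtain ⟨y, hy⟩ : ∃ y : ℕ, y = (fq a b g x).toNat := ⟨_, rfl⟩
    have hyz : ((y : ℕ) : ℤ) = fq a b g x := by rw [hy]; exact Int.toNat_of_nonneg hsz.1
    rw [← hy] at hlt ⊢
    rw [← hyz] at hsz hlow
    rw [← hCt] at hsz
    have hyN : y + H ≤ Ct * X ^ 2 := by exact_mod_cast hsz.2
    have hyL : (X : ℝ) ^ 2 ≤ 2 * y := by exact_mod_cast hlow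
    have hcnt := cnt_lower (k := k) (Q₁ := Q₁) (P := P) (R := R) (y := y) (H := H) (N := Ct * X ^ 2) (z := (X : ℝ) ^ δ) QQ hk
      hyN (by
      intro q hq
      have := hQQm q hq
      exact ⟨by omega, this.1.1.2, this.2.1, this.2.2⟩) (hzt.trans hP1) (by positivity) (by
      have a1 : (X : ℝ) ^ δ ≤ w := by
        rw [hw]
        exact Real.rpow_le_rpow_of_exponent_le hX1 (by linarith)
      have a2 : (X : ℝ) ^ δ * Q₁ * R ≤ w * X := by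
        rw [mul_assoc]
        exact mul_le_mul a1 (hQRH.trans hHXr) (by positivity) hw0.le
      have a3 : 2 * w ≤ X := by
        have hw4 : w ^ 4 = X := by
          rw [hw, ← Real.rpow_natCast, ← Real.rpow_mul hXp.le]
          norm_num
        have hw2 : 2 ≤ w := by
          by_contra hcon
          push Not at hcon
          have : w ^ 4 < 2 ^ 4 := pow_lt_pow_left₀ hcon hw0.le (by norm_num)
          rw [hw4] at this
          linarith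
        rw [← hw4]
        have : w ^ 4 = w * w ^ 3 := by ring
        have h8 : (2 : ℝ) ^ 3 ≤ w ^ 3 := pow_le_pow_left₀ (by norm_num) hw2 3
        rw [this]
        nlinarith
      nlinarith)
    have hlogN : Real.log ((Ct * X ^ 2 : ℕ) : ℝ) ≤ 3 * L := by
      push_cast
      rw [Real.log_mul (by linarith) (by positivity), Real.log_pow, ← hL]
      have : Real.log Ct ≤ L := by
        rw [hL]
        exact Real.log_le_log (by linarith) hCtX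
      push_cast
      linarith
    have hlow2 : (H : ℝ) * (cR * (cQ / 2)) ≤ H * sg P R * ∑ q ∈ QQ, 1 / (q : ℝ) := by
      rw [mul_assoc]
      exact mul_le_mul_of_nonneg_left (mul_le_mul hsg1 hsumQQ (by positivity) (sg_nonneg P R)) hH0.le
    have hup : (cE k ((X : ℝ) ^ δ) y H : ℝ) * ((k : ℝ) ^ 2 * Real.log ((Ct * X ^ 2 : ℕ) : ℝ)) ≤
        (cE k ((X : ℝ) ^ δ) y H : ℝ) * ((k : ℝ) ^ 2 * (3 * L)) := by gcongr
    have hkL : 0 < (k : ℝ) ^ 2 * (3 * L) := by positivity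
    have hlt3 := mul_lt_mul_of_pos_right hlt hkL
    have e1 : cR * cQ / (12 * k ^ 2) * H / L * ((k : ℝ) ^ 2 * (3 * L)) = (H : ℝ) * (cR * cQ / 4) := by
      field_simp
      norm_num
    rw [e1] at hlt3
    have hsub : ∑ q ∈ QQ, Er P R y H q ≤ ∑ q ∈ SF Q₀ Q₁, Er P R y H q := by
      apply sum_le_sum_of_subset_of_nonneg
      · intro q hq
        have := hQQm q hq
        unfold SF
        rw [mem_filter, mem_Ioc]
        exact this.1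
      · intro _ _ _
        exact abs_nonneg _
    linarith
  have hcard : (Nat.card {x : ℕ | X < x ∧ x ≤ 2 * X ∧ (cE k ((X : ℝ) ^ δ) (fq a b g x).toNat H : ℝ) <
      cR * cQ / (12 * k ^ 2) * H / L} : ℝ) = Bad.card := by
    rw [Nat.cast_inj, ← Nat.card_eq_finsetCard]
    have : {x : ℕ | X < x ∧ x ≤ 2 * X ∧ (cE k ((X : ℝ) ^ δ) (fq a b g x).toNat H : ℝ) <
      cR * cQ / (12 * k ^ 2) * H / L} = ((Bad : Finset ℕ) : Set ℕ) := by
      ext x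
      rw [mem_coe, hBad, mem_filter, mem_Ioc, Set.mem_ofPred_eq, and_assoc]
    rw [this]
    rfl
  rw [hcard]
  have hsum : (Bad.card : ℝ) * (H * (cR * cQ / 4)) ≤ X * H / L ^ (A + 1) := by
    calc (Bad.card : ℝ) * (H * (cR * cQ / 4)) = ∑ x ∈ Bad, (H : ℝ) * (cR * cQ / 4) := by
          rw [sum_const, nsmul_eq_mul]
      _ ≤ ∑ x ∈ Bad, ∑ q ∈ SF Q₀ Q₁, Er P R (fq a b g x).toNat H q := sum_le_sum hbad
      _ ≤ ∑ x ∈ Ioc X (2 * X), ∑ q ∈ SF Q₀ Q₁, Er P R (fq a b g x).toNat H q := by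
          apply sum_le_sum_of_subset_of_nonneg
          · rw [hBad]
            exact filter_subset _ _
          · intro _ _ _
            exact sum_nonneg fun _ _ => abs_nonneg _
      _ ≤ _ := key
  rw [le_div_iff₀ (by positivity)]
  have h4 : 4 ≤ cR * cQ * L := by
    rw [div_le_iff₀ (by positivity)] at f4
    linarith
  have hLA : 0 < L ^ A := by positivity
  rw [le_div_iff₀ (by positivity)] at hsum
  have h5 : (Bad.card : ℝ) * L ^ A * (4 * H) ≤ X * (4 * H) := by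
    calc (Bad.card : ℝ) * L ^ A * (4 * H) ≤ (Bad.card : ℝ) * L ^ A * (cR * cQ * L * H) := by gcongr
      _ = 4 * ((Bad.card : ℝ) * (H * (cR * cQ / 4)) * L ^ (A + 1)) := by
          rw [pow_succ]
          ring
      _ ≤ 4 * (X * H) := by linarith
      _ = _ := by ring
  exact le_of_mul_le_mul_right h5 (by positivity)

end Pool.Agent.Helper34.EK
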