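import Mathlib
import Pool.Agent.Helper34.EK.Stm

set_option autoImplicit false

/-!
Project EK (helper34): asymptotic formulas for the products `q a p` in the parts of the intervals `[n ^ 2 - n, n ^ 2 + n]`.
-/

namespace Pool.Agent.Helper34.EK
open Finset

/-- the primes `a` with `P < a ≤ R` -/
noncomputable def prr (P R : ℝ) : Finset ℕ := (Ioc ⌊P⌋₊ ⌊R⌋₊).filter Nat.Prime

/-- the sum of `log p` over the pairs of primes `a`, `p` with `P < a ≤ R` and `u < q a p ≤ u + h` -/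
noncomputable def TT (P R : ℝ) (u h q : ℕ) : ℝ :=
  ∑ a ∈ prr P R, ∑ p ∈ (Icc 1 (u + h)).filter (fun p => p.Prime ∧ u < q * a * p ∧ q * a * p ≤ u + h), Real.log p

/-- (T) the asymptotic formula for all `q` in the mean -/
def S_T : Prop := ∀ α β γ δ κ ε : ℝ, 1 / 2 < α → α < β → 0 < γ → γ < δ → β + δ < 1 → 0 < κ → 0 < ε → ∀ K : ℕ,
  ∃ X₀ : ℕ, ∀ X : ℕ, X₀ ≤ X →
    (Nat.card {n : ℕ | X < n ∧ n ≤ 2 * X ∧ ∃ u h : ℕ, κ * n ≤ h ∧ n ^ 2 - n ≤ u ∧ u + h ≤ n ^ 2 + n ∧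
      (h : ℝ) / Real.log X ^ K < ∑ q ∈ Ioc ⌊(X : ℝ) ^ α⌋₊ ⌊(X : ℝ) ^ β⌋₊,
        |TT ((X : ℝ) ^ γ) ((X : ℝ) ^ δ) u h q - h / q * ∑ a ∈ prr ((X : ℝ) ^ γ) ((X : ℝ) ^ δ), 1 / (a : ℝ)|} : ℝ) ≤
      (X : ℝ) ^ (2 - 2 * α + ε)

/-- (T2) the products of three primes -/
def S_T2 : Prop := ∀ α β γ δ κ ε : ℝ, 1 / 2 < α → α < β → 0 < γ → γ < δ → β + δ < 1 → 0 < κ → 0 < ε → ∀ τ : ℝ, 0 < τ →
  ∃ X₀ : ℕ, ∀ X : ℕ, X₀ ≤ X →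
    (Nat.card {n : ℕ | X < n ∧ n ≤ 2 * X ∧ ∃ u h : ℕ, κ * n ≤ h ∧ n ^ 2 - n ≤ u ∧ u + h ≤ n ^ 2 + n ∧
      τ * h < |∑ q ∈ prr ((X : ℝ) ^ α) ((X : ℝ) ^ β), TT ((X : ℝ) ^ γ) ((X : ℝ) ^ δ) u h q -
        h * (Real.log (β / α) * Real.log (δ / γ))|} : ℝ) ≤ (X : ℝ) ^ (2 - 2 * α + ε)

end Pool.Agent.Helper34.EK
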