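import Mathlib
import Pool.Agent.Helper34.EK.Stm3
import Pool.Agent.Helper34.EK.Stm4

set_option autoImplicit false

/-!
Project EK (helper34): asymptotic formulas for the products `q a p` next to almost all values of a quadratic polynomial.
-/

namespace Pool.Agent.Helper34.EK
open Finset
open Pool.Agent.Helper34.NQ (fq)

/-- (Q) the asymptotic formula for all squarefree `q` in the mean -/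
def S_Q : Prop := ∀ (a : ℕ) (b : ℤ) (K₀ : ℕ), 1 ≤ a → ∀ α β γ δ θ : ℝ, 1 - θ < α → α < β → 0 < γ → γ < δ → β + δ < θ →
  ∀ K A : ℕ, ∃ X₀ : ℕ, ∀ X : ℕ, X₀ ≤ X → ∀ H : ℕ, (X : ℝ) ^ θ ≤ H → H ≤ X → ∀ g : ℤ, |g| ≤ K₀ * H →
    (Nat.card {x : ℕ | X < x ∧ x ≤ 2 * X ∧ (H : ℝ) / Real.log X ^ K <
      ∑ q ∈ (Ioc ⌊(X : ℝ) ^ α⌋₊ ⌊(X : ℝ) ^ β⌋₊).filter Squarefree, |TT ((X : ℝ) ^ γ) ((X : ℝ) ^ δ) (fq a b g x).toNat H q -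
        H / q * ∑ p ∈ prr ((X : ℝ) ^ γ) ((X : ℝ) ^ δ), 1 / (p : ℝ)|} : ℝ) ≤ X / Real.log X ^ A

/-- (Q2) the products of three primes -/
def S_Q2 : Prop := ∀ (a : ℕ) (b : ℤ) (K₀ : ℕ), 1 ≤ a → ∀ α β γ δ θ : ℝ, 1 - θ < α → α < β → 0 < γ → γ < δ → β + δ < θ →
  ∀ τ : ℝ, 0 < τ → ∀ A : ℕ, ∃ X₀ : ℕ, ∀ X : ℕ, X₀ ≤ X → ∀ H : ℕ, (X : ℝ) ^ θ ≤ H → H ≤ X → ∀ g : ℤ, |g| ≤ K₀ * H →
    (Nat.card {x : ℕ | X < x ∧ x ≤ 2 * X ∧ τ * H < |∑ q ∈ prr ((X : ℝ) ^ α) ((X : ℝ) ^ β),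
      TT ((X : ℝ) ^ γ) ((X : ℝ) ^ δ) (fq a b g x).toNat H q - H * (Real.log (β / α) * Real.log (δ / γ))|} : ℝ) ≤
        X / Real.log X ^ A

end Pool.Agent.Helper34.EK
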