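import Mathlib
import Pool.Agent.Helper34.EK.V2
import Pool.Agent.Helper34.EK.Stm3
import Pool.Graph.R_seed8.H305R2.MertensM

set_option autoImplicit false

/-!
Project EK (helper34), module T: asymptotic formulas (helper55).
-/

namespace Pool.Agent.Helper34.EK
open Finset Filter Topology

namespace EKT

/-- the sum over the multiples of `q` -/
noncomputable def Fs (P R u h q : ℕ) : ℝ := ∑ n ∈ (Ioc u (u + h)).filter (fun n => q ∣ n), g P R (n / q)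

lemma Er_eq (P R y H q : ℕ) : Er P R y H q = |Fs P R y H q - (H : ℝ) / q * sg P R| := rfl

lemma Fs_nonneg (P R u h q : ℕ) : 0 ≤ Fs P R u h q := sum_nonneg fun _ _ => g_nonneg _ _ _

lemma Fs_add (P R u a b q : ℕ) : Fs P R u (a + b) q = Fs P R u a q + Fs P R (u + a) b q := by
  unfold Fs
  rw [← sum_union]
  · congr 1
    rw [← filter_union]
    congr 1
    ext x
    rw [mem_union, mem_Ioc, mem_Ioc, mem_Ioc]
    omega
  · apply disjoint_filter_filter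
    rw [disjoint_left]
    intro x hx hx'
    rw [mem_Ioc] at hx hx'
    omega

lemma Fs_split (P R u m t q : ℕ) : Fs P R u (t * m) q = ∑ i ∈ range t, Fs P R (u + i * m) m q := by
  induction t with
  | zero => simp [Fs]
  | succ t ih => rw [sum_range_succ, Nat.add_mul, one_mul, Fs_add, ih]

/-- one `q` -/
lemma er_split (P R u h H q t : ℕ) (ht2 : t * H ≤ h) (ht3 : h < (t + 1) * H) (hHh : H ≤ h) :
    Er P R u h q ≤ ∑ i ∈ range t, Er P R (u + i * H) H q + Er P R (u + h - H) H q +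
      (H : ℝ) * (1 / q * sg P R) := by
  obtain ⟨r, hr⟩ := Nat.exists_eq_add_of_le ht2
  have hrH : r < H := by
    have : (t + 1) * H = t * H + H := by ring
    omega
  have h1 : Fs P R u h q = ∑ i ∈ range t, Fs P R (u + i * H) H q + Fs P R (u + t * H) r q := by
    rw [hr, Fs_add, Fs_split]
  have h2 : (h : ℝ) / q * sg P R = ∑ i ∈ range t, (H : ℝ) / q * sg P R + (r : ℝ) / q * sg P R := by
    rw [sum_const, card_range, nsmul_eq_mul, hr]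
    push_cast
    ring
  have h3 : Fs P R (u + t * H) r q ≤ Fs P R (u + h - H) H q := by
    have e1 : H = (H - r) + r := by omega
    have e2 : Fs P R (u + h - H) H q = Fs P R (u + h - H) (H - r) q + Fs P R (u + t * H) r q := by
      conv_lhs => rw [e1]
      rw [Fs_add]
      congr 2 <;> omega
    rw [e2]
    linarith [Fs_nonneg P R (u + h - H) (H - r) q]
  have h4 : 0 ≤ Fs P R (u + t * H) r q := Fs_nonneg _ _ _ _ _
  have h5 := le_abs_self (Fs P R (u + h - H) H q - (H : ℝ) / q * sg P R)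
  have h6 := abs_nonneg (Fs P R (u + h - H) H q - (H : ℝ) / q * sg P R)
  have hq0 : (0 : ℝ) ≤ 1 / (q : ℝ) := by positivity
  have hsg := sg_nonneg P R
  have h7 : (r : ℝ) / q * sg P R ≤ (H : ℝ) / q * sg P R := by
    apply mul_le_mul_of_nonneg_right _ hsg
    have : (r : ℝ) ≤ H := by exact_mod_cast hrH.le
    exact div_le_div_of_nonneg_right this (Nat.cast_nonneg _)
  have h8 : 0 ≤ (r : ℝ) / q * sg P R := by positivity
  have h9 : (H : ℝ) * (1 / q * sg P R) = (H : ℝ) / q * sg P R := by ring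
  rw [h9, Er_eq, Er_eq, h1, h2]
  have e3 : ∑ i ∈ range t, Fs P R (u + i * H) H q + Fs P R (u + t * H) r q -
      (∑ i ∈ range t, (H : ℝ) / q * sg P R + (r : ℝ) / q * sg P R) =
      ∑ i ∈ range t, (Fs P R (u + i * H) H q - (H : ℝ) / q * sg P R) +
        (Fs P R (u + t * H) r q - (r : ℝ) / q * sg P R) := by
    rw [sum_sub_distrib]
    ring
  rw [e3]
  refine (abs_add_le _ _).trans ?_
  have h10 : |∑ i ∈ range t, (Fs P R (u + i * H) H q - (H : ℝ) / q * sg P R)| ≤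
      ∑ i ∈ range t, Er P R (u + i * H) H q := abs_sum_le_sum_abs _ _
  have h11 : |Fs P R (u + t * H) r q - (r : ℝ) / q * sg P R| ≤
      |Fs P R (u + h - H) H q - (H : ℝ) / q * sg P R| + (H : ℝ) / q * sg P R := by
    rw [abs_le]
    constructor <;> linarith
  linarith

/-- a short window in a long window -/
lemma sub_window {P R Q₀ Q₁ u h H : ℕ} {c : ℝ} (hH : 1 ≤ H) (hHh : H ≤ h) (hc : 0 < c)
    (hS : (H : ℝ) * ((∑ q ∈ Ioc Q₀ Q₁, 1 / (q : ℝ)) * sg P R) ≤ h * c / 4)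
    (hb : h * c < ∑ q ∈ Ioc Q₀ Q₁, Er P R u h q) :
    ∃ v, u ≤ v ∧ v + H ≤ u + h ∧ H * c / 4 < ∑ q ∈ Ioc Q₀ Q₁, Er P R v H q := by
  obtain ⟨t, ht⟩ : ∃ t, t = h / H := ⟨_, rfl⟩
  have ht1 : 1 ≤ t := by rw [ht]; exact Nat.div_pos hHh (by omega)
  have ht2 : t * H ≤ h := by rw [ht]; exact Nat.div_mul_le_self h H
  have ht3 : h < (t + 1) * H := by
    rw [ht, mul_comm]
    exact Nat.lt_mul_div_succ h (by omega)
  by_contra hcon
  push Not at hcon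
  have h1 : ∑ q ∈ Ioc Q₀ Q₁, Er P R u h q ≤ ∑ q ∈ Ioc Q₀ Q₁, (∑ i ∈ range t, Er P R (u + i * H) H q +
      Er P R (u + h - H) H q + (H : ℝ) * (1 / q * sg P R)) :=
    sum_le_sum fun q _ => er_split P R u h H q t ht2 ht3 hHh
  rw [sum_add_distrib, sum_add_distrib, sum_comm, ← mul_sum, ← sum_mul] at h1
  have h2 : ∑ i ∈ range t, ∑ q ∈ Ioc Q₀ Q₁, Er P R (u + i * H) H q ≤ ∑ i ∈ range t, H * c / 4 := by
    apply sum_le_sum
    intro i hi
    rw [mem_range] at hi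
    apply hcon (u + i * H) (by omega)
    have : (i + 1) * H ≤ t * H := Nat.mul_le_mul_right _ hi
    have e : (i + 1) * H = i * H + H := by ring
    omega
  rw [sum_const, card_range, nsmul_eq_mul] at h2
  have h3 := hcon (u + h - H) (by omega) (by omega)
  have h4 : ((t * H : ℕ) : ℝ) ≤ h := by exact_mod_cast ht2
  push_cast at h4
  have h5 : (H : ℝ) ≤ h := by exact_mod_cast hHh
  have h6 : (t : ℝ) * (H * c / 4) = (t * H) * (c / 4) := by ring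
  have h7 : (t * H) * (c / 4) ≤ h * (c / 4) := mul_le_mul_of_nonneg_right h4 (by positivity)
  have h8 : (H : ℝ) * (c / 4) ≤ h * (c / 4) := mul_le_mul_of_nonneg_right h5 (by positivity)
  have h9 : 0 < (h : ℝ) * c := by
    have : (1 : ℝ) ≤ h := by exact_mod_cast hH.trans hHh
    positivity
  linarith

lemma TT_eq {q : ℕ} (hq : 1 ≤ q) (P R : ℝ) (u h : ℕ) : TT P R u h q = Fs ⌊P⌋₊ ⌊R⌋₊ u h q := by
  unfold Fs
  rw [sum_mult hq]
  have h1 := sum_g ⌊P⌋₊ ⌊R⌋₊ (u / q) ((u + h) / q) tw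
  have h2 : ∑ j ∈ Ioc (u / q) ((u + h) / q), g ⌊P⌋₊ ⌊R⌋₊ j =
      ∑ a ∈ PR ⌊P⌋₊ ⌊R⌋₊, ∑ j ∈ Ioc (u / q / a) ((u + h) / q / a), tw j := h1
  rw [h2]
  unfold TT
  change ∑ a ∈ PR ⌊P⌋₊ ⌊R⌋₊, _ = _
  refine sum_congr rfl fun a ha => ?_
  have ha1 : 1 ≤ a := (mem_PR.1 ha).2.one_lt.le
  rw [Nat.div_div_eq_div_mul, Nat.div_div_eq_div_mul]
  have hqa : 0 < q * a := by positivity
  have h3 : ∑ j ∈ Ioc (u / (q * a)) ((u + h) / (q * a)), tw j =
      ∑ j ∈ (Ioc (u / (q * a)) ((u + h) / (q * a))).filter Nat.Prime, Real.log j := by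
    rw [sum_filter]
    rfl
  rw [h3]
  congr 1
  ext p
  rw [mem_filter, mem_filter, mem_Icc, mem_Ioc, Nat.div_lt_iff_lt_mul hqa, Nat.le_div_iff_mul_le hqa,
    mul_comm p]
  constructor
  · rintro ⟨⟨h4, h5⟩, h6, h7, h8⟩
    exact ⟨⟨h7, h8⟩, h6⟩
  · rintro ⟨⟨h7, h8⟩, h6⟩
    refine ⟨⟨h6.one_lt.le, ?_⟩, h6, h7, h8⟩
    calc p = 1 * p := (one_mul p).symm
      _ ≤ q * a * p := Nat.mul_le_mul_right _ hqa
      _ ≤ u + h := h8

/-- the integers with a bad window -/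
noncomputable def bad (α β γ δ κ : ℝ) (K X : ℕ) : Finset ℕ := by
  classical
  exact (Ioc X (2 * X)).filter (fun n => ∃ u h : ℕ, κ * n ≤ h ∧ n ^ 2 - n ≤ u ∧ u + h ≤ n ^ 2 + n ∧
      (h : ℝ) / Real.log X ^ K < ∑ q ∈ Ioc ⌊(X : ℝ) ^ α⌋₊ ⌊(X : ℝ) ^ β⌋₊,
        |TT ((X : ℝ) ^ γ) ((X : ℝ) ^ δ) u h q - h / q * ∑ a ∈ prr ((X : ℝ) ^ γ) ((X : ℝ) ^ δ), 1 / (a : ℝ)|)

lemma mem_bad {α β γ δ κ : ℝ} {K X n : ℕ} : n ∈ bad α β γ δ κ K X ↔ (X < n ∧ n ≤ 2 * X) ∧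
    ∃ u h : ℕ, κ * n ≤ h ∧ n ^ 2 - n ≤ u ∧ u + h ≤ n ^ 2 + n ∧
      (h : ℝ) / Real.log X ^ K < ∑ q ∈ Ioc ⌊(X : ℝ) ^ α⌋₊ ⌊(X : ℝ) ^ β⌋₊,
        |TT ((X : ℝ) ^ γ) ((X : ℝ) ^ δ) u h q - h / q * ∑ a ∈ prr ((X : ℝ) ^ γ) ((X : ℝ) ^ δ), 1 / (a : ℝ)| := by
  classical
  unfold bad
  rw [mem_filter, mem_Ioc]

lemma card_bad (α β γ δ κ : ℝ) (K X : ℕ) :
    Nat.card {n : ℕ | X < n ∧ n ≤ 2 * X ∧ ∃ u h : ℕ, κ * n ≤ h ∧ n ^ 2 - n ≤ u ∧ u + h ≤ n ^ 2 + n ∧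
      (h : ℝ) / Real.log X ^ K < ∑ q ∈ Ioc ⌊(X : ℝ) ^ α⌋₊ ⌊(X : ℝ) ^ β⌋₊,
        |TT ((X : ℝ) ^ γ) ((X : ℝ) ^ δ) u h q - h / q * ∑ a ∈ prr ((X : ℝ) ^ γ) ((X : ℝ) ^ δ), 1 / (a : ℝ)|} =
      (bad α β γ δ κ K X).card := by
  have h2 : {n : ℕ | X < n ∧ n ≤ 2 * X ∧ ∃ u h : ℕ, κ * n ≤ h ∧ n ^ 2 - n ≤ u ∧ u + h ≤ n ^ 2 + n ∧
      (h : ℝ) / Real.log X ^ K < ∑ q ∈ Ioc ⌊(X : ℝ) ^ α⌋₊ ⌊(X : ℝ) ^ β⌋₊,
        |TT ((X : ℝ) ^ γ) ((X : ℝ) ^ δ) u h q - h / q * ∑ a ∈ prr ((X : ℝ) ^ γ) ((X : ℝ) ^ δ), 1 / (a : ℝ)|} =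
      ((bad α β γ δ κ K X : Finset ℕ) : Set ℕ) := by
    ext n
    rw [mem_coe, mem_bad]
    exact ⟨fun ⟨a, b, c⟩ => ⟨⟨a, b⟩, c⟩, fun ⟨⟨a, b⟩, c⟩ => ⟨a, b, c⟩⟩
  rw [h2, Nat.card_coe_set_eq, Set.ncard_coe_finset]

end EKT

open EKT

theorem t1 (hW : S_W) : S_T := by
  classical
  intro α β γ δ κ ε hα hαβ hγ hγδ hβδ hκ hε K
  have hδ0 : 0 < δ := hγ.trans hγδ
  have hβ1 : β < 1 := by linarith
  obtain ⟨σ, hσ⟩ : ∃ σ, σ = (1 - β - δ) / 2 := ⟨_, rfl⟩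
  have hσ0 : 0 < σ := by rw [hσ]; linarith
  obtain ⟨κ₀, hκ₀⟩ : ∃ κ₀, κ₀ = min κ 1 := ⟨_, rfl⟩
  have hκ₀0 : 0 < κ₀ := by rw [hκ₀]; exact lt_min hκ one_pos
  have hκ₀1 : κ₀ ≤ 1 := by rw [hκ₀]; exact min_le_right _ _
  have hκ₀κ : κ₀ ≤ κ := by rw [hκ₀]; exact min_le_left _ _
  obtain ⟨Y₀, hY₀⟩ := hW (σ / 2) (γ / 4) (by linarith) (by linarith) (K + 3)
  have hev : ∀ᶠ X : ℕ in atTop, (2 ≤ X) ∧ (Y₀ ≤ X) ∧ (1 ≤ Real.log X) ∧ (2 ≤ (X : ℝ) ^ (γ / 2)) ∧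
      (2 ≤ (X : ℝ) ^ α) ∧
      (32 / κ₀ * Real.log X ^ (K + 2) ≤ (X : ℝ) ^ σ) ∧
      (256 / κ₀ * Real.log X ^ (K + 2) ≤ (X : ℝ) ^ (2 * α - 1)) ∧
      (128 / κ₀ * Real.log X ^ (K + 2) ≤ (X : ℝ) ^ (ε / 2)) := by
    filter_upwards [eventually_ge_atTop 2, eventually_ge_atTop Y₀, ev_log_ge 1,
      ev_rpow_ge 2 (by linarith : 0 < γ / 2), ev_rpow_ge 2 (by linarith : 0 < α),
      ev_log_pow (K + 2) (32 / κ₀) hσ0, ev_log_pow (K + 2) (256 / κ₀) (by linarith : 0 < 2 * α - 1),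
      ev_log_pow (K + 2) (128 / κ₀) (half_pos hε)] with X h1 h2 h3 h4 h5 h6 h7 h8
    exact ⟨h1, h2, h3, h4, h5, h6, h7, h8⟩
  obtain ⟨X₀, hX₀⟩ := eventually_atTop.1 hev
  refine ⟨X₀, ?_⟩
  intro X hX
  obtain ⟨e1, e2, e3, e4, e5, e6, e7, e8⟩ := hX₀ X hX
  rw [card_bad]
  obtain ⟨L, hL⟩ : ∃ L, L = Real.log X := ⟨_, rfl⟩
  rw [← hL] at e3 e6 e7 e8
  have hX2 : (2 : ℝ) ≤ X := by exact_mod_cast e1
  have hXp : (0 : ℝ) < X := by linarith
  have hX1 : (1 : ℝ) ≤ X := by linarith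
  have hL0 : 0 < L := by linarith
  obtain ⟨D, hD⟩ : ∃ D, D = L ^ (K + 2) := ⟨_, rfl⟩
  rw [← hD] at e6 e7 e8
  have hD1 : 1 ≤ D := by rw [hD]; exact one_le_pow₀ e3
  have hD0 : 0 < D := by linarith
  obtain ⟨H, hH⟩ : ∃ H : ℕ, H = ⌊κ₀ * X / (16 * D)⌋₊ := ⟨_, rfl⟩
  obtain ⟨Q₀, hQ₀⟩ : ∃ Q : ℕ, Q = ⌊(X : ℝ) ^ α⌋₊ := ⟨_, rfl⟩
  obtain ⟨Q₁, hQ₁⟩ : ∃ Q : ℕ, Q = ⌊(X : ℝ) ^ β⌋₊ := ⟨_, rfl⟩
  obtain ⟨P, hP⟩ : ∃ Q : ℕ, Q = ⌊(X : ℝ) ^ γ⌋₊ := ⟨_, rfl⟩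
  obtain ⟨R, hR⟩ : ∃ Q : ℕ, Q = ⌊(X : ℝ) ^ δ⌋₊ := ⟨_, rfl⟩
  have hXa : ∀ a : ℝ, 0 < (X : ℝ) ^ a := fun a => Real.rpow_pos_of_pos hXp a
  have hfl : ∀ a : ℝ, ((⌊(X : ℝ) ^ a⌋₊ : ℕ) : ℝ) ≤ (X : ℝ) ^ a := fun a => Nat.floor_le (hXa a).le
  have hfl' : ∀ a : ℝ, (X : ℝ) ^ a < ((⌊(X : ℝ) ^ a⌋₊ : ℕ) : ℝ) + 1 := fun a => Nat.lt_floor_add_one _
  -- the size of `H`
  have hH1 : (H : ℝ) ≤ κ₀ * X / (16 * D) := by rw [hH]; exact Nat.floor_le (by positivity)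
  have hbig : (X : ℝ) ^ (1 - σ) ≤ κ₀ * X / (32 * D) := by
    rw [le_div_iff₀ (by positivity)]
    have h1 : (X : ℝ) ^ (1 - σ) * (X : ℝ) ^ σ = X := by
      rw [← Real.rpow_add hXp]
      simp
    have h2 : 32 * D ≤ κ₀ * (X : ℝ) ^ σ := by
      have := mul_le_mul_of_nonneg_left e6 hκ₀0.le
      have e : κ₀ * (32 / κ₀ * D) = 32 * D := by field_simp
      linarith
    calc (X : ℝ) ^ (1 - σ) * (32 * D) ≤ (X : ℝ) ^ (1 - σ) * (κ₀ * (X : ℝ) ^ σ) :=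
          mul_le_mul_of_nonneg_left h2 (hXa _).le
      _ = κ₀ * ((X : ℝ) ^ (1 - σ) * (X : ℝ) ^ σ) := by ring
      _ = κ₀ * X := by rw [h1]
  have h1σ : 1 ≤ (X : ℝ) ^ (1 - σ) := Real.one_le_rpow hX1 (by rw [hσ]; linarith)
  have hH2 : κ₀ * X / (32 * D) ≤ H := by
    have h1 : κ₀ * X / (16 * D) < H + 1 := by rw [hH]; exact Nat.lt_floor_add_one _
    have h2 : κ₀ * X / (16 * D) = 2 * (κ₀ * X / (32 * D)) := by field_simp; norm_num
    linarith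
  have hHr1 : (1 : ℝ) ≤ H := by linarith
  have hHn1 : 1 ≤ H := by exact_mod_cast hHr1
  have hH16 : (H : ℝ) ≤ X / 16 := by
    refine hH1.trans ?_
    rw [div_le_div_iff₀ (by positivity) (by norm_num)]
    nlinarith [mul_le_mul_of_nonneg_right hκ₀1 hXp.le, mul_le_mul_of_nonneg_left hD1 hXp.le]
  -- the size of `Q₀`
  have hQ₀1 : (Q₀ : ℝ) ≤ (X : ℝ) ^ α := by rw [hQ₀]; exact hfl α
  have hQ₀2 : (X : ℝ) ^ α / 2 ≤ Q₀ := by
    have := hfl' α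
    rw [← hQ₀] at this
    linarith
  have hQ₀r : (1 : ℝ) ≤ Q₀ := by linarith
  have hQ01 : Q₀ ≤ Q₁ := by
    rw [hQ₀, hQ₁]
    exact Nat.floor_le_floor (Real.rpow_le_rpow_of_exponent_le hX1 hαβ.le)
  have hQ₁X : (Q₁ : ℝ) ≤ X := by
    rw [hQ₁]
    refine (hfl β).trans ?_
    calc (X : ℝ) ^ β ≤ (X : ℝ) ^ (1 : ℝ) := Real.rpow_le_rpow_of_exponent_le hX1 hβ1.le
      _ = X := Real.rpow_one _
  have hRX : (R : ℝ) ≤ X := by
    rw [hR]
    refine (hfl δ).trans ?_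
    calc (X : ℝ) ^ δ ≤ (X : ℝ) ^ (1 : ℝ) := Real.rpow_le_rpow_of_exponent_le hX1 (by linarith)
      _ = X := Real.rpow_one _
  -- the size of `P`
  have hv2 : (X : ℝ) ^ γ = ((X : ℝ) ^ (γ / 2)) ^ 2 := by
    rw [← Real.rpow_natCast, ← Real.rpow_mul hXp.le]
    congr 1
    push_cast
    ring
  have hP1 : (X : ℝ) ^ (γ / 2) ≤ P := by
    have h1 := hfl' γ
    rw [← hP, hv2] at h1
    nlinarith
  have hPR : P ≤ R := by
    rw [hP, hR]
    exact Nat.floor_le_floor (Real.rpow_le_rpow_of_exponent_le hX1 hγδ.le)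
  have hP1r : (1 : ℝ) ≤ P := by linarith
  have hR1r : (1 : ℝ) ≤ R := hP1r.trans (by exact_mod_cast hPR)
  -- the number `s`
  obtain ⟨s, hs⟩ : ∃ s : ℕ, s = ⌈(X : ℝ) ^ 2 / (H * Q₀)⌉₊ := ⟨_, rfl⟩
  have hHQ0 : (0 : ℝ) < H * Q₀ := by positivity
  have hs1 : 1 ≤ s := by
    rw [hs]
    exact Nat.one_le_ceil_iff.2 (by positivity)
  have hs2 : (X : ℝ) ^ 2 ≤ s * H * Q₀ := by
    have h1 : (X : ℝ) ^ 2 / (H * Q₀) ≤ s := by rw [hs]; exact Nat.le_ceil _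
    rw [div_le_iff₀ hHQ0] at h1
    linarith [mul_assoc (s : ℝ) H Q₀]
  have hQ₀X : (Q₀ : ℝ) ≤ X := le_trans (by exact_mod_cast hQ01) hQ₁X
  have hs3 : (s : ℝ) ≤ 128 / κ₀ * D * (X : ℝ) ^ (1 - α) := by
    have h1 : (s : ℝ) < (X : ℝ) ^ 2 / (H * Q₀) + 1 := by
      rw [hs]
      exact Nat.ceil_lt_add_one (by positivity)
    have h2 : 1 ≤ (X : ℝ) ^ 2 / (H * Q₀) := by
      rw [le_div_iff₀ hHQ0, one_mul, sq]
      exact mul_le_mul (by linarith) hQ₀X (by linarith) hXp.le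
    have h3 : (X : ℝ) ^ 2 / (H * Q₀) ≤ (X : ℝ) ^ 2 / ((κ₀ * X / (32 * D)) * ((X : ℝ) ^ α / 2)) := by
      apply div_le_div_of_nonneg_left (by positivity) _
        (mul_le_mul hH2 hQ₀2 (by have := hXa α; positivity) (by positivity))
      have := hXa α
      positivity
    have h4 : (X : ℝ) ^ 2 / ((κ₀ * X / (32 * D)) * ((X : ℝ) ^ α / 2)) =
        64 / κ₀ * D * (X : ℝ) ^ (1 - α) := by
      rw [Real.rpow_sub hXp, Real.rpow_one]
      have := (hXa α).ne'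
      field_simp
      norm_num
    rw [h4] at h3
    have h5 : 128 / κ₀ * D * (X : ℝ) ^ (1 - α) = 2 * (64 / κ₀ * D * (X : ℝ) ^ (1 - α)) := by ring
    linarith
  have hsQ : s ≤ Q₀ := by
    have h1 : (X : ℝ) ^ (1 - α) * (X : ℝ) ^ (2 * α - 1) = (X : ℝ) ^ α := by
      rw [← Real.rpow_add hXp]
      congr 1
      ring
    have h2 : 128 / κ₀ * D * (X : ℝ) ^ (1 - α) ≤ (X : ℝ) ^ α / 2 := by
      rw [← h1]
      have h3 := mul_le_mul_of_nonneg_left e7 (hXa (1 - α)).le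
      have h4 : (X : ℝ) ^ (1 - α) * (256 / κ₀ * D) = 2 * (128 / κ₀ * D * (X : ℝ) ^ (1 - α)) := by ring
      linarith
    have h3 : (s : ℝ) ≤ Q₀ := by linarith
    exact_mod_cast h3
  have hs4 : (s : ℝ) ^ 2 ≤ (X : ℝ) ^ (2 - 2 * α + ε) := by
    have h1 : (s : ℝ) ≤ (X : ℝ) ^ (ε / 2) * (X : ℝ) ^ (1 - α) :=
      hs3.trans (mul_le_mul_of_nonneg_right e8 (hXa _).le)
    have h2 := pow_le_pow_left₀ (Nat.cast_nonneg _) h1 2
    refine h2.trans (le_of_eq ?_)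
    rw [← Real.rpow_add hXp, ← Real.rpow_natCast, ← Real.rpow_mul hXp.le]
    congr 1
    push_cast
    ring
  -- the smallness of the remainder
  have hsum : (∑ q ∈ Ioc Q₀ Q₁, 1 / (q : ℝ)) * sg P R ≤ 4 * L ^ 2 := by
    have h1 : ∑ q ∈ Ioc Q₀ Q₁, 1 / (q : ℝ) ≤ 2 * L := by
      have h2 : ∑ q ∈ Ioc Q₀ Q₁, 1 / (q : ℝ) ≤ ∑ q ∈ Icc 1 Q₁, 1 / (q : ℝ) := by
        apply sum_le_sum_of_subset_of_nonneg
        · intro q hq
          rw [mem_Ioc] at hq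
          rw [mem_Icc]
          omega
        · intro _ _ _
          positivity
      have h3 := harm_le Q₁
      have h4 : Real.log Q₁ ≤ L := by
        rw [hL]
        apply Real.log_le_log _ hQ₁X
        have : (Q₀ : ℝ) ≤ Q₁ := by exact_mod_cast hQ01
        linarith
      linarith
    have h5 : sg P R ≤ 2 * L := by
      have h3 := sg_le P R
      have h4 : Real.log R ≤ L := by
        rw [hL]
        exact Real.log_le_log (by linarith) hRX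
      linarith
    calc (∑ q ∈ Ioc Q₀ Q₁, 1 / (q : ℝ)) * sg P R ≤ (2 * L) * (2 * L) :=
          mul_le_mul h1 h5 (sg_nonneg _ _) (by linarith)
      _ = 4 * L ^ 2 := by ring
  obtain ⟨c, hc⟩ : ∃ c : ℝ, c = 1 / L ^ K := ⟨_, rfl⟩
  have hc0 : 0 < c := by rw [hc]; positivity
  have hrem : (H : ℝ) * ((∑ q ∈ Ioc Q₀ Q₁, 1 / (q : ℝ)) * sg P R) ≤ κ₀ * X * c / 4 := by
    calc (H : ℝ) * ((∑ q ∈ Ioc Q₀ Q₁, 1 / (q : ℝ)) * sg P R) ≤ (κ₀ * X / (16 * D)) * (4 * L ^ 2) :=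
          mul_le_mul hH1 hsum (mul_nonneg (sum_nonneg fun _ _ => by positivity) (sg_nonneg _ _))
            (by positivity)
      _ = κ₀ * X * c / 4 := by
          rw [hc, hD, pow_add]
          field_simp
          norm_num
  -- the windows
  have hwin : ∀ n ∈ bad α β γ δ κ K X, ∃ v : ℕ, n ^ 2 - n ≤ v ∧ v + H ≤ n ^ 2 + n ∧
      H * c / 4 < ∑ q ∈ Ioc Q₀ Q₁, Er P R v H q := by
    intro n hn
    obtain ⟨⟨hn1, hn2⟩, u, h, h1, h2, h3, h4⟩ := mem_bad.1 hn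
    have hXn : (X : ℝ) ≤ n := by exact_mod_cast hn1.le
    have hκn : κ₀ * X ≤ h := by
      refine le_trans ?_ h1
      exact mul_le_mul hκ₀κ hXn hXp.le hκ.le
    have hHh : H ≤ h := by
      have : (H : ℝ) ≤ h := by
        refine le_trans hH1 (le_trans ?_ hκn)
        apply div_le_self (by positivity)
        linarith
      exact_mod_cast this
    have h5 : h * c < ∑ q ∈ Ioc Q₀ Q₁, Er P R u h q := by
      have e9 : (h : ℝ) * c = h / Real.log X ^ K := by rw [hc, hL]; ring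
      rw [e9]
      refine lt_of_lt_of_le h4 (le_of_eq ?_)
      rw [← hQ₀, ← hQ₁]
      refine sum_congr rfl fun q hq => ?_
      rw [mem_Ioc] at hq
      rw [TT_eq (by omega), Er_eq, ← hP, ← hR]
      rw [hP, hR]
      rfl
    obtain ⟨v, a1, a2, a3⟩ := sub_window hHn1 hHh hc0 (hrem.trans (by
      have := mul_le_mul_of_nonneg_right hκn hc0.le
      linarith)) h5
    exact ⟨v, by omega, by omega, a3⟩
  choose! U hU1 hU2 hU3 using hwin
  have hmono : ∀ n ∈ bad α β γ δ κ K X, ∀ n' ∈ bad α β γ δ κ K X, n < n' → U n + H ≤ U n' := by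
    intro n hn n' hn' hlt
    have a1 := hU2 n hn
    have a2 := hU1 n' hn'
    have a3 : n ^ 2 + n ≤ n' ^ 2 - n' := by
      apply Nat.le_sub_of_add_le
      nlinarith
    omega
  have hinj : Set.InjOn U (bad α β γ δ κ K X : Finset ℕ) := by
    intro n hn n' hn' heq
    rw [mem_coe] at hn hn'
    rcases lt_trichotomy n n' with h | h | h
    · have := hmono n hn n' hn' h
      omega
    · exact h
    · have := hmono n' hn' n hn h
      omega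
  have hlt : (bad α β γ δ κ K X).card < s ^ 2 := by
    by_contra hcon
    push Not at hcon
    obtain ⟨B, hB, hBc⟩ := exists_subset_card_eq hcon
    have hinj' : Set.InjOn U (B : Finset ℕ) := hinj.mono (by exact_mod_cast hB)
    have key := hY₀ (X ^ 2) (e2.trans (Nat.le_self_pow two_ne_zero X)) H Q₀ Q₁ P R s hs1 hsQ
      (by exact_mod_cast hs2) hQ01
      (by
        refine le_trans (le_of_eq ?_) hP1
        push_cast
        rw [← Real.rpow_natCast, ← Real.rpow_mul hXp.le]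
        congr 1
        push_cast
        ring) hPR
      (by
        refine le_trans ?_ (hbig.trans hH2)
        have h1 : (((X ^ 2 : ℕ) : ℝ)) ^ (σ / 2) = (X : ℝ) ^ σ := by
          push_cast
          rw [← Real.rpow_natCast, ← Real.rpow_mul hXp.le]
          congr 1
          push_cast
          ring
        rw [h1]
        have h2 : (Q₁ : ℝ) ≤ (X : ℝ) ^ β := by rw [hQ₁]; exact hfl β
        have h3 : (R : ℝ) ≤ (X : ℝ) ^ δ := by rw [hR]; exact hfl δ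
        calc (Q₁ : ℝ) * R * (X : ℝ) ^ σ ≤ (X : ℝ) ^ β * (X : ℝ) ^ δ * (X : ℝ) ^ σ := by
              gcongr
          _ = (X : ℝ) ^ (1 - σ) := by
              rw [← Real.rpow_add hXp, ← Real.rpow_add hXp]
              congr 1
              rw [hσ]
              ring)
      (by
        have h1 : 2 * (H : ℝ) ^ 2 ≤ (X : ℝ) ^ 2 := by nlinarith
        exact_mod_cast h1)
      (B.image U)
      (by
        intro y hy
        rw [mem_image] at hy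
        obtain ⟨n, hn, rfl⟩ := hy
        have a1 := hU1 n (hB hn)
        have a2 := hU2 n (hB hn)
        have a3 := (mem_bad.1 (hB hn)).1
        constructor
        · have : X ^ 2 ≤ n ^ 2 - n := by
            apply Nat.le_sub_of_add_le
            nlinarith [a3.1]
          omega
        · have : n ^ 2 + n ≤ 9 * X ^ 2 := by nlinarith [a3.2]
          omega)
      (by
        intro x hx y hy hne
        rw [mem_image] at hx hy
        obtain ⟨n, hn, rfl⟩ := hx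
        obtain ⟨n', hn', rfl⟩ := hy
        have hne' : n ≠ n' := by intro e; exact hne (by rw [e])
        rw [le_abs]
        rcases lt_or_gt_of_ne hne' with h | h
        · right
          have := hmono n (hB hn) n' (hB hn') h
          omega
        · left
          have := hmono n' (hB hn') n (hB hn) h
          omega)
      (by rw [card_image_of_injOn hinj', hBc])
    have hWne : (B.image U).Nonempty := by
      rw [← card_pos, card_image_of_injOn hinj', hBc]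
      positivity
    have h1 : ∑ y ∈ B.image U, (H * c / 4) < ∑ y ∈ B.image U, ∑ q ∈ Ioc Q₀ Q₁, Er P R y H q := by
      apply sum_lt_sum_of_nonempty hWne
      intro y hy
      rw [mem_image] at hy
      obtain ⟨n, hn, rfl⟩ := hy
      exact hU3 n (hB hn)
    rw [sum_const, card_image_of_injOn hinj', hBc, nsmul_eq_mul] at h1
    have h2 := h1.trans_le key
    push_cast at h2
    rw [Real.log_pow, ← hL] at h2
    have h3 : (s : ℝ) ^ 2 * (H : ℝ) / ((2 : ℕ) * L) ^ (K + 3) ≤ (s : ℝ) ^ 2 * (H * c / 4) := by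
      have h4 : (s : ℝ) ^ 2 * (H * c / 4) = (s : ℝ) ^ 2 * H / (4 * L ^ K) := by
        rw [hc]
        field_simp
      rw [h4]
      apply div_le_div_of_nonneg_left (by positivity) (by positivity)
      push_cast
      rw [mul_pow, pow_add L K 3]
      have h5 : (4 : ℝ) ≤ 2 ^ (K + 3) := by
        calc (4 : ℝ) ≤ 1 * 2 ^ 3 := by norm_num
          _ ≤ 2 ^ K * 2 ^ 3 := by
              apply mul_le_mul_of_nonneg_right (one_le_pow₀ (by norm_num)) (by norm_num)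
          _ = 2 ^ (K + 3) := by rw [pow_add]
      have h6 : L ^ K ≤ L ^ K * L ^ 3 := le_mul_of_one_le_right (by positivity) (one_le_pow₀ e3)
      exact mul_le_mul h5 h6 (by positivity) (by positivity)
    linarith
  have h1 : ((bad α β γ δ κ K X).card : ℝ) ≤ (s : ℝ) ^ 2 := by exact_mod_cast hlt.le
  exact h1.trans hs4

/-- Mertens -/
lemma EKT.prr_tendsto {a b : ℝ} (ha : 0 < a) (hab : a < b) :
    Tendsto (fun X : ℕ => ∑ p ∈ prr ((X : ℝ) ^ a) ((X : ℝ) ^ b), 1 / (p : ℝ)) atTop (𝓝 (Real.log (b / a))) := by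
  obtain ⟨M, hM⟩ := Pool.Agent.H305R2.mertens_inv_tendsto
  have hb : 0 < b := ha.trans hab
  have hfl : ∀ c : ℝ, 0 < c → Tendsto (fun X : ℕ => ⌊(X : ℝ) ^ c⌋₊) atTop atTop := by
    intro c hc
    exact tendsto_nat_floor_atTop.comp ((tendsto_rpow_atTop hc).comp tendsto_natCast_atTop_atTop)
  have hlog : ∀ c : ℝ, 0 < c → Tendsto (fun X : ℕ => Real.log (⌊(X : ℝ) ^ c⌋₊ : ℕ) / Real.log X) atTop (𝓝 c) := by
    intro c hc
    have hlX : Tendsto (fun X : ℕ => Real.log X) atTop atTop :=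
      Real.tendsto_log_atTop.comp tendsto_natCast_atTop_atTop
    have hlow : Tendsto (fun X : ℕ => c - Real.log 2 / Real.log X) atTop (𝓝 c) := by
      have := (tendsto_const_nhds (x := Real.log 2)).div_atTop hlX
      simpa using this.const_sub c
    refine tendsto_of_tendsto_of_tendsto_of_le_of_le' hlow tendsto_const_nhds ?_ ?_
    · filter_upwards [ev_log_ge 1, ev_rpow_ge 2 hc, eventually_ge_atTop 1] with X h1 h2 h3
      have hXp : (0 : ℝ) < X := by exact_mod_cast h3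
      have h4 : (X : ℝ) ^ c / 2 ≤ (⌊(X : ℝ) ^ c⌋₊ : ℕ) := by
        have := Nat.lt_floor_add_one ((X : ℝ) ^ c)
        linarith
      have h5 := Real.log_le_log (by linarith) h4
      rw [Real.log_div (by linarith) (by norm_num), Real.log_rpow hXp] at h5
      rw [le_div_iff₀ (by linarith), sub_mul, div_mul_cancel₀ _ (by linarith)]
      exact h5
    · filter_upwards [ev_log_ge 1, ev_rpow_ge 2 hc, eventually_ge_atTop 1] with X h1 h2 h3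
      have hXp : (0 : ℝ) < X := by exact_mod_cast h3
      have h4 : (X : ℝ) ^ c / 2 ≤ (⌊(X : ℝ) ^ c⌋₊ : ℕ) := by
        have := Nat.lt_floor_add_one ((X : ℝ) ^ c)
        linarith
      have h5 : ((⌊(X : ℝ) ^ c⌋₊ : ℕ) : ℝ) ≤ (X : ℝ) ^ c := Nat.floor_le (by linarith)
      have h6 := Real.log_le_log (by linarith) h5
      rw [Real.log_rpow hXp] at h6
      rw [div_le_iff₀ (by linarith)]
      exact h6
  have h1 := (hM.comp (hfl b hb)).sub (hM.comp (hfl a ha))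
  rw [sub_self] at h1
  have h2 : Tendsto (fun X : ℕ => Real.log ((Real.log (⌊(X : ℝ) ^ b⌋₊ : ℕ) / Real.log X) /
      (Real.log (⌊(X : ℝ) ^ a⌋₊ : ℕ) / Real.log X))) atTop (𝓝 (Real.log (b / a))) :=
    (Real.continuousAt_log (div_pos hb ha).ne').tendsto.comp ((hlog b hb).div (hlog a ha) ha.ne')
  have h3 := h1.add h2
  rw [zero_add] at h3
  refine h3.congr' ?_
  filter_upwards [ev_log_ge 1, ev_rpow_ge 4 ha, ev_rpow_ge 4 hb, eventually_ge_atTop 1] with X e1 e2 e3 e4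
  have hX1 : (1 : ℝ) ≤ X := by exact_mod_cast e4
  have hN : ⌊(X : ℝ) ^ a⌋₊ ≤ ⌊(X : ℝ) ^ b⌋₊ :=
    Nat.floor_le_floor (Real.rpow_le_rpow_of_exponent_le hX1 hab.le)
  have hpos : ∀ c : ℝ, 4 ≤ (X : ℝ) ^ c → 0 < Real.log (⌊(X : ℝ) ^ c⌋₊ : ℕ) := by
    intro c hc
    apply Real.log_pos
    have := Nat.lt_floor_add_one ((X : ℝ) ^ c)
    linarith
  have hsplit : ∑ p ∈ (Icc 1 ⌊(X : ℝ) ^ b⌋₊).filter Nat.Prime, (1 : ℝ) / p =
      ∑ p ∈ (Icc 1 ⌊(X : ℝ) ^ a⌋₊).filter Nat.Prime, (1 : ℝ) / p +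
        ∑ p ∈ prr ((X : ℝ) ^ a) ((X : ℝ) ^ b), 1 / (p : ℝ) := by
    unfold prr
    rw [← sum_union]
    · congr 1
      rw [← filter_union]
      congr 1
      ext x
      rw [mem_union, mem_Icc, mem_Icc, mem_Ioc]
      omega
    · apply disjoint_filter_filter
      rw [disjoint_left]
      intro x hx hx'
      rw [mem_Icc] at hx
      rw [mem_Ioc] at hx'
      omega
  simp only [Function.comp]
  rw [hsplit, div_div_div_cancel_right₀ (by linarith), Real.log_div (hpos b e3).ne' (hpos a e2).ne']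
  ring

theorem t2 (h : S_T) : S_T2 := by
  classical
  intro α β γ δ κ ε hα hαβ hγ hγδ hβδ hκ hε τ hτ
  obtain ⟨X₁, hX₁⟩ := h α β γ δ κ ε hα hαβ hγ hγδ hβδ hκ hε 1
  have hlim := (EKT.prr_tendsto (by linarith : 0 < α) hαβ).mul (EKT.prr_tendsto hγ hγδ)
  have h1 := (Metric.tendsto_nhds.1 hlim) (τ / 2) (by positivity)
  have hev : ∀ᶠ X : ℕ in atTop, (X₁ ≤ X) ∧ (1 ≤ X) ∧ (max 1 (2 / τ) ≤ Real.log X) ∧
      dist ((∑ p ∈ prr ((X : ℝ) ^ α) ((X : ℝ) ^ β), 1 / (p : ℝ)) *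
        ∑ p ∈ prr ((X : ℝ) ^ γ) ((X : ℝ) ^ δ), 1 / (p : ℝ)) (Real.log (β / α) * Real.log (δ / γ)) < τ / 2 := by
    filter_upwards [eventually_ge_atTop X₁, eventually_ge_atTop 1, ev_log_ge (max 1 (2 / τ)), h1] with X a1 a2 a3 a4
    exact ⟨a1, a2, a3, a4⟩
  obtain ⟨X₀, hX₀⟩ := eventually_atTop.1 hev
  refine ⟨X₀, ?_⟩
  intro X hX
  obtain ⟨e1, e2, e3, e4⟩ := hX₀ X hX
  refine le_trans ?_ (hX₁ X e1)
  rw [card_bad]
  have hsub : {n : ℕ | X < n ∧ n ≤ 2 * X ∧ ∃ u h : ℕ, κ * n ≤ h ∧ n ^ 2 - n ≤ u ∧ u + h ≤ n ^ 2 + n ∧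
      τ * h < |∑ q ∈ prr ((X : ℝ) ^ α) ((X : ℝ) ^ β), TT ((X : ℝ) ^ γ) ((X : ℝ) ^ δ) u h q -
        h * (Real.log (β / α) * Real.log (δ / γ))|} ⊆ ((bad α β γ δ κ 1 X : Finset ℕ) : Set ℕ) := by
    rintro n ⟨n1, n2, u, h, n3, n4, n5, n6⟩
    rw [mem_coe, mem_bad]
    refine ⟨⟨n1, n2⟩, u, h, n3, n4, n5, ?_⟩
    by_contra hcon
    push Not at hcon
    set A := ∑ p ∈ prr ((X : ℝ) ^ α) ((X : ℝ) ^ β), 1 / (p : ℝ) with hA
    set B := ∑ p ∈ prr ((X : ℝ) ^ γ) ((X : ℝ) ^ δ), 1 / (p : ℝ) with hB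
    rw [pow_one] at hcon
    have hl1 : 1 ≤ Real.log X := (le_max_left _ _).trans e3
    have hl2 : 2 / τ ≤ Real.log X := (le_max_right _ _).trans e3
    have hh0 : (0 : ℝ) ≤ h := Nat.cast_nonneg _
    have hh1 : (h : ℝ) / Real.log X ≤ τ / 2 * h := by
      rw [div_le_iff₀ (by linarith)]
      have : 1 ≤ τ / 2 * Real.log X := by
        have := mul_le_mul_of_nonneg_left hl2 (by positivity : 0 ≤ τ / 2)
        have e : τ / 2 * (2 / τ) = 1 := by field_simp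
        linarith
      nlinarith
    have h2 : |∑ q ∈ prr ((X : ℝ) ^ α) ((X : ℝ) ^ β), TT ((X : ℝ) ^ γ) ((X : ℝ) ^ δ) u h q - h * (A * B)| ≤
        ∑ q ∈ Ioc ⌊(X : ℝ) ^ α⌋₊ ⌊(X : ℝ) ^ β⌋₊, |TT ((X : ℝ) ^ γ) ((X : ℝ) ^ δ) u h q - h / q * B| := by
      have e5 : ∑ q ∈ prr ((X : ℝ) ^ α) ((X : ℝ) ^ β), TT ((X : ℝ) ^ γ) ((X : ℝ) ^ δ) u h q - h * (A * B) =
          ∑ q ∈ prr ((X : ℝ) ^ α) ((X : ℝ) ^ β), (TT ((X : ℝ) ^ γ) ((X : ℝ) ^ δ) u h q - h / q * B) := by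
        rw [sum_sub_distrib]
        congr 1
        have e6 : A * B = ∑ q ∈ prr ((X : ℝ) ^ α) ((X : ℝ) ^ β), 1 / (q : ℝ) * B := by
          rw [hA, Finset.sum_mul]
        rw [e6, Finset.mul_sum]
        refine sum_congr rfl fun q _ => ?_
        ring
      rw [e5]
      refine (abs_sum_le_sum_abs _ _).trans ?_
      apply sum_le_sum_of_subset_of_nonneg
      · unfold prr
        exact filter_subset _ _
      · intro _ _ _
        positivity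
    rw [Real.dist_eq] at e4
    have h3 : |h * (A * B) - h * (Real.log (β / α) * Real.log (δ / γ))| ≤ τ / 2 * h := by
      rw [← mul_sub, abs_mul, abs_of_nonneg hh0]
      nlinarith
    have h4 := abs_sub_le (∑ q ∈ prr ((X : ℝ) ^ α) ((X : ℝ) ^ β), TT ((X : ℝ) ^ γ) ((X : ℝ) ^ δ) u h q) (h * (A * B))
      (h * (Real.log (β / α) * Real.log (δ / γ)))
    linarith
  have h5 := Set.ncard_le_ncard hsub (finite_toSet _)
  rw [Set.ncard_coe_finset] at h5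
  rw [Nat.card_coe_set_eq]
  exact_mod_cast h5

end Pool.Agent.Helper34.EK
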