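import Mathlib
import Pool.Agent.Helper34.EK.T
import Pool.Agent.Helper34.EK.Stm5

set_option autoImplicit false

/-!
Project EK (helper34), module Q: asymptotic formulas next to almost all values of a quadratic polynomial.
Author: helper26.
-/

namespace Pool.Agent.Helper34.EK
open Finset Filter Topology
open Pool.Agent.Helper34.NQ (fq)

namespace EKQ

/-- the integers with a bad window -/
noncomputable def badQ (a : ℕ) (b g : ℤ) (α β γ δ : ℝ) (K X H : ℕ) : Finset ℕ := by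
  classical
  exact (Ioc X (2 * X)).filter (fun x => (H : ℝ) / Real.log X ^ K <
      ∑ q ∈ (Ioc ⌊(X : ℝ) ^ α⌋₊ ⌊(X : ℝ) ^ β⌋₊).filter Squarefree, |TT ((X : ℝ) ^ γ) ((X : ℝ) ^ δ) (fq a b g x).toNat H q -
        H / q * ∑ p ∈ prr ((X : ℝ) ^ γ) ((X : ℝ) ^ δ), 1 / (p : ℝ)|)

lemma mem_badQ {a : ℕ} {b g : ℤ} {α β γ δ : ℝ} {K X H x : ℕ} : x ∈ badQ a b g α β γ δ K X H ↔ (X < x ∧ x ≤ 2 * X) ∧
    (H : ℝ) / Real.log X ^ K <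
      ∑ q ∈ (Ioc ⌊(X : ℝ) ^ α⌋₊ ⌊(X : ℝ) ^ β⌋₊).filter Squarefree, |TT ((X : ℝ) ^ γ) ((X : ℝ) ^ δ) (fq a b g x).toNat H q -
        H / q * ∑ p ∈ prr ((X : ℝ) ^ γ) ((X : ℝ) ^ δ), 1 / (p : ℝ)| := by
  classical
  unfold badQ
  rw [mem_filter, mem_Ioc]

lemma card_badQ (a : ℕ) (b g : ℤ) (α β γ δ : ℝ) (K X H : ℕ) :
    Nat.card {x : ℕ | X < x ∧ x ≤ 2 * X ∧ (H : ℝ) / Real.log X ^ K <
      ∑ q ∈ (Ioc ⌊(X : ℝ) ^ α⌋₊ ⌊(X : ℝ) ^ β⌋₊).filter Squarefree, |TT ((X : ℝ) ^ γ) ((X : ℝ) ^ δ) (fq a b g x).toNat H q -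
        H / q * ∑ p ∈ prr ((X : ℝ) ^ γ) ((X : ℝ) ^ δ), 1 / (p : ℝ)|} = (badQ a b g α β γ δ K X H).card := by
  have h2 : {x : ℕ | X < x ∧ x ≤ 2 * X ∧ (H : ℝ) / Real.log X ^ K <
      ∑ q ∈ (Ioc ⌊(X : ℝ) ^ α⌋₊ ⌊(X : ℝ) ^ β⌋₊).filter Squarefree, |TT ((X : ℝ) ^ γ) ((X : ℝ) ^ δ) (fq a b g x).toNat H q -
        H / q * ∑ p ∈ prr ((X : ℝ) ^ γ) ((X : ℝ) ^ δ), 1 / (p : ℝ)|} =
      ((badQ a b g α β γ δ K X H : Finset ℕ) : Set ℕ) := by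
    ext n
    rw [mem_coe, mem_badQ]
    exact ⟨fun ⟨a, b, c⟩ => ⟨⟨a, b⟩, c⟩, fun ⟨⟨a, b⟩, c⟩ => ⟨a, b, c⟩⟩
  rw [h2, Nat.card_coe_set_eq, Set.ncard_coe_finset]

/-- no `H` for `θ > 1` -/
lemma no_H {X H : ℕ} {θ : ℝ} (hθ : 1 < θ) (hX : 2 ≤ X) (h1 : (X : ℝ) ^ θ ≤ H) (h2 : H ≤ X) : False := by
  have hX2 : (1 : ℝ) < X := by exact_mod_cast hX
  have h3 : (X : ℝ) ^ (1 : ℝ) < (X : ℝ) ^ θ := Real.rpow_lt_rpow_of_exponent_lt hX2 hθ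
  rw [Real.rpow_one] at h3
  have h4 : (H : ℝ) ≤ X := by exact_mod_cast h2
  linarith

end EKQ

open EKT EKQ

/-- (Q) -/
theorem q1 (hN : S_N) : S_Q := by
  classical
  intro a b K₀ ha α β γ δ θ hα hαβ hγ hγδ hβδ K A
  by_cases hθ : θ ≤ 1
  swap
  · push Not at hθ
    exact ⟨2, fun X hX H hH hHX => (no_H hθ hX hH hHX).elim⟩
  have hα0 : 0 < α := by linarith
  obtain ⟨σ, hσ⟩ : ∃ σ, σ = (θ - β - δ) / 2 := ⟨_, rfl⟩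
  have hσ0 : 0 < σ := by rw [hσ]; linarith
  obtain ⟨X₁, hX₁⟩ := hN a b K₀ ha σ (γ / 2) hσ0 (by linarith) (K + A)
  have hev : ∀ᶠ X : ℕ in atTop, (2 ≤ X) ∧ (X₁ ≤ X) ∧ (1 ≤ Real.log X) ∧ (2 ≤ (X : ℝ) ^ (γ / 2)) ∧
      (2 ≤ (X : ℝ) ^ α) ∧ (2 ≤ (X : ℝ) ^ (α + θ - 1)) := by
    filter_upwards [eventually_ge_atTop 2, eventually_ge_atTop X₁, ev_log_ge 1,
      ev_rpow_ge 2 (by linarith : 0 < γ / 2), ev_rpow_ge 2 hα0,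
      ev_rpow_ge 2 (by linarith : 0 < α + θ - 1)] with X h1 h2 h3 h4 h5 h6
    exact ⟨h1, h2, h3, h4, h5, h6⟩
  obtain ⟨X₀, hX₀⟩ := eventually_atTop.1 hev
  refine ⟨X₀, ?_⟩
  intro X hX H hXH hHX g hg
  obtain ⟨e1, e2, e3, e4, e5, e6⟩ := hX₀ X hX
  rw [card_badQ]
  obtain ⟨L, hL⟩ : ∃ L, L = Real.log X := ⟨_, rfl⟩
  have hX2 : (2 : ℝ) ≤ X := by exact_mod_cast e1
  have hXp : (0 : ℝ) < X := by linarith
  have hX1 : (1 : ℝ) ≤ X := by linarith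
  have hL0 : 0 < L := by rw [hL]; linarith
  obtain ⟨Q₀, hQ₀⟩ : ∃ Q : ℕ, Q = ⌊(X : ℝ) ^ α⌋₊ := ⟨_, rfl⟩
  obtain ⟨Q₁, hQ₁⟩ : ∃ Q : ℕ, Q = ⌊(X : ℝ) ^ β⌋₊ := ⟨_, rfl⟩
  obtain ⟨P, hP⟩ : ∃ Q : ℕ, Q = ⌊(X : ℝ) ^ γ⌋₊ := ⟨_, rfl⟩
  obtain ⟨R, hR⟩ : ∃ Q : ℕ, Q = ⌊(X : ℝ) ^ δ⌋₊ := ⟨_, rfl⟩
  have hXa : ∀ a : ℝ, 0 < (X : ℝ) ^ a := fun a => Real.rpow_pos_of_pos hXp a
  have hfl : ∀ a : ℝ, ((⌊(X : ℝ) ^ a⌋₊ : ℕ) : ℝ) ≤ (X : ℝ) ^ a := fun a => Nat.floor_le (hXa a).le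
  have hfl' : ∀ a : ℝ, (X : ℝ) ^ a < ((⌊(X : ℝ) ^ a⌋₊ : ℕ) : ℝ) + 1 := fun a => Nat.lt_floor_add_one _
  have hH0 : (0 : ℝ) < H := lt_of_lt_of_le (hXa θ) hXH
  have hQ₀2 : (X : ℝ) ^ α / 2 ≤ Q₀ := by
    have := hfl' α
    rw [← hQ₀] at this
    linarith
  have hQ₀1 : 1 ≤ Q₀ := by
    have : (1 : ℝ) ≤ Q₀ := by linarith
    exact_mod_cast this
  have hQ01 : Q₀ ≤ Q₁ := by
    rw [hQ₀, hQ₁]
    exact Nat.floor_le_floor (Real.rpow_le_rpow_of_exponent_le hX1 hαβ.le)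
  have hXQH : X ≤ Q₀ * H := by
    have h1 : (X : ℝ) ^ α / 2 * (X : ℝ) ^ θ ≤ Q₀ * H := mul_le_mul hQ₀2 hXH (hXa θ).le (Nat.cast_nonneg _)
    have h2 : (X : ℝ) ^ α * (X : ℝ) ^ θ = (X : ℝ) ^ (α + θ - 1) * X := by
      rw [← Real.rpow_add hXp]
      have h3 : (X : ℝ) ^ (α + θ - 1) * X = (X : ℝ) ^ (α + θ - 1) * (X : ℝ) ^ (1 : ℝ) := by rw [Real.rpow_one]
      rw [h3, ← Real.rpow_add hXp]
      congr 1
      ring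
    have h4 : 2 * (X : ℝ) ≤ (X : ℝ) ^ (α + θ - 1) * X := mul_le_mul_of_nonneg_right e6 hXp.le
    have h5 : (X : ℝ) ≤ Q₀ * H := by linarith
    exact_mod_cast h5
  have hP1 : (X : ℝ) ^ (γ / 2) ≤ P := by
    have hv2 : (X : ℝ) ^ γ = (X : ℝ) ^ (γ / 2) * (X : ℝ) ^ (γ / 2) := by
      rw [← Real.rpow_add hXp]
      congr 1
      ring
    have h1 := hfl' γ
    rw [← hP, hv2] at h1
    have h2 : 2 * (X : ℝ) ^ (γ / 2) ≤ (X : ℝ) ^ (γ / 2) * (X : ℝ) ^ (γ / 2) :=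
      mul_le_mul_of_nonneg_right e4 (hXa _).le
    linarith
  have hPR : P ≤ R := by
    rw [hP, hR]
    exact Nat.floor_le_floor (Real.rpow_le_rpow_of_exponent_le hX1 hγδ.le)
  have hQR : (Q₁ : ℝ) * R * (X : ℝ) ^ σ ≤ H := by
    have h2 : (Q₁ : ℝ) ≤ (X : ℝ) ^ β := by rw [hQ₁]; exact hfl β
    have h3 : (R : ℝ) ≤ (X : ℝ) ^ δ := by rw [hR]; exact hfl δ
    calc (Q₁ : ℝ) * R * (X : ℝ) ^ σ ≤ (X : ℝ) ^ β * (X : ℝ) ^ δ * (X : ℝ) ^ σ := by gcongr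
      _ = (X : ℝ) ^ (β + δ + σ) := by rw [← Real.rpow_add hXp, ← Real.rpow_add hXp]
      _ ≤ (X : ℝ) ^ θ := Real.rpow_le_rpow_of_exponent_le hX1 (by rw [hσ]; linarith)
      _ ≤ H := hXH
  have key := hX₁ X e2 H Q₀ Q₁ P R hQ₀1 hXQH hQ01 hP1 hPR hQR hHX g hg
  rw [← hL] at key ⊢
  have hbad : ∀ x ∈ badQ a b g α β γ δ K X H, (H : ℝ) / L ^ K ≤ ∑ q ∈ SF Q₀ Q₁, Er P R (fq a b g x).toNat H q := by
    intro x hx
    obtain ⟨_, h4⟩ := mem_badQ.1 hx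
    rw [← hL] at h4
    refine le_trans h4.le (le_of_eq ?_)
    rw [← hQ₀, ← hQ₁]
    refine sum_congr rfl fun q hq => ?_
    unfold SF at hq
    rw [mem_filter, mem_Ioc] at hq
    rw [TT_eq (by omega), Er_eq, hP, hR]
    rfl
  have h1 : ((badQ a b g α β γ δ K X H).card : ℝ) * (H / L ^ K) ≤ X * H / L ^ (K + A) := by
    refine le_trans ?_ key
    rw [← nsmul_eq_mul, ← sum_const]
    refine (sum_le_sum hbad).trans ?_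
    apply sum_le_sum_of_subset_of_nonneg
    · intro x hx
      rw [mem_Ioc]
      exact (mem_badQ.1 hx).1
    · intro x _ _
      exact sum_nonneg fun _ _ => abs_nonneg _
  have h2 : (X : ℝ) * H / L ^ (K + A) = X / L ^ A * (H / L ^ K) := by
    rw [pow_add]
    field_simp
  rw [h2] at h1
  exact le_of_mul_le_mul_right h1 (by positivity)

/-- (Q2) -/
theorem q2 (h : S_Q) : S_Q2 := by
  classical
  intro a b K₀ ha α β γ δ θ hα hαβ hγ hγδ hβδ τ hτ A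
  by_cases hθ : θ ≤ 1
  swap
  · push Not at hθ
    exact ⟨2, fun X hX H hH hHX => (no_H hθ hX hH hHX).elim⟩
  have hα0 : 0 < α := by linarith
  obtain ⟨X₁, hX₁⟩ := h a b K₀ ha α β γ δ θ hα hαβ hγ hγδ hβδ 1 A
  have hlim := (EKT.prr_tendsto hα0 hαβ).mul (EKT.prr_tendsto hγ hγδ)
  have h1 := (Metric.tendsto_nhds.1 hlim) (τ / 2) (by positivity)
  have hev : ∀ᶠ X : ℕ in atTop, (X₁ ≤ X) ∧ (1 ≤ X) ∧ (max 1 (2 / τ) ≤ Real.log X) ∧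
      dist ((∑ p ∈ prr ((X : ℝ) ^ α) ((X : ℝ) ^ β), 1 / (p : ℝ)) *
        ∑ p ∈ prr ((X : ℝ) ^ γ) ((X : ℝ) ^ δ), 1 / (p : ℝ)) (Real.log (β / α) * Real.log (δ / γ)) < τ / 2 := by
    filter_upwards [eventually_ge_atTop X₁, eventually_ge_atTop 1, ev_log_ge (max 1 (2 / τ)), h1] with X a1 a2 a3 a4
    exact ⟨a1, a2, a3, a4⟩
  obtain ⟨X₀, hX₀⟩ := eventually_atTop.1 hev
  refine ⟨X₀, ?_⟩
  intro X hX H hXH hHX g hg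
  obtain ⟨e1, e2, e3, e4⟩ := hX₀ X hX
  refine le_trans ?_ (hX₁ X e1 H hXH hHX g hg)
  rw [card_badQ]
  have hsub : {x : ℕ | X < x ∧ x ≤ 2 * X ∧ τ * H < |∑ q ∈ prr ((X : ℝ) ^ α) ((X : ℝ) ^ β),
      TT ((X : ℝ) ^ γ) ((X : ℝ) ^ δ) (fq a b g x).toNat H q - H * (Real.log (β / α) * Real.log (δ / γ))|} ⊆
      ((badQ a b g α β γ δ 1 X H : Finset ℕ) : Set ℕ) := by
    rintro n ⟨n1, n2, n6⟩
    rw [mem_coe, mem_badQ]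
    refine ⟨⟨n1, n2⟩, ?_⟩
    by_contra hcon
    push Not at hcon
    set u := (fq a b g n).toNat with hu
    set A' := ∑ p ∈ prr ((X : ℝ) ^ α) ((X : ℝ) ^ β), 1 / (p : ℝ) with hA
    set B := ∑ p ∈ prr ((X : ℝ) ^ γ) ((X : ℝ) ^ δ), 1 / (p : ℝ) with hB
    rw [pow_one] at hcon
    have hl1 : 1 ≤ Real.log X := (le_max_left _ _).trans e3
    have hl2 : 2 / τ ≤ Real.log X := (le_max_right _ _).trans e3
    have hh0 : (0 : ℝ) ≤ H := Nat.cast_nonneg _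
    have hh1 : (H : ℝ) / Real.log X ≤ τ / 2 * H := by
      rw [div_le_iff₀ (by linarith)]
      have : 1 ≤ τ / 2 * Real.log X := by
        have := mul_le_mul_of_nonneg_left hl2 (by positivity : 0 ≤ τ / 2)
        have e : τ / 2 * (2 / τ) = 1 := by field_simp
        linarith
      have h2 := mul_le_mul_of_nonneg_left this hh0
      linarith
    have h2 : |∑ q ∈ prr ((X : ℝ) ^ α) ((X : ℝ) ^ β), TT ((X : ℝ) ^ γ) ((X : ℝ) ^ δ) u H q - H * (A' * B)| ≤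
        ∑ q ∈ (Ioc ⌊(X : ℝ) ^ α⌋₊ ⌊(X : ℝ) ^ β⌋₊).filter Squarefree,
          |TT ((X : ℝ) ^ γ) ((X : ℝ) ^ δ) u H q - H / q * B| := by
      have e5 : ∑ q ∈ prr ((X : ℝ) ^ α) ((X : ℝ) ^ β), TT ((X : ℝ) ^ γ) ((X : ℝ) ^ δ) u H q - H * (A' * B) =
          ∑ q ∈ prr ((X : ℝ) ^ α) ((X : ℝ) ^ β), (TT ((X : ℝ) ^ γ) ((X : ℝ) ^ δ) u H q - H / q * B) := by
        rw [sum_sub_distrib]
        congr 1
        have e6 : A' * B = ∑ q ∈ prr ((X : ℝ) ^ α) ((X : ℝ) ^ β), 1 / (q : ℝ) * B := by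
          rw [hA, Finset.sum_mul]
        rw [e6, Finset.mul_sum]
        refine sum_congr rfl fun q _ => ?_
        ring
      rw [e5]
      refine (abs_sum_le_sum_abs _ _).trans ?_
      apply sum_le_sum_of_subset_of_nonneg
      · intro q hq
        unfold prr at hq
        rw [mem_filter] at hq ⊢
        exact ⟨hq.1, hq.2.prime.squarefree⟩
      · intro _ _ _
        positivity
    rw [Real.dist_eq] at e4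
    have h3 : |H * (A' * B) - H * (Real.log (β / α) * Real.log (δ / γ))| ≤ τ / 2 * H := by
      rw [← mul_sub, abs_mul, abs_of_nonneg hh0]
      have := mul_le_mul_of_nonneg_left e4.le hh0
      linarith
    have h4 := abs_sub_le (∑ q ∈ prr ((X : ℝ) ^ α) ((X : ℝ) ^ β), TT ((X : ℝ) ^ γ) ((X : ℝ) ^ δ) u H q) (H * (A' * B))
      (H * (Real.log (β / α) * Real.log (δ / γ)))
    linarith
  have h5 := Set.ncard_le_ncard hsub (finite_toSet _)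
  rw [Set.ncard_coe_finset] at h5
  rw [Nat.card_coe_set_eq]
  exact_mod_cast h5

end Pool.Agent.Helper34.EK
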