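import Pool.Agent.Helper34.EK.Stm

set_option autoImplicit false

/-!
Project EK, module R: the sum of the reciprocals of the integers with exactly `j` prime factors, all large.
Author: helper26.
-/

namespace Pool.Agent.Helper34.EK
open Finset
open Pool.Agent.H376R2.MR (er)

namespace RR

theorem er_zero (x : ℝ) : er 0 x = 1 := by
  unfold er
  simp

theorem tw_nonneg (n : ℕ) : 0 ≤ tw n := by
  unfold tw
  split_ifs with h
  · exact Real.log_natCast_nonneg n
  · exact le_rfl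

theorem harm {M N : ℕ} (hM : 1 ≤ M) (hMN : M ≤ N) :
    Real.log (N + 1) - Real.log (M + 1) ≤ ∑ n ∈ Ioc M N, 1 / (n : ℝ) := by
  induction N, hMN using Nat.le_induction with
  | base => simp
  | succ N hN ih =>
    rw [Finset.sum_Ioc_succ_top (by omega)]
    have h1 : Real.log ((N : ℝ) + 1 + 1) - Real.log ((N : ℝ) + 1) ≤ 1 / ((N : ℝ) + 1) := by
      rw [← Real.log_div (by positivity) (by positivity)]
      have h2 : ((N : ℝ) + 1 + 1) / ((N : ℝ) + 1) = 1 + 1 / ((N : ℝ) + 1) := by field_simp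
      rw [h2]
      have h3 := Real.log_le_sub_one_of_pos (x := 1 + 1 / ((N : ℝ) + 1)) (by positivity)
      linarith
    push_cast
    linarith

/-- primes -/
theorem primes (hA : S_A1) : ∀ κ : ℝ, 0 < κ → κ ≤ 1 → ∃ U₀ : ℝ, 2 ≤ U₀ ∧ ∀ U V : ℝ, U₀ ≤ U →
    U ^ (1 + κ) ≤ V → κ / 4 ≤ ∑ p ∈ (Ioc ⌊U⌋₊ ⌊V⌋₊).filter Nat.Prime, 1 / (p : ℝ) := by
  intro κ hκ hκ1
  obtain ⟨C, hC⟩ := hA 1 2
  set C' : ℝ := max C 0 with hC'
  have hC0 : 0 ≤ C' := le_max_right _ _
  set L : ℝ := 2 + (2 * Real.log 2 + 24 * C') / κ * 2 with hL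
  have hlog2 : 0 < Real.log 2 := Real.log_pos (by norm_num)
  have hL2 : 2 ≤ L := by rw [hL]; have : 0 ≤ (2 * Real.log 2 + 24 * C') / κ * 2 := by positivity
                         linarith
  refine ⟨Real.exp L, ?_, fun U V hU hV => ?_⟩
  · have := Real.add_one_le_exp L
    linarith
  have hUexp : Real.exp L ≤ U := hU
  have hUpos : 0 < U := lt_of_lt_of_le (Real.exp_pos _) hU
  have hlU : L ≤ Real.log U := by
    rw [Real.le_log_iff_exp_le hUpos]; exact hU
  set l := Real.log U with hl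
  have hl2 : 2 ≤ l := hL2.trans hlU
  have hU4 : 4 ≤ U := by
    have h1 : l + 1 ≤ Real.exp l := Real.add_one_le_exp l
    have h2 : Real.exp l = U := Real.exp_log hUpos
    have h3 : Real.exp 2 ≤ U := by rw [← h2]; exact Real.exp_le_exp.2 hl2
    have h4 : (4 : ℝ) ≤ Real.exp 2 := by
      have h5 : Real.exp 2 = Real.exp 1 * Real.exp 1 := by rw [← Real.exp_add]; norm_num
      have h6 : (2 : ℝ) ≤ Real.exp 1 := by have := Real.add_one_le_exp (1 : ℝ); linarith
      nlinarith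
    linarith
  set W : ℝ := U ^ (1 + κ) with hW
  have hUW : U ≤ W := by
    have h1 : U ^ (1 : ℝ) ≤ U ^ (1 + κ) := Real.rpow_le_rpow_of_exponent_le (by linarith) (by linarith)
    rwa [Real.rpow_one] at h1
  set M := ⌊U⌋₊ with hM
  set N := ⌊W⌋₊ with hN
  have hM2 : 2 ≤ M := by
    rw [hM]; exact Nat.le_floor (by push_cast; linarith)
  have hMN : M ≤ N := Nat.floor_le_floor hUW
  have hMU : (M : ℝ) ≤ U := Nat.floor_le hUpos.le
  have hNW : (N : ℝ) ≤ W := Nat.floor_le (hUpos.le.trans hUW)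
  have hNW' : W < N + 1 := Nat.lt_floor_add_one W
  have hMU' : U < M + 1 := Nat.lt_floor_add_one U
  have hNpos : (0 : ℝ) < N := by exact_mod_cast (by omega : 0 < N)
  have hMpos : (0 : ℝ) < M := by exact_mod_cast (by omega : 0 < M)
  have h1 := hC M N 0 hM2 hMN (by simp)
  have hsum : ∑ n ∈ Ioc M N, (((tw n - 1) / n : ℝ) : ℂ) * er 0 (Real.log n) =
      ((∑ n ∈ Ioc M N, (tw n - 1) / n : ℝ) : ℂ) := by
    push_cast
    apply Finset.sum_congr rfl
    intro n _
    rw [er_zero, mul_one]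
  rw [hsum, Complex.norm_real, Real.norm_eq_abs] at h1
  have h2 : ∑ n ∈ Ioc M N, (tw n - 1) / (n : ℝ) = ∑ n ∈ Ioc M N, tw n / n - ∑ n ∈ Ioc M N, 1 / (n : ℝ) := by
    rw [← Finset.sum_sub_distrib]
    apply Finset.sum_congr rfl
    intro n _
    ring
  have h3 := harm (by omega : 1 ≤ M) hMN
  -- the logs
  have hlogW : Real.log W = (1 + κ) * l := by rw [hW, Real.log_rpow hUpos]
  have hlogN1 : (1 + κ) * l ≤ Real.log (N + 1) := by
    rw [← hlogW]; exact Real.log_le_log (hUpos.trans_le hUW) hNW'.le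
  have hlogM1 : Real.log (M + 1) ≤ Real.log 2 + l := by
    rw [hl, ← Real.log_mul (by norm_num) hUpos.ne']
    exact Real.log_le_log (by positivity) (by linarith)
  have hlogN : Real.log N ≤ 2 * l := by
    have h4 : Real.log N ≤ Real.log W := Real.log_le_log hNpos hNW
    rw [hlogW] at h4
    nlinarith
  have hlogM : l / 2 ≤ Real.log M := by
    have h4 : U / 2 ≤ M := by linarith
    have h5 : Real.log (U / 2) ≤ Real.log M := Real.log_le_log (by positivity) h4
    rw [Real.log_div hUpos.ne' (by norm_num)] at h5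
    have h6 : Real.log 2 ≤ 1 := by
      have := Real.log_le_sub_one_of_pos (x := 2) (by norm_num); linarith
    linarith
  have herr : C * (1 + Real.log N) / Real.log M ^ 2 ≤ 12 * C' / l := by
    have hlM : 0 < Real.log M := by linarith
    have hlN0 : 0 ≤ Real.log N := Real.log_natCast_nonneg N
    have h4 : C * (1 + Real.log N) / Real.log M ^ 2 ≤ C' * (3 * l) / (l / 2) ^ 2 := by
      apply div_le_div₀ (by positivity)
      · have h7 : C * (1 + Real.log N) ≤ C' * (1 + Real.log N) :=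
          mul_le_mul_of_nonneg_right (le_max_left _ _) (by linarith)
        have h8 : C' * (1 + Real.log N) ≤ C' * (3 * l) := mul_le_mul_of_nonneg_left (by linarith) hC0
        linarith
      · positivity
      · exact pow_le_pow_left₀ (by positivity) hlogM 2
    have h5 : C' * (3 * l) / (l / 2) ^ 2 = 12 * C' / l := by
      have : l ≠ 0 := by linarith
      field_simp
      ring
    linarith
  have h6 : κ * l - Real.log 2 - 12 * C' / l ≤ ∑ n ∈ Ioc M N, tw n / (n : ℝ) := by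
    have h7 := (abs_le.1 (h1.trans herr)).1
    rw [h2] at h7
    nlinarith
  have h7 : 12 * C' / l ≤ 12 * C' := div_le_self (by positivity) (by linarith)
  have h8 : κ / 2 * l ≤ ∑ n ∈ Ioc M N, tw n / (n : ℝ) := by
    have h9 : (2 * Real.log 2 + 24 * C') / κ * 2 ≤ l := by linarith
    have h10 : (2 * Real.log 2 + 24 * C') * 2 ≤ l * κ := by
      have h11 := mul_le_mul_of_nonneg_right h9 hκ.le
      have h12 : (2 * Real.log 2 + 24 * C') / κ * 2 * κ = (2 * Real.log 2 + 24 * C') * 2 := by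
        field_simp
      linarith
    nlinarith
  -- to primes
  have h9 : ∑ n ∈ Ioc M N, tw n / (n : ℝ) ≤ (2 * l) * ∑ p ∈ (Ioc M N).filter Nat.Prime, 1 / (p : ℝ) := by
    rw [Finset.sum_filter, Finset.mul_sum]
    apply Finset.sum_le_sum
    intro n hn
    rw [Finset.mem_Ioc] at hn
    have hnpos : (0 : ℝ) < n := by exact_mod_cast (by omega : 0 < n)
    unfold tw
    split_ifs with hp
    · rw [mul_one_div]
      apply div_le_div_of_nonneg_right _ hnpos.le
      have : Real.log n ≤ Real.log N := Real.log_le_log hnpos (by exact_mod_cast hn.2)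
      linarith
    · simp
  have h10 : κ / 4 ≤ ∑ p ∈ (Ioc M N).filter Nat.Prime, 1 / (p : ℝ) := by
    have hlpos : 0 < l := by linarith
    have h11 : κ / 2 * l ≤ (2 * l) * ∑ p ∈ (Ioc M N).filter Nat.Prime, 1 / (p : ℝ) := h8.trans h9
    by_contra hcon
    push Not at hcon
    have h12 : (2 * l) * ∑ p ∈ (Ioc M N).filter Nat.Prime, 1 / (p : ℝ) < (2 * l) * (κ / 4) :=
      mul_lt_mul_of_pos_left hcon (by positivity)
    nlinarith
  refine h10.trans ?_
  apply Finset.sum_le_sum_of_subset_of_nonneg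
  · apply Finset.filter_subset_filter
    exact Finset.Ioc_subset_Ioc_right (Nat.floor_le_floor hV)
  · intro i _ _
    positivity

theorem mem_EN {j : ℕ} {z U V : ℝ} {q : ℕ} : q ∈ EN j z U V ↔
    (⌊U⌋₊ < q ∧ q ≤ ⌊V⌋₊) ∧ ArithmeticFunction.cardFactors q = j ∧ ∀ p : ℕ, p.Prime → p ∣ q → z < p := by
  unfold EN
  simp only [Finset.mem_filter, Finset.mem_Ioc]

theorem step (hA : S_A1) {j : ℕ} {κ : ℝ} (hκ : 0 < κ)
    (h : ∃ δ c U₀ : ℝ, 0 < δ ∧ 0 < c ∧ ∀ U V : ℝ, U₀ ≤ U →
      U ^ (1 + κ) ≤ V → c ≤ ∑ q ∈ EN j (U ^ δ) U V, 1 / (q : ℝ)) :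
    ∃ δ c U₀ : ℝ, 0 < δ ∧ 0 < c ∧ ∀ U V : ℝ, U₀ ≤ U →
      U ^ (1 + κ) ≤ V → c ≤ ∑ q ∈ EN (j + 1) (U ^ δ) U V, 1 / (q : ℝ) := by
  classical
  obtain ⟨δ, c, U₀, hδ, hc, hU₀⟩ := h
  obtain ⟨U₁, hU₁2, hU₁⟩ := primes hA 1 one_pos le_rfl
  refine ⟨min (1 / 4) (δ / 2), c / 4 / (j + 1), max (U₁ ^ 4) (max (U₀ ^ 2) 16), by positivity, by positivity,
    fun U V hU hV => ?_⟩
  have hU1 : U₁ ^ 4 ≤ U := (le_max_left _ _).trans hU
  have hU0 : U₀ ^ 2 ≤ U := ((le_max_left _ _).trans (le_max_right _ _)).trans hU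
  have hU16 : 16 ≤ U := ((le_max_right _ _).trans (le_max_right _ _)).trans hU
  have hUpos : 0 < U := by linarith
  have hU1' : 1 ≤ U := by linarith
  set X : ℝ := U ^ (1 / 4 : ℝ) with hX
  have hXpos : 0 < X := Real.rpow_pos_of_pos hUpos _
  have hX4 : X ^ 4 = U := by
    rw [hX, ← Real.rpow_natCast, ← Real.rpow_mul hUpos.le]
    norm_num
  have hXU : U₁ ≤ X := by
    by_contra hcon
    push Not at hcon
    have : X ^ 4 < U₁ ^ 4 := pow_lt_pow_left₀ hcon hXpos.le (by norm_num)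
    linarith
  have hX1 : 1 ≤ X := by linarith
  have hX2 : X ^ (1 + 1 : ℝ) ≤ X ^ 2 := by
    rw [← Real.rpow_natCast]
    norm_num
  have hP := hU₁ X (X ^ 2) hXU hX2
  set R := (Ioc ⌊X⌋₊ ⌊X ^ 2⌋₊).filter Nat.Prime with hR
  have hRmem : ∀ r ∈ R, r.Prime ∧ X < r ∧ (r : ℝ) ≤ X ^ 2 := by
    intro r hr
    rw [hR, Finset.mem_filter, Finset.mem_Ioc] at hr
    exact ⟨hr.2, (Nat.floor_lt hXpos.le).1 hr.1.1, (Nat.le_floor_iff (by positivity)).1 hr.1.2⟩
  -- for each r
  have hr : ∀ r ∈ R, c / r ≤ ∑ q ∈ (EN (j + 1) (U ^ (min (1 / 4) (δ / 2))) U V).filter (fun q => r ∣ q), 1 / (q : ℝ) := by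
    intro r hr
    obtain ⟨hrp, hrX, hrX2⟩ := hRmem r hr
    have hrpos : (0 : ℝ) < r := hXpos.trans hrX
    have hUr : X ^ 2 ≤ U / r := by
      rw [le_div_iff₀ hrpos]
      nlinarith
    have hU0r : U₀ ≤ U / r := by
      refine le_trans ?_ hUr
      by_contra hcon
      push Not at hcon
      have h1 : (X ^ 2) ^ 2 < U₀ ^ 2 := pow_lt_pow_left₀ hcon (by positivity) (by norm_num)
      have h2 : (X ^ 2) ^ 2 = X ^ 4 := by ring
      linarith
    have hVr : (U / r) ^ (1 + κ) ≤ V / r := by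
      rw [Real.div_rpow hUpos.le hrpos.le]
      have h1 : (r : ℝ) ≤ (r : ℝ) ^ (1 + κ) := by
        have h2 : (r : ℝ) ^ (1 : ℝ) ≤ (r : ℝ) ^ (1 + κ) :=
          Real.rpow_le_rpow_of_exponent_le (by linarith) (by linarith)
        rwa [Real.rpow_one] at h2
      exact div_le_div₀ (by linarith [Real.rpow_pos_of_pos hUpos (1 + κ)]) hV hrpos h1
    have h3 := hU₀ (U / r) (V / r) hU0r hVr
    have h4 : c / r ≤ ∑ q ∈ EN j ((U / r) ^ δ) (U / r) (V / r), 1 / ((r * q : ℕ) : ℝ) := by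
      have h5 : ∑ q ∈ EN j ((U / r) ^ δ) (U / r) (V / r), 1 / ((r * q : ℕ) : ℝ) =
          (∑ q ∈ EN j ((U / r) ^ δ) (U / r) (V / r), 1 / (q : ℝ)) / r := by
        rw [Finset.sum_div]
        apply Finset.sum_congr rfl
        intro q _
        push_cast
        rw [div_div, mul_comm]
      rw [h5]
      exact div_le_div_of_nonneg_right h3 hrpos.le
    refine h4.trans ?_
    have hinj : Set.InjOn (fun q : ℕ => r * q) (EN j ((U / r) ^ δ) (U / r) (V / r)) := by
      intro a _ b _ hab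
      exact Nat.eq_of_mul_eq_mul_left hrp.pos hab
    rw [← Finset.sum_image (f := fun n : ℕ => 1 / (n : ℝ)) hinj]
    apply Finset.sum_le_sum_of_subset_of_nonneg
    · intro n hn
      rw [Finset.mem_image] at hn
      obtain ⟨q, hq, rfl⟩ := hn
      rw [mem_EN] at hq
      obtain ⟨⟨hq1, hq2⟩, hq3, hq4⟩ := hq
      have hq1' : U / r < q := (Nat.floor_lt (by positivity)).1 hq1
      have hVpos : 0 < V := lt_of_lt_of_le (Real.rpow_pos_of_pos hUpos _) hV
      have hq2' : (q : ℝ) ≤ V / r := (Nat.le_floor_iff (by positivity)).1 hq2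
      have hqpos : q ≠ 0 := by
        rintro rfl
        have : 0 < U / r := by positivity
        push_cast at hq1'
        linarith
      rw [Finset.mem_filter, mem_EN]
      refine ⟨⟨⟨?_, ?_⟩, ?_, ?_⟩, dvd_mul_right r q⟩
      · rw [Nat.floor_lt hUpos.le]
        push_cast
        rw [div_lt_iff₀ hrpos] at hq1'
        linarith
      · apply Nat.le_floor
        push_cast
        rw [le_div_iff₀ hrpos] at hq2'
        linarith
      · rw [ArithmeticFunction.cardFactors_mul hrp.ne_zero hqpos, ArithmeticFunction.cardFactors_apply_prime hrp, hq3]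
        ring
      · intro p hp hpd
        have hz1 : U ^ (min (1 / 4) (δ / 2)) ≤ X := by
          rw [hX]
          exact Real.rpow_le_rpow_of_exponent_le hU1' (min_le_left _ _)
        have hz2 : U ^ (min (1 / 4) (δ / 2)) ≤ (U / r) ^ δ := by
          have h5 : U ^ (min (1 / 4) (δ / 2)) ≤ U ^ (δ / 2) :=
            Real.rpow_le_rpow_of_exponent_le hU1' (min_le_right _ _)
          have h6 : U ^ (δ / 2) = (X ^ 2) ^ δ := by
            rw [hX, ← Real.rpow_natCast, ← Real.rpow_mul hUpos.le, ← Real.rpow_mul hUpos.le]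
            congr 1
            push_cast
            ring
          rw [h6] at h5
          exact h5.trans (Real.rpow_le_rpow (by positivity) hUr hδ.le)
        rcases (Nat.Prime.dvd_mul hp).1 hpd with h7 | h7
        · have h8 : p = r := (Nat.prime_dvd_prime_iff_eq hp hrp).1 h7
          rw [h8]
          linarith
        · exact lt_of_le_of_lt hz2 (hq4 p hp h7)
    · intro i _ _
      positivity
  -- sum over r
  have h1 : c * (1 / 4) ≤ ∑ r ∈ R, c / r := by
    have h2 : ∑ r ∈ R, c / (r : ℝ) = c * ∑ r ∈ R, 1 / (r : ℝ) := by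
      rw [Finset.mul_sum]
      apply Finset.sum_congr rfl
      intro r _
      ring
    rw [h2]
    exact mul_le_mul_of_nonneg_left hP hc.le
  have h2 : ∑ r ∈ R, c / (r : ℝ) ≤ ∑ r ∈ R, ∑ q ∈ (EN (j + 1) (U ^ (min (1 / 4) (δ / 2))) U V).filter (fun q => r ∣ q), 1 / (q : ℝ) :=
    Finset.sum_le_sum hr
  have h3 : ∑ r ∈ R, ∑ q ∈ (EN (j + 1) (U ^ (min (1 / 4) (δ / 2))) U V).filter (fun q => r ∣ q), 1 / (q : ℝ) ≤
      ∑ q ∈ EN (j + 1) (U ^ (min (1 / 4) (δ / 2))) U V, ((j : ℝ) + 1) * (1 / (q : ℝ)) := by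
    simp_rw [Finset.sum_filter]
    rw [Finset.sum_comm]
    apply Finset.sum_le_sum
    intro q hq
    rw [mem_EN] at hq
    obtain ⟨⟨hq1, hq2⟩, hq3, hq4⟩ := hq
    have hq0 : q ≠ 0 := by omega
    rw [← Finset.sum_filter, Finset.sum_const, nsmul_eq_mul]
    apply mul_le_mul_of_nonneg_right _ (by positivity)
    have h5 : (R.filter (fun r => r ∣ q)).card ≤ q.primeFactors.card := by
      apply Finset.card_le_card
      intro r hr'
      rw [Finset.mem_filter] at hr'
      exact Nat.mem_primeFactors.2 ⟨(hRmem r hr'.1).1, hr'.2, hq0⟩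
    have h6 : q.primeFactors.card ≤ j + 1 := by
      rw [← hq3, ArithmeticFunction.cardFactors_apply]
      exact List.toFinset_card_le _
    exact_mod_cast h5.trans h6
  rw [← Finset.mul_sum] at h3
  have hj : (0 : ℝ) < (j : ℝ) + 1 := by positivity
  rw [div_le_iff₀ hj]
  linarith

end RR

theorem r (h : S_A1) : S_R := by
  intro j hj κ hκ hκ1
  induction j, hj using Nat.le_induction with
  | base =>
    obtain ⟨U₀, hU2, hU⟩ := RR.primes h κ hκ hκ1
    refine ⟨1, κ / 4, U₀, one_pos, by positivity, fun U V hUU hV => ?_⟩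
    refine (hU U V hUU hV).trans ?_
    apply le_of_eq
    apply Finset.sum_congr _ (fun _ _ => rfl)
    ext q
    rw [RR.mem_EN, Finset.mem_filter, Finset.mem_Ioc]
    constructor
    · rintro ⟨⟨h1, h2⟩, h3⟩
      refine ⟨⟨h1, h2⟩, ArithmeticFunction.cardFactors_apply_prime h3, fun p hp hpd => ?_⟩
      have : p = q := (Nat.prime_dvd_prime_iff_eq hp h3).1 hpd
      rw [this, Real.rpow_one]
      exact (Nat.floor_lt (by linarith)).1 h1
    · rintro ⟨⟨h1, h2⟩, h3, -⟩
      exact ⟨⟨h1, h2⟩, ArithmeticFunction.cardFactors_eq_one_iff_prime.1 h3⟩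
  | succ j hj ih => exact RR.step h hκ ih

end Pool.Agent.Helper34.EK
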