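import Mathlib
import Pool.Agent.Helper34.EK.V2

set_option autoImplicit false

/-! From the mean square over multiplicative windows to the mean over the windows `(m, m + h]`. -/

namespace Pool.Agent.Helper34.EK
open Finset MeasureTheory Filter
open scoped ENNReal

/-- the length of the intersection of `(m, m + h]` and `[n e^{-θ}, n)` -/
noncomputable def psi (m h : ℕ) (θ n : ℝ) : ℝ := volume.real (Set.Ioc (m : ℝ) (m + h) ∩ Set.Ico (n * Real.exp (-θ)) n)

lemma psi_nonneg (m h : ℕ) (θ n : ℝ) : 0 ≤ psi m h θ n := measureReal_nonneg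

lemma psi_le {m h : ℕ} {θ n : ℝ} (hθ : 0 ≤ θ) (hn : 0 ≤ n) : psi m h θ n ≤ n * (1 - Real.exp (-θ)) := by
  unfold psi
  have h1 : Real.exp (-θ) ≤ 1 := Real.exp_le_one_iff.2 (by linarith)
  calc volume.real (Set.Ioc (m : ℝ) (m + h) ∩ Set.Ico (n * Real.exp (-θ)) n)
      ≤ volume.real (Set.Ico (n * Real.exp (-θ)) n) :=
        measureReal_mono Set.inter_subset_right (by rw [Real.volume_Ico]; exact ENNReal.ofReal_ne_top)
    _ = n * (1 - Real.exp (-θ)) := by
        rw [Real.volume_real_Ico_of_le (by nlinarith)]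
        ring

lemma psi_zero_left {m h : ℕ} {θ n : ℝ} (hn : n ≤ m) : psi m h θ n = 0 := by
  unfold psi
  have : Set.Ioc (m : ℝ) (m + h) ∩ Set.Ico (n * Real.exp (-θ)) n = ∅ := by
    rw [Set.eq_empty_iff_forall_notMem]
    rintro x ⟨⟨h1, _⟩, _, h4⟩
    linarith
  rw [this]
  simp

lemma psi_zero_right {m h : ℕ} {θ n : ℝ} (hn : (m + h) * Real.exp θ < n) : psi m h θ n = 0 := by
  unfold psi
  have : Set.Ioc (m : ℝ) (m + h) ∩ Set.Ico (n * Real.exp (-θ)) n = ∅ := by
    rw [Set.eq_empty_iff_forall_notMem]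
    rintro x ⟨⟨_, h2⟩, h3, _⟩
    have h5 : n * Real.exp (-θ) * Real.exp θ = n := by
      rw [mul_assoc, ← Real.exp_add]; simp
    have h6 : 0 < Real.exp θ := Real.exp_pos θ
    have h7 : n * Real.exp (-θ) * Real.exp θ ≤ (m + h) * Real.exp θ :=
      mul_le_mul_of_nonneg_right (h3.trans h2) h6.le
    linarith
  rw [this]
  simp

lemma psi_mid {m h : ℕ} {θ n : ℝ} (hθ : 0 ≤ θ) (h0 : 0 ≤ n) (h1 : m * Real.exp θ ≤ n) (h2 : n ≤ m + h) :
    psi m h θ n = n * (1 - Real.exp (-θ)) := by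
  apply le_antisymm (psi_le hθ h0)
  unfold psi
  have h3 : Real.exp (-θ) ≤ 1 := Real.exp_le_one_iff.2 (by linarith)
  have h4 : (m : ℝ) ≤ n * Real.exp (-θ) := by
    have h5 : m * Real.exp θ * Real.exp (-θ) = m := by
      rw [mul_assoc, ← Real.exp_add]; simp
    have := mul_le_mul_of_nonneg_right h1 (Real.exp_pos (-θ)).le
    linarith
  calc n * (1 - Real.exp (-θ)) = volume.real (Set.Ioo (n * Real.exp (-θ)) n) := by
        rw [Real.volume_real_Ioo_of_le (by nlinarith)]
        ring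
    _ ≤ _ := by
        apply measureReal_mono
        · rintro x ⟨a1, a2⟩
          exact ⟨⟨by linarith, by linarith⟩, a1.le, a2⟩
        · refine ne_top_of_le_ne_top ?_ (measure_mono Set.inter_subset_left)
          rw [Real.volume_Ioc]
          exact ENNReal.ofReal_ne_top

/-- the integral of the window function -/
lemma int_Wi {m h i j : ℕ} {θ : ℝ} (hi : 1 ≤ i) (hj : 1 ≤ j) :
    ∫ x in Set.Ioc (m : ℝ) (m + h), Wi θ (-Real.log x + Real.log i + Real.log j) = ((psi m h θ ((i : ℝ) * j) : ℝ) : ℂ) := by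
  have hi0 : (0 : ℝ) < i := by exact_mod_cast hi
  have hj0 : (0 : ℝ) < j := by exact_mod_cast hj
  obtain ⟨n, hn⟩ : ∃ n : ℝ, n = (i : ℝ) * j := ⟨_, rfl⟩
  have hn0 : 0 < n := by rw [hn]; positivity
  have hln : Real.log n = Real.log i + Real.log j := by rw [hn, Real.log_mul hi0.ne' hj0.ne']
  rw [← hn]
  have h1 : ∀ x ∈ Set.Ioc (m : ℝ) (m + h), Wi θ (-Real.log x + Real.log i + Real.log j) =
      (((Set.Ico (n * Real.exp (-θ)) n).indicator (fun _ => (1 : ℝ)) x : ℝ) : ℂ) := by
    intro x hx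
    have hx0 : 0 < x := lt_of_le_of_lt (Nat.cast_nonneg m) hx.1
    have e : -Real.log x + Real.log i + Real.log j = Real.log n - Real.log x := by rw [hln]; ring
    rw [e]
    by_cases hc : x ∈ Set.Ico (n * Real.exp (-θ)) n
    · rw [Set.indicator_of_mem hc]
      obtain ⟨c1, c2⟩ := hc
      rw [Wi_one]
      · simp
      · have := Real.log_lt_log hx0 c2
        linarith
      · have := Real.log_le_log (by positivity) c1
        rw [Real.log_mul hn0.ne' (Real.exp_pos _).ne', Real.log_exp] at this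
        linarith
    · rw [Set.indicator_of_notMem hc, Wi_zero]
      · simp
      · rintro ⟨c1, c2⟩
        apply hc
        constructor
        · rw [← Real.log_le_log_iff (by positivity) hx0, Real.log_mul hn0.ne' (Real.exp_pos _).ne', Real.log_exp]
          linarith
        · rw [← Real.log_lt_log_iff hx0 hn0]
          linarith
  rw [setIntegral_congr_fun measurableSet_Ioc h1, integral_complex_ofReal]
  congr 1
  rw [setIntegral_indicator measurableSet_Ico, setIntegral_const, smul_eq_mul, mul_one]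
  rfl

/-- the sum over the windows -/
lemma sum_windows {X h : ℕ} (hh : h ≤ X) (f : ℝ → ℝ≥0∞) (hf : Measurable f) :
    ∑ m ∈ Ioc X (2 * X), ∫⁻ x in Set.Ioc (m : ℝ) (m + h), f x ≤ h * ∫⁻ x in Set.Ioc (X : ℝ) (3 * X), f x := by
  have h1 : ∀ m ∈ Ioc X (2 * X), ∫⁻ x in Set.Ioc (m : ℝ) (m + h), f x ≤
      ∫⁻ x in Set.Ioc (X : ℝ) (3 * X), (Set.Ioc (m : ℝ) (m + h)).indicator f x := by
    intro m hm
    rw [mem_Ioc] at hm
    have a1 : (X : ℝ) ≤ m := by exact_mod_cast hm.1.le
    have a2 : (m : ℝ) ≤ 2 * X := by exact_mod_cast hm.2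
    have a3 : (h : ℝ) ≤ X := by exact_mod_cast hh
    rw [setLIntegral_indicator measurableSet_Ioc]
    apply lintegral_mono_set
    rintro x ⟨b1, b2⟩
    exact ⟨⟨b1, b2⟩, by linarith, by linarith⟩
  calc ∑ m ∈ Ioc X (2 * X), ∫⁻ x in Set.Ioc (m : ℝ) (m + h), f x
      ≤ ∑ m ∈ Ioc X (2 * X), ∫⁻ x in Set.Ioc (X : ℝ) (3 * X), (Set.Ioc (m : ℝ) (m + h)).indicator f x := sum_le_sum h1
    _ = ∫⁻ x in Set.Ioc (X : ℝ) (3 * X), ∑ m ∈ Ioc X (2 * X), (Set.Ioc (m : ℝ) (m + h)).indicator f x := by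
        rw [lintegral_finsetSum]
        intro m _
        exact hf.indicator measurableSet_Ioc
    _ ≤ ∫⁻ x in Set.Ioc (X : ℝ) (3 * X), (h : ℝ≥0∞) * f x := by
        apply lintegral_mono
        intro x
        show ∑ m ∈ Ioc X (2 * X), (Set.Ioc (m : ℝ) (m + h)).indicator f x ≤ _
        have h2 : ∀ m ∈ Ioc X (2 * X), (Set.Ioc (m : ℝ) (m + h)).indicator f x =
            if ((m : ℝ) < x ∧ x ≤ m + h) then f x else 0 := by
          intro m _
          by_cases hc : x ∈ Set.Ioc (m : ℝ) (m + h)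
          · rw [Set.indicator_of_mem hc, if_pos (show (m : ℝ) < x ∧ x ≤ m + h from hc)]
          · rw [Set.indicator_of_notMem hc, if_neg (show ¬ ((m : ℝ) < x ∧ x ≤ m + h) from hc)]
        rw [sum_congr rfl h2, ← sum_filter, sum_const, nsmul_eq_mul]
        apply mul_le_mul_left
        rw [Nat.cast_le]
        -- the number of the `m`
        have hsub : (Ioc X (2 * X)).filter (fun m : ℕ => (m : ℝ) < x ∧ x ≤ m + h) ⊆ Ico (⌈x⌉₊ - h) ⌈x⌉₊ := by
          intro m hm
          rw [mem_filter] at hm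
          obtain ⟨_, b1, b2⟩ := hm
          rw [mem_Ico]
          constructor
          · have : ⌈x⌉₊ ≤ m + h := by
              rw [Nat.ceil_le]
              push_cast
              exact b2
            omega
          · exact Nat.lt_ceil.2 b1
        have := card_le_card hsub
        rw [Nat.card_Ico] at this
        omega
    _ = _ := by rw [lintegral_const_mul _ hf]

/-- change of variables -/
lemma change_var {X : ℕ} (hX : 1 ≤ X) (f : ℝ → ℝ≥0∞) :
    ∫⁻ x in Set.Ioc (X : ℝ) (3 * X), f (-Real.log x) ≤ ENNReal.ofReal (3 * X) * ∫⁻ v : ℝ, f v := by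
  have hX0 : (1 : ℝ) ≤ X := by exact_mod_cast hX
  obtain ⟨s, hs⟩ : ∃ s : Set ℝ, s = Set.Ici (-Real.log (3 * X)) := ⟨_, rfl⟩
  have hsub : Set.Ioc (X : ℝ) (3 * X) ⊆ (fun v => Real.exp (-v)) '' s := by
    rintro x ⟨h1, h2⟩
    refine ⟨-Real.log x, ?_, ?_⟩
    · rw [hs, Set.mem_Ici]
      have := Real.log_le_log (by linarith : 0 < x) h2
      linarith
    · show Real.exp (- -Real.log x) = x
      rw [neg_neg, Real.exp_log (by linarith)]
  calc ∫⁻ x in Set.Ioc (X : ℝ) (3 * X), f (-Real.log x)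
      ≤ ∫⁻ x in (fun v => Real.exp (-v)) '' s, f (-Real.log x) := lintegral_mono_set hsub
    _ = ∫⁻ v in s, ENNReal.ofReal |-Real.exp (-v)| * f (-Real.log (Real.exp (-v))) := by
        apply lintegral_image_eq_lintegral_abs_deriv_mul
        · rw [hs]; exact measurableSet_Ici
        · intro v _
          have h := (Real.hasDerivAt_exp (-v)).comp v (hasDerivAt_neg v)
          simp only [mul_neg, mul_one] at h
          exact h.hasDerivWithinAt
        · intro a _ b _ hab
          have := Real.exp_injective hab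
          linarith
    _ ≤ ∫⁻ v in s, ENNReal.ofReal (3 * X) * f v := by
        apply setLIntegral_mono' (by rw [hs]; exact measurableSet_Ici)
        intro v hv
        rw [Real.log_exp, neg_neg, abs_neg, abs_of_pos (Real.exp_pos _)]
        apply mul_le_mul_left
        apply ENNReal.ofReal_le_ofReal
        rw [hs, Set.mem_Ici] at hv
        calc Real.exp (-v) ≤ Real.exp (Real.log (3 * X)) := Real.exp_le_exp.2 (by linarith)
          _ = 3 * X := Real.exp_log (by linarith)
    _ ≤ ∫⁻ v : ℝ, ENNReal.ofReal (3 * X) * f v := lintegral_mono' Measure.restrict_le_self le_rfl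
    _ = _ := by rw [lintegral_const_mul' _ _ ENNReal.ofReal_ne_top]

/-- the mean of the integrals over the windows -/
lemma mean_I {X h : ℕ} (hX : 1 ≤ X) (hh : h ≤ X) (F : ℝ → ℂ) (hF : Measurable F) {c e : ℝ} (hc : 0 < c) (he : 0 ≤ e)
    (hsq : ∫⁻ v : ℝ, ‖F v‖ₑ ^ 2 ≤ ENNReal.ofReal (e ^ 2)) (hce : c = e ∨ e ≤ c) :
    ∑ m ∈ Ioc X (2 * X), ‖∫ x in Set.Ioc (m : ℝ) (m + h), F (-Real.log x)‖ ≤ 3 * h * X * c := by
  have hX0 : (1 : ℝ) ≤ X := by exact_mod_cast hX
  have hec : e ≤ c := by rcases hce with h | h <;> linarith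
  have hm : Measurable (fun x : ℝ => F (-Real.log x)) := hF.comp Real.measurable_log.neg
  have h1 : ∑ m ∈ Ioc X (2 * X), ‖∫ x in Set.Ioc (m : ℝ) (m + h), F (-Real.log x)‖ₑ ≤ ENNReal.ofReal (3 * h * X * c) := by
    calc ∑ m ∈ Ioc X (2 * X), ‖∫ x in Set.Ioc (m : ℝ) (m + h), F (-Real.log x)‖ₑ
        ≤ ∑ m ∈ Ioc X (2 * X), ∫⁻ x in Set.Ioc (m : ℝ) (m + h), ‖F (-Real.log x)‖ₑ :=
          sum_le_sum fun m _ => enorm_integral_le_lintegral_enorm _
      _ ≤ h * ∫⁻ x in Set.Ioc (X : ℝ) (3 * X), ‖F (-Real.log x)‖ₑ := sum_windows hh _ hm.enorm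
      _ ≤ h * ∫⁻ x in Set.Ioc (X : ℝ) (3 * X), (ENNReal.ofReal (c / 2) + ENNReal.ofReal (1 / (2 * c)) * ‖F (-Real.log x)‖ₑ ^ 2) := by
          gcongr with x
          have h2 : ‖F (-Real.log x)‖ ≤ c / 2 + 1 / (2 * c) * ‖F (-Real.log x)‖ ^ 2 := by
            have h3 : 0 ≤ (‖F (-Real.log x)‖ - c) ^ 2 / (2 * c) := by positivity
            have h4 : c / 2 + 1 / (2 * c) * ‖F (-Real.log x)‖ ^ 2 - ‖F (-Real.log x)‖ = (‖F (-Real.log x)‖ - c) ^ 2 / (2 * c) := by
              field_simp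
              ring
            linarith
          rw [← ofReal_norm, ← ENNReal.ofReal_pow (norm_nonneg _), ← ENNReal.ofReal_mul (by positivity),
            ← ENNReal.ofReal_add (by positivity) (by positivity)]
          exact ENNReal.ofReal_le_ofReal h2
      _ = h * (ENNReal.ofReal (c / 2) * ENNReal.ofReal (2 * X) +
            ENNReal.ofReal (1 / (2 * c)) * ∫⁻ x in Set.Ioc (X : ℝ) (3 * X), ‖F (-Real.log x)‖ₑ ^ 2) := by
          rw [lintegral_add_left measurable_const, setLIntegral_const, Real.volume_Ioc,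
            lintegral_const_mul' _ _ ENNReal.ofReal_ne_top]
          congr 3
          congr 1
          ring
      _ ≤ h * (ENNReal.ofReal (c / 2) * ENNReal.ofReal (2 * X) +
            ENNReal.ofReal (1 / (2 * c)) * (ENNReal.ofReal (3 * X) * ENNReal.ofReal (e ^ 2))) := by
          gcongr
          exact (change_var hX (fun v => ‖F v‖ₑ ^ 2)).trans (by gcongr)
      _ = ENNReal.ofReal (h * (c / 2 * (2 * X) + 1 / (2 * c) * (3 * X * e ^ 2))) := by
          rw [ENNReal.ofReal_mul (Nat.cast_nonneg h), ENNReal.ofReal_natCast, ENNReal.ofReal_add (by positivity) (by positivity),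
            ENNReal.ofReal_mul (by positivity : 0 ≤ c / 2), ENNReal.ofReal_mul (by positivity : 0 ≤ 1 / (2 * c)),
            ENNReal.ofReal_mul (by positivity : (0 : ℝ) ≤ 3 * X)]
      _ ≤ _ := by
          apply ENNReal.ofReal_le_ofReal
          have h5 : 1 / (2 * c) * (3 * X * e ^ 2) ≤ 3 / 2 * X * c := by
            calc 1 / (2 * c) * (3 * X * e ^ 2) ≤ 1 / (2 * c) * (3 * X * c ^ 2) := by gcongr
              _ = _ := by field_simp
          calc (h : ℝ) * (c / 2 * (2 * X) + 1 / (2 * c) * (3 * X * e ^ 2)) ≤ h * (c / 2 * (2 * X) + 3 / 2 * X * c) := by gcongr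
            _ = 5 / 2 * (h * X * c) := by ring
            _ ≤ 3 * (h * X * c) := by
                have : 0 ≤ (h : ℝ) * X * c := by positivity
                linarith
            _ = _ := by ring
  have h2 : ∑ m ∈ Ioc X (2 * X), ‖∫ x in Set.Ioc (m : ℝ) (m + h), F (-Real.log x)‖ₑ =
      ENNReal.ofReal (∑ m ∈ Ioc X (2 * X), ‖∫ x in Set.Ioc (m : ℝ) (m + h), F (-Real.log x)‖) := by
    rw [ENNReal.ofReal_sum_of_nonneg (fun _ _ => norm_nonneg _)]
    apply sum_congr rfl
    intro m _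
    rw [ofReal_norm]
  rw [h2] at h1
  exact (ENNReal.ofReal_le_ofReal_iff (by positivity)).1 h1

end Pool.Agent.Helper34.EK
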