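import Mathlib
import Pool.Agent.Helper34.EK.V3

set_option autoImplicit false

/-! The products `a p` in almost all short intervals. -/

namespace Pool.Agent.Helper34.EK
open Finset MeasureTheory Filter
open scoped ENNReal

lemma FF_meas (P R N1 N2 : ℕ) (θ : ℝ) : Measurable (FF P R N1 N2 θ) := by
  unfold FF
  apply Finset.measurable_fun_sum
  intro i _
  apply Finset.measurable_fun_sum
  intro j _
  apply Measurable.const_mul
  exact (Wi_meas θ).comp ((measurable_id.add_const _).add_const _)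

lemma Wi_integrable (m h : ℕ) (θ a b : ℝ) :
    Integrable (fun x : ℝ => Wi θ (-Real.log x + a + b)) (volume.restrict (Set.Ioc (m : ℝ) (m + h))) := by
  have hm : Measurable (fun x : ℝ => Wi θ (-Real.log x + a + b)) :=
    (Wi_meas θ).comp ((Real.measurable_log.neg.add_const _).add_const _)
  apply Integrable.of_bound (C := 1) hm.aestronglyMeasurable
  exact ae_of_all _ fun x => Wi_norm_le _ _

lemma I_eq (P R N1 N2 m h : ℕ) (θ : ℝ) :
    ∫ x in Set.Ioc (m : ℝ) (m + h), FF P R N1 N2 θ (-Real.log x) =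
      ((∑ i ∈ PR P R, ∑ j ∈ Ioc N1 N2, (1 / (i : ℝ) * ((tw j - 1) / j)) * psi m h θ ((i : ℝ) * j) : ℝ) : ℂ) := by
  unfold FF
  rw [integral_finsetSum]
  · push_cast
    apply sum_congr rfl
    intro i hi
    rw [integral_finsetSum]
    · apply sum_congr rfl
      intro j hj
      rw [integral_const_mul, int_Wi (by have := (mem_PR.1 hi).2.one_lt; omega) (by rw [mem_Ioc] at hj; omega)]
    · intro j _
      exact (Wi_integrable m h θ _ _).const_mul _
  · intro i _
    apply integrable_finsetSum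
    intro j _
    exact (Wi_integrable m h θ _ _).const_mul _

/-- one pair -/
lemma one_pair {m h i j : ℕ} {θ : ℝ} (hθ : 0 ≤ θ) (hi : 1 ≤ i) (hj : 1 ≤ j) :
    |(1 / (i : ℝ) * ((tw j - 1) / j)) * psi m h θ ((i : ℝ) * j) -
      (1 - Real.exp (-θ)) * (if m < i * j ∧ i * j ≤ m + h then tw j - 1 else 0)| ≤
      (1 - Real.exp (-θ)) * ((if m < i * j ∧ i * j ≤ ⌊(m : ℝ) * Real.exp θ⌋₊ then |tw j - 1| else 0) +
        (if m + h < i * j ∧ i * j ≤ ⌊((m : ℝ) + h) * Real.exp θ⌋₊ then |tw j - 1| else 0)) := by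
  have hi0 : (0 : ℝ) < i := by exact_mod_cast hi
  have hj0 : (0 : ℝ) < j := by exact_mod_cast hj
  obtain ⟨n, hn⟩ : ∃ n : ℕ, n = i * j := ⟨_, rfl⟩
  have hnr : (i : ℝ) * j = (n : ℝ) := by rw [hn]; push_cast; ring
  have hn0 : (0 : ℝ) < n := by rw [← hnr]; positivity
  have he : Real.exp (-θ) ≤ 1 := Real.exp_le_one_iff.2 (by linarith)
  have he1 : 0 ≤ 1 - Real.exp (-θ) := by linarith
  have hmul : 1 / (i : ℝ) * ((tw j - 1) / j) = (tw j - 1) / n := by
    rw [← hnr]
    field_simp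
  rw [← hn, hnr, hmul]
  have hb1 : 0 ≤ psi m h θ n := psi_nonneg _ _ _ _
  have hb2 : psi m h θ n ≤ n * (1 - Real.exp (-θ)) := psi_le hθ hn0.le
  have hq1 : 0 ≤ psi m h θ n / n := by positivity
  have hq2 : psi m h θ n / n ≤ 1 - Real.exp (-θ) := by
    rw [div_le_iff₀ hn0]
    linarith
  have hrew : (tw j - 1) / n * psi m h θ n = (tw j - 1) * (psi m h θ n / n) := by ring
  have habs : 0 ≤ |tw j - 1| := abs_nonneg _
  rw [hrew]
  by_cases c1 : m < n ∧ n ≤ m + h
  · rw [if_pos c1]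
    have c3 : ¬ (m + h < n ∧ n ≤ ⌊((m : ℝ) + h) * Real.exp θ⌋₊) := by
      rintro ⟨a, _⟩
      omega
    rw [if_neg c3, add_zero]
    by_cases c2 : n ≤ ⌊(m : ℝ) * Real.exp θ⌋₊
    · rw [if_pos ⟨c1.1, c2⟩]
      have e : (tw j - 1) * (psi m h θ n / n) - (1 - Real.exp (-θ)) * (tw j - 1) =
          (tw j - 1) * (psi m h θ n / n - (1 - Real.exp (-θ))) := by ring
      rw [e, abs_mul, mul_comm (1 - Real.exp (-θ))]
      apply mul_le_mul_of_nonneg_left _ habs
      rw [abs_le]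
      constructor <;> linarith
    · have c4 : (m : ℝ) * Real.exp θ ≤ n := by
        by_contra hcon
        push Not at hcon
        exact c2 (Nat.le_floor hcon.le)
      have c5 : (n : ℝ) ≤ m + h := by exact_mod_cast c1.2
      have e : psi m h θ n / n = 1 - Real.exp (-θ) := by
        rw [psi_mid hθ hn0.le c4 c5]
        field_simp
      rw [e, mul_comm, sub_self, abs_zero]
      rw [if_neg (fun hh => c2 hh.2)]
      simp
  · rw [if_neg c1, mul_zero, sub_zero]
    by_cases c2 : n ≤ m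
    · have : psi m h θ n = 0 := psi_zero_left (by exact_mod_cast c2)
      rw [this, zero_div, mul_zero, abs_zero]
      apply mul_nonneg he1
      apply add_nonneg <;> split_ifs <;> first | exact habs | exact le_rfl
    · have c3 : m + h < n := by
        by_contra hcon
        exact c1 ⟨by omega, by omega⟩
      by_cases c4 : n ≤ ⌊((m : ℝ) + h) * Real.exp θ⌋₊
      · rw [if_pos (⟨c3, c4⟩ : m + h < n ∧ n ≤ ⌊((m : ℝ) + h) * Real.exp θ⌋₊), abs_mul, abs_of_nonneg hq1]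
        calc |tw j - 1| * (psi m h θ n / n) ≤ |tw j - 1| * (1 - Real.exp (-θ)) := mul_le_mul_of_nonneg_left hq2 habs
          _ = (1 - Real.exp (-θ)) * (0 + |tw j - 1|) := by ring
          _ ≤ _ := by
              apply mul_le_mul_of_nonneg_left _ he1
              apply add_le_add _ le_rfl
              split_ifs <;> first | exact habs | exact le_rfl
      · have c5 : ((m : ℝ) + h) * Real.exp θ < n := by
          by_contra hcon
          push Not at hcon
          exact c4 (Nat.le_floor hcon)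
        rw [psi_zero_right c5, zero_div, mul_zero, abs_zero]
        apply mul_nonneg he1
        apply add_nonneg <;> split_ifs <;> first | exact habs | exact le_rfl

/-- the boundary terms -/
lemma bd_le {P R N1 N2 a b : ℕ} {D : ℝ} (hD : 0 ≤ D) (hb : 1 ≤ b) (hab : a ≤ b) (hlog : 1 + Real.log b ≤ D) :
    ∑ i ∈ PR P R, ∑ j ∈ Ioc N1 N2, (if a < i * j ∧ i * j ≤ b then |tw j - 1| else 0) ≤ ((b : ℝ) - a) * (2 * D ^ 2) := by
  have h1 : ∀ i ∈ PR P R, ∑ j ∈ Ioc N1 N2, (if a < i * j ∧ i * j ≤ b then |tw j - 1| else 0) ≤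
      ∑ j ∈ Ioc (a / i) (b / i), |tw j - 1| := by
    intro i hi
    have hi1 := (mem_PR.1 hi).2.one_lt
    rw [← sum_filter]
    apply sum_le_sum_of_subset_of_nonneg
    · intro j hj
      rw [mem_filter] at hj
      rw [mem_Ioc]
      constructor
      · rw [Nat.div_lt_iff_lt_mul (by omega), mul_comm]; exact hj.2.1
      · rw [Nat.le_div_iff_mul_le (by omega), mul_comm]; exact hj.2.2
    · intro _ _ _
      exact abs_nonneg _
  refine (sum_le_sum h1).trans ?_
  rw [← sum_g P R a b (fun j => |tw j - 1|)]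
  calc ∑ k ∈ Ioc a b, ∑ i ∈ (PR P R).filter (fun i => i ∣ k), |tw (k / i) - 1|
      ≤ ∑ k ∈ Ioc a b, 2 * D ^ 2 := by
        apply sum_le_sum
        intro k hk
        rw [mem_Ioc] at hk
        have hk1 : 1 ≤ k := by omega
        have hk0 : (0 : ℝ) < k := by exact_mod_cast hk1
        have hl : Real.log k ≤ Real.log b := Real.log_le_log hk0 (by exact_mod_cast hk.2)
        have := sum_div_le (P := P) (R := R) hk1 (f := fun i => |tw (k / i) - 1|) (c := D) hD (by
          intro i _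
          have a1 := tw_nonneg (k / i)
          have a2 := (tw_le (k / i)).trans (log_div_le (a := i) hk1)
          have a3 : 0 ≤ Real.log k := Real.log_natCast_nonneg k
          rw [abs_le]
          constructor <;> linarith)
        refine this.trans ?_
        have a3 : 0 ≤ Real.log k := Real.log_natCast_nonneg k
        calc 2 * Real.log k * D ≤ 2 * D * D := by
              gcongr
              linarith
          _ = _ := by ring
    _ = ((b : ℝ) - a) * (2 * D ^ 2) := by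
        rw [sum_const, Nat.card_Ioc, nsmul_eq_mul, Nat.cast_sub hab]

/-- the identity -/
lemma main_id {P R N1 X m h : ℕ} {θ L : ℝ} (hX : 1 ≤ X) (hN1 : N1 = X / (4 * R)) (hR : 1 ≤ R) (hm : X < m) (hm2 : m ≤ 2 * X)
    (hh : h ≤ X) (hθ : 0 < θ) (hθ1 : θ ≤ 1) (hL : 1 ≤ L) (hlog : 1 + Real.log (9 * X) ≤ 4 * L) :
    (1 - Real.exp (-θ)) * |Gh P R h m - h * sg P R| ≤
      ‖∫ x in Set.Ioc (m : ℝ) (m + h), FF P R N1 (4 * X) θ (-Real.log x)‖ + (1 - Real.exp (-θ)) * (R + 320 * θ * X * L ^ 2) := by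
  have hX0 : (1 : ℝ) ≤ X := by exact_mod_cast hX
  have hmX : (m : ℝ) ≤ 2 * X := by exact_mod_cast hm2
  have hm1 : (1 : ℝ) ≤ m := by exact_mod_cast (by omega : 1 ≤ m)
  have hhX : (h : ℝ) ≤ X := by exact_mod_cast hh
  have hh0 : (0 : ℝ) ≤ h := Nat.cast_nonneg h
  have he : Real.exp (-θ) ≤ 1 := Real.exp_le_one_iff.2 (by linarith)
  have he1 : 0 ≤ 1 - Real.exp (-θ) := by linarith
  have hee : Real.exp θ - 1 ≤ 2 * θ := exp_sub_one hθ.le hθ1
  have hee1 : 1 ≤ Real.exp θ := Real.one_le_exp hθ.le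
  rw [I_eq, Complex.norm_real, Real.norm_eq_abs]
  obtain ⟨S, hS⟩ : ∃ S : ℝ, S = ∑ i ∈ PR P R, ∑ j ∈ Ioc N1 (4 * X), (1 / (i : ℝ) * ((tw j - 1) / j)) * psi m h θ ((i : ℝ) * j) :=
    ⟨_, rfl⟩
  obtain ⟨Z, hZ⟩ : ∃ Z : ℝ, Z = ∑ i ∈ PR P R, ∑ j ∈ Ioc N1 (4 * X), (if m < i * j ∧ i * j ≤ m + h then tw j - 1 else 0) :=
    ⟨_, rfl⟩
  rw [← hS]
  obtain ⟨b1, hb1⟩ : ∃ b1 : ℕ, b1 = ⌊(m : ℝ) * Real.exp θ⌋₊ := ⟨_, rfl⟩
  obtain ⟨b2, hb2⟩ : ∃ b2 : ℕ, b2 = ⌊((m : ℝ) + h) * Real.exp θ⌋₊ := ⟨_, rfl⟩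
  -- the comparison
  have h1 : |S - (1 - Real.exp (-θ)) * Z| ≤ (1 - Real.exp (-θ)) * (320 * θ * X * L ^ 2) := by
    rw [hS, hZ, mul_sum, ← sum_sub_distrib]
    have e1 : ∀ i ∈ PR P R, |∑ j ∈ Ioc N1 (4 * X), (1 / (i : ℝ) * ((tw j - 1) / j)) * psi m h θ ((i : ℝ) * j) -
        (1 - Real.exp (-θ)) * ∑ j ∈ Ioc N1 (4 * X), (if m < i * j ∧ i * j ≤ m + h then tw j - 1 else 0)| ≤
        (1 - Real.exp (-θ)) * (∑ j ∈ Ioc N1 (4 * X), (if m < i * j ∧ i * j ≤ b1 then |tw j - 1| else 0) +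
          ∑ j ∈ Ioc N1 (4 * X), (if m + h < i * j ∧ i * j ≤ b2 then |tw j - 1| else 0)) := by
      intro i hi
      have hi1 := (mem_PR.1 hi).2.one_lt
      rw [mul_sum, ← sum_sub_distrib, ← sum_add_distrib, mul_sum]
      refine (abs_sum_le_sum_abs _ _).trans (sum_le_sum ?_)
      intro j hj
      rw [mem_Ioc] at hj
      rw [hb1, hb2]
      exact one_pair hθ.le (by omega) (by omega)
    refine (abs_sum_le_sum_abs _ _).trans ((sum_le_sum e1).trans ?_)
    rw [← mul_sum, sum_add_distrib]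
    apply mul_le_mul_of_nonneg_left _ he1
    have g1 : m ≤ b1 := by
      rw [hb1]
      apply Nat.le_floor
      nlinarith
    have g2 : m + h ≤ b2 := by
      rw [hb2]
      apply Nat.le_floor
      push_cast
      nlinarith
    have g3 : (b1 : ℝ) ≤ m * Real.exp θ := by rw [hb1]; exact Nat.floor_le (by positivity)
    have g4 : (b2 : ℝ) ≤ (m + h) * Real.exp θ := by rw [hb2]; exact Nat.floor_le (by positivity)
    have hlb : ∀ b : ℕ, 1 ≤ b → (b : ℝ) ≤ (m + h) * Real.exp θ → 1 + Real.log b ≤ 4 * L := by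
      intro b hb hb'
      refine le_trans ?_ hlog
      have : Real.log b ≤ Real.log (9 * X) := by
        apply Real.log_le_log (by exact_mod_cast hb)
        refine hb'.trans ?_
        calc ((m : ℝ) + h) * Real.exp θ ≤ (2 * X + X) * 3 := by
              gcongr
              linarith
          _ = 9 * X := by ring
      linarith
    have k1 := bd_le (P := P) (R := R) (N1 := N1) (N2 := 4 * X) (a := m) (b := b1) (D := 4 * L) (by positivity) (by omega) g1
      (hlb b1 (by omega) (g3.trans (by gcongr; linarith)))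
    have k2 := bd_le (P := P) (R := R) (N1 := N1) (N2 := 4 * X) (a := m + h) (b := b2) (D := 4 * L) (by positivity) (by omega) g2
      (hlb b2 (by omega) g4)
    have k3 : (b1 : ℝ) - m ≤ 4 * θ * X := by nlinarith
    have k4 : (b2 : ℝ) - ((m + h : ℕ) : ℝ) ≤ 6 * θ * X := by
      push_cast
      have : ((m : ℝ) + h) * (Real.exp θ - 1) ≤ (3 * X) * (2 * θ) := by
        apply mul_le_mul _ hee (by linarith) (by positivity)
        linarith
      nlinarith
    have hDD : 0 ≤ 2 * (4 * L) ^ 2 := by positivity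
    have k5 := mul_le_mul_of_nonneg_right k3 hDD
    have k6 := mul_le_mul_of_nonneg_right k4 hDD
    calc _ ≤ ((b1 : ℝ) - m) * (2 * (4 * L) ^ 2) + ((b2 : ℝ) - ((m + h : ℕ) : ℝ)) * (2 * (4 * L) ^ 2) := add_le_add k1 k2
      _ ≤ 4 * θ * X * (2 * (4 * L) ^ 2) + 6 * θ * X * (2 * (4 * L) ^ 2) := add_le_add k5 k6
      _ = _ := by ring
  -- the main part
  have h2 : Z = Gh P R h m - ∑ i ∈ PR P R, ((((m + h) / i - m / i : ℕ)) : ℝ) := by
    rw [hZ, Gh_eq, ← sum_sub_distrib]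
    apply sum_congr rfl
    intro i hi
    obtain ⟨⟨hi1, hi2⟩, hip⟩ := mem_PR.1 hi
    have hi3 := hip.one_lt
    rw [← sum_filter]
    have e : (Ioc N1 (4 * X)).filter (fun j => m < i * j ∧ i * j ≤ m + h) = Ioc (m / i) ((m + h) / i) := by
      ext j
      rw [mem_filter, mem_Ioc, mem_Ioc]
      constructor
      · rintro ⟨_, a1, a2⟩
        constructor
        · rw [Nat.div_lt_iff_lt_mul (by omega), mul_comm]; exact a1
        · rw [Nat.le_div_iff_mul_le (by omega), mul_comm]; exact a2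
      · rintro ⟨a1, a2⟩
        refine ⟨⟨?_, ?_⟩, ?_, ?_⟩
        · refine lt_of_le_of_lt ?_ a1
          rw [hN1]
          refine (Nat.div_le_div_left (by omega : i ≤ 4 * R) (by omega)).trans ?_
          exact Nat.div_le_div_right hm.le
        · exact a2.trans ((Nat.div_le_self _ _).trans (by omega))
        · have := (Nat.div_lt_iff_lt_mul (by omega)).1 a1
          rw [mul_comm]; exact this
        · have := (Nat.le_div_iff_mul_le (by omega)).1 a2
          rw [mul_comm]; exact this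
    rw [e, sum_sub_distrib]
    congr 1
    rw [sum_const, Nat.card_Ioc, nsmul_eq_mul, mul_one]
  have h3 : |∑ i ∈ PR P R, ((((m + h) / i - m / i : ℕ)) : ℝ) - h * sg P R| ≤ R := by
    unfold sg
    rw [mul_sum, ← sum_sub_distrib]
    refine (abs_sum_le_sum_abs _ _).trans ?_
    calc ∑ i ∈ PR P R, |((((m + h) / i - m / i : ℕ)) : ℝ) - h * (1 / (i : ℝ))| ≤ ∑ i ∈ PR P R, (1 : ℝ) := by
          apply sum_le_sum
          intro i hi
          have hi3 := (mem_PR.1 hi).2.one_lt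
          have := count_mult (a := i) (m := m) (h := h) (by omega)
          rw [← mul_div_assoc, mul_one]
          exact this
      _ = (PR P R).card := by rw [sum_const, nsmul_eq_mul, mul_one]
      _ ≤ R := by exact_mod_cast PR_card P R
  have h4 : |Gh P R h m - h * sg P R| ≤ |Z| + R := by
    have e : Gh P R h m - h * sg P R = Z + (∑ i ∈ PR P R, ((((m + h) / i - m / i : ℕ)) : ℝ) - h * sg P R) := by
      rw [h2]; ring
    rw [e]
    exact (abs_add_le _ _).trans (add_le_add le_rfl h3)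
  have h5 : (1 - Real.exp (-θ)) * |Z| ≤ |S| + (1 - Real.exp (-θ)) * (320 * θ * X * L ^ 2) := by
    have e : (1 - Real.exp (-θ)) * |Z| = |(1 - Real.exp (-θ)) * Z| := by rw [abs_mul, abs_of_nonneg he1]
    rw [e]
    have := abs_sub_abs_le_abs_sub ((1 - Real.exp (-θ)) * Z) S
    rw [abs_sub_comm] at this
    linarith
  have h6 := mul_le_mul_of_nonneg_left h4 he1
  linarith

/-- (V) -/
theorem v (hA1 : S_A1) (hA2 : S_A2) (hB : S_B) : S_V := by
  intro δ η hδ hη K
  obtain ⟨X₁, hX₁⟩ := FF_sq hA1 hA2 hB δ η hδ hη (2 * K + 2)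
  have hev : ∀ᶠ X : ℕ in atTop, (X₁ ≤ X) ∧ (2 ≤ X) ∧ (652 ≤ Real.log X) ∧ (2 * Real.log X ^ K ≤ (X : ℝ) ^ η) ∧
      (8 * Real.log X ^ (K + 3) ≤ (X : ℝ) ^ η) := by
    filter_upwards [eventually_ge_atTop X₁, eventually_ge_atTop 2, ev_log_ge 652, ev_log_pow K 2 hη,
      ev_log_pow (K + 3) 8 hη] with X h1 h2 h3 h4 h5
    exact ⟨h1, h2, h3, h4, h5⟩
  obtain ⟨X₀, hX₀⟩ := eventually_atTop.1 hev
  refine ⟨X₀, ?_⟩
  intro X hX h P R hP hPR hRh hhX
  obtain ⟨e1, e2, e3, e4, e5⟩ := hX₀ X hX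
  obtain ⟨L, hL⟩ : ∃ L, L = Real.log X := ⟨_, rfl⟩
  rw [← hL] at e3 e4 e5 ⊢
  have hX0 : (2 : ℝ) ≤ X := by exact_mod_cast e2
  have hXp : (0 : ℝ) < X := by linarith
  have hL1 : 1 ≤ L := by linarith
  have hL0 : 0 < L := by linarith
  have hhX' : (h : ℝ) ≤ X := by exact_mod_cast hhX
  have hXδ : 1 ≤ (X : ℝ) ^ δ := Real.one_le_rpow (by linarith) hδ.le
  have hXη : 1 ≤ (X : ℝ) ^ η := Real.one_le_rpow (by linarith) hη.le
  have hP1 : (1 : ℝ) ≤ P := hXδ.trans hP
  have hR1 : (1 : ℝ) ≤ R := hP1.trans (by exact_mod_cast hPR)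
  have hR1n : 1 ≤ R := by exact_mod_cast hR1
  have hh0 : (0 : ℝ) < h := by
    refine lt_of_lt_of_le ?_ hRh
    positivity
  obtain ⟨θ, hθ⟩ : ∃ θ : ℝ, θ = h / (X * L ^ (K + 3)) := ⟨_, rfl⟩
  have hLK : 0 < L ^ (K + 3) := by positivity
  have hθ0 : 0 < θ := by rw [hθ]; positivity
  have hθh : θ ≤ 1 / 2 := by
    rw [hθ, div_le_iff₀ (by positivity)]
    have h2 : 2 ≤ L ^ (K + 3) := by
      calc (2 : ℝ) ≤ L := by linarith
        _ = L ^ 1 := (pow_one L).symm
        _ ≤ L ^ (K + 3) := pow_le_pow_right₀ hL1 (by omega)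
    nlinarith
  have hθR : 8 * R / X ≤ θ := by
    rw [hθ, div_le_div_iff₀ hXp (by positivity)]
    have : 8 * (R : ℝ) * L ^ (K + 3) ≤ h := by
      calc 8 * (R : ℝ) * L ^ (K + 3) = R * (8 * L ^ (K + 3)) := by ring
        _ ≤ R * (X : ℝ) ^ η := by gcongr
        _ ≤ h := hRh
    calc 8 * (R : ℝ) * (X * L ^ (K + 3)) = (8 * R * L ^ (K + 3)) * X := by ring
      _ ≤ h * X := by gcongr
  have key := hX₁ X e1 P R θ hP hPR (hRh.trans hhX') hθR (by linarith)
  rw [← hL] at key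
  obtain ⟨c, hc⟩ : ∃ c : ℝ, c = θ / L ^ (K + 1) := ⟨_, rfl⟩
  have hc0 : 0 < c := by rw [hc]; positivity
  have hc2 : θ ^ 2 / L ^ (2 * K + 2) = c ^ 2 := by
    rw [hc, div_pow, ← pow_mul]
    congr 2
    ring
  rw [hc2] at key
  obtain ⟨N1, hN1⟩ : ∃ N1 : ℕ, N1 = X / (4 * R) := ⟨_, rfl⟩
  rw [← hN1] at key
  have hmean := mean_I (X := X) (h := h) (by omega) hhX (FF P R N1 (4 * X) θ) (FF_meas _ _ _ _ _) hc0 hc0.le key (Or.inl rfl)
  have hlog9 : 1 + Real.log (9 * X) ≤ 4 * L := by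
    rw [Real.log_mul (by norm_num) hXp.ne', ← hL]
    have : Real.log 9 ≤ 9 := by
      have := Real.log_le_sub_one_of_pos (by norm_num : (0 : ℝ) < 9)
      linarith
    linarith
  have hexp : θ / 2 ≤ 1 - Real.exp (-θ) := by
    have h1 := Real.abs_exp_sub_one_sub_id_le (x := -θ) (by rw [abs_neg, abs_of_pos hθ0]; linarith)
    rw [abs_le] at h1
    nlinarith [h1.2]
  have hexp0 : 0 < 1 - Real.exp (-θ) := by linarith
  have hsum : (1 - Real.exp (-θ)) * ∑ m ∈ Ioc X (2 * X), |Gh P R h m - h * sg P R| ≤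
      3 * h * X * c + (1 - Real.exp (-θ)) * (X * (R + 320 * θ * X * L ^ 2)) := by
    rw [mul_sum]
    calc ∑ m ∈ Ioc X (2 * X), (1 - Real.exp (-θ)) * |Gh P R h m - h * sg P R|
        ≤ ∑ m ∈ Ioc X (2 * X), (‖∫ x in Set.Ioc (m : ℝ) (m + h), FF P R N1 (4 * X) θ (-Real.log x)‖ +
            (1 - Real.exp (-θ)) * (R + 320 * θ * X * L ^ 2)) := by
          apply sum_le_sum
          intro m hm
          rw [mem_Ioc] at hm
          exact main_id (by omega) hN1 hR1n hm.1 hm.2 hhX hθ0 (by linarith) hL1 hlog9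
      _ = ∑ m ∈ Ioc X (2 * X), ‖∫ x in Set.Ioc (m : ℝ) (m + h), FF P R N1 (4 * X) θ (-Real.log x)‖ +
            X * ((1 - Real.exp (-θ)) * (R + 320 * θ * X * L ^ 2)) := by
          rw [sum_add_distrib, sum_const, Nat.card_Ioc, nsmul_eq_mul]
          congr 3
          have : 2 * X - X = X := by omega
          rw [this]
      _ ≤ 3 * h * X * c + X * ((1 - Real.exp (-θ)) * (R + 320 * θ * X * L ^ 2)) := by gcongr
      _ = _ := by ring
  have hfin : ∑ m ∈ Ioc X (2 * X), |Gh P R h m - h * sg P R| ≤ 6 * h * X / L ^ (K + 1) + X * (R + 320 * θ * X * L ^ 2) := by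
    have h1 : 3 * h * X * c ≤ (1 - Real.exp (-θ)) * (6 * h * X / L ^ (K + 1)) := by
      calc 3 * h * X * c = (θ / 2) * (6 * h * X / L ^ (K + 1)) := by rw [hc]; ring
        _ ≤ _ := by gcongr
    have h2 : (1 - Real.exp (-θ)) * ∑ m ∈ Ioc X (2 * X), |Gh P R h m - h * sg P R| ≤
        (1 - Real.exp (-θ)) * (6 * h * X / L ^ (K + 1) + X * (R + 320 * θ * X * L ^ 2)) := by
      rw [mul_add]
      linarith
    exact le_of_mul_le_mul_left h2 hexp0
  refine hfin.trans ?_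
  have hLKp : 0 < L ^ K := by positivity
  have h1 : 320 * θ * X * L ^ 2 = 320 * h / L ^ (K + 1) := by
    rw [hθ]
    field_simp
    ring
  have h2 : (R : ℝ) ≤ h / 2 / L ^ K := by
    rw [le_div_iff₀ hLKp, le_div_iff₀ (by norm_num)]
    calc (R : ℝ) * L ^ K * 2 = R * (2 * L ^ K) := by ring
      _ ≤ R * (X : ℝ) ^ η := by gcongr
      _ ≤ h := hRh
  have h3 : 326 * ((h : ℝ) * X) / L ^ (K + 1) ≤ (h : ℝ) * X / 2 / L ^ K := by
    rw [pow_succ, div_le_div_iff₀ (by positivity) hLKp]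
    have : 0 ≤ (h : ℝ) * X * L ^ K := by positivity
    nlinarith
  calc 6 * h * X / L ^ (K + 1) + X * (R + 320 * θ * X * L ^ 2)
      = 326 * ((h : ℝ) * X) / L ^ (K + 1) + X * R := by rw [h1]; ring
    _ ≤ (h : ℝ) * X / 2 / L ^ K + X * (h / 2 / L ^ K) := by gcongr
    _ = X * h / L ^ K := by ring

end Pool.Agent.Helper34.EK
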