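import Mathlib
import Pool.Agent.Helper34.EK.V5
import Pool.Agent.Helper34.EK.W1

set_option autoImplicit false

/-! The products `q a p` in windows of length `√Y`. -/

namespace Pool.Agent.Helper34.EK
open Finset Filter

theorem w (hV' : S_V') : S_W := by
  intro ε δ hε hδ K
  obtain ⟨M₁, hM₁⟩ := hV' δ (ε / 2) hδ (half_pos hε) (2 * (K + 3))
  have hev : ∀ᶠ Y : ℕ in atTop, (16 ≤ Y) ∧ (2 ≤ Real.log Y) ∧ ((M₁ : ℝ) ≤ (Y : ℝ) ^ (1 / 2 : ℝ)) ∧
      (2 ≤ (Y : ℝ) ^ (ε / 2)) ∧ (10 ≤ (Y : ℝ) ^ (1 / 4 : ℝ)) ∧ (960 * 2 ^ (K + 3) ≤ Real.log Y) ∧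
      (216 * Real.log Y ^ (K + 3) ≤ (Y : ℝ) ^ (ε / 2)) := by
    filter_upwards [eventually_ge_atTop 16, ev_log_ge 2, ev_rpow_ge (M₁ : ℝ) (by norm_num : (0 : ℝ) < 1 / 2),
      ev_rpow_ge 2 (half_pos hε), ev_rpow_ge 10 (by norm_num : (0 : ℝ) < 1 / 4), ev_log_ge (960 * 2 ^ (K + 3)),
      ev_log_pow (K + 3) 216 (half_pos hε)] with Y h1 h2 h3 h4 h5 h6 h7
    exact ⟨h1, h2, h3, h4, h5, h6, h7⟩
  obtain ⟨Y₀, hY₀⟩ := eventually_atTop.1 hev
  refine ⟨Y₀, ?_⟩
  intro Y hY H Q₀ Q₁ P R s hs hsQ hYs hQ01 hP hPR hQR h2H W hW hsep hc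
  obtain ⟨e1, e2, e3, e4, e5, e6, e7⟩ := hY₀ Y hY
  obtain ⟨L, hL⟩ : ∃ L, L = Real.log Y := ⟨_, rfl⟩
  rw [← hL] at e2 e6 e7 ⊢
  have hY0 : (16 : ℝ) ≤ Y := by exact_mod_cast e1
  have hYp : (0 : ℝ) < Y := by linarith
  have hL0 : 0 < L := by linarith
  have hL1 : 1 ≤ L := by linarith
  have hYδ : 1 ≤ (Y : ℝ) ^ δ := Real.one_le_rpow (by linarith) hδ.le
  have hP1 : (1 : ℝ) ≤ P := hYδ.trans hP
  have hR1 : (1 : ℝ) ≤ R := hP1.trans (by exact_mod_cast hPR)
  have hR1n : 1 ≤ R := by exact_mod_cast hR1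
  have hQ₀1 : 1 ≤ Q₀ := hs.trans hsQ
  have hQ₀r : (1 : ℝ) ≤ Q₀ := by exact_mod_cast hQ₀1
  have hQ01r : (Q₀ : ℝ) ≤ Q₁ := by exact_mod_cast hQ01
  have hQ₁r : (1 : ℝ) ≤ Q₁ := hQ₀r.trans hQ01r
  -- powers
  obtain ⟨v, hv⟩ : ∃ v : ℝ, v = (Y : ℝ) ^ (ε / 2) := ⟨_, rfl⟩
  rw [← hv] at e4 e7
  have hv0 : 0 < v := by linarith
  have hv2 : (Y : ℝ) ^ ε = v ^ 2 := by
    rw [hv, ← Real.rpow_natCast, ← Real.rpow_mul hYp.le]
    congr 1
    push_cast
    ring
  rw [hv2] at hQR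
  obtain ⟨w, hw⟩ : ∃ w : ℝ, w = (Y : ℝ) ^ (1 / 4 : ℝ) := ⟨_, rfl⟩
  rw [← hw] at e5
  have hw0 : 0 < w := by linarith
  have hw4 : w ^ 4 = Y := by
    rw [hw, ← Real.rpow_natCast, ← Real.rpow_mul hYp.le]
    norm_num
  have hw2 : (Y : ℝ) ^ (1 / 2 : ℝ) = w ^ 2 := by
    rw [hw, ← Real.rpow_natCast, ← Real.rpow_mul hYp.le]
    norm_num
  rw [hw2] at e3
  -- sizes of `H` and `Q`
  have hHr : 2 * (H : ℝ) ^ 2 ≤ Y := by exact_mod_cast h2H
  have hHw : (H : ℝ) ≤ w ^ 2 := by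
    have h1 : (H : ℝ) ^ 2 ≤ (w ^ 2) ^ 2 := by
      rw [← pow_mul]
      norm_num
      rw [hw4]
      nlinarith [sq_nonneg (H : ℝ)]
    exact le_of_sq_le_sq h1 (by positivity)
  have hQRv : (Q₁ : ℝ) ≤ H := by
    refine le_trans ?_ hQR
    have : 1 ≤ (R : ℝ) * v ^ 2 := by nlinarith
    nlinarith
  have hH1 : (1 : ℝ) ≤ H := hQ₁r.trans hQRv
  have hQ₀w : w ≤ Q₀ := by
    have h1 : (Y : ℝ) ≤ s * H * Q₀ := by exact_mod_cast hYs
    have h2 : (s : ℝ) ≤ Q₀ := by exact_mod_cast hsQ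
    have h3 : (Y : ℝ) ≤ Q₀ * w ^ 2 * Q₀ := by
      refine h1.trans ?_
      gcongr
    have h4 : w ^ 2 * w ^ 2 ≤ w ^ 2 * (Q₀ : ℝ) ^ 2 := by
      calc w ^ 2 * w ^ 2 = Y := by rw [← hw4]; ring
        _ ≤ _ := by nlinarith
    have h5 : w ^ 2 ≤ (Q₀ : ℝ) ^ 2 := le_of_mul_le_mul_left h4 (by positivity)
    exact le_of_sq_le_sq h5 (by positivity)
  have hHY : H ≤ Y := by nlinarith
  have hHYr : (H : ℝ) ≤ Y := by exact_mod_cast hHY
  -- the short length
  obtain ⟨h, hh⟩ : ∃ h : ℕ, h = ⌈(R : ℝ) * v⌉₊ := ⟨_, rfl⟩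
  have hRv1 : 1 ≤ (R : ℝ) * v := by nlinarith
  have hh1 : (R : ℝ) * v ≤ h := by rw [hh]; exact Nat.le_ceil _
  have hh2 : (h : ℝ) ≤ 2 * (R * v) := by
    have : (h : ℝ) < R * v + 1 := by rw [hh]; exact Nat.ceil_lt_add_one (by positivity)
    linarith
  have hh1' : (1 : ℝ) ≤ h := hRv1.trans hh1
  have hh1n : 1 ≤ h := by exact_mod_cast hh1'
  have hhH : (Q₁ : ℝ) * h ≤ H := by
    refine le_trans ?_ hQR
    calc (Q₁ : ℝ) * h ≤ Q₁ * (2 * (R * v)) := by gcongr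
      _ = Q₁ * R * (2 * v) := by ring
      _ ≤ Q₁ * R * (v * v) := by gcongr
      _ = _ := by ring
  have hhH' : (Q₁ : ℝ) * h * v ≤ 2 * H := by
    calc (Q₁ : ℝ) * h * v ≤ Q₁ * (2 * (R * v)) * v := by gcongr
      _ = 2 * (Q₁ * R * v ^ 2) := by ring
      _ ≤ 2 * H := by gcongr
  have hhHn : h ≤ H := by
    have : (h : ℝ) ≤ H := by nlinarith
    exact_mod_cast this
  have hRh : (R : ℝ) ≤ h := by nlinarith
  have hRhn : R ≤ h := by exact_mod_cast hRh
  have hlog2 : Real.log ((2 * Y : ℕ) : ℝ) ≤ 2 * L := by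
    push_cast
    rw [Real.log_mul (by norm_num) hYp.ne', ← hL]
    have := Real.log_two_lt_d9
    linarith
  have hsgL : sg P R ≤ 2 * L := by
    have h1 := sg_le P R
    have h2 : Real.log R ≤ L := by
      rw [hL]
      apply Real.log_le_log (by linarith)
      exact_mod_cast (by omega : R ≤ Y)
    linarith
  -- one block
  obtain ⟨BD, hBD⟩ : ∃ BD : ℝ, BD = (s : ℝ) ^ 2 * (160 * L * (2 ^ (K + 3) / L ^ (K + 3)) * H + 36 * L ^ 2 * H / v) := ⟨_, rfl⟩
  have hBD0 : 0 ≤ BD := by rw [hBD]; positivity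
  have block : ∀ X : ℕ, Q₀ ≤ X → X ≤ Q₁ → ∑ y ∈ W, ∑ q ∈ Ioc X (2 * X), Er P R y H q ≤ BD := by
    intro X hX1 hX2
    have hXr1 : (Q₀ : ℝ) ≤ X := by exact_mod_cast hX1
    have hXr2 : (X : ℝ) ≤ Q₁ := by exact_mod_cast hX2
    have hX0 : (0 : ℝ) < X := by linarith
    have hXH : (X : ℝ) ≤ H := hXr2.trans hQRv
    have hX10 : (10 : ℝ) ≤ X := by linarith
    have hX10n : 10 ≤ X := by exact_mod_cast hX10
    obtain ⟨M, hM⟩ : ∃ M : ℕ, M = 10 * Y / X := ⟨_, rfl⟩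
    have hMX : (M : ℝ) * X ≤ 10 * Y := by
      have := Nat.div_mul_le_self (10 * Y) X
      rw [← hM] at this
      exact_mod_cast this
    have hMX2 : 10 * (Y : ℝ) < X * (M + 1) := by
      have := Nat.lt_mul_div_succ (10 * Y) (by omega : 0 < X)
      rw [← hM] at this
      exact_mod_cast this
    have hMY : M ≤ Y := by
      rw [hM]
      calc 10 * Y / X ≤ 10 * Y / 10 := Nat.div_le_div_left hX10n (by norm_num)
        _ = Y := by omega
    have hMYr : (M : ℝ) ≤ Y := by exact_mod_cast hMY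
    have hXY : (X : ℝ) ≤ Y := hXH.trans hHYr
    have hM9 : 9 * (Y : ℝ) ≤ X * M := by nlinarith
    have hMw : w ^ 2 ≤ M := by
      have h1 : (X : ℝ) * w ^ 2 ≤ (X : ℝ) * (M : ℝ) := by
        calc (X : ℝ) * w ^ 2 ≤ w ^ 2 * w ^ 2 := by
              gcongr
              exact hXH.trans hHw
          _ = (Y : ℝ) := by rw [← hw4]; ring
          _ ≤ 9 * (Y : ℝ) := by linarith
          _ ≤ _ := hM9
      exact le_of_mul_le_mul_left h1 hX0
    have hM0 : (0 : ℝ) < M := lt_of_lt_of_le (by positivity) hMw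
    have hlM : L / 2 ≤ Real.log M := by
      have a1 : Real.log (w ^ 2) ≤ Real.log M := Real.log_le_log (by positivity) hMw
      have a2 : Real.log (w ^ 4) = L := by rw [hw4, hL]
      rw [Real.log_pow] at a1 a2
      push_cast at a1 a2
      linarith
    have hhM : h ^ 2 ≤ M := by
      have h1 : (h : ℝ) ^ 2 ≤ M := by
        have a1 : (X : ℝ) * h ≤ H := by
          refine le_trans ?_ hhH
          gcongr
        have a2 : ((X : ℝ) * h) ^ 2 ≤ (H : ℝ) ^ 2 := pow_le_pow_left₀ (by positivity) a1 2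
        have a3 : (X : ℝ) ^ 2 * (h : ℝ) ^ 2 ≤ X ^ 2 * M := by
          calc (X : ℝ) ^ 2 * (h : ℝ) ^ 2 = (X * h) ^ 2 := by ring
            _ ≤ (H : ℝ) ^ 2 := a2
            _ ≤ Y := by nlinarith [sq_nonneg (H : ℝ)]
            _ ≤ X * M := by linarith
            _ ≤ X ^ 2 * M := by
                have : (X : ℝ) ≤ X ^ 2 := by nlinarith
                gcongr
        exact le_of_mul_le_mul_left a3 (by positivity)
      exact_mod_cast h1
    have hVM := hM₁ M (by exact_mod_cast e3.trans hMw) h P R ((Real.rpow_le_rpow hM0.le hMYr hδ.le).trans hP) hPR (by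
      refine le_trans ?_ hh1
      rw [hv]
      have := Real.rpow_le_rpow hM0.le hMYr (half_pos hε).le
      gcongr) hhM
    obtain ⟨V, hV⟩ : ∃ V : ℝ, V = (2 ^ (K + 3) / L ^ (K + 3)) ^ 2 := ⟨_, rfl⟩
    have hS : ∑ m ∈ Ioc 0 M, |Gh P R h m - h * sg P R| ≤ M * h * V := by
      refine hVM.trans ?_
      have a1 : (L / 2) ^ (2 * (K + 3)) ≤ Real.log M ^ (2 * (K + 3)) := pow_le_pow_left₀ (by positivity) hlM _
      have a2 : (M : ℝ) * h * V = M * h / (L / 2) ^ (2 * (K + 3)) := by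
        rw [hV, div_pow, div_pow, ← pow_mul, ← pow_mul]
        have e : (K + 3) * 2 = 2 * (K + 3) := by ring
        rw [e]
        field_simp
      rw [a2]
      apply div_le_div_of_nonneg_left (by positivity) (by positivity) a1
    have hφ : ∀ m ∈ Ioc 0 M, |Gh P R h m - h * sg P R| ≤ h * (10 * L ^ 2) := by
      intro m hm
      rw [mem_Ioc] at hm
      exact triv_dev (N := 2 * Y) (by omega) (by omega) hR1n hL1 hlog2
    have hMc : (9 * Y + H) / X ≤ M := by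
      rw [hM]
      apply Nat.div_le_div_right
      omega
    have key := blockE (W := W) (Y := Y) (H := H) (Q := X) (s := s) (M := M) (h := h) (P := P) (R := R) (by omega)
      (by exact_mod_cast hXH) h2H hs (hsQ.trans hX1) (hYs.trans (Nat.mul_le_mul_left _ hX1)) hW hsep hc hMc
      (by positivity : 0 ≤ 10 * L ^ 2) hφ hS
    obtain ⟨S, hSd⟩ : ∃ S : ℝ, S = ∑ y ∈ W, ∑ q ∈ Ioc X (2 * X), ∑ m ∈ Ioc (y / q) ((y + H) / q), |Gh P R h m - h * sg P R| :=
      ⟨_, rfl⟩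
    rw [← hSd] at key
    have hS0 : 0 ≤ S := by
      rw [hSd]
      exact sum_nonneg fun _ _ => sum_nonneg fun _ _ => sum_nonneg fun _ _ => abs_nonneg _
    have hSle : S ≤ h * (s : ℝ) ^ 2 * H * (160 * L * (2 ^ (K + 3) / L ^ (K + 3))) := by
      apply le_of_sq_le_sq _ (by positivity)
      refine key.trans ?_
      have hHX : (0 : ℝ) < H := by linarith
      calc h * (10 * L ^ 2) * (M * h * V) * (2 * (H / X) * (123 * ((s : ℝ) ^ 4 * (H * X ^ 2 / Y))))
          = (M * X) * (2460 * L ^ 2 * V * h ^ 2 * s ^ 4 * H ^ 2) / Y := by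
            field_simp
            ring
        _ ≤ (10 * Y) * (2460 * L ^ 2 * V * h ^ 2 * s ^ 4 * H ^ 2) / Y := by
            have : 0 ≤ V := by rw [hV]; positivity
            gcongr
        _ = 24600 * (L ^ 2 * V * h ^ 2 * s ^ 4 * H ^ 2) := by
            field_simp
            ring
        _ ≤ 25600 * (L ^ 2 * V * h ^ 2 * s ^ 4 * H ^ 2) := by
            have : 0 ≤ L ^ 2 * V * (h : ℝ) ^ 2 * s ^ 4 * H ^ 2 := by
              rw [hV]; positivity
            linarith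
        _ = (h * (s : ℝ) ^ 2 * H * (160 * L * (2 ^ (K + 3) / L ^ (K + 3)))) ^ 2 := by
            rw [hV]
            ring
    -- from the means to the errors
    have hEr : ∀ y ∈ W, ∀ q ∈ Ioc X (2 * X), Er P R y H q ≤
        (1 / (h : ℝ)) * ∑ m ∈ Ioc (y / q) ((y + H) / q), |Gh P R h m - h * sg P R| + (2 * L + 16 * h * L ^ 2) := by
      intro y hy q hq
      rw [mem_Ioc] at hq
      have hyW := hW y hy
      have a1 := er_le (P := P) (R := R) (y := y) (H := H) (q := q) (h := h) (B := 8 * L ^ 2) (by omega) hh1n (by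
        intro m hm
        have b1 : m ≤ M := by
          refine hm.trans (le_trans ?_ hMc)
          refine (Nat.div_le_div_left (by omega : X ≤ q) (by omega)).trans ?_
          apply Nat.div_le_div_right
          omega
        have b2 := Gh_le P R (h := h) (m := m) (N := 2 * Y) (by omega)
        refine b2.trans ?_
        have b3 : 0 ≤ Real.log ((2 * Y : ℕ) : ℝ) := Real.log_natCast_nonneg _
        have b4 : 2 * Real.log ((2 * Y : ℕ) : ℝ) ^ 2 ≤ 8 * L ^ 2 := by nlinarith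
        gcongr)
      refine a1.trans ?_
      linarith
    calc ∑ y ∈ W, ∑ q ∈ Ioc X (2 * X), Er P R y H q
        ≤ ∑ y ∈ W, ∑ q ∈ Ioc X (2 * X), ((1 / (h : ℝ)) * ∑ m ∈ Ioc (y / q) ((y + H) / q), |Gh P R h m - h * sg P R| +
            (2 * L + 16 * h * L ^ 2)) := sum_le_sum fun y hy => sum_le_sum (hEr y hy)
      _ = (1 / (h : ℝ)) * S + (s : ℝ) ^ 2 * (X * (2 * L + 16 * h * L ^ 2)) := by
          have a1 : ∀ y ∈ W, ∑ q ∈ Ioc X (2 * X), ((1 / (h : ℝ)) * ∑ m ∈ Ioc (y / q) ((y + H) / q), |Gh P R h m - h * sg P R| +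
            (2 * L + 16 * h * L ^ 2)) = (1 / (h : ℝ)) * (∑ q ∈ Ioc X (2 * X), ∑ m ∈ Ioc (y / q) ((y + H) / q), |Gh P R h m - h * sg P R|) +
              X * (2 * L + 16 * h * L ^ 2) := by
            intro y _
            rw [sum_add_distrib, ← mul_sum, sum_const, Nat.card_Ioc, nsmul_eq_mul]
            have : 2 * X - X = X := by omega
            rw [this]
          rw [sum_congr rfl a1, sum_add_distrib, ← mul_sum, ← hSd, sum_const, hc, nsmul_eq_mul]
          push_cast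
          ring
      _ ≤ (1 / (h : ℝ)) * (h * (s : ℝ) ^ 2 * H * (160 * L * (2 ^ (K + 3) / L ^ (K + 3)))) +
            (s : ℝ) ^ 2 * (36 * L ^ 2 * H / v) := by
          have a1 : (X : ℝ) * (2 * L + 16 * h * L ^ 2) ≤ 36 * L ^ 2 * H / v := by
            rw [le_div_iff₀ hv0]
            have a2 : 2 * L + 16 * h * L ^ 2 ≤ 18 * h * L ^ 2 := by nlinarith
            calc (X : ℝ) * (2 * L + 16 * h * L ^ 2) * v ≤ Q₁ * (18 * h * L ^ 2) * v := by gcongr
              _ = 18 * L ^ 2 * (Q₁ * h * v) := by ring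
              _ ≤ 18 * L ^ 2 * (2 * H) := by gcongr
              _ = _ := by ring
          gcongr
      _ = BD := by
          rw [hBD]
          field_simp
  -- the sum over the blocks
  have claim : ∀ i : ℕ, ∀ Q' : ℕ, Q' ≤ 2 ^ i * Q₀ → Q' ≤ Q₁ → ∑ y ∈ W, ∑ q ∈ Ioc Q₀ Q', Er P R y H q ≤ i * BD := by
    intro i
    induction i with
    | zero =>
      intro Q' h1 _
      have : Ioc Q₀ Q' = ∅ := Ioc_eq_empty (by simp at h1; omega)
      rw [this]
      simp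
    | succ i ih =>
      intro Q' h1 h2
      by_cases hQ' : Q' ≤ Q₀
      · have : Ioc Q₀ Q' = ∅ := Ioc_eq_empty (by omega)
        rw [this]
        simp only [sum_empty, sum_const_zero]
        positivity
      push Not at hQ'
      obtain ⟨X, hX⟩ : ∃ X, X = max Q₀ ((Q' + 1) / 2) := ⟨_, rfl⟩
      have hX1 : Q₀ ≤ X := by rw [hX]; exact le_max_left _ _
      have hX2 : (Q' + 1) / 2 ≤ X := by rw [hX]; exact le_max_right _ _
      have hX3 : X ≤ Q' := by rw [hX]; exact max_le hQ'.le (by omega)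
      have hX4 : X ≤ 2 ^ i * Q₀ := by
        rw [hX]
        apply max_le
        · exact Nat.le_mul_of_pos_left _ (by positivity)
        · rw [pow_succ] at h1
          have : 2 ^ i * 2 * Q₀ = 2 * (2 ^ i * Q₀) := by ring
          omega
      have b1 := ih X hX4 (hX3.trans h2)
      have b2 := block X hX1 (hX3.trans h2)
      have b3 : ∀ y ∈ W, ∑ q ∈ Ioc Q₀ Q', Er P R y H q ≤ ∑ q ∈ Ioc Q₀ X, Er P R y H q + ∑ q ∈ Ioc X (2 * X), Er P R y H q := by
        intro y _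
        have c1 : Ioc Q₀ Q' ⊆ Ioc Q₀ X ∪ Ioc X (2 * X) := by
          intro x hx
          rw [mem_union, mem_Ioc, mem_Ioc]
          rw [mem_Ioc] at hx
          omega
        have c2 : Disjoint (Ioc Q₀ X) (Ioc X (2 * X)) := by
          rw [disjoint_left]
          intro x hx hx'
          rw [mem_Ioc] at hx hx'
          omega
        rw [← sum_union c2]
        exact sum_le_sum_of_subset_of_nonneg c1 fun _ _ _ => abs_nonneg _
      refine (sum_le_sum b3).trans ?_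
      rw [sum_add_distrib]
      push_cast
      linarith
  have hi := claim (Nat.log 2 Q₁ + 1) Q₁ (by
    have h1 : Q₁ < 2 ^ (Nat.log 2 Q₁ + 1) := Nat.lt_pow_succ_log_self (by norm_num) Q₁
    calc Q₁ ≤ 2 ^ (Nat.log 2 Q₁ + 1) * 1 := by omega
      _ ≤ _ := Nat.mul_le_mul_left _ hQ₀1) le_rfl
  refine hi.trans ?_
  have hi3 : ((Nat.log 2 Q₁ + 1 : ℕ) : ℝ) ≤ 3 * L := by
    have h1 : 2 ^ (Nat.log 2 Q₁) ≤ Q₁ := Nat.pow_log_le_self 2 (by omega)
    have h2 : (2 : ℝ) ^ (Nat.log 2 Q₁) ≤ Q₁ := by exact_mod_cast h1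
    have h3 : Real.log ((2 : ℝ) ^ (Nat.log 2 Q₁)) ≤ Real.log Q₁ := Real.log_le_log (by positivity) h2
    rw [Real.log_pow] at h3
    have h4 : Real.log Q₁ ≤ L := by
      rw [hL]
      exact Real.log_le_log (by linarith) (hQRv.trans hHYr)
    have h5 := Real.log_two_gt_d9
    push_cast
    have h6 : (0 : ℝ) ≤ (Nat.log 2 Q₁ : ℝ) := Nat.cast_nonneg _
    nlinarith
  have hLK : 0 < L ^ K := by positivity
  have p1 : 3 * L * (160 * L * (2 ^ (K + 3) / L ^ (K + 3)) * H) ≤ H / 2 / L ^ K := by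
    rw [le_div_iff₀ hLK]
    calc 3 * L * (160 * L * (2 ^ (K + 3) / L ^ (K + 3)) * H) * L ^ K = (H / 2) * ((960 * 2 ^ (K + 3)) / L) := by
          field_simp
          ring
      _ ≤ (H / 2) * 1 := by
          gcongr
          rw [div_le_one hL0]
          exact e6
      _ = _ := mul_one _
  have p2 : 3 * L * (36 * L ^ 2 * H / v) ≤ H / 2 / L ^ K := by
    rw [le_div_iff₀ hLK]
    calc 3 * L * (36 * L ^ 2 * H / v) * L ^ K = (H / 2) * ((216 * L ^ (K + 3)) / v) := by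
          field_simp
          ring
      _ ≤ (H / 2) * 1 := by
          gcongr
          rw [div_le_one hv0]
          exact e7
      _ = _ := mul_one _
  calc ((Nat.log 2 Q₁ + 1 : ℕ) : ℝ) * BD ≤ 3 * L * BD := by gcongr
    _ = (s : ℝ) ^ 2 * (3 * L * (160 * L * (2 ^ (K + 3) / L ^ (K + 3)) * H) + 3 * L * (36 * L ^ 2 * H / v)) := by
        rw [hBD]; ring
    _ ≤ (s : ℝ) ^ 2 * (H / 2 / L ^ K + H / 2 / L ^ K) := by gcongr
    _ = _ := by ring

end Pool.Agent.Helper34.EK
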